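import Mathlib

/-!
TIGHT, combinatorics (2): a path with few crossings of slabs can be cut into few pieces of small diameter.
-/

set_option autoImplicit false

namespace Tight

open Finset

/-- the sequence f, up to the index n, alternates m times between the values ≤ a and the values ≥ b,
and starts with a low value -/
def Alt {α : Type*} [LinearOrder α] (f : ℕ → α) (n : ℕ) (a b : α) (m : ℕ) : Prop :=
  ∃ i : ℕ → ℕ, (∀ k < m, i k < i (k + 1)) ∧ i m ≤ n ∧ ∀ k ≤ m, if Even k then f (i k) ≤ a else b ≤ f (i k)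

section Alt

variable {α : Type*} [LinearOrder α] {f : ℕ → α} {n n' : ℕ} {a b : α} {m m' : ℕ}

lemma Alt.mono_right (h : Alt f n a b m) (hn : n ≤ n') : Alt f n' a b m := by
  obtain ⟨i, h1, h2, h3⟩ := h
  exact ⟨i, h1, h2.trans hn, h3⟩

lemma Alt.mono (h : Alt f n a b m) (hm : m' ≤ m) : Alt f n a b m' := by
  obtain ⟨i, h1, h2, h3⟩ := h
  refine ⟨i, fun k hk => h1 k (by omega), le_trans ?_ h2, fun k hk => h3 k (by omega)⟩
  have : ∀ k, m' ≤ k → k ≤ m → i m' ≤ i k := by
    intro k hk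
    induction k, hk using Nat.le_induction with
    | base => intro _; exact le_rfl
    | succ k _ ih => intro hk'; exact (ih (by omega)).trans (h1 k (by omega)).le
  exact this m hm le_rfl

/-- extension by one more value -/
lemma Alt.extend (hab : a < b) (h : Alt f n a b m) {j : ℕ} (hj : n ≤ j)
    (hv : if Even (m + 1) then f j ≤ a else b ≤ f j) : Alt f j a b (m + 1) := by
  obtain ⟨i, h1, h2, h3⟩ := h
  have hne : i m ≠ j := by
    intro he
    have h4 := h3 m le_rfl
    rw [he] at h4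
    by_cases hm : Even m
    · have : ¬ Even (m + 1) := by rw [Nat.even_add_one]; simpa using hm
      rw [if_pos hm] at h4
      rw [if_neg this] at hv
      exact absurd (hv.trans h4) (not_le.2 hab)
    · have : Even (m + 1) := Nat.even_add_one.2 hm
      rw [if_neg hm] at h4
      rw [if_pos this] at hv
      exact absurd (h4.trans hv) (not_le.2 hab)
  have hlt : i m < j := lt_of_le_of_ne (h2.trans hj) hne
  refine ⟨fun k => if k = m + 1 then j else i k, ?_, by simp, ?_⟩
  · intro k hk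
    have hk1 : k ≠ m + 1 := by omega
    simp only [if_neg hk1]
    by_cases hk2 : k = m
    · rw [if_pos (by omega), hk2]
      exact hlt
    · rw [if_neg (by omega)]
      exact h1 k (by omega)
  · intro k hk
    by_cases hk1 : k = m + 1
    · subst hk1
      simpa using hv
    · simp only [if_neg hk1]
      exact h3 k (by omega)

lemma Alt.zero {j : ℕ} (hj : f j ≤ a) : Alt f j a b 0 :=
  ⟨fun _ => j, fun k hk => absurd hk (by omega), le_rfl, fun k hk => by
    obtain rfl : k = 0 := by omega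
    simpa using hj⟩

/-- upcrossings by the pieces of a subdivision -/
lemma alt_of_up (hab : a < b) {t : ℕ → ℕ} (ht : Monotone t) (M : ℕ)
    (hJ : 0 < ((range M).filter (fun j => f (t j) ≤ a ∧ b ≤ f (t (j + 1)))).card) :
    Alt f (t M) a b (2 * ((range M).filter (fun j => f (t j) ≤ a ∧ b ≤ f (t (j + 1)))).card - 1) := by
  induction M with
  | zero => simp at hJ
  | succ M ih =>
    rw [range_add_one, filter_insert] at hJ ⊢
    by_cases hc : f (t M) ≤ a ∧ b ≤ f (t (M + 1))
    · rw [if_pos hc, card_insert_of_notMem (by simp)]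
      rcases Nat.eq_zero_or_pos ((range M).filter (fun j => f (t j) ≤ a ∧ b ≤ f (t (j + 1)))).card with h0 | h0
      · rw [h0]
        exact (Alt.zero hc.1 : Alt f (t M) a b 0).extend hab (ht (Nat.le_succ M)) (by simpa using hc.2)
      · have h1 := ih h0
        set J := ((range M).filter (fun j => f (t j) ≤ a ∧ b ≤ f (t (j + 1)))).card with hJd
        have h2 : Alt f (t M) a b (2 * J - 1 + 1) := by
          refine h1.extend hab le_rfl ?_
          have : Even (2 * J - 1 + 1) := ⟨J, by omega⟩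
          rw [if_pos this]
          exact hc.1
        have h3 : Alt f (t (M + 1)) a b (2 * J - 1 + 1 + 1) := by
          refine h2.extend hab (ht (Nat.le_succ M)) ?_
          have : ¬ Even (2 * J - 1 + 1 + 1) := by
            rw [Nat.not_even_iff_odd]
            exact ⟨J, by omega⟩
          rw [if_neg this]
          exact hc.2
        have h4 : 2 * J - 1 + 1 + 1 = 2 * (J + 1) - 1 := by omega
        rwa [h4] at h3
    · rw [if_neg hc] at hJ ⊢
      exact (ih hJ).mono_right (ht (Nat.le_succ M))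

/-- downcrossings by the pieces of a subdivision -/
lemma alt_of_down (hab : a < b) {t : ℕ → ℕ} (ht : Monotone t) (M : ℕ)
    (hJ : 0 < ((range M).filter (fun j => b ≤ f (t j) ∧ f (t (j + 1)) ≤ a)).card) :
    Alt f (t M) a b (2 * ((range M).filter (fun j => b ≤ f (t j) ∧ f (t (j + 1)) ≤ a)).card - 2) := by
  induction M with
  | zero => simp at hJ
  | succ M ih =>
    rw [range_add_one, filter_insert] at hJ ⊢
    by_cases hc : b ≤ f (t M) ∧ f (t (M + 1)) ≤ a
    · rw [if_pos hc, card_insert_of_notMem (by simp)]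
      rcases Nat.eq_zero_or_pos ((range M).filter (fun j => b ≤ f (t j) ∧ f (t (j + 1)) ≤ a)).card with h0 | h0
      · rw [h0]
        exact Alt.zero hc.2
      · have h1 := ih h0
        set J := ((range M).filter (fun j => b ≤ f (t j) ∧ f (t (j + 1)) ≤ a)).card with hJd
        have h2 : Alt f (t M) a b (2 * J - 2 + 1) := by
          refine h1.extend hab le_rfl ?_
          have : ¬ Even (2 * J - 2 + 1) := by
            rw [Nat.not_even_iff_odd]
            exact ⟨J - 1, by omega⟩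
          rw [if_neg this]
          exact hc.1
        have h3 : Alt f (t (M + 1)) a b (2 * J - 2 + 1 + 1) := by
          refine h2.extend hab (ht (Nat.le_succ M)) ?_
          have : Even (2 * J - 2 + 1 + 1) := ⟨J, by omega⟩
          rw [if_pos this]
          exact hc.2
        have h4 : 2 * J - 2 + 1 + 1 = 2 * (J + 1) - 2 := by omega
        rwa [h4] at h3
    · rw [if_neg hc] at hJ ⊢
      exact (ih hJ).mono_right (ht (Nat.le_succ M))

/-- a subdivision has at most m pieces that cross the slab [a, b] if the sequence does not alternate m times -/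
lemma card_cross_le (hab : a < b) {t : ℕ → ℕ} (ht : Monotone t) (M : ℕ) (htn : t M ≤ n)
    (hA : ¬ Alt f n a b m) :
    ((range M).filter (fun j => (f (t j) ≤ a ∧ b ≤ f (t (j + 1))) ∨ (b ≤ f (t j) ∧ f (t (j + 1)) ≤ a))).card
      ≤ m := by
  rw [filter_or]
  refine (card_union_le _ _).trans ?_
  set J := ((range M).filter (fun j => f (t j) ≤ a ∧ b ≤ f (t (j + 1)))).card with hJ
  set J' := ((range M).filter (fun j => b ≤ f (t j) ∧ f (t (j + 1)) ≤ a)).card with hJ'
  have h1 : 2 * J ≤ m := by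
    by_contra hc
    have h0 : 0 < J := by omega
    exact hA (((alt_of_up hab ht M h0).mono_right htn).mono (by omega))
  have h2 : 2 * J' ≤ m + 1 := by
    by_contra hc
    have h0 : 0 < J' := by omega
    exact hA (((alt_of_down hab ht M h0).mono_right htn).mono (by omega))
  omega

end Alt

/-- an interval of length at least 2 r contains a slab [k r, (k + 1) r] -/
lemma exists_slab {r x y : ℝ} {Q : ℕ} (hr : 0 < r) (hxy : 2 * r ≤ y - x) (hx : -(Q * r) ≤ x) (hy : y ≤ Q * r) :
    ∃ k : ℤ, k ∈ Finset.Ico (-(Q : ℤ)) Q ∧ x ≤ k * r ∧ (k + 1) * r ≤ y := by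
  refine ⟨⌈x / r⌉, ?_, ?_, ?_⟩
  · have h1 : (⌈x / r⌉ : ℝ) < x / r + 1 := Int.ceil_lt_add_one _
    have h2 : x / r + 1 ≤ (Q : ℝ) - 1 := by
      rw [← sub_nonneg]
      have : (Q : ℝ) - 1 - (x / r + 1) = (Q * r - 2 * r - x) / r := by field_simp; ring
      rw [this]
      exact div_nonneg (by linarith) hr.le
    have h3 : -(Q : ℝ) ≤ x / r := by
      rw [le_div_iff₀ hr]
      linarith
    have h4 : -(Q : ℤ) ≤ ⌈x / r⌉ := by
      have h5 : ((-(Q : ℤ) : ℤ) : ℝ) ≤ (⌈x / r⌉ : ℝ) := by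
        push_cast
        exact h3.trans (Int.le_ceil _)
      exact_mod_cast h5
    have h6 : ⌈x / r⌉ < (Q : ℤ) := by
      have h7 : (⌈x / r⌉ : ℝ) < ((Q : ℤ) : ℝ) := by
        push_cast
        linarith
      exact_mod_cast h7
    exact Finset.mem_Ico.2 ⟨h4, h6⟩
  · have := Int.le_ceil (x / r)
    rwa [div_le_iff₀ hr] at this
  · have h1 : (⌈x / r⌉ : ℝ) < x / r + 1 := Int.ceil_lt_add_one _
    have h2 : ((⌈x / r⌉ : ℝ) + 1) * r ≤ (x / r + 2) * r := mul_le_mul_of_nonneg_right (by linarith) hr.le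
    have h3 : (x / r + 2) * r = x + 2 * r := by field_simp
    linarith

open Classical in
/-- the greedy subdivision: the next time at which the distance to the present point is at least ρ (or n) -/
noncomputable def gr {X : Type*} [PseudoMetricSpace X] (z : ℕ → X) (n : ℕ) (ρ : ℝ) : ℕ → ℕ
  | 0 => 0
  | j + 1 => if h : ∃ i, gr z n ρ j < i ∧ i ≤ n ∧ ρ ≤ dist (z (gr z n ρ j)) (z i) then Nat.find h else n

section Greedy

variable {X : Type*} [PseudoMetricSpace X] {z : ℕ → X} {n : ℕ} {ρ η : ℝ}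

lemma gr_succ_pos {j : ℕ} (h : ∃ i, gr z n ρ j < i ∧ i ≤ n ∧ ρ ≤ dist (z (gr z n ρ j)) (z i)) :
    gr z n ρ j < gr z n ρ (j + 1) ∧ gr z n ρ (j + 1) ≤ n ∧ ρ ≤ dist (z (gr z n ρ j)) (z (gr z n ρ (j + 1))) ∧
      ∀ i, gr z n ρ j < i → i < gr z n ρ (j + 1) → dist (z (gr z n ρ j)) (z i) < ρ := by
  classical
  have h1 : gr z n ρ (j + 1) = Nat.find h := by
    conv_lhs => rw [gr]
    rw [dif_pos h]
  have h2 := Nat.find_spec h
  rw [h1]
  refine ⟨h2.1, h2.2.1, h2.2.2, fun i hi hi' => ?_⟩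
  have h3 := Nat.find_min h hi'
  by_contra hc
  exact h3 ⟨hi, by omega, not_lt.1 hc⟩

lemma gr_succ_neg {j : ℕ} (h : ¬ ∃ i, gr z n ρ j < i ∧ i ≤ n ∧ ρ ≤ dist (z (gr z n ρ j)) (z i)) :
    gr z n ρ (j + 1) = n := by
  rw [gr, dif_neg h]

lemma gr_le (j : ℕ) : gr z n ρ j ≤ n := by
  induction j with
  | zero => simp [gr]
  | succ j _ =>
    by_cases h : ∃ i, gr z n ρ j < i ∧ i ≤ n ∧ ρ ≤ dist (z (gr z n ρ j)) (z i)
    · exact (gr_succ_pos h).2.1
    · rw [gr_succ_neg h]

lemma gr_mono : Monotone (gr z n ρ) := by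
  refine monotone_nat_of_le_succ fun j => ?_
  by_cases h : ∃ i, gr z n ρ j < i ∧ i ≤ n ∧ ρ ≤ dist (z (gr z n ρ j)) (z i)
  · exact (gr_succ_pos h).1.le
  · rw [gr_succ_neg h]
    exact gr_le j

/-- the pieces of the greedy subdivision are small -/
lemma gr_diam (hρ : 0 ≤ ρ) (hη : 0 ≤ η) (hz : ∀ i < n, dist (z i) (z (i + 1)) ≤ η) (j : ℕ) {i : ℕ}
    (hi : gr z n ρ j ≤ i) (hi' : i ≤ gr z n ρ (j + 1)) : dist (z (gr z n ρ j)) (z i) ≤ ρ + η := by
  rcases hi.eq_or_lt with he | hlt
  · rw [← he, dist_self]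
    positivity
  by_cases h : ∃ i, gr z n ρ j < i ∧ i ≤ n ∧ ρ ≤ dist (z (gr z n ρ j)) (z i)
  · obtain ⟨h1, h2, h3, h4⟩ := gr_succ_pos h
    rcases hi'.eq_or_lt with he' | hlt'
    · have h5 : dist (z (gr z n ρ j)) (z (i - 1)) ≤ ρ := by
        by_cases h6 : gr z n ρ j < i - 1
        · exact (h4 (i - 1) h6 (by omega)).le
        · have : gr z n ρ j = i - 1 := by omega
          rw [this, dist_self]
          exact hρ
      have h6 : dist (z (i - 1)) (z i) ≤ η := by
        have := hz (i - 1) (by omega)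
        rwa [show i - 1 + 1 = i by omega] at this
      exact (dist_triangle _ (z (i - 1)) _).trans (add_le_add h5 h6)
    · have := h4 i hlt hlt'
      linarith
  · have h1 := gr_succ_neg h
    have h2 : i ≤ n := by rw [← h1]; exact hi'
    by_contra hc
    exact h ⟨i, hlt, h2, by linarith [not_le.1 hc]⟩

end Greedy

/-- TORTUOSITY: if the functionals g s separate points at distance ≥ ρ by 2 r, are bounded by Q r along the path,
and no slab [k r, (k + 1) r] is crossed m times, then the path can be cut into 2 d Q m + 1 pieces of diameter at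
most 2 (ρ + η). -/
theorem tortuosity {X : Type*} [PseudoMetricSpace X] {d : ℕ} (z : ℕ → X) (g : Fin d → ℕ → ℝ) {n m Q : ℕ}
    {ρ η r : ℝ} (hρ : 0 ≤ ρ) (hη : 0 ≤ η) (hr : 0 < r)
    (hz : ∀ i < n, dist (z i) (z (i + 1)) ≤ η)
    (hsep : ∀ i j, i ≤ n → j ≤ n → ρ ≤ dist (z i) (z j) → ∃ s, 2 * r ≤ |g s i - g s j|)
    (hbd : ∀ s, ∀ i ≤ n, |g s i| ≤ Q * r)
    (hcr : ∀ s, ∀ k : ℤ, k ∈ Finset.Ico (-(Q : ℤ)) Q → ¬ Alt (g s) n (k * r) ((k + 1) * r) m) :
    ∃ t : ℕ → ℕ, t 0 = 0 ∧ t (2 * d * Q * m + 1) = n ∧ Monotone t ∧ (∀ j, t j ≤ n) ∧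
      ∀ j, ∀ i i', t j ≤ i → i ≤ t (j + 1) → t j ≤ i' → i' ≤ t (j + 1) → dist (z i) (z i') ≤ 2 * (ρ + η) := by
  classical
  refine ⟨gr z n ρ, rfl, ?_, gr_mono, gr_le, ?_⟩
  · set t := gr z n ρ with ht
    set M := 2 * d * Q * m + 1 with hM
    by_contra hne
    have hall : ∀ j < M, ∃ i, t j < i ∧ i ≤ n ∧ ρ ≤ dist (z (t j)) (z i) := by
      intro j hj
      by_contra hc
      have h1 : t (j + 1) = n := gr_succ_neg hc
      have h2 : t (j + 1) ≤ t M := gr_mono (by omega)
      exact hne (le_antisymm (gr_le _) (h1 ▸ h2))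
    have hcov : range M ⊆ ((univ : Finset (Fin d)) ×ˢ Finset.Ico (-(Q : ℤ)) Q).biUnion (fun q =>
        (range M).filter (fun j => (g q.1 (t j) ≤ q.2 * r ∧ (q.2 + 1) * r ≤ g q.1 (t (j + 1))) ∨
          ((q.2 + 1) * r ≤ g q.1 (t j) ∧ g q.1 (t (j + 1)) ≤ q.2 * r))) := by
      intro j hj
      obtain ⟨h1, h2, h3, h4⟩ := gr_succ_pos (hall j (Finset.mem_range.1 hj))
      obtain ⟨s, hs⟩ := hsep (t j) (t (j + 1)) (gr_le _) h2 h3
      have b1 := abs_le.1 (hbd s (t j) (gr_le _))
      have b2 := abs_le.1 (hbd s (t (j + 1)) (gr_le _))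
      rw [mem_biUnion]
      rcases le_abs.1 hs with h | h
      · obtain ⟨k, hk, hk1, hk2⟩ := exists_slab hr h b2.1 b1.2
        exact ⟨(s, k), by simp [mem_product, Finset.mem_Ico.1 hk], by
          rw [mem_filter]
          exact ⟨hj, Or.inr ⟨hk2, hk1⟩⟩⟩
      · rw [neg_sub] at h
        obtain ⟨k, hk, hk1, hk2⟩ := exists_slab hr h b1.1 b2.2
        exact ⟨(s, k), by simp [mem_product, Finset.mem_Ico.1 hk], by
          rw [mem_filter]
          exact ⟨hj, Or.inl ⟨hk1, hk2⟩⟩⟩
    have hcard := card_le_card hcov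
    rw [card_range] at hcard
    have h5 := hcard.trans card_biUnion_le
    have h6 : ∑ q ∈ (univ : Finset (Fin d)) ×ˢ Finset.Ico (-(Q : ℤ)) Q,
        ((range M).filter (fun j => (g q.1 (t j) ≤ q.2 * r ∧ (q.2 + 1) * r ≤ g q.1 (t (j + 1))) ∨
          ((q.2 + 1) * r ≤ g q.1 (t j) ∧ g q.1 (t (j + 1)) ≤ q.2 * r))).card ≤
        ∑ _q ∈ (univ : Finset (Fin d)) ×ˢ Finset.Ico (-(Q : ℤ)) Q, m := by
      refine sum_le_sum fun q hq => ?_
      rw [mem_product] at hq
      refine card_cross_le ?_ gr_mono M (gr_le _) (hcr q.1 q.2 hq.2)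
      nlinarith
    rw [sum_const, card_product, card_univ, Fintype.card_fin, Int.card_Ico, smul_eq_mul] at h6
    have h7 : ((Q : ℤ) - -(Q : ℤ)).toNat = 2 * Q := by omega
    rw [h7] at h6
    have h8 : d * (2 * Q) * m = 2 * d * Q * m := by ring
    omega
  · intro j i i' h1 h2 h3 h4
    have e1 := gr_diam hρ hη hz j h1 h2
    have e2 := gr_diam hρ hη hz j h3 h4
    calc dist (z i) (z i') ≤ dist (z i) (z (gr z n ρ j)) + dist (z (gr z n ρ j)) (z i') := dist_triangle _ _ _
      _ ≤ (ρ + η) + (ρ + η) := by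
          rw [dist_comm (z i)]
          exact add_le_add e1 e2
      _ = 2 * (ρ + η) := by ring

end Tight
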