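import Pool.Agent.PHW.Defs
import Pool.Agent.Tight.Tortuosity

/-!
TIGHT: definitions.
-/

set_option autoImplicit false

namespace HexObs

open Finset

open scoped ENNReal

/-- twice the inner product of the vertex number i with the direction of 30 degrees (upwards is 90 degrees) -/
def lev2 (t : List Bool) (i : ℕ) : ℤ := ip (vx oo up t i) (rotR up)

/-- the vertex number i as a point of the plane; upwards is the direction of the imaginary unit -/
noncomputable def zp (t : List Bool) (i : ℕ) : ℂ :=
  emb (vx oo up t i) * Complex.exp (((Real.pi / 6 : ℝ) : ℂ) * Complex.I)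

/-- the walk stays in the box of horizontal size B -/
def InBox (t : List Bool) (B : ℕ) : Prop := ∀ i ≤ t.length, |lat t i| ≤ B

/-- crossing estimate for the coordinate f: the number of alternations between the levels a and b of a bridge of
height at most K T in the box of size K T has an exponential tail, uniformly in T -/
def Star (f : List Bool → ℕ → ℤ) : Prop := ∃ C : ℝ, 1 ≤ C ∧ ∀ (K T m : ℕ) (a b : ℤ), 1 ≤ K → 1 ≤ T → a < b →
  ∑ T' ∈ range (K * T + 1), gf {g | g ∈ Brd T' ∧ InBox g (K * T) ∧ Tight.Alt (f g) g.length a b m} ≤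
   ENNReal.ofReal (UU T * (Real.exp (C * (K + (K * T : ℝ) / ((b : ℝ) - a)) ^ C) * (1 / 2) ^ m))

/-- lateral tail of the bridges -/
def LatTail : Prop := ∃ C c : ℝ, 0 < c ∧ ∀ T M : ℕ, 1 ≤ T →
  gf {g | g ∈ Brd T ∧ ¬ InBox g (M * T)} ≤ ENNReal.ofReal (C * Real.exp (-(c * M)) * uu T)

/-- the words of the half plane walk up to its first cut at or above T -/
def FCW (T : ℕ) : Set (List Bool) := {t | ∃ j, t ∈ FC T j}

end HexObs

namespace Tight

open Finset

/-- the polygonal curve through the points z 0, ..., z n, all edges in the same time 1/n -/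
noncomputable def poly (z : ℕ → ℂ) (n : ℕ) : C(unitInterval, ℂ) where
  toFun s := z 0 + ∑ i ∈ range n, ((max 0 (min 1 ((s : ℝ) * n - i)) : ℝ) : ℂ) * (z (i + 1) - z i)
  continuous_toFun := by fun_prop

end Tight
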