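import Pool.Agent.HexSPR.Final
import Pool.Agent.Tight.Defs

/-!
TIGHT: the lateral tail of the bridges (from part SPR).
-/

set_option autoImplicit false

namespace HexObs

open Finset ENNReal

theorem latTail : LatTail := by
  obtain ⟨C0, q, h0, hq, hq1, hL⟩ := Ex.latR
  refine ⟨C0, -Real.log q, ?_, fun T M hT => ?_⟩
  · have := Real.log_neg hq hq1
    linarith
  · have h1 : Real.exp (-(-Real.log q * M)) = q ^ M := by
      rw [neg_mul, neg_neg, mul_comm, Real.exp_nat_mul, Real.exp_log hq]
    rw [h1]
    refine le_trans (gf_mono ?_) (hL M T hT)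
    rintro t ⟨ht, h⟩
    refine ⟨ht, ?_⟩
    unfold InBox at h
    push Not at h
    obtain ⟨i, hi, h2⟩ := h
    exact ⟨i, hi, by push_cast at h2; exact_mod_cast h2⟩

end HexObs
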