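import Pool.Agent.Tight.Tortuosity

/-!
TIGHT, combinatorics (3a): the extreme points between the crossings of a slab, for integer sequences.
-/

set_option autoImplicit false

namespace Tight

/-- sign: -x for even k, x for odd k -/
def sg (k : ℕ) (x : ℤ) : ℤ := if Even k then -x else x

lemma sg_succ (k : ℕ) (x : ℤ) : sg (k + 1) x = -sg k x := by
  unfold sg
  by_cases h : Even k
  · rw [if_pos h, if_neg (by rw [Nat.even_add_one]; simpa using h), neg_neg]
  · rw [if_neg h, if_pos (Nat.even_add_one.2 h)]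

lemma sg_odd {k : ℕ} (h : ¬ Even k) (x : ℤ) : sg k x = x := if_neg h

lemma sg_even {k : ℕ} (h : Even k) (x : ℤ) : sg k x = -x := if_pos h

lemma sg_one (x : ℤ) : sg 1 x = x := if_neg (by decide)

lemma sg_zero (x : ℤ) : sg 0 x = -x := if_pos (by decide)

/-- the value f i is extreme at the stage k: at most a for even k, at least b for odd k -/
def Hi (f : ℕ → ℤ) (a b : ℤ) (k i : ℕ) : Prop := if Even k then f i ≤ a else b ≤ f i

lemma hi_iff {f : ℕ → ℤ} {a b : ℤ} {k i : ℕ} : Hi f a b k i ↔ (if Even k then -a else b) ≤ sg k (f i) := by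
  unfold Hi sg
  by_cases h : Even k
  · simp [h]
  · simp [h]

open Classical in
/-- the successive crossing times -/
noncomputable def tau (f : ℕ → ℤ) (n : ℕ) (a b : ℤ) : ℕ → ℕ
  | 0 => 0
  | k + 1 => if h : ∃ i, tau f n a b k < i ∧ i ≤ n ∧ Hi f a b (k + 1) i then Nat.find h else n

variable {f : ℕ → ℤ} {n m : ℕ} {a b : ℤ}

lemma tau_succ {k : ℕ} (h : ∃ i, tau f n a b k < i ∧ i ≤ n ∧ Hi f a b (k + 1) i) :
    tau f n a b k < tau f n a b (k + 1) ∧ tau f n a b (k + 1) ≤ n ∧ Hi f a b (k + 1) (tau f n a b (k + 1)) ∧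
      ∀ i, tau f n a b k < i → i < tau f n a b (k + 1) → ¬ Hi f a b (k + 1) i := by
  classical
  have h1 : tau f n a b (k + 1) = Nat.find h := by
    conv_lhs => rw [tau]
    rw [dif_pos h]
  have h2 := Nat.find_spec h
  rw [h1]
  refine ⟨h2.1, h2.2.1, h2.2.2, fun i hi hi' hc => ?_⟩
  exact Nat.find_min h hi' ⟨hi, by omega, hc⟩

/-- the crossing times exist as long as the sequence alternates -/
lemma tau_spec (h0 : f 0 ≤ a) (hA : Alt f n a b m) : ∀ k, k ≤ m →
    tau f n a b k ≤ n ∧ Hi f a b k (tau f n a b k) ∧ (k < m → ∃ i, tau f n a b k < i ∧ i ≤ n ∧ Hi f a b (k + 1) i) := by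
  obtain ⟨i, h1, h2, h3⟩ := hA
  have hmon : ∀ k, k ≤ m → i k ≤ n := by
    have : ∀ j, ∀ k, k + j = m → i k ≤ n := by
      intro j
      induction j with
      | zero => intro k hk; rw [show k = m by omega]; exact h2
      | succ j ih => intro k hk; exact (h1 k (by omega)).le.trans (ih (k + 1) (by omega))
    intro k hk
    exact this (m - k) k (by omega)
  have key : ∀ k, k ≤ m → tau f n a b k ≤ i k ∧ Hi f a b k (tau f n a b k) := by
    intro k
    induction k with
    | zero => intro _; exact ⟨Nat.zero_le _, by simpa [Hi, tau] using h0⟩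
    | succ k ih =>
      intro hk
      obtain ⟨e1, e2⟩ := ih (by omega)
      have hex : ∃ j, tau f n a b k < j ∧ j ≤ n ∧ Hi f a b (k + 1) j :=
        ⟨i (k + 1), lt_of_le_of_lt e1 (h1 k (by omega)), hmon (k + 1) hk, h3 (k + 1) hk⟩
      obtain ⟨c1, c2, c3, c4⟩ := tau_succ hex
      refine ⟨?_, c3⟩
      by_contra hc
      exact c4 (i (k + 1)) (lt_of_le_of_lt e1 (h1 k (by omega))) (not_le.1 hc) (h3 (k + 1) hk)
  intro k hk
  obtain ⟨e1, e2⟩ := key k hk
  exact ⟨e1.trans (hmon k hk), e2, fun hlt => ⟨i (k + 1), lt_of_le_of_lt e1 (h1 k hlt), hmon (k + 1) hlt,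
    h3 (k + 1) hlt⟩⟩

/-- conversely -/
lemma alt_of_tau (h0 : f 0 ≤ a) (hA : Alt f n a b m) {j : ℕ} (hj : tau f n a b m < j) (hjn : j ≤ n)
    (hH : Hi f a b (m + 1) j) : Alt f n a b (m + 1) := by
  have hs := tau_spec h0 hA
  refine ⟨fun k => if k = m + 1 then j else tau f n a b k, ?_, by simpa using hjn, ?_⟩
  · intro k hk
    have hk1 : k ≠ m + 1 := by omega
    simp only [if_neg hk1]
    by_cases hk2 : k = m
    · rw [if_pos (by omega), hk2]
      exact hj
    · rw [if_neg (by omega)]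
      exact (tau_succ ((hs k (by omega)).2.2 (by omega))).1
  · intro k hk
    by_cases hk1 : k = m + 1
    · subst hk1
      simp only [if_true]
      exact hH
    · simp only [if_neg hk1]
      exact (hs k (by omega)).2.1

/-- the last point of maximum on an interval -/
lemma last_argmax (g : ℕ → ℤ) {p q : ℕ} (hpq : p ≤ q) : ∃ e, p ≤ e ∧ e ≤ q ∧ (∀ i, p ≤ i → i ≤ q → g i ≤ g e) ∧
    ∀ i, e < i → i ≤ q → g i < g e := by
  induction q, hpq using Nat.le_induction with
  | base =>
    refine ⟨p, le_rfl, le_rfl, fun i h1 h2 => ?_, fun i h1 h2 => by omega⟩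
    rw [le_antisymm h2 h1]
  | succ q hq ih =>
    obtain ⟨e, h1, h2, h3, h4⟩ := ih
    rcases le_or_gt (g e) (g (q + 1)) with h | h
    · refine ⟨q + 1, by omega, le_rfl, fun i hi hi' => ?_, fun i hi hi' => by omega⟩
      rcases Nat.lt_or_ge i (q + 1) with h5 | h5
      · exact (h3 i hi (by omega)).trans h
      · rw [show i = q + 1 by omega]
    · refine ⟨e, h1, by omega, fun i hi hi' => ?_, fun i hi hi' => ?_⟩
      · rcases Nat.lt_or_ge i (q + 1) with h5 | h5
        · exact h3 i hi (by omega)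
        · rw [show i = q + 1 by omega]
          exact h.le
      · rcases Nat.lt_or_ge i (q + 1) with h5 | h5
        · exact h4 i hi (by omega)
        · rw [show i = q + 1 by omega]
          exact h

/-- EXTREMES: the sequence f alternates exactly m times across the slab [a, b]. There are extreme points e 1 < e 2 < …
< e (m - 1): e k is a last maximum (k odd) resp. minimum (k even) of f between e (k - 1) and the next crossing, so
that f stays between the values at e (k - 1) and e k on (e (k - 1), e k]. -/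
theorem extremes (hab : a < b) (h0 : f 0 ≤ a) (hA : Alt f n a b m) (hA' : ¬ Alt f n a b (m + 1)) :
    ∃ e : ℕ → ℕ, (∀ k, 1 ≤ k → k < m → e k < n ∧ Hi f a b k (e k)) ∧
      (∀ k, 1 ≤ k → k + 1 < m → e k < e (k + 1)) ∧
      (1 < m → ∀ i, i ≤ e 1 → f i ≤ f (e 1)) ∧
      (∀ k, 1 ≤ k → k + 1 < m → ∀ i, e k < i → i ≤ e (k + 1) →
        sg (k + 1) (f (e k)) < sg (k + 1) (f i) ∧ sg (k + 1) (f i) ≤ sg (k + 1) (f (e (k + 1)))) ∧
      (∀ k, 1 ≤ k → k + 1 = m → ∀ i, e k < i → i ≤ n → sg (k + 1) (f (e k)) < sg (k + 1) (f i)) := by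
  have hs := tau_spec h0 hA
  set t := tau f n a b with ht
  have hstep : ∀ k, k < m → t k < t (k + 1) ∧ t (k + 1) ≤ n ∧ Hi f a b (k + 1) (t (k + 1)) ∧
      ∀ i, t k < i → i < t (k + 1) → ¬ Hi f a b (k + 1) i := fun k hk => tau_succ ((hs k hk.le).2.2 hk)
  have hlast : ∀ i, t m < i → i ≤ n → ¬ Hi f a b (m + 1) i := fun i h1 h2 h3 => hA' (alt_of_tau h0 hA h1 h2 h3)
  -- extreme points
  have hex : ∀ k, ∃ e, k < m → t k ≤ e ∧ e ≤ t (k + 1) ∧
      (∀ i, t k ≤ i → i ≤ t (k + 1) → sg k (f i) ≤ sg k (f e)) ∧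
      ∀ i, e < i → i ≤ t (k + 1) → sg k (f i) < sg k (f e) := by
    intro k
    by_cases hk : k < m
    · obtain ⟨e, h1, h2, h3, h4⟩ := last_argmax (fun i => sg k (f i)) (hstep k hk).1.le
      exact ⟨e, fun _ => ⟨h1, h2, h3, h4⟩⟩
    · exact ⟨0, fun h => absurd h hk⟩
  choose e he using hex
  -- two opposite extreme values differ
  have hne : ∀ k i j, Hi f a b k i → Hi f a b (k + 1) j → sg k (f j) < sg k (f i) := by
    intro k i j h1 h2
    rw [hi_iff] at h1 h2
    rw [sg_succ] at h2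
    by_cases hk : Even k
    · have hk' : ¬ Even (k + 1) := by rw [Nat.even_add_one]; simpa using hk
      rw [if_pos hk] at h1
      rw [if_neg hk'] at h2
      omega
    · have hk' : Even (k + 1) := Nat.even_add_one.2 hk
      rw [if_neg hk] at h1
      rw [if_pos hk'] at h2
      omega
  have hper : ∀ k i, Hi f a b (k + 2) i ↔ Hi f a b k i := by
    intro k i
    unfold Hi
    have : Even (k + 2) ↔ Even k := by
      rw [show k + 2 = k + 1 + 1 from rfl, Nat.even_add_one, Nat.even_add_one, not_not]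
    simp only [this]
  have hHe : ∀ k, k < m → Hi f a b k (e k) := by
    intro k hk
    obtain ⟨h1, h2, h3, h4⟩ := he k hk
    rw [hi_iff]
    exact (hi_iff.1 (hs k hk.le).2.1).trans (h3 (t k) le_rfl (hstep k hk).1.le)
  have hlt : ∀ k, k < m → e k < t (k + 1) := by
    intro k hk
    obtain ⟨h1, h2, h3, h4⟩ := he k hk
    refine lt_of_le_of_ne h2 fun hc => ?_
    have := hne k (e k) (t (k + 1)) (hHe k hk) (hstep k hk).2.2.1
    rw [hc] at this
    exact lt_irrefl _ this
  have hnot : ∀ k i j, Hi f a b k j → ¬ Hi f a b k i → sg k (f i) < sg k (f j) := by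
    intro k i j h1 h2
    rw [hi_iff] at h1 h2
    exact lt_of_lt_of_le (not_le.1 h2) h1
  refine ⟨e, ?_, ?_, ?_, ?_, ?_⟩
  · intro k h1 h2
    exact ⟨lt_of_lt_of_le (hlt k h2) (hstep k h2).2.1, hHe k h2⟩
  · intro k h1 h2
    exact lt_of_lt_of_le (hlt k (by omega)) (he (k + 1) h2).1
  · intro hm i hi
    obtain ⟨h1, h2, h3, h4⟩ := he 1 hm
    rcases Nat.lt_or_ge i (t 1) with h5 | h5
    · rcases Nat.eq_zero_or_pos i with h6 | h6
      · have h7 := hne 0 0 (e 1) (by simpa [Hi] using h0) (hHe 1 hm)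
        rw [sg_zero, sg_zero] at h7
        rw [h6]
        omega
      · have h7 := hnot 1 i (e 1) (hHe 1 hm) ((hstep 0 (by omega)).2.2.2 i (by
          have : t 0 = 0 := by rw [ht]; rfl
          omega) h5)
        rw [sg_one, sg_one] at h7
        exact h7.le
    · have h6 := h3 i h5 (hi.trans h2)
      rwa [sg_one, sg_one] at h6
  · intro k h1 h2 i h3 h4
    obtain ⟨c1, c2, c3, c4⟩ := he k (by omega)
    obtain ⟨d1, d2, d3, d4⟩ := he (k + 1) h2
    constructor
    · rcases Nat.lt_or_ge (t (k + 1)) i with h5 | h5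
      · have h6 := (hstep (k + 1) h2).2.2.2 i h5 (lt_of_le_of_lt h4 (hlt (k + 1) h2))
        rw [show k + 1 + 1 = k + 2 from rfl, hper] at h6
        have h7 := hnot k i (e k) (hHe k (by omega)) h6
        rw [sg_succ, sg_succ]
        omega
      · have h6 := c4 i h3 h5
        rw [sg_succ, sg_succ]
        omega
    · rcases Nat.lt_or_ge i (t (k + 1)) with h5 | h5
      · exact (hnot (k + 1) i (e (k + 1)) (hHe (k + 1) h2)
          ((hstep k (by omega)).2.2.2 i (by omega) h5)).le
      · exact d3 i h5 (h4.trans d2)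
  · intro k h1 h2 i h3 h4
    obtain ⟨c1, c2, c3, c4⟩ := he k (by omega)
    rcases Nat.lt_or_ge (t (k + 1)) i with h5 | h5
    · have h6 := hlast i (by rw [← h2]; exact h5) h4
      rw [← h2, show k + 1 + 1 = k + 2 from rfl, hper] at h6
      have h7 := hnot k i (e k) (hHe k (by omega)) h6
      rw [sg_succ, sg_succ]
      omega
    · have h6 := c4 i h3 h5
      rw [sg_succ, sg_succ]
      omega

end Tight
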