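import Pool.Agent.PHW.TopA
import Pool.Agent.PHW.HangA
import Pool.Agent.Tight.Extremes

/-!
TIGHT part L: definitions for the decomposition of a bridge into leaves.
-/

set_option autoImplicit false

namespace HexObs

/-- the last letter -/
def lst (g : List Bool) : Bool := g.getLastD true

/-- horizontal step at the fold behind the leaf g -/
def tw (g : List Bool) : ℤ := if lst g then 1 else -1

/-- height of a bridge -/
def ht (g : List Bool) : ℤ := lev g g.length / 3

/-- the fold relation: the leaf g' starts (in the turned frame) at the odd vertex below the last vertex of g -/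
def LFold (g g' : List Bool) : Prop := Hang g (lst g) g'

/-- the word of a chain of leaves -/
def unf : List (List Bool) → List Bool
  | [] => []
  | [g] => g
  | g :: g' :: gs => g.dropLast ++ (!lst g) :: (!lst g) :: unf (g' :: gs)

/-- heights of the leaves of a chain: `LeafOK a b T true S gs`: the first leaf goes up and its foot vertex is on the
level 3 S; `LeafOK a b T false S gs`: the first leaf goes down, its foot vertex is on the level 3 S - 1. The top folds
are on levels 3 S', b ≤ S' ≤ T, the bottom folds on levels 3 S' - 1, 1 ≤ S' ≤ a, the last leaf ends on the level 3 T. -/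
def LeafOK (a b T : ℕ) : Bool → ℤ → List (List Bool) → Prop
  | _, _, [] => False
  | true, S, [g] => ∃ h : ℕ, g ∈ Brd h ∧ S + h = T
  | false, _, [_] => False
  | true, S, g :: g' :: gs => ∃ h : ℕ, g ∈ Brd h ∧ (b : ℤ) ≤ S + h ∧ S + h ≤ T ∧ LeafOK a b T false (S + h) (g' :: gs)
  | false, S, g :: g' :: gs => ∃ h : ℕ, g ∈ Brd h ∧ 1 ≤ S - h ∧ S - h ≤ (a : ℤ) ∧ LeafOK a b T true (S - h) (g' :: gs)

/-- the last vertex on a level at most l -/
def lastLe (g : List Bool) (l : ℤ) : ℕ := Nat.findGreatest (fun i => lev g i ≤ l) g.length

/-- the first vertex on a level at least l -/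
noncomputable def firstGe (g : List Bool) (l : ℤ) : ℕ := sInf {i | l ≤ lev g i}

/-- abscissae of the two ends of the arc over the line at level 3 c, for an up leaf g (foot vertex at abscissa X, level 3 S)
and the following down leaf g' -/
noncomputable def arc (c X S : ℤ) (g g' : List Bool) : ℤ × ℤ :=
  (X + lat g (lastLe g (3 * (c - S))), X + latE g + tw g - lat g' (firstGe g' (3 * (S + ht g - c) - 1)))

/-- the arcs over the line at level 3 c of a chain that starts with an up leaf -/
noncomputable def arcs (c : ℤ) : ℤ → ℤ → List (List Bool) → List (ℤ × ℤ)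
  | X, S, g :: g' :: gs => arc c X S g g' :: arcs c (X + latE g + tw g - latE g' - tw g') (S + ht g - ht g') gs
  | _, _, _ => []

/-- the pairs p, q interlace -/
def Inter (p q : ℤ × ℤ) : Prop := min p.1 p.2 < min q.1 q.2 ∧ min q.1 q.2 < max p.1 p.2 ∧ max p.1 p.2 < max q.1 q.2

end HexObs
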