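import Mathlib

/-!
TIGHT, combinatorics (1): non-crossing sets of block pairs, and the weighted count.
-/

set_option autoImplicit false

namespace Tight

open Finset

/-- a set of block pairs (i, j), i ≤ j, no two of which interlace -/
def NC {K : ℕ} (E : Finset (Fin K × Fin K)) : Prop :=
  (∀ p ∈ E, p.1 ≤ p.2) ∧ ∀ p ∈ E, ∀ q ∈ E, ¬ (p.1 < q.1 ∧ q.1 < p.2 ∧ p.2 < q.2)

lemma NC.subset {K : ℕ} {E F : Finset (Fin K × Fin K)} (h : NC F) (hEF : E ⊆ F) : NC E :=
  ⟨fun p hp => h.1 p (hEF hp), fun p hp q hq => h.2 p (hEF hp) q (hEF hq)⟩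

/-- a non-crossing set of pairs of K blocks has at most 3 K elements -/
theorem NC.card_le {K : ℕ} {E : Finset (Fin K × Fin K)} (h : NC E) : E.card ≤ 3 * K := by
  classical
  set A := E.filter (fun p => ∀ q ∈ E, q.1 = p.1 → q.2 ≤ p.2) with hA
  set B := E.filter (fun p => ∀ q ∈ E, q.2 = p.2 → p.1 ≤ q.1) with hB
  set L := E.filter (fun p => p.1 = p.2) with hL
  have hcov : E ⊆ (A ∪ B) ∪ L := by
    intro p hp
    by_contra hc
    simp only [hA, hB, hL, mem_union, mem_filter, not_or, not_and] at hc
    obtain ⟨⟨h1, h2⟩, h3⟩ := hc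
    have h1 := h1 hp
    have h2 := h2 hp
    have h3 := h3 hp
    push Not at h1 h2
    obtain ⟨q, hq, hq1, hq2⟩ := h1
    obtain ⟨r, hr, hr1, hr2⟩ := h2
    have h4 : p.1 < p.2 := lt_of_le_of_ne (h.1 p hp) h3
    exact h.2 r hr q hq ⟨by rw [hq1]; exact hr2, by rw [hq1, hr1]; exact h4, by rw [hr1]; exact hq2⟩
  have cA : A.card ≤ K := by
    have : A.card ≤ (univ : Finset (Fin K)).card := by
      refine card_le_card_of_injOn Prod.fst (fun _ _ => mem_univ _) ?_
      intro p hp q hq hpq
      have hp' := mem_filter.1 (Finset.mem_coe.1 hp)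
      have hq' := mem_filter.1 (Finset.mem_coe.1 hq)
      exact Prod.ext hpq (le_antisymm (hq'.2 p hp'.1 hpq) (hp'.2 q hq'.1 hpq.symm))
    simpa using this
  have cB : B.card ≤ K := by
    have : B.card ≤ (univ : Finset (Fin K)).card := by
      refine card_le_card_of_injOn Prod.snd (fun _ _ => mem_univ _) ?_
      intro p hp q hq hpq
      have hp' := mem_filter.1 (Finset.mem_coe.1 hp)
      have hq' := mem_filter.1 (Finset.mem_coe.1 hq)
      exact Prod.ext (le_antisymm (hp'.2 q hq'.1 hpq.symm) (hq'.2 p hp'.1 hpq)) hpq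
    simpa using this
  have cL : L.card ≤ K := by
    have : L.card ≤ (univ : Finset (Fin K)).card := by
      refine card_le_card_of_injOn Prod.fst (fun _ _ => mem_univ _) ?_
      intro p hp q hq hpq
      have hp' := mem_filter.1 (Finset.mem_coe.1 hp)
      have hq' := mem_filter.1 (Finset.mem_coe.1 hq)
      exact Prod.ext hpq (by rw [← hp'.2, ← hq'.2]; exact hpq)
    simpa using this
  have h1 := card_le_card hcov
  have h2 := card_union_le (A ∪ B) L
  have h3 := card_union_le A B
  omega

/-- the marks that a marking of the arcs uses -/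
def used {ι : Type*} [Fintype ι] {K : ℕ} (f : ι → Option (Fin K × Fin K)) : Finset (Fin K × Fin K) :=
  univ.filter fun p => ∃ i, f i = some p

lemma mem_used {ι : Type*} [Fintype ι] {K : ℕ} {f : ι → Option (Fin K × Fin K)} {p : Fin K × Fin K} :
    p ∈ used f ↔ ∃ i, f i = some p := by
  simp [used]

open Classical in
/-- sum over the markings of the arcs (a pair of blocks, or no mark) for which the used pairs do not interlace -/
theorem sum_markings_le {ι : Type*} [Fintype ι] {K : ℕ}
    (a : ι → Option (Fin K × Fin K) → ℝ) (s : ι → ℝ) (ha : ∀ i o, 0 ≤ a i o) (hs : ∀ i, 0 ≤ s i)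
    (has : ∀ i p, a i (some p) ≤ s i) :
    ∑ f ∈ (univ : Finset (ι → Option (Fin K × Fin K))).filter (fun f => NC (used f)), ∏ i, a i (f i) ≤
      2 ^ (K ^ 2) * ∏ i, (a i none + 3 * K * s i) := by
  have hpow : (univ : Finset (Finset (Fin K × Fin K))).card = 2 ^ (K ^ 2) := by
    simp [Fintype.card_finset, Fintype.card_prod, sq]
  have hnn : ∀ f : ι → Option (Fin K × Fin K), 0 ≤ ∏ i, a i (f i) :=
    fun f => prod_nonneg fun i _ => ha i _
  calc ∑ f ∈ (univ : Finset (ι → Option (Fin K × Fin K))).filter (fun f => NC (used f)), ∏ i, a i (f i)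
      = ∑ E ∈ (univ : Finset (Finset (Fin K × Fin K))).filter (fun E => NC E),
        ∑ f ∈ ((univ : Finset (ι → Option (Fin K × Fin K))).filter (fun f => NC (used f))).filter
          (fun f => used f = E), ∏ i, a i (f i) := by
        refine (sum_fiberwise_of_maps_to (fun f hf => ?_) _).symm
        rw [mem_filter] at hf ⊢
        exact ⟨mem_univ _, hf.2⟩
    _ ≤ ∑ E ∈ (univ : Finset (Finset (Fin K × Fin K))).filter (fun E => NC E),
        ∑ f ∈ Fintype.piFinset (fun _ : ι => insertNone E), ∏ i, a i (f i) := by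
        refine sum_le_sum fun E _ => sum_le_sum_of_subset_of_nonneg (fun f hf => ?_) fun f _ _ => hnn f
        rw [mem_filter] at hf
        rw [Fintype.mem_piFinset]
        intro i
        rcases h : f i with _ | p
        · exact none_mem_insertNone
        · exact some_mem_insertNone.2 (hf.2 ▸ mem_used.2 ⟨i, h⟩)
    _ = ∑ E ∈ (univ : Finset (Finset (Fin K × Fin K))).filter (fun E => NC E),
        ∏ i, ∑ o ∈ insertNone E, a i o := by
        refine sum_congr rfl fun E _ => ?_
        rw [prod_univ_sum]
    _ ≤ ∑ E ∈ (univ : Finset (Finset (Fin K × Fin K))).filter (fun E => NC E),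
        ∏ i, (a i none + 3 * K * s i) := by
        refine sum_le_sum fun E hE => ?_
        have hE' : NC E := (mem_filter.1 hE).2
        refine prod_le_prod (fun i _ => sum_nonneg fun o _ => ha i o) fun i _ => ?_
        rw [sum_insertNone]
        gcongr
        calc ∑ p ∈ E, a i (some p) ≤ ∑ p ∈ E, s i := sum_le_sum fun p _ => has i p
          _ = E.card * s i := by rw [sum_const, nsmul_eq_mul]
          _ ≤ (3 * K : ℕ) * s i := by
              have : (E.card : ℝ) ≤ ((3 * K : ℕ) : ℝ) := by exact_mod_cast hE'.card_le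
              exact mul_le_mul_of_nonneg_right this (hs i)
          _ = 3 * K * s i := by push_cast; ring
    _ ≤ 2 ^ (K ^ 2) * ∏ i, (a i none + 3 * K * s i) := by
        rw [sum_const, nsmul_eq_mul]
        refine mul_le_mul_of_nonneg_right ?_ (prod_nonneg fun i _ => ?_)
        · have : ((univ : Finset (Finset (Fin K × Fin K))).filter (fun E => NC E)).card ≤ 2 ^ (K ^ 2) := by
            rw [← hpow]
            exact card_filter_le _ _
          exact_mod_cast this
        · have h2 := hs i
          have h3 := ha i none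
          positivity

end Tight
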