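import Pool.Agent.Tight.LeafDefs

/-!
TIGHT part L: two disjoint arcs over a line do not interlace.
-/

set_option autoImplicit false

namespace HexObs

open Finset

namespace Planar

/-- two disjoint arcs above the line do not interlace -/
theorem arcs_abs {a g : ℕ → ℤ × ℤ} {n m : ℕ} (ha : ∀ i, i ≤ n → Adj (a i) (a (i + 1))) (ha0 : (a 0).2 = 0)
    (han : (a (n + 1)).2 = 0) (hin : ∀ i, 1 ≤ i → i ≤ n → 0 < (a i).2)
    (hg : ∀ j, j ≤ m → Adj (g j) (g (j + 1))) (hg0 : (g 0).2 = 0) (hgm : (g (m + 1)).2 = 0)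
    (hgin : ∀ j, 1 ≤ j → j ≤ m → 0 < (g j).2) (hdis : ∀ i, i ≤ n + 1 → ∀ j, j ≤ m + 1 → a i ≠ g j) :
    ((a 0).1 < (g 0).1 ↔ (a (n + 1)).1 < (g 0).1) ↔ ((a 0).1 < (g (m + 1)).1 ↔ (a (n + 1)).1 < (g (m + 1)).1) := by
  have hm : 1 ≤ m := by
    by_contra hcon
    have hz : m = 0 := by omega
    subst hz
    have := hg 0 le_rfl
    unfold Adj EE at this
    omega
  have k1 : KK a n (g 1) = KK a n (g 0) :=
    KK_path (m := 1) ha ha0 han (fun j hj => hg j (by omega)) hg0 (fun j h1 h2 => hgin j h1 (by omega))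
      (fun i hi j hj => hdis i hi j (by omega)) 1 le_rfl
  have hsymm : ∀ p q, Adj p q → Adj q p := fun p q h => h.symm
  have k2 : KK a n (g (m + 1 - m)) = KK a n (g (m + 1 - 0)) :=
    KK_path (g := fun j => g (m + 1 - j)) (m := m) ha ha0 han
      (fun j hj => by
        have := hg (m - j) (by omega)
        have e1 : m - j + 1 = m + 1 - j := by omega
        have e2 : m - j = m + 1 - (j + 1) := by omega
        rw [e1, e2] at this
        exact hsymm _ _ this) (by simpa using hgm) (fun j h1 h2 => hgin (m + 1 - j) (by omega) (by omega))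
      (fun i hi j hj => hdis i hi (m + 1 - j) (by omega)) m le_rfl
  rw [show m + 1 - m = 1 by omega, show m + 1 - 0 = m + 1 by omega, k1,
    KK_bot ha ha0 han hin hg0, KK_bot ha ha0 han hin hgm] at k2
  have n1 : (a 0).1 ≠ (g 0).1 := fun h => hdis 0 (by omega) 0 (by omega) (Prod.ext h (by rw [ha0, hg0]))
  have n2 : (a (n + 1)).1 ≠ (g 0).1 := fun h => hdis (n + 1) le_rfl 0 (by omega) (Prod.ext h (by rw [han, hg0]))
  have n3 : (a 0).1 ≠ (g (m + 1)).1 := fun h => hdis 0 (by omega) (m + 1) le_rfl (Prod.ext h (by rw [ha0, hgm]))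
  have n4 : (a (n + 1)).1 ≠ (g (m + 1)).1 := fun h =>
    hdis (n + 1) le_rfl (m + 1) le_rfl (Prod.ext h (by rw [han, hgm]))
  have z1 : (1 : ZMod 2) + 1 = 0 := by decide
  have z2 : (0 : ZMod 2) ≠ 1 := by decide
  have z3 : (1 : ZMod 2) ≠ 0 := by decide
  split_ifs at k2 with h1 h2 h3 h4 h3 h4 h2 h3 h4 h3 h4 <;>
    simp only [z1, add_zero, zero_add] at k2 <;>
    first | exact absurd k2 z2 | exact absurd k2 z3 | (constructor <;> intro _ <;> constructor <;> intro _ <;> omega)

end Planar

/-- the vertices of a word in coordinates relative to the level 3 c -/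
lemma adj_word (t : List Bool) (c : ℤ) (i : ℕ) :
    Planar.Adj (lat t i + c, lev t i - 3 * c) (lat t (i + 1) + c, lev t (i + 1) - 3 * c) := by
  have h := xy_adj (v0 := oo) (v1 := oo) upd rfl t i
  have e : ∀ k, xy oo up (vx oo up t k) = (lat t k, lev t k) := by
    intro k
    unfold xy lat lev
    have : vx oo up t k - oo = vx oo up t k := sub_zero _
    rw [this]
  rw [e, e] at h
  unfold Planar.Adj Planar.EE at h ⊢
  simp only at h ⊢
  rcases h with ⟨h1, h2, h3⟩ | ⟨h1, h2, h3⟩
  · left
    refine ⟨by omega, by omega, ?_⟩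
    omega
  · right
    refine ⟨by omega, by omega, ?_⟩
    omega

/-- two disjoint arcs of a self-avoiding walk over the line at level 3 c do not interlace -/
theorem arcs_word {t : List Bool} {c : ℤ} {i j k l : ℕ} (hij : i < j) (hjk : j < k) (hkl : k < l) (hl : l ≤ t.length)
    (hinj : ∀ x y, x < y → y ≤ t.length → vx oo up t x ≠ vx oo up t y) (hi : lev t i = 3 * c) (hj : lev t j = 3 * c)
    (hk : lev t k = 3 * c) (hl' : lev t l = 3 * c) (h1 : ∀ x, i < x → x < j → 3 * c < lev t x)
    (h2 : ∀ x, k < x → x < l → 3 * c < lev t x) :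
    ¬ Inter (lat t i, lat t j) (lat t k, lat t l) ∧ ¬ Inter (lat t k, lat t l) (lat t i, lat t j) := by
  obtain ⟨n, hn⟩ : ∃ n, j = i + (n + 1) := ⟨j - i - 1, by omega⟩
  obtain ⟨m, hm⟩ : ∃ m, l = k + (m + 1) := ⟨l - k - 1, by omega⟩
  have hxy : ∀ x y, lat t x = lat t y → lev t x = lev t y → vx oo up t x = vx oo up t y := by
    intro x y e1 e2
    have e : ∀ k, xy oo up (vx oo up t k) = (lat t k, lev t k) := by
      intro k
      unfold xy lat lev
      have : vx oo up t k - oo = vx oo up t k := sub_zero _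
      rw [this]
    apply xy_inj (v0 := oo) upd
    rw [e, e, e1, e2]
  have key := Planar.arcs_abs (a := fun x => (lat t (i + x) + c, lev t (i + x) - 3 * c))
    (g := fun x => (lat t (k + x) + c, lev t (k + x) - 3 * c)) (n := n) (m := m)
    (fun x _ => adj_word t c (i + x)) (by simp [hi]) (by simp only; rw [← hn, hj]; ring)
    (fun x x1 x2 => by have := h1 (i + x) (by omega) (by omega); simp only; omega)
    (fun x _ => adj_word t c (k + x)) (by simp [hk]) (by simp only; rw [← hm, hl']; ring)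
    (fun x x1 x2 => by have := h2 (k + x) (by omega) (by omega); simp only; omega)
    (fun x hx y hy heq => by
      have e1 := congrArg Prod.fst heq
      have e2 := congrArg Prod.snd heq
      simp only at e1 e2
      exact hinj (i + x) (k + y) (by omega) (by omega) (hxy _ _ (by omega) (by omega)))
  simp only [add_zero, ← hn, ← hm] at key
  unfold Inter
  simp only
  constructor <;> · intro h; omega

end HexObs
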