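import Pool.Agent.Tight.Leaves
import Pool.Agent.Tight.Arcs

/-!
TIGHT part L: weights of the chains, and the arcs over the middle level of a chain.
-/

set_option autoImplicit false

namespace HexObs

open Finset ENNReal

/-- the last letter of a bridge -/
lemma split_lst {g : List Bool} (hg : g ≠ []) : g = g.dropLast ++ [lst g] := by
  have h := List.dropLast_append_getLast hg
  have e : g.getLast hg = lst g := by
    unfold lst
    rw [List.getLastD_eq_getLast?, List.getLast?_eq_getLast_of_ne_nil hg]
    rfl
  rw [e] at h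
  exact h.symm

lemma Brd_ne_nil {g : List Bool} {h : ℕ} (hg : g ∈ Brd h) (hh : 1 ≤ h) : g ≠ [] := by
  rintro rfl
  have := Brd_height hg nil_mem_Brd
  omega

/-- the vertices of a word made of a bridge and a continuation -/
lemma unf_step {g r : List Bool} {h : ℕ} (hg : g ∈ Brd h) (hh : 1 ≤ h) :
    (g.dropLast ++ (!lst g) :: (!lst g) :: r).length = g.length + 1 + r.length ∧
    (∀ i, i ≤ g.length → vx oo up (g.dropLast ++ (!lst g) :: (!lst g) :: r) i = vx oo up g i) ∧
    (∀ j, vx oo up (g.dropLast ++ (!lst g) :: (!lst g) :: r) (g.length + 1 + j) =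
      vx oo up g g.length + turn (!lst g) (turn (!lst g) up) - vx oo up r j) := by
  have hne := Brd_ne_nil hg hh
  obtain ⟨s, hs⟩ : ∃ s, s = g.dropLast := ⟨_, rfl⟩
  obtain ⟨b, hb⟩ : ∃ b, b = lst g := ⟨_, rfl⟩
  have hgs : g = s ++ [b] := by
    rw [hs, hb]
    exact split_lst hne
  rw [← hs, ← hb]
  have hgl : g.length = s.length + 1 := by
    rw [hgs, List.length_append]
    rfl
  have hd : dx up s s.length = turn (!b) up := by
    have h1 := (mem_Brd.1 hg).2.2.1
    have h2 := dx_append_one (d0 := up) (t := s) (b := b)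
    rw [← hgs] at h2
    rw [h1] at h2
    have h3 := congrArg (turn (!b)) h2
    rw [turn_turn] at h3
    exact h3.symm
  have hd1 : dx up (s ++ [!b, !b]) (s.length + 1) = turn (!b) (turn (!b) up) := by
    have h2 := dx_append_one (d0 := up) (t := s) (b := !b)
    have h3 : s ++ [!b, !b] = (s ++ [!b]) ++ [!b] := by simp
    rw [h3, dx_append (by simp)]
    rw [List.length_append] at h2
    have h4 : dx up (s ++ [!b]) (s.length + 1) = turn (!b) (dx up s s.length) := h2
    rw [h4, hd]
  have hd2 : dx up (s ++ [!b, !b]) (s.length + 2) = -up := by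
    have h2 := dx_append_one (d0 := up) (t := s ++ [!b]) (b := !b)
    have h3 : s ++ [!b, !b] = (s ++ [!b]) ++ [!b] := by simp
    rw [h3]
    have h4 : ((s ++ [!b]) ++ [!b]).length = s.length + 2 := by simp
    rw [h4] at h2
    rw [h2]
    have h5 : (s ++ [!b]).length = s.length + 1 := by simp
    rw [h5]
    have h6 : dx up (s ++ [!b]) (s.length + 1) = turn (!b) (turn (!b) up) := by
      rw [← hd1, h3]
      exact (dx_append (by simp)).symm
    rw [h6]
    cases b <;> decide
  have hrw : s ++ (!b) :: (!b) :: r = (s ++ [!b, !b]) ++ r := by simp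
  refine ⟨?_, ?_, ?_⟩
  · rw [hrw, List.length_append, List.length_append, hgl]
    simp
  · intro i hi
    rw [hgl] at hi
    rw [hgs, vx_append (by omega), vx_append (by omega)]
  · intro j
    have hl2 : (s ++ [!b, !b]).length = s.length + 2 := by simp
    have e1 : vx oo up ((s ++ [!b, !b]) ++ r) (s.length + 2 + j) =
        vx (vx oo up (s ++ [!b, !b]) (s.length + 2)) (dx up (s ++ [!b, !b]) (s.length + 2)) r j := by
      have k1 : vx oo up ((s ++ [!b, !b]) ++ r) (s.length + 2) = vx oo up (s ++ [!b, !b]) (s.length + 2) :=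
        vx_append (by omega)
      have k2 : dx up ((s ++ [!b, !b]) ++ r) (s.length + 2) = dx up (s ++ [!b, !b]) (s.length + 2) :=
        dx_append (by omega)
      rw [← k1, ← k2]
      unfold vx dx
      rw [vs_shift]
      apply vs_congr
      intro l _
      have k3 := tf_append_right (t := s ++ [!b, !b]) (s := r) l
      rw [hl2] at k3
      exact k3
    rw [hrw, hgl, show s.length + 1 + 1 + j = s.length + 2 + j by ring, e1, hd2, vx_turned]
    have e2 : vx oo up (s ++ [!b, !b]) (s.length + 2) =
        vx oo up g (s.length + 1) + turn (!b) (turn (!b) up) := by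
      rw [show s.length + 2 = s.length + 1 + 1 from rfl, vx_succ, hd1, hgs, vx_append (by omega),
        vx_append (by omega)]
    rw [e2]

lemma unf_step_lev {g r : List Bool} {h : ℕ} (hg : g ∈ Brd h) (hh : 1 ≤ h) :
    (∀ i, i ≤ g.length → lev (g.dropLast ++ (!lst g) :: (!lst g) :: r) i = lev g i ∧
      lat (g.dropLast ++ (!lst g) :: (!lst g) :: r) i = lat g i) ∧
    (∀ j, lev (g.dropLast ++ (!lst g) :: (!lst g) :: r) (g.length + 1 + j) = 3 * h - 1 - lev r j ∧
      lat (g.dropLast ++ (!lst g) :: (!lst g) :: r) (g.length + 1 + j) = latE g + tw g - lat r j) := by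
  obtain ⟨_, h2, h3⟩ := unf_step (r := r) hg hh
  constructor
  · intro i hi
    unfold lev lat
    rw [h2 i hi]
    exact ⟨rfl, rfl⟩
  · intro j
    have e := h3 j
    constructor
    · have e1 := congrArg (fun p => ip p up) e
      simp only [ip_sub_left, ip_add_left] at e1
      have e2 : ip (vx oo up g g.length) up = 3 * h := (mem_Brd.1 hg).2.2.2
      have e3 : ip (turn (!lst g) (turn (!lst g) up)) up = -1 := by
        cases lst g <;> decide
      unfold lev
      rw [e1, e2, e3]
      ring
    · unfold latE tw lat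
      rw [e]
      have e3 : cross up (turn (!lst g) (turn (!lst g) up)) = -(if lst g then 1 else -1) := by
        cases lst g <;> decide
      have e4 : ∀ x y z : Pt, cross up (x + y - z) = cross up x + cross up y - cross up z := by
        intro x y z
        simp only [cross, Prod.fst_sub, Prod.snd_sub, Prod.fst_add, Prod.snd_add]
        ring
      rw [e4, e3]
      ring

lemma unf_length {us : List (List Bool)} (hne : ∀ g ∈ us, g ≠ []) (hus : us ≠ []) :
    (unf us).length + 1 = (us.map List.length).sum + us.length := by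
  induction us with
  | nil => exact absurd rfl hus
  | cons g us ih =>
    cases us with
    | nil => simp [unf]
    | cons g' gs =>
      have h1 := ih (fun x hx => hne x (List.mem_cons_of_mem _ hx)) (by simp)
      have h2 : g ≠ [] := hne g (by simp)
      have h3 : 1 ≤ g.length := List.length_pos_iff.2 h2
      have h4 : (unf (g :: g' :: gs)).length = g.length - 1 + (2 + (unf (g' :: gs)).length) := by
        show (g.dropLast ++ (!lst g) :: (!lst g) :: unf (g' :: gs)).length = _
        rw [List.length_append, List.length_dropLast]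
        simp only [List.length_cons]
        ring
      rw [h4]
      simp only [List.map_cons, List.sum_cons, List.length_cons] at h1 ⊢
      omega

lemma wE_eq_pow (g : List Bool) : wE g = ENNReal.ofReal xc ^ g.length := by
  unfold wE
  rw [ENNReal.ofReal_pow xc_pos.le]

lemma wE_prod (us : List (List Bool)) : (us.map wE).prod = ENNReal.ofReal xc ^ (us.map List.length).sum := by
  induction us with
  | nil => simp
  | cons g us ih =>
    rw [List.map_cons, List.prod_cons, ih, List.map_cons, List.sum_cons, pow_add, wE_eq_pow]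

/-- the leaves are not empty -/
lemma LeafOK.ne_nil {a b T : ℕ} (hab : a < b) : ∀ (us : List (List Bool)) (u : Bool) (S : ℤ),
    LeafOK a b T u S us → (if u then S ≤ a else (b : ℤ) ≤ S) → (b : ℤ) ≤ T → (∀ g ∈ us, g ≠ []) ∧ us ≠ [] := by
  intro us
  induction us with
  | nil =>
    intro u S h
    cases u <;> exact absurd h (by simp [LeafOK])
  | cons g us ih =>
    intro u S h hS hbT
    cases us with
    | nil =>
      cases u with
      | false => exact absurd h (by simp [LeafOK])
      | true =>
        obtain ⟨k, k1, k2⟩ := h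
        rw [if_pos rfl] at hS
        refine ⟨fun x hx => ?_, by simp⟩
        rw [List.mem_singleton] at hx
        rw [hx]
        exact Brd_ne_nil k1 (by omega)
    | cons g' gs =>
      cases u with
      | true =>
        obtain ⟨k, k1, k2, k3, k4⟩ := h
        rw [if_pos rfl] at hS
        have h1 := ih false (S + k) k4 (by simpa using k2) hbT
        refine ⟨fun x hx => ?_, by simp⟩
        rcases List.mem_cons.1 hx with rfl | hx
        · exact Brd_ne_nil k1 (by omega)
        · exact h1.1 x hx
      | false =>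
        obtain ⟨k, k1, k2, k3, k4⟩ := h
        rw [if_neg (by decide)] at hS
        have h1 := ih true (S - k) k4 (by simpa using k3) hbT
        refine ⟨fun x hx => ?_, by simp⟩
        rcases List.mem_cons.1 hx with rfl | hx
        · exact Brd_ne_nil k1 (by omega)
        · exact h1.1 x hx

/-- weight of a chain -/
theorem wE_unf {a b T : ℕ} (hab : a < b) (hbT : b ≤ T) {us : List (List Bool)} (h : LeafOK a b T true 0 us) :
    wE (unf us) * ENNReal.ofReal xc = (us.map wE).prod * ENNReal.ofReal xc ^ us.length := by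
  obtain ⟨h1, h2⟩ := LeafOK.ne_nil hab us true 0 h (by simp) (by exact_mod_cast hbT)
  have h3 := unf_length h1 h2
  rw [wE_prod, ← pow_add, ← h3, pow_succ, wE_eq_pow]

/-- the last vertex of g on a level at most 3 m -/
lemma lastLe_spec {g : List Bool} {m : ℤ} (h0 : 0 ≤ m) (hend : 3 * m < lev g g.length) :
    lastLe g (3 * m) < g.length ∧ lev g (lastLe g (3 * m)) = 3 * m ∧
      ∀ i, lastLe g (3 * m) < i → i ≤ g.length → 3 * m < lev g i := by
  have hspec : lev g (lastLe g (3 * m)) ≤ 3 * m :=
    Nat.findGreatest_spec (P := fun i => lev g i ≤ 3 * m) (Nat.zero_le g.length) (by rw [lev_zero]; omega)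
  have hle : lastLe g (3 * m) ≤ g.length := Nat.findGreatest_le _
  have hgr : ∀ i, lastLe g (3 * m) < i → i ≤ g.length → 3 * m < lev g i := by
    intro i hi hi'
    have := Nat.findGreatest_is_greatest (P := fun i => lev g i ≤ 3 * m) hi hi'
    exact not_le.1 this
  have hlt : lastLe g (3 * m) < g.length := by
    rcases hle.lt_or_eq with h | h
    · exact h
    · rw [h] at hspec
      omega
  refine ⟨hlt, ?_, hgr⟩
  set i := lastLe g (3 * m) with hi
  have h1 := hgr (i + 1) (by omega) (by omega)
  have s := lev_succ g i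
  have hmod := lev_mod g i
  by_cases hev : Even i
  · rw [if_pos hev] at hmod
    rcases step_even upd g hev with ⟨_, hip⟩ | ⟨_, hip⟩ | ⟨_, hip⟩ <;> rw [hip] at s <;> omega
  · rw [if_neg hev] at hmod
    rcases step_odd upd g hev with ⟨_, hip⟩ | ⟨_, hip⟩ | ⟨_, hip⟩ <;> rw [hip] at s <;> omega

/-- the first vertex of g on a level at least 3 m - 1 -/
lemma firstGe_spec {g : List Bool} {m : ℤ} (h0 : 1 ≤ m) (hend : 3 * m - 1 ≤ lev g g.length) :
    firstGe g (3 * m - 1) ≤ g.length ∧ lev g (firstGe g (3 * m - 1)) = 3 * m - 1 ∧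
      ∀ i, i < firstGe g (3 * m - 1) → lev g i < 3 * m - 1 := by
  have hmem : g.length ∈ {i | 3 * m - 1 ≤ lev g i} := hend
  have hspec : 3 * m - 1 ≤ lev g (firstGe g (3 * m - 1)) := Nat.sInf_mem ⟨_, hmem⟩
  have hle : firstGe g (3 * m - 1) ≤ g.length := Nat.sInf_le hmem
  have hlt : ∀ i, i < firstGe g (3 * m - 1) → lev g i < 3 * m - 1 := by
    intro i hi
    by_contra hc
    exact Nat.notMem_of_lt_sInf hi (not_lt.1 hc)
  refine ⟨hle, ?_, hlt⟩
  set i := firstGe g (3 * m - 1) with hi
  have hpos : 1 ≤ i := by
    by_contra hc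
    have : i = 0 := by omega
    rw [this, lev_zero] at hspec
    omega
  obtain ⟨j, hj⟩ : ∃ j, i = j + 1 := ⟨i - 1, by omega⟩
  have h1 := hlt j (by omega)
  have s := lev_succ g j
  rw [← hj] at s
  have hmod := lev_mod g j
  by_cases hev : Even j
  · rw [if_pos hev] at hmod
    rcases step_even upd g hev with ⟨_, hip⟩ | ⟨_, hip⟩ | ⟨_, hip⟩ <;> rw [hip] at s <;> omega
  · rw [if_neg hev] at hmod
    rcases step_odd upd g hev with ⟨_, hip⟩ | ⟨_, hip⟩ | ⟨_, hip⟩ <;> rw [hip] at s <;> omega

lemma ht_eq {g : List Bool} {h : ℕ} (hg : g ∈ Brd h) : ht g = h := by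
  unfold ht
  rw [(mem_Brd.1 hg).2.2.2]
  omega

/-- the arcs of a chain in terms of the vertices of the word -/
theorem arcs_idx {a b T : ℕ} {c : ℤ} (hac : (a : ℤ) ≤ c) (hcb : c < b) (t : List Bool) :
    ∀ (n : ℕ) (us : List (List Bool)) (X S : ℤ) (s : ℕ), us.length ≤ n → LeafOK a b T true S us → S ≤ a →
    s + (unf us).length ≤ t.length →
    (∀ j, j ≤ (unf us).length → lat t (s + j) = X + lat (unf us) j ∧ lev t (s + j) = 3 * S + lev (unf us) j) →
    ∃ idx : List (ℕ × ℕ), idx.map (fun p => (lat t p.1, lat t p.2)) = arcs c X S us ∧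
      (∀ p ∈ idx, s ≤ p.1 ∧ p.1 < p.2 ∧ p.2 ≤ t.length ∧ lev t p.1 = 3 * c ∧ lev t p.2 = 3 * c ∧
        ∀ x, p.1 < x → x < p.2 → 3 * c < lev t x) ∧ idx.Pairwise (fun p q => p.2 < q.1) := by
  intro n
  induction n with
  | zero =>
    intro us X S s hn h
    have : us = [] := List.length_eq_zero_iff.1 (by omega)
    subst this
    exact absurd h (by simp [LeafOK])
  | succ n ih =>
    intro us X S s hn h hS hlen hpos
    match us, h, hn, hlen, hpos with
    | [], h, _, _, _ => exact absurd h (by simp [LeafOK])
    | [g], _, _, _, _ => exact ⟨[], rfl, by simp, List.Pairwise.nil⟩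
    | [g, g'], h, _, _, _ =>
      obtain ⟨k, _, _, _, h5⟩ := h
      exact absurd h5 (by simp [LeafOK])
    | g :: g' :: g'' :: gs, h, hn, hlen, hpos =>
      obtain ⟨h1, hg, h2, h3, h4⟩ := h
      obtain ⟨h1', hg', h2', h3', h4'⟩ := h4
      have hh1 : 1 ≤ h1 := by omega
      have hh1' : 1 ≤ h1' := by omega
      obtain ⟨r1, hr1⟩ : ∃ r, r = unf (g' :: g'' :: gs) := ⟨_, rfl⟩
      obtain ⟨r2, hr2⟩ : ∃ r, r = unf (g'' :: gs) := ⟨_, rfl⟩
      have e1 : unf (g :: g' :: g'' :: gs) = g.dropLast ++ (!lst g) :: (!lst g) :: r1 := by rw [hr1]; rfl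
      have e2 : r1 = g'.dropLast ++ (!lst g') :: (!lst g') :: r2 := by rw [hr1, hr2]; rfl
      obtain ⟨l1, _, _⟩ := unf_step (r := r1) hg hh1
      obtain ⟨l2, _, _⟩ := unf_step (r := r2) hg' hh1'
      obtain ⟨a1, a2⟩ := unf_step_lev (r := r1) hg hh1
      obtain ⟨b1, b2⟩ := unf_step_lev (r := r2) hg' hh1'
      rw [← e1] at l1 a1 a2
      rw [← e2] at l2 b1 b2
      have lg : lev g g.length = 3 * h1 := (mem_Brd.1 hg).2.2.2
      have lg' : lev g' g'.length = 3 * h1' := (mem_Brd.1 hg').2.2.2
      -- the rest
      obtain ⟨idx, i1, i2, i3⟩ := ih (g'' :: gs) (X + latE g + tw g - latE g' - tw g') (S + ht g - ht g')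
        (s + (g.length + 1 + (g'.length + 1))) (by simp only [List.length_cons] at hn ⊢; omega)
        (by rw [ht_eq hg, ht_eq hg']; exact h4') (by rw [ht_eq hg, ht_eq hg']; exact h3')
        (by rw [← hr2]; omega)
        (by
          intro j hj
          rw [← hr2] at hj ⊢
          have p1 := hpos (g.length + 1 + (g'.length + 1 + j)) (by omega)
          have p2 := a2 (g'.length + 1 + j)
          have p3 := b2 j
          rw [show s + (g.length + 1 + (g'.length + 1)) + j = s + (g.length + 1 + (g'.length + 1 + j)) by ring]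
          rw [p1.1, p1.2, p2.1, p2.2, p3.1, p3.2, ht_eq hg, ht_eq hg']
          constructor <;> ring)
      -- the first arc
      have hSc : S ≤ c := hS.trans hac
      obtain ⟨x1, x2, x3⟩ := lastLe_spec (g := g) (m := c - S) (by omega) (by rw [lg]; omega)
      obtain ⟨y1, y2, y3⟩ := firstGe_spec (g := g') (m := S + h1 - c) (by omega) (by rw [lg']; omega)
      set i0 := lastLe g (3 * (c - S)) with hi0
      set j0 := firstGe g' (3 * (S + h1 - c) - 1) with hj0
      have q1 := hpos i0 (by omega)
      have q2 := hpos (g.length + 1 + j0) (by omega)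
      have q3 := a1 i0 x1.le
      have q4 := a2 j0
      have q5 := b1 j0 y1
      refine ⟨(s + i0, s + (g.length + 1 + j0)) :: idx, ?_, ?_, ?_⟩
      · rw [List.map_cons, i1]
        show _ = arc c X S g g' :: arcs c (X + latE g + tw g - latE g' - tw g') (S + ht g - ht g') (g'' :: gs)
        congr 1
        unfold arc
        rw [ht_eq hg]
        refine Prod.ext ?_ ?_
        · show lat t (s + i0) = X + lat g i0
          rw [q1.1, q3.2]
        · show lat t (s + (g.length + 1 + j0)) = X + latE g + tw g - lat g' j0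
          rw [q2.1, q4.2, q5.2]
          ring
      · intro p hp
        rcases List.mem_cons.1 hp with rfl | hp
        · refine ⟨by simp, by simp only; omega, by simp only; omega, ?_, ?_, ?_⟩
          · show lev t (s + i0) = 3 * c
            rw [q1.2, q3.1, x2]
            ring
          · show lev t (s + (g.length + 1 + j0)) = 3 * c
            rw [q2.2, q4.1, q5.1, y2]
            ring
          · intro x hx hx'
            simp only at hx hx'
            rcases Nat.lt_or_ge (s + g.length) x with hc | hc
            · obtain ⟨j, rfl⟩ : ∃ j, x = s + (g.length + 1 + j) := ⟨x - (s + (g.length + 1)), by omega⟩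
              have w1 := hpos (g.length + 1 + j) (by omega)
              have w2 := a2 j
              have w3 := b1 j (by omega)
              have w4 := y3 j (by omega)
              rw [w1.2, w2.1, w3.1]
              omega
            · obtain ⟨i, rfl⟩ : ∃ i, x = s + i := ⟨x - s, by omega⟩
              have w1 := hpos i (by omega)
              have w2 := a1 i (by omega)
              have w4 := x3 i (by omega) (by omega)
              rw [w1.2, w2.1]
              omega
        · have w := i2 p hp
          exact ⟨by omega, w.2⟩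
      · rw [List.pairwise_cons]
        refine ⟨fun p hp => ?_, i3⟩
        have w := (i2 p hp).1
        simp only
        omega

/-- PLANARITY for chains: the arcs over the middle level 3 c do not interlace, their ends are abscissae of the walk -/
theorem arcs_nc {a b T : ℕ} {c : ℤ} (hac : (a : ℤ) ≤ c) (hcb : c < b) {us : List (List Bool)}
    (h : LeafOK a b T true 0 us)
    (hsaw : ∀ i k, i < k → k ≤ (unf us).length → vx oo up (unf us) i ≠ vx oo up (unf us) k) :
    (arcs c 0 0 us).Pairwise (fun p q => ¬ Inter p q ∧ ¬ Inter q p) ∧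
      ∀ p ∈ arcs c 0 0 us, ∃ i j, i < j ∧ j ≤ (unf us).length ∧ p = (lat (unf us) i, lat (unf us) j) := by
  obtain ⟨idx, i1, i2, i3⟩ := arcs_idx hac hcb (unf us) us.length us 0 0 0 le_rfl h (by positivity)
    (by omega) (fun j _ => by rw [zero_add, zero_add, mul_zero, zero_add]; exact ⟨rfl, rfl⟩)
  rw [← i1]
  constructor
  · rw [List.pairwise_map]
    refine List.Pairwise.imp_of_mem ?_ i3
    intro p q hp hq hpq
    obtain ⟨_, p2, p3, p4, p5, p6⟩ := i2 p hp
    obtain ⟨_, q2, q3, q4, q5, q6⟩ := i2 q hq
    exact arcs_word p2 hpq q2 q3 hsaw p4 p5 q4 q5 p6 q6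
  · intro p hp
    rw [List.mem_map] at hp
    obtain ⟨x, hx, rfl⟩ := hp
    obtain ⟨_, p2, p3, _⟩ := i2 x hx
    exact ⟨x.1, x.2, p2, p3, rfl⟩

end HexObs
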