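import Pool.Agent.Tight.LeafDefs

/-!
TIGHT part L: the decomposition of a bridge into leaves.
-/

set_option autoImplicit false

namespace HexObs

open Finset

/-- the hanging relation at a fold, only local information -/
lemma hang_fold {q : List Bool} {c : Bool} {m M : ℕ} (hM : 1 ≤ M) (hm : m + 2 ≤ q.length)
    (hle : ∀ k, 1 ≤ k → k ≤ m + 2 → lev q k ≤ 3 * M)
    (hinj : ∀ i k, i < k → k ≤ q.length → vx oo up q i ≠ vx oo up q k)
    (hlev : lev q (m + 1) = 3 * M) (hd0 : dx up q m = turn c up) (hd : dx up q (m + 1) = turn c (turn c up))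
    {r : List Bool} (hr : ∀ k, k ≤ r.length → m + 2 + k ≤ q.length ∧
      vx oo up r k = vx oo up q (m + 2) - vx oo up q (m + 2 + k)) :
    Hang (q.take m ++ [!c]) (!c) r := by
  obtain ⟨a, ha⟩ : ∃ a, a = q.take m := ⟨_, rfl⟩
  have hal : a.length = m := by
    rw [ha, List.length_take]
    omega
  have hsplit : q = a ++ q.drop m := by
    rw [ha]
    exact (List.take_append_drop m q).symm
  rw [← ha]
  have hva : ∀ k, k ≤ m + 1 → vx oo up (a ++ [!c]) k = vx oo up q k := by
    intro k hk
    rw [vx_append (by omega), hsplit, vx_append (by omega)]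
  have hgl : (a ++ [!c]).length = m + 1 := by
    rw [List.length_append, hal]
    rfl
  have hgd : dx up (a ++ [!c]) (m + 1) = up := by
    have h1 := dx_append_one (d0 := up) (t := a) (b := !c)
    rw [hgl] at h1
    rw [h1, hal]
    have h2 : dx up a m = dx up q m := by
      rw [hsplit, dx_append (by omega)]
    rw [h2, hd0, turn_turn]
  -- the truncated word
  obtain ⟨w, hw⟩ : ∃ w, w = q.take (m + 2) := ⟨_, rfl⟩
  have hwl : w.length = m + 2 := by
    rw [hw, List.length_take]
    omega
  have hwv : ∀ k, k ≤ m + 3 → vx oo up w k = vx oo up q k := by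
    intro k hk
    have h1 : q = w ++ q.drop (m + 2) := by
      rw [hw]
      exact (List.take_append_drop _ q).symm
    conv_rhs => rw [h1]
    rw [vx_append (by omega)]
  have hwd : ∀ k, k ≤ m + 2 → dx up w k = dx up q k := by
    intro k hk
    have h1 : q = w ++ q.drop (m + 2) := by
      rw [hw]
      exact (List.take_append_drop _ q).symm
    conv_rhs => rw [h1]
    rw [dx_append (by omega)]
  have hwlev : ∀ k, k ≤ m + 3 → lev w k = lev q k := by
    intro k hk
    unfold lev
    rw [hwv k hk]
  have hfree := top_free (t := w) hM (c := c) (m := m) (by omega)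
    (fun k h1 h2 => by
      rw [hwlev k (by omega)]
      exact hle k h1 (by omega))
    (fun i k h1 h2 => by
      rw [hwv i (by omega), hwv k (by omega)]
      exact hinj i k h1 (by omega))
    (by rw [hwlev _ (by omega)]; exact hlev) (by rw [hwd _ (by omega)]; exact hd)
  have v2 : vx oo up q (m + 2) = vx oo up q (m + 1) + turn c (turn c up) := by
    rw [show m + 2 = m + 1 + 1 from rfl, vx_succ, hd]
  apply hang_of (by rw [hgl]; exact hgd)
  · intro j hj1 hj2
    rw [hgl] at hj2 ⊢
    rw [hva j hj2, hva _ le_rfl]
    simp only [Bool.not_not]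
    have := hfree j hj2
    rwa [hwv j (by omega), hwv _ (by omega)] at this
  · intro j hj1 hj2 k hk
    rw [hgl] at hj2 ⊢
    rw [hva j hj2, hva _ le_rfl]
    simp only [Bool.not_not]
    obtain ⟨hk1, hk2⟩ := hr k hk
    rw [hk2]
    intro heq
    apply hinj j (m + 2 + k) (by omega) hk1
    rw [v2] at heq
    linear_combination heq

/-- one fold: the word q goes up to its vertex number e (a highest one, within its first e vertices) and then down -/
lemma fold_step {q : List Bool} {e : ℕ} (he : 1 ≤ e) (he2 : e + 2 ≤ q.length)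
    (hinj : ∀ i k, i < k → k ≤ q.length → vx oo up q i ≠ vx oo up q k)
    (h1 : ∀ j, 1 ≤ j → j ≤ e → 0 < lev q j ∧ lev q j ≤ lev q e)
    (h2 : lev q (e + 1) < lev q e) (h3 : lev q (e + 2) < lev q e) :
    ∃ (c : Bool) (M : ℕ), 1 ≤ M ∧ lev q e = 3 * M ∧ q = q.take (e - 1) ++ c :: c :: q.drop (e + 1) ∧
      q.take (e - 1) ++ [!c] ∈ Brd M ∧ (q.take (e - 1) ++ [!c]).length = e ∧
      (∀ i, i ≤ e → vx oo up (q.take (e - 1) ++ [!c]) i = vx oo up q i) ∧
      (∀ j, vx oo up (q.drop (e + 1)) j = vx oo up q (e + 1) - vx oo up q (e + 1 + j)) ∧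
      (∀ j, dx up q (e + 1 + j) = -dx up (q.drop (e + 1)) j) ∧
      lev q (e + 1) = 3 * M - 1 ∧
      ∀ r : List Bool, (∀ k, k ≤ r.length → e + 1 + k ≤ q.length ∧
        vx oo up r k = vx oo up q (e + 1) - vx oo up q (e + 1 + k)) → Hang (q.take (e - 1) ++ [!c]) (!c) r := by
  obtain ⟨m, rfl⟩ : ∃ m, e = m + 1 := ⟨e - 1, by omega⟩
  have hup2 : ip up up = 2 := by decide
  have h0e : 0 < lev q (m + 1) := (h1 (m + 1) (by omega) le_rfl).1
  have hm_le : lev q m ≤ lev q (m + 1) := by
    rcases Nat.eq_zero_or_pos m with h | h
    · rw [h, lev_zero]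
      rw [h] at h0e
      exact h0e.le
    · exact (h1 m h (by omega)).2
  -- the vertex e is even
  have hev : Even (m + 1) := by
    by_contra hodd
    have s1 := lev_succ q (m + 1)
    have hem : Even m := by
      rw [Nat.even_add_one, not_not] at hodd
      exact hodd
    have d2 : dx up q (m + 1) = -up := by
      rcases step_odd upd q hodd with ⟨h, hip⟩ | ⟨h, hip⟩ | ⟨h, hip⟩
      · exact h
      · exfalso
        rw [hip] at s1
        linarith
      · exfalso
        rw [hip] at s1
        linarith
    have s0 := lev_succ q m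
    have d1 : dx up q m = up := by
      rcases step_even upd q hem with ⟨h, hip⟩ | ⟨h, hip⟩ | ⟨h, hip⟩
      · exact h
      · exfalso
        rw [hip] at s0
        linarith
      · exfalso
        rw [hip] at s0
        linarith
    have d3 := dx_succ up q m
    rw [d1, d2] at d3
    revert d3
    cases tf q m <;> decide
  have hodd : ¬ Even m := by
    intro h
    rw [Nat.even_add_one] at hev
    exact hev h
  obtain ⟨M, hM⟩ : ∃ M : ℕ, lev q (m + 1) = 3 * M := by
    have := lev_mod q (m + 1)
    rw [if_pos hev, sub_zero] at this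
    obtain ⟨z, hz⟩ := this
    refine ⟨z.toNat, ?_⟩
    omega
  have hM1 : 1 ≤ M := by
    by_contra h
    have : M = 0 := by omega
    rw [this] at hM
    simp at hM
    omega
  -- arrival
  obtain ⟨c, hc⟩ : ∃ c : Bool, dx up q m = turn c up := by
    rcases step_odd upd q hodd with ⟨hd, hip⟩ | ⟨hd, hip⟩ | ⟨hd, hip⟩
    · exfalso
      have hs := lev_succ q m
      rw [hip] at hs
      linarith
    · exact ⟨true, hd⟩
    · exact ⟨false, hd⟩
  -- departure
  have hdx1 := dx_succ up q m
  rw [hc] at hdx1
  have hb : tf q m = c := by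
    by_contra hne
    have hb' : tf q m = !c := by
      cases h5 : tf q m <;> cases h6 : c <;> rw [h5, h6] at hne <;> simp at hne ⊢
    rw [hb', turn_turn] at hdx1
    have hs := lev_succ q (m + 1)
    rw [hdx1, hup2] at hs
    linarith
  rw [hb] at hdx1
  have hl2 : lev q (m + 1 + 1) = 3 * M - 1 := by
    have hs := lev_succ q (m + 1)
    rw [hdx1, hM] at hs
    have e : ip (turn c (turn c up)) up = -1 := by
      cases c <;> decide
    rw [e] at hs
    rw [hs]
    ring
  have hb2 : tf q (m + 1) = c := by
    by_contra hne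
    have hb' : tf q (m + 1) = !c := by
      cases h5 : tf q (m + 1) <;> cases h6 : c <;> rw [h5, h6] at hne <;> simp at hne ⊢
    have hdx2 := dx_succ up q (m + 1)
    rw [hb', hdx1, turn_turn] at hdx2
    have hs := lev_succ q (m + 1 + 1)
    rw [hdx2, hl2] at hs
    have e : ip (turn c up) up = 1 := by
      cases c <;> decide
    rw [e] at hs
    have e2 : lev q (m + 1 + 2) = lev q (m + 1 + 1 + 1) := rfl
    rw [e2, hs, hM] at h3
    omega
  have hdx2 : dx up q (m + 1 + 1) = -up := by
    have h4 := dx_succ up q (m + 1)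
    rw [hb2, hdx1] at h4
    rw [h4]
    cases c <;> decide
  -- the splitting
  obtain ⟨a, ha⟩ : ∃ a, a = q.take m := ⟨_, rfl⟩
  have hal : a.length = m := by
    rw [ha, List.length_take]
    omega
  have hsp0 : q = a ++ q.drop m := by
    rw [ha]
    exact (List.take_append_drop m q).symm
  have hva : ∀ k, k ≤ m + 1 → vx oo up a k = vx oo up q k := by
    intro k hk
    conv_rhs => rw [hsp0]
    rw [vx_append (by omega)]
  have hda : ∀ k, k ≤ m → dx up a k = dx up q k := by
    intro k hk
    conv_rhs => rw [hsp0]
    rw [dx_append (by omega)]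
  have hgl : (a ++ [!c]).length = m + 1 := by
    rw [List.length_append, hal]
    rfl
  have hvg : ∀ k, k ≤ m + 1 → vx oo up (a ++ [!c]) k = vx oo up q k := by
    intro k hk
    rw [vx_append (by omega), hva k hk]
  have hgB : a ++ [!c] ∈ Brd M := by
    rw [mem_Brd, hgl]
    refine ⟨?_, ?_, ?_, ?_⟩
    · intro k k1 k2
      have e : lev (a ++ [!c]) k = lev q k := by
        unfold lev
        rw [hvg k k2]
      rw [e, ← hM]
      exact h1 k k1 k2
    · intro k l hkl hl
      rw [hvg k (by omega), hvg l hl]
      exact hinj k l hkl (by omega)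
    · have k1 := dx_append_one (d0 := up) (t := a) (b := !c)
      rw [hgl] at k1
      rw [k1, hal, hda m le_rfl, hc, turn_turn]
    · have e : lev (a ++ [!c]) (m + 1) = lev q (m + 1) := by
        unfold lev
        rw [hvg _ le_rfl]
      rw [e, hM]
  have hsp : q = a ++ c :: c :: q.drop (m + 1 + 1) := by
    have e1 := take_split (t := q) (i := m) (by omega)
    have e2 := take_split (t := q) (i := m + 1) (by omega)
    rw [← ha, hb] at e1
    rw [hb2] at e2
    have e3 : q.take (m + 1) = a ++ [c] := by
      have e4 : q.take (m + 1) = (a ++ ([c] ++ q.drop (m + 1))).take (m + 1) := by rw [← e1]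
      rw [e4, ← List.append_assoc, List.take_append_of_le_length (by simp [hal]),
        List.take_of_length_le (by simp [hal])]
    rw [e3] at e2
    conv_lhs => rw [e2]
    simp
  refine ⟨c, M, hM1, hM, ?_, ?_, ?_, ?_, ?_, ?_, hl2, ?_⟩
  · rw [show m + 1 - 1 = m from rfl, ← ha]
    exact hsp
  · rw [show m + 1 - 1 = m from rfl, ← ha]
    exact hgB
  · rw [show m + 1 - 1 = m from rfl, ← ha]
    exact hgl
  · rw [show m + 1 - 1 = m from rfl, ← ha]
    exact hvg
  · intro j
    have e1 : vx oo up q (m + 1 + 1 + j) = vx (vx oo up q (m + 1 + 1)) (dx up q (m + 1 + 1)) (q.drop (m + 1 + 1)) j := by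
      unfold vx dx
      rw [vs_shift]
      apply vs_congr
      intro l _
      have k1 : tf ((a ++ [c, c]) ++ q.drop (m + 1 + 1)) ((a ++ [c, c]).length + l) = tf (q.drop (m + 1 + 1)) l :=
        tf_append_right l
      have k2 : (a ++ [c, c]).length = m + 1 + 1 := by
        rw [List.length_append, hal]
        rfl
      have k3 : (a ++ [c, c]) ++ q.drop (m + 1 + 1) = q := by
        conv_rhs => rw [hsp]
        simp
      rw [k2, k3] at k1
      exact k1
    rw [e1, hdx2, vx_turned]
    abel
  · intro j
    have e1 : dx up q (m + 1 + 1 + j) = dx (dx up q (m + 1 + 1)) (q.drop (m + 1 + 1)) j := by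
      unfold dx
      rw [ds_shift]
      apply ds_congr
      intro l _
      have k1 : tf ((a ++ [c, c]) ++ q.drop (m + 1 + 1)) ((a ++ [c, c]).length + l) = tf (q.drop (m + 1 + 1)) l :=
        tf_append_right l
      have k2 : (a ++ [c, c]).length = m + 1 + 1 := by
        rw [List.length_append, hal]
        rfl
      have k3 : (a ++ [c, c]) ++ q.drop (m + 1 + 1) = q := by
        conv_rhs => rw [hsp]
        simp
      rw [k2, k3] at k1
      exact k1
    rw [e1, hdx2]
    have k2 := dx_mulE (-1, 0) up (q.drop (m + 1 + 1)) j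
    have e : mulE (-1, 0) up = -up := by decide
    have e3 : ∀ p : Pt, mulE (-1, 0) p = -p := by
      intro p
      ext <;> simp [mulE]
    rw [e, e3] at k2
    exact k2
  · intro r hr
    rw [show m + 1 - 1 = m from rfl]
    refine hang_fold hM1 (by omega) ?_ hinj hM hc hdx1 (fun k hk => by
      have := hr k hk
      exact ⟨by omega, this.2⟩)
    intro k k1 k2
    rcases Nat.lt_or_ge k (m + 2) with k3 | k3
    · rw [← hM]
      exact (h1 k k1 (by omega)).2
    · have k4 : k = m + 1 + 1 := by omega
      rw [k4, hl2]
      omega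

/-- after a top fold at level 3 M the level 3 M - 1 is not visited again before the walk is higher -/
lemma strict_after {q : List Bool} {e e' : ℕ} {M : ℤ} (hlev : lev q e = 3 * M)
    (h2 : ∀ j, e < j → j ≤ e' → lev q j < lev q e) (hgap : lev q e' + 1 < lev q e)
    {j : ℕ} (hj : e + 1 < j) (hj' : j ≤ e') : lev q j < 3 * M - 1 := by
  by_contra hcon
  have h4 := h2 j (by omega) hj'
  have h6 : lev q j = 3 * M - 1 := by omega
  have hjl : j < e' := by
    rcases Nat.lt_or_ge j e' with h | h
    · exact h
    · exfalso
      have : j = e' := by omega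
      rw [this] at h6
      omega
  have he : ¬ Even j := by
    intro hev
    have h5 := lev_mod q j
    rw [if_pos hev] at h5
    omega
  obtain ⟨l, rfl⟩ : ∃ l, j = l + 1 := ⟨j - 1, by omega⟩
  have hel : Even l := by
    rw [Nat.even_add_one, not_not] at he
    exact he
  have s1 := lev_succ q l
  have s2 := lev_succ q (l + 1)
  have g1 := h2 l (by omega) (by omega)
  have g2 := h2 (l + 1 + 1) (by omega) (by omega)
  have d1 : dx up q l = up := by
    rcases step_even upd q hel with ⟨h, hip⟩ | ⟨h, hip⟩ | ⟨h, hip⟩
    · exact h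
    · exfalso
      rw [hip, h6] at s1
      omega
    · exfalso
      rw [hip, h6] at s1
      omega
  have d2 : dx up q (l + 1) = -up := by
    rcases step_odd upd q he with ⟨h, hip⟩ | ⟨h, hip⟩ | ⟨h, hip⟩
    · exact h
    · exfalso
      rw [hip, h6] at s2
      omega
    · exfalso
      rw [hip, h6] at s2
      omega
  have d3 := dx_succ up q l
  rw [d1, d2] at d3
  revert d3
  cases tf q l <;> decide

/-- level in the original frame of a vertex of a piece of the chain: p even: upright, foot vertex at level 3 S; p odd: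
turned, foot vertex at level 3 S - 1 -/
def Lv (p : ℕ) (S x : ℤ) : ℤ := if Even p then 3 * S + x else 3 * S - 1 - x

lemma lst_append (s : List Bool) (b : Bool) : lst (s ++ [b]) = b := by
  simp [lst]

lemma lev_step_le (q : List Bool) (i : ℕ) : lev q i ≤ lev q (i + 1) + 2 := by
  have h : ∀ d ∈ dirs, -2 ≤ ip d up := by decide
  have h1 := h _ (dx_mem upd q i)
  rw [lev_succ]
  linarith

theorem leaves_aux {a b T : ℕ} (hab : a < b) : ∀ (r p : ℕ) (S : ℤ) (q : List Bool) (e : ℕ → ℕ),
    (∀ i k, i < k → k ≤ q.length → vx oo up q i ≠ vx oo up q k) →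
    (dx up q q.length = if Even r then up else -up) →
    e r = q.length → 1 ≤ e 0 → (∀ k, k < r → e k < e (k + 1)) →
    (∀ j, 1 ≤ j → j ≤ e 0 → 0 < lev q j ∧ lev q j ≤ lev q (e 0)) →
    (∀ k, k < r → ∀ j, e k < j → j ≤ e (k + 1) → Tight.sg k (lev q (e k)) < Tight.sg k (lev q j) ∧
      Tight.sg k (lev q j) ≤ Tight.sg k (lev q (e (k + 1)))) →
    (∀ k, k ≤ r → if Even (p + k) then 3 * (b : ℤ) ≤ Lv p S (lev q (e k)) ∧ Lv p S (lev q (e k)) ≤ 3 * T
      else 0 < Lv p S (lev q (e k)) ∧ Lv p S (lev q (e k)) ≤ 3 * a) →
    Even (p + r) → Lv p S (lev q (e r)) = 3 * T →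
    ∃ u us, (u :: us).length = r + 1 ∧ unf (u :: us) = q ∧ (u :: us).IsChain LFold ∧
      LeafOK a b T (decide (Even p)) S (u :: us) ∧ u.length = e 0 ∧
      ∀ k, k ≤ u.length → vx oo up u k = vx oo up q k := by
  intro r
  induction r with
  | zero =>
    intro p S q e hinj hdx her he0 _ h1 _ _ hpr hend
    rw [add_zero] at hpr
    refine ⟨q, [], rfl, rfl, List.isChain_singleton _, ?_, her.symm, fun k _ => rfl⟩
    rw [decide_eq_true hpr]
    unfold Lv at hend
    rw [if_pos hpr] at hend
    have hpos := (h1 (e 0) he0 le_rfl).1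
    refine ⟨((T : ℤ) - S).toNat, ?_, by omega⟩
    rw [if_pos (by decide)] at hdx
    rw [mem_Brd]
    refine ⟨?_, hinj, hdx, ?_⟩
    · intro i i1 i2
      rw [← her] at i2
      have := h1 i i1 i2
      constructor
      · exact this.1
      · refine this.2.trans ?_
        omega
    · rw [← her]
      omega
  | succ r ih =>
    intro p S q e hinj hdx her he0 hmono h1 h2 hL hpr hend
    have hge : ∀ k, k ≤ r → e 1 ≤ e (k + 1) := by
      intro k
      induction k with
      | zero => intro _; exact le_rfl
      | succ k ihk => intro hk; exact (ihk (by omega)).trans (hmono (k + 1) (by omega)).le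
    have he1 : e 1 ≤ q.length := by
      rw [← her]
      exact hge r le_rfl
    have h01 := hmono 0 (by omega)
    rw [zero_add] at h01
    -- the gap
    have hgap : lev q (e 1) + 3 ≤ lev q (e 0) := by
      have k0 := hL 0 (by omega)
      have k1 := hL 1 (by omega)
      rw [add_zero] at k0
      by_cases hp : Even p
      · have hp1 : ¬ Even (p + 1) := by rw [Nat.even_add_one]; simpa using hp
        rw [if_pos hp] at k0
        rw [if_neg hp1] at k1
        unfold Lv at k0 k1
        rw [if_pos hp] at k0 k1
        omega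
      · have hp1 : Even (p + 1) := Nat.even_add_one.2 hp
        rw [if_neg hp] at k0
        rw [if_pos hp1] at k1
        unfold Lv at k0 k1
        rw [if_neg hp] at k0 k1
        omega
    have he2 : e 0 + 2 ≤ e 1 := by
      by_contra hc
      have : e 1 = e 0 + 1 := by omega
      have h3 := lev_step_le q (e 0)
      rw [← this] at h3
      omega
    have hdown : ∀ j, e 0 < j → j ≤ e 1 → lev q j < lev q (e 0) ∧ lev q (e 1) ≤ lev q j := by
      intro j j1 j2
      have := h2 0 (by omega) j j1 j2
      rw [Tight.sg_zero, Tight.sg_zero, Tight.sg_zero, zero_add] at this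
      constructor <;> omega
    obtain ⟨c, M, hM1, hM, hsplit, hB, hlen, hvx, hvq, hdq, hl1, hH⟩ := fold_step he0 (by omega) hinj h1
      (hdown (e 0 + 1) (by omega) (by omega)).1 (hdown (e 0 + 2) (by omega) he2).1
    set G := q.take (e 0 - 1) ++ [!c] with hG
    obtain ⟨q', hq'⟩ : ∃ q', q' = q.drop (e 0 + 1) := ⟨_, rfl⟩
    rw [← hq'] at hvq hdq hsplit
    have hql : q'.length + (e 0 + 1) = q.length := by
      rw [hq', List.length_drop]
      omega
    have hlq : ∀ j, lev q' j = 3 * M - 1 - lev q (e 0 + 1 + j) := by
      intro j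
      have h3 := congrArg (fun p => ip p up) (hvq j)
      simp only [ip_sub_left] at h3
      have h4 : lev q' j = lev q (e 0 + 1) - lev q (e 0 + 1 + j) := h3
      rw [h4, hl1]
    set S' : ℤ := if Even p then S + M else S - M with hS'
    have hLv : ∀ j, Lv (p + 1) S' (lev q' j) = Lv p S (lev q (e 0 + 1 + j)) := by
      intro j
      rw [hlq]
      unfold Lv
      by_cases hp : Even p
      · have hp1 : ¬ Even (p + 1) := by rw [Nat.even_add_one]; simpa using hp
        rw [hS', if_pos hp, if_neg hp1, if_pos hp]
        ring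
      · have hp1 : Even (p + 1) := Nat.even_add_one.2 hp
        rw [hS', if_neg hp, if_pos hp1, if_neg hp]
        ring
    have hidx : ∀ k, k ≤ r → e 0 + 1 + (e (k + 1) - (e 0 + 1)) = e (k + 1) := by
      intro k hk
      have := hge k hk
      omega
    obtain ⟨u, us, r1, r2, r3, r4, r5, r6⟩ := ih (p + 1) S' q' (fun k => e (k + 1) - (e 0 + 1))
      (by
        intro i k hik hk heq
        rw [hvq, hvq] at heq
        exact hinj (e 0 + 1 + i) (e 0 + 1 + k) (by omega) (by omega) (sub_right_injective heq))
      (by
        have h3 := hdq q'.length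
        rw [show e 0 + 1 + q'.length = q.length by omega, hdx] at h3
        have h4 : dx up q' q'.length = -(if Even (r + 1) then up else -up) := by
          rw [h3, neg_neg]
        rw [h4]
        by_cases hr : Even r
        · rw [if_neg (by rw [Nat.even_add_one]; simpa using hr), if_pos hr, neg_neg]
        · rw [if_pos (Nat.even_add_one.2 hr), if_neg hr])
      (by have := hidx r le_rfl; omega) (by rw [zero_add]; omega)
      (by
        intro k hk
        have e1 := hmono (k + 1) (by omega)
        have e2 := hge k (by omega)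
        omega)
      (by
        intro j j1 j2
        rw [zero_add] at j2 ⊢
        have e3 := strict_after (e' := e 1) hM (fun j a1 a2 => (hdown j a1 a2).1) (by omega)
          (j := e 0 + 1 + j) (by omega) (by omega)
        have e4 := (hdown (e 0 + 1 + j) (by omega) (by omega)).2
        rw [hlq, hlq]
        have e5 := hidx 0 (by omega)
        rw [zero_add] at e5
        rw [e5]
        constructor <;> omega)
      (by
        intro k hk j j1 j2
        have e1 := hge k (by omega)
        have e2 := hge (k + 1) (by omega)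
        have e3 := h2 (k + 1) (by omega) (e 0 + 1 + j) (by omega) (by omega)
        rw [hlq, hlq, hlq, hidx k (by omega), hidx (k + 1) (by omega)]
        rw [Tight.sg_succ, Tight.sg_succ, Tight.sg_succ] at e3
        have hsub : ∀ x y : ℤ, Tight.sg k (x - y) = Tight.sg k x - Tight.sg k y := by
          intro x y
          unfold Tight.sg
          split_ifs <;> ring
        simp only [hsub]
        constructor <;> omega)
      (by
        intro k hk
        have e1 := hL (k + 1) (by omega)
        rw [show p + (k + 1) = p + 1 + k by ring] at e1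
        rw [hLv, hidx k hk]
        exact e1)
      (by rw [show p + 1 + r = p + (r + 1) by ring]; exact hpr)
      (by
        rw [hLv, hidx r le_rfl]
        exact hend)
    rw [zero_add] at r5
    have hlG : lst G = !c := lst_append _ _
    refine ⟨G, u :: us, ?_, ?_, ?_, ?_, hlen, ?_⟩
    · rw [List.length_cons, r1]
    · show G.dropLast ++ (!lst G) :: (!lst G) :: unf (u :: us) = q
      rw [hlG, r2, Bool.not_not, hG, List.dropLast_concat]
      exact hsplit.symm
    · rw [List.isChain_cons_cons]
      refine ⟨?_, r3⟩
      show Hang G (lst G) u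
      rw [hlG]
      apply hH
      intro k hk
      refine ⟨by omega, ?_⟩
      rw [r6 k hk, hvq]
    · have k0 := hL 0 (by omega)
      rw [add_zero] at k0
      by_cases hp : Even p
      · have hp1 : ¬ Even (p + 1) := by rw [Nat.even_add_one]; simpa using hp
        rw [decide_eq_false hp1, hS', if_pos hp] at r4
        rw [decide_eq_true hp]
        rw [if_pos hp] at k0
        unfold Lv at k0
        rw [if_pos hp, hM] at k0
        exact ⟨M, hB, by omega, by omega, r4⟩
      · have hp1 : Even (p + 1) := Nat.even_add_one.2 hp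
        rw [decide_eq_true hp1, hS', if_neg hp] at r4
        rw [decide_eq_false hp]
        rw [if_neg hp] at k0
        unfold Lv at k0
        rw [if_neg hp, hM] at k0
        exact ⟨M, hB, by omega, by omega, r4⟩
    · intro k hk
      rw [hlen] at hk
      exact hvx k hk

/-- LEAVES: a bridge of height T with exactly 2 n + 1 alternations between the levels 3 a and 3 b is the word of a chain
of 2 n + 1 leaves -/
theorem leaves {t : List Bool} {T a b n : ℕ} (ht : t ∈ Brd T) (hab : a < b) (hbT : b ≤ T)
    (hA : Tight.Alt (lev t) t.length (3 * a) (3 * b) (2 * n + 1))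
    (hA' : ¬ Tight.Alt (lev t) t.length (3 * a) (3 * b) (2 * n + 2)) :
    ∃ us : List (List Bool), us.length = 2 * n + 1 ∧ unf us = t ∧ us.IsChain LFold ∧ LeafOK a b T true 0 us := by
  have htB := ht
  rw [mem_Brd] at ht
  obtain ⟨t1, t2, t3, t4⟩ := ht
  rcases Nat.eq_zero_or_pos n with hn | hn
  · subst hn
    exact ⟨[t], rfl, rfl, List.isChain_singleton _, T, htB, by simp⟩
  have hab' : (3 * a : ℤ) < 3 * b := by omega
  obtain ⟨e, e1, e2, e3, e4, e5⟩ := Tight.extremes (f := lev t) hab' (by rw [lev_zero]; omega) hA hA'
  have hodd : ¬ Even (2 * n + 1) := by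
    rw [Nat.not_even_iff_odd]
    exact ⟨n, rfl⟩
  -- the function of the ends
  set E : ℕ → ℕ := fun k => if k = 2 * n then t.length else e (k + 1) with hE
  have hElast : E (2 * n) = t.length := by simp [hE]
  have hEk : ∀ k, k < 2 * n → E k = e (k + 1) := by
    intro k hk
    simp only [hE]
    rw [if_neg (by omega)]
  have hE0 : E 0 = e 1 := hEk 0 (by omega)
  have he1pos : 1 ≤ e 1 := by
    have h := (e1 1 le_rfl (by omega)).2
    unfold Tight.Hi at h
    rw [if_neg (by decide)] at h
    by_contra hc
    have h0 : e 1 = 0 := by omega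
    rw [h0, lev_zero] at h
    omega
  have hsg2 : ∀ k x, Tight.sg (k + 2) x = Tight.sg k x := by
    intro k x
    rw [show k + 2 = k + 1 + 1 from rfl, Tight.sg_succ, Tight.sg_succ, neg_neg]
  obtain ⟨u, us, r1, r2, r3, r4, _, _⟩ := leaves_aux (a := a) (b := b) (T := T) hab (2 * n) 0 0 t E t2
    (by rw [if_pos (by simp)]; exact t3) hElast (by rw [hE0]; exact he1pos)
    (by
      intro k hk
      rw [hEk k hk]
      rcases Nat.lt_or_ge (k + 1) (2 * n) with h | h
      · rw [hEk (k + 1) h]
        exact e2 (k + 1) (by omega) (by omega)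
      · rw [show k + 1 = 2 * n by omega, hElast]
        exact (e1 (2 * n) (by omega) (by omega)).1)
    (by
      intro j j1 j2
      rw [hE0] at j2 ⊢
      have hlt := (e1 1 le_rfl (by omega)).1
      exact ⟨(t1 j j1 (by omega)).1, e3 (by omega) j j2⟩)
    (by
      intro k hk j j1 j2
      rw [hEk k hk] at j1 ⊢
      rcases Nat.lt_or_ge (k + 1) (2 * n) with h | h
      · rw [hEk (k + 1) h] at j2 ⊢
        have := e4 (k + 1) (by omega) (by omega) j j1 j2
        rw [show k + 1 + 1 = k + 2 from rfl, hsg2, hsg2, hsg2] at this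
        exact this
      · have hk1 : k + 1 = 2 * n := by omega
        rw [hk1, hElast] at j2 ⊢
        have := e5 (k + 1) (by omega) (by omega) j j1 j2
        rw [show k + 1 + 1 = k + 2 from rfl, hsg2, hsg2, hk1] at this
        refine ⟨this, ?_⟩
        have hko : ¬ Even k := by
          intro hke
          have : Even (k + 1) := by rw [hk1]; simp
          rw [Nat.even_add_one] at this
          exact this hke
        rw [Tight.sg_odd hko, Tight.sg_odd hko, t4]
        exact (t1 j (by omega) j2).2)
    (by
      intro k hk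
      rw [zero_add]
      unfold Lv
      rw [if_pos (by decide : Even 0), mul_zero, zero_add]
      rcases Nat.lt_or_ge k (2 * n) with h | h
      · rw [hEk k h]
        obtain ⟨c1, c2⟩ := e1 (k + 1) (by omega) (by omega)
        unfold Tight.Hi at c2
        have c3 : 1 ≤ e (k + 1) := by
          have : ∀ j, 1 ≤ j → j < 2 * n + 1 → 1 ≤ e j := by
            intro j hj
            induction j, hj using Nat.le_induction with
            | base => intro _; exact he1pos
            | succ j hj ihj => intro hj'; exact (ihj (by omega)).trans (e2 j hj (by omega)).le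
          exact this (k + 1) (by omega) (by omega)
        have c4 := t1 (e (k + 1)) c3 c1.le
        by_cases hk2 : Even k
        · rw [if_pos hk2]
          rw [if_neg (by rw [Nat.even_add_one]; simpa using hk2)] at c2
          exact ⟨c2, c4.2⟩
        · rw [if_neg hk2]
          rw [if_pos (Nat.even_add_one.2 hk2)] at c2
          exact ⟨c4.1, c2⟩
      · have hk2 : k = 2 * n := by omega
        rw [hk2, if_pos (by simp), hElast, t4]
        constructor <;> omega)
    (by rw [zero_add]; simp)
    (by
      unfold Lv
      rw [if_pos (by decide : Even 0), hElast, t4]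
      ring)
  exact ⟨u :: us, r1, r2, r3, r4⟩

end HexObs
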