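import Pool.Agent.Tight.Defs
import Pool.Agent.PHW.FirstCut
import Pool.Agent.PHW.Num3
import Pool.Agent.PHW.Num2
import Pool.Agent.PHW.Jump
import Pool.Agent.PHW.Cuts
import Pool.Agent.PHW.IrrDec

/-!
TIGHT, module TH5: the law of the half plane walk up to its first cut at or above T.
-/

set_option autoImplicit false

namespace HexObs

open Finset

open scoped ENNReal

/-- appending bridges of heights at most T (gf_FC for Brd T', summed over T') -/
theorem tk_append (P Q : Set (List Bool)) (T n : ℕ) :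
    (∑ j ∈ Icc T n, gf (FC T j ∩ P)) * (∑ i ∈ range (T + 1), gf (Brd i ∩ Q)) ≤
      ∑ T' ∈ range (n + T + 1), gf {g | g ∈ Brd T' ∧ ∃ j a u, j ≤ n ∧ j ≤ T' ∧ a ∈ FC T j ∧ a ∈ P ∧
        u ∈ Brd (T' - j) ∧ u ∈ Q ∧ g = a ++ u} := by
  classical
  rw [Finset.sum_mul_sum, ← Finset.sum_product']
  have hmaps : ∀ p ∈ Icc T n ×ˢ range (T + 1), p.1 + p.2 ∈ range (n + T + 1) := by
    intro p hp
    rw [Finset.mem_product, Finset.mem_Icc, Finset.mem_range] at hp
    rw [Finset.mem_range]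
    omega
  rw [← Finset.sum_fiberwise_of_maps_to hmaps]
  apply Finset.sum_le_sum
  intro T' _
  let C : ℕ × ℕ → Set (List Bool) := fun p => {g | ∃ a u, a ∈ FC T p.1 ∩ P ∧ u ∈ Brd p.2 ∩ Q ∧ g = a ++ u}
  have hC : ∀ p ∈ (Icc T n ×ˢ range (T + 1)).filter (fun p => p.1 + p.2 = T'),
      gf (FC T p.1 ∩ P) * gf (Brd p.2 ∩ Q) ≤ gf (C p) := by
    intro p _
    refine mul_le_gf (fun a ha b hb => ⟨a, b, ha, hb, rfl⟩) fun a ha b hb a' ha' b' hb' hab => ?_
    exact (FC_unique ha.1 ha'.1 hb.1 hb'.1 hab).1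
  refine (Finset.sum_le_sum hC).trans ?_
  rw [← gf_biUnion]
  · apply gf_mono
    intro g hg
    simp only [Set.mem_iUnion] at hg
    obtain ⟨p, hp, a, u, ha, hu, hg⟩ := hg
    rw [Finset.mem_filter, Finset.mem_product, Finset.mem_Icc, Finset.mem_range] at hp
    obtain ⟨⟨⟨hp1, hp2⟩, hp3⟩, hp4⟩ := hp
    refine ⟨?_, p.1, a, u, hp2, by omega, ha.1, ha.2, ?_, hu.2, hg⟩
    · rw [hg, ← hp4]
      exact Brd_append ha.1.1 hu.1
    · have : T' - p.1 = p.2 := by omega
      rw [this]
      exact hu.1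
  · intro p hp p' hp' hne
    rw [Set.disjoint_left]
    rintro g ⟨a, u, ha, hu, hg⟩ ⟨a', u', ha', hu', hg'⟩
    rw [Finset.mem_filter] at hp hp'
    apply hne
    have h1 := (FC_unique ha.1 ha'.1 hu.1 hu'.1 (hg.symm.trans hg')).1
    have h2 := ha.1.1
    rw [h1] at h2
    have h3 : p.1 = p'.1 := Brd_height h2 ha'.1.1
    exact Prod.ext h3 (by omega)

/-- the words of FC T j: a bridge up to the last cut below T and one irreducible word -/
private lemma LawK_FC_eq {T j : ℕ} (hT : 1 ≤ T) (hj : T ≤ j) :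
    FC T j = ⋃ c ∈ range T, {t | ∃ a p, a ∈ Brd c ∧ p ∈ Irr (j - c) ∧ t = a ++ p} := by
  ext t
  simp only [Set.mem_iUnion]
  constructor
  · rintro ⟨ht, _, hcut⟩
    obtain ⟨c, r, a, p, u, h1, h2, h3, ha, hp, hu, htt⟩ := jump_dec (s := T - 1) (n := j) (by omega) ht
    have h4 : c + r = j := by
      by_contra hne
      exact hcut (c + r) (by omega) (by omega) ⟨a ++ p, u, j - c - r, Brd_append ha hp.1, hu, htt⟩
    have h5 : j - c - r = 0 := by omega
    rw [h5, Brd_zero] at hu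
    have h6 : u = [] := hu
    refine ⟨c, Finset.mem_range.2 (by omega), a, p, ha, ?_, ?_⟩
    · have : j - c = r := by omega
      rw [this]
      exact hp
    · rw [htt, h6, List.append_nil]
  · rintro ⟨c, hc, a, p, ha, hp, rfl⟩
    rw [Finset.mem_range] at hc
    refine ⟨?_, hj, ?_⟩
    · have h1 := Brd_append ha hp.1
      have : c + (j - c) = j := by omega
      rwa [this] at h1
    · rintro c' h1 h2 ⟨s', u', b, hs', hu', h3⟩
      obtain ⟨v, hv, h4, h5⟩ := cut_nested ha hs' hp.1 hu' (by omega) h3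
      rcases hp.2.2 _ _ _ _ hv hu' h5 with h6 | h6
      · rw [h6] at hv
        have := Brd_height hv nil_mem_Brd
        omega
      · have h7 := Brd_append hs' hu'
        rw [← h3] at h7
        have h8 := Brd_append ha hp.1
        have h9 := Brd_height h7 h8
        rw [h6] at hu'
        have := Brd_height hu' nil_mem_Brd
        omega

private lemma LawK_gf_FC {T j : ℕ} (hT : 1 ≤ T) (hj : T ≤ j) :
    gf (FC T j) = ∑ c ∈ range T, BT c * kap' (j - c) := by
  rw [LawK_FC_eq hT hj, gf_biUnion]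
  · apply Finset.sum_congr rfl
    intro c hc
    rw [← gf_Brd]
    unfold kap'
    apply le_antisymm
    · apply gf_le_mul
      rintro t ⟨a, p, ha, hp, ht⟩
      exact ⟨a, ha, p, hp, ht⟩
    · rw [Finset.mem_range] at hc
      refine mul_le_gf (fun a ha b hb => ⟨a, b, ha, hb, rfl⟩) fun a ha b hb a' ha' b' hb' hab => ?_
      exact (cut_unique ha ha' hb.1 hb'.1 hab).1
  · intro c hc c' hc' hne
    rw [Finset.mem_range] at hc hc'
    rw [Set.disjoint_left]
    rintro t ⟨a, p, ha, hp, ht⟩ ⟨a', p', ha', hp', ht'⟩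
    apply hne
    have h1 : a ++ p ++ [] = a' ++ p' ++ [] := by
      rw [List.append_nil, List.append_nil, ← ht, ← ht']
    have h2 := (jump_unique (s := T - 1) (by omega) (by omega) (by omega) (by omega) ha hp nil_mem_Brd ha' hp'
      nil_mem_Brd h1).1
    rw [h2] at ha
    exact Brd_height ha ha'

private lemma LawK_FC_lt {T j : ℕ} (hj : j < T) : FC T j = ∅ := by
  ext t
  constructor
  · rintro ⟨_, h, _⟩
    omega
  · intro h
    exact absurd h (Set.notMem_empty t)

private lemma LawK_BT (c : ℕ) : BT c = ENNReal.ofReal (uu c) := by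
  unfold uu
  rw [ENNReal.ofReal_toReal]
  rcases Nat.eq_zero_or_pos c with rfl | h
  · rw [← gf_Brd, Brd_zero]
    unfold gf
    rw [tsum_singleton (f := wE)]
    unfold wE
    simp
  · exact ne_top_of_le_ne_top ENNReal.one_ne_top (BT_le_one h)

private lemma LawK_BT_ne_top (c : ℕ) : BT c ≠ ∞ := by
  rw [LawK_BT]
  exact ENNReal.ofReal_ne_top

private lemma LawK_kap (r : ℕ) : kap' r = ENNReal.ofReal (kk r) := by
  unfold kk
  rw [ENNReal.ofReal_toReal]
  refine ne_top_of_le_ne_top (LawK_BT_ne_top r) ?_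
  unfold kap'
  rw [← gf_Brd]
  exact gf_mono (fun t ht => ht.1)

/-- the sum of the weights of the irreducible words that jump at least to m -/
private lemma LawK_tail {c m : ℕ} (hc : c ≤ m) :
    ∑' j : ℕ, (if m ≤ j then kap' (j - c) else 0) = ENNReal.ofReal (KK' (m - c)) := by
  have h1 : ∑' j : ℕ, (if m ≤ j then kap' (j - c) else 0) = ∑' r : ℕ, kap' (r + (m - c)) := by
    rw [← Summable.sum_add_tsum_nat_add' (k := m) (f := fun j => if m ≤ j then kap' (j - c) else 0)
      ENNReal.summable]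
    have h2 : ∑ j ∈ range m, (if m ≤ j then kap' (j - c) else 0) = 0 := by
      apply Finset.sum_eq_zero
      intro j hj
      rw [Finset.mem_range] at hj
      rw [if_neg (by omega)]
    rw [h2, zero_add]
    apply tsum_congr
    intro r
    rw [if_pos (by omega)]
    congr 1
    omega
  rw [h1]
  have h3 : ∑' r : ℕ, kap' (r + (m - c)) = ENNReal.ofReal (∑' r : ℕ, kk (r + (m - c))) := by
    rw [ENNReal.ofReal_tsum_of_nonneg (fun r => kk_nonneg _) ((summable_nat_add_iff (m - c)).2 summable_kk)]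
    apply tsum_congr
    intro r
    exact LawK_kap _
  rw [h3]
  congr 1
  unfold KK'
  have h4 := summable_kk.sum_add_tsum_nat_add (m - c)
  rw [tsum_kk] at h4
  linarith

/-- the weight of the words whose first cut at or above T is at or above m -/
private lemma LawK_main {T m : ℕ} (hT : 1 ≤ T) (hm : T ≤ m) :
    gf {t | ∃ j, m ≤ j ∧ t ∈ FC T j} = ENNReal.ofReal (∑ y ∈ range T, uu y * KK' (m - y)) := by
  have h1 : {t | ∃ j, m ≤ j ∧ t ∈ FC T j} = ⋃ j : ℕ, {t | m ≤ j ∧ t ∈ FC T j} := by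
    ext t
    rw [Set.mem_iUnion]
    exact Iff.rfl
  have h2 : ∀ i j : ℕ, ∀ t, t ∈ {t | m ≤ i ∧ t ∈ FC T i} → t ∈ {t | m ≤ j ∧ t ∈ FC T j} → i = j := by
    rintro i j t ⟨_, hi⟩ ⟨_, hj⟩
    exact Brd_height hi.1 hj.1
  rw [h1, K1.gf_iUnion _ h2]
  have h3 : ∀ j : ℕ, gf {t | m ≤ j ∧ t ∈ FC T j} =
      ∑ c ∈ range T, BT c * (if m ≤ j then kap' (j - c) else 0) := by
    intro j
    by_cases hj : m ≤ j
    · have h4 : {t | m ≤ j ∧ t ∈ FC T j} = FC T j := by
        ext t
        exact ⟨fun h => h.2, fun h => ⟨hj, h⟩⟩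
      rw [h4, LawK_gf_FC hT (hm.trans hj)]
      apply Finset.sum_congr rfl
      intro c _
      rw [if_pos hj]
    · have h4 : {t | m ≤ j ∧ t ∈ FC T j} = ∅ := by
        ext t
        exact ⟨fun h => absurd h.1 hj, fun h => absurd h (Set.notMem_empty t)⟩
      rw [h4]
      have h5 : gf (∅ : Set (List Bool)) = 0 := by
        unfold gf
        simp
      rw [h5]
      symm
      apply Finset.sum_eq_zero
      intro c _
      rw [if_neg hj, mul_zero]
  simp_rw [h3]
  rw [Summable.tsum_finsetSum (fun _ _ => ENNReal.summable)]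
  rw [ENNReal.ofReal_sum_of_nonneg (fun y _ => mul_nonneg (uu_pos y).le (KK_nonneg _))]
  apply Finset.sum_congr rfl
  intro c hc
  rw [Finset.mem_range] at hc
  rw [ENNReal.tsum_mul_left, LawK_tail (by omega), LawK_BT, ENNReal.ofReal_mul (uu_pos c).le]

/-- the walk has a cut above T with probability one -/
theorem tsum_FCW (T : ℕ) : ∑' t : List Bool, (FCW T).indicator wE t = 1 := by
  have h0 : ∑' t : List Bool, (FCW T).indicator wE t = gf (FCW T) := by
    unfold gf
    exact (tsum_subtype (FCW T) wE).symm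
  rw [h0]
  rcases Nat.eq_zero_or_pos T with rfl | hT
  · have h1 : FCW 0 = {[]} := by
      ext t
      constructor
      · rintro ⟨j, hj, _, hcut⟩
        rcases Nat.eq_zero_or_pos j with rfl | h
        · rw [Brd_zero] at hj
          exact hj
        · exact absurd ⟨[], t, j, nil_mem_Brd, hj, rfl⟩ (hcut 0 le_rfl h)
      · intro h
        have h' : t = [] := h
        rw [h']
        exact ⟨0, nil_mem_Brd, le_rfl, fun c _ h2 => absurd h2 (Nat.not_lt_zero c)⟩
    rw [h1]
    unfold gf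
    rw [tsum_singleton (f := wE)]
    unfold wE
    simp
  · have h1 : FCW T = {t | ∃ j, T ≤ j ∧ t ∈ FC T j} := by
      ext t
      constructor
      · rintro ⟨j, hj⟩
        exact ⟨j, hj.2.1, hj⟩
      · rintro ⟨j, _, hj⟩
        exact ⟨j, hj⟩
    rw [h1, LawK_main hT le_rfl]
    have h2 := KK_renewal (T - 1)
    have h3 : T - 1 + 1 = T := by omega
    rw [h3] at h2
    rw [h2, ENNReal.ofReal_one]

/-- the probability that there is no cut in [T, K T] -/
theorem FCW_tail {K T : ℕ} (hK : 2 ≤ K) (hT : 1 ≤ T) :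
    gf {t | ∃ j, K * T < j ∧ t ∈ FC T j} ≤ ENNReal.ofReal (UU T / UU ((K - 1) * T)) := by
  have hKT : T ≤ K * T := Nat.le_mul_of_pos_left T (by omega)
  have h1 : {t | ∃ j, K * T < j ∧ t ∈ FC T j} = {t | ∃ j, K * T + 1 ≤ j ∧ t ∈ FC T j} := rfl
  rw [h1, LawK_main hT (by omega)]
  apply ENNReal.ofReal_le_ofReal
  have h2 := no_cut hKT
  have h3 : K * T - T = (K - 1) * T := by
    rw [Nat.sub_mul, one_mul]
  rw [h3] at h2
  refine le_trans ?_ h2
  rw [Finset.sum_range_succ]
  have h4 : 0 ≤ uu T * KK' (K * T + 1 - T) := mul_nonneg (uu_pos T).le (KK_nonneg _)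
  linarith

/-- UU T / UU (K T) tends to 0 as K tends to infinity, uniformly in T -/
theorem UU_ratio_inv (ε : ℝ) (hε : 0 < ε) : ∃ K : ℕ, 2 ≤ K ∧ ∀ T : ℕ, 1 ≤ T → UU T / UU ((K - 1) * T) ≤ ε := by
  have hC : 0 < CW := by
    have hs : 0 < Real.sqrt 2 - 1 := by
      have : 1 < Real.sqrt 2 := by
        rw [show (1 : ℝ) = Real.sqrt 1 from Real.sqrt_one.symm]
        exact Real.sqrt_lt_sqrt (by norm_num) (by norm_num)
      linarith
    unfold CW
    positivity
  have h1 : Filter.Tendsto (fun n : ℕ => (n : ℝ) ^ (1 / (6 + CW))) Filter.atTop Filter.atTop :=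
    (tendsto_rpow_atTop (by positivity : 0 < 1 / (6 + CW))).comp tendsto_natCast_atTop_atTop
  obtain ⟨n, hn1, hn⟩ := ((Filter.eventually_ge_atTop 1).and (h1.eventually_gt_atTop (2 / ε))).exists
  refine ⟨n + 1, by omega, ?_⟩
  intro T hT
  have hU : ∀ m : ℕ, 0 < UU m := by
    intro m
    unfold UU
    exact Finset.sum_pos (fun i _ => uu_pos i) ⟨0, by simp⟩
  rw [Nat.add_sub_cancel, div_le_iff₀ (hU _)]
  have hTT : T ≤ n * T := Nat.le_mul_of_pos_left T (by omega)
  have h2 := UU_growth hT hTT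
  have hT' : (0 : ℝ) < T := by exact_mod_cast hT
  have h3 : ((n * T : ℕ) : ℝ) / T = n := by
    push_cast
    field_simp
  rw [h3] at h2
  have h4 : UU T * (2 / ε) ≤ 2 * UU (n * T) := le_trans (mul_le_mul_of_nonneg_left hn.le (hU T).le) h2
  have h5 : UU T * (2 / ε) = 2 * (UU T / ε) := by ring
  rw [h5] at h4
  have h6 : UU T / ε ≤ UU (n * T) := by linarith
  rw [div_le_iff₀ hε] at h6
  linarith

end HexObs
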