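import Pool.Agent.Tight.GoodParts
import Pool.Agent.PHW.Mirror

/-!
TIGHT, module TH7: the probability that some slab is crossed too often.
-/

set_option autoImplicit false

namespace HexObs

open Finset

open scoped ENNReal

namespace TH7

lemma lat_zero (t : List Bool) : lat t 0 = 0 := by
  show -(cross up oo) = 0
  decide

lemma inBox_nil (B : ℕ) : InBox [] B := by
  intro i hi
  have : i = 0 := by
    rw [List.length_nil] at hi
    omega
  rw [this, lat_zero]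
  simp

lemma inBox_mono {t : List Bool} {B B' : ℕ} (h : InBox t B) (hB : B ≤ B') : InBox t B' := by
  intro i hi
  have h1 := h i hi
  have h2 : (B : ℤ) ≤ B' := by exact_mod_cast hB
  exact h1.trans h2

lemma inBox_left {a u : List Bool} {B : ℕ} (h : InBox (a ++ u) B) : InBox a B := by
  intro i hi
  have h1 := h i (by rw [List.length_append]; omega)
  rwa [lat_append (by omega)] at h1

lemma inBox_cat {j : ℕ} {a u : List Bool} (ha : a ∈ Brd j) {B B' : ℕ} (h : InBox a B) (h' : InBox u B') :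
    InBox (a ++ u) (B + B') := by
  intro i hi
  rw [List.length_append] at hi
  by_cases h0 : i ≤ a.length
  · rw [lat_append (by omega)]
    have h1 := h i h0
    have h2 : (0 : ℤ) ≤ (B' : ℤ) := Int.natCast_nonneg _
    push_cast
    linarith
  · obtain ⟨k, rfl⟩ : ∃ k, i = a.length + k := ⟨i - a.length, by omega⟩
    rw [lat_cat (mem_Brd.1 ha).2.2.1]
    have h1 := h a.length le_rfl
    have h2 := h' k (by omega)
    have h3 : |latE a + lat u k| ≤ |latE a| + |lat u k| := abs_add_le _ _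
    push_cast
    unfold latE at h3 ⊢
    linarith

lemma alt_left {f : List Bool → ℕ → ℤ} (hf : ∀ s t i, i ≤ s.length → f (s ++ t) i = f s i) {a u : List Bool}
    {x y : ℤ} {m : ℕ} (h : Tight.Alt (f a) a.length x y m) : Tight.Alt (f (a ++ u)) (a ++ u).length x y m := by
  obtain ⟨i, h1, h2, h3⟩ := h
  have hmono : ∀ k, k ≤ m → i k ≤ i m := by
    intro k hk
    have : ∀ l, k ≤ l → l ≤ m → i k ≤ i l := by
      intro l hl
      induction l, hl using Nat.le_induction with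
      | base => intro _; exact le_rfl
      | succ l _ ih => intro hl'; exact (ih (by omega)).trans (h1 l (by omega)).le
    exact this m hk le_rfl
  refine ⟨i, h1, ?_, ?_⟩
  · rw [List.length_append]
    omega
  · intro k hk
    have := h3 k hk
    have h4 := hmono k hk
    rw [hf a u (i k) (by omega)]
    exact this

lemma uu_nonneg (T : ℕ) : 0 ≤ uu T := ENNReal.toReal_nonneg

lemma BT_fin (T : ℕ) : BT T ≠ ⊤ := by
  rcases Nat.eq_zero_or_pos T with h | h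
  · rw [h, ← gf_Brd, Brd_zero]
    have : gf ({[]} : Set (List Bool)) = 1 := by
      unfold gf
      rw [tsum_singleton (f := wE)]
      unfold wE
      simp
    rw [this]
    exact ENNReal.one_ne_top
  · exact BT_ne_top h

lemma gf_Brd_uu (T : ℕ) : gf (Brd T) = ENNReal.ofReal (uu T) := by
  rw [gf_Brd]
  unfold uu
  rw [ENNReal.ofReal_toReal (BT_fin T)]

lemma UU_nonneg (T : ℕ) : 0 ≤ UU T := Finset.sum_nonneg fun t _ => uu_nonneg t

lemma UU_mul_le (n T : ℕ) : UU ((n + 1) * T) ≤ (n + 1) * UU T := by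
  induction n with
  | zero =>
    rw [zero_add, one_mul, Nat.cast_zero, zero_add, one_mul]
  | succ n ih =>
    have h1 : UU ((n + 1 + 1) * T) = UU ((n + 1) * T) + ∑ t ∈ range T, uu ((n + 1) * T + 1 + t) := by
      unfold UU
      rw [show (n + 1 + 1) * T + 1 = ((n + 1) * T + 1) + T by ring, Finset.sum_range_add]
    have h2 : ∑ t ∈ range T, uu ((n + 1) * T + 1 + t) ≤ ∑ t ∈ range T, uu t :=
      Finset.sum_le_sum fun t _ => uu_anti (by omega)
    have h3 : ∑ t ∈ range T, uu t ≤ UU T := by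
      unfold UU
      rw [Finset.sum_range_succ]
      have := uu_nonneg T
      linarith
    rw [h1]
    push_cast
    linarith

/-- lateral tail with monotone box -/
lemma tail {C c : ℝ} (h : ∀ T M : ℕ, 1 ≤ T →
    gf {g | g ∈ Brd T ∧ ¬ InBox g (M * T)} ≤ ENNReal.ofReal (C * Real.exp (-(c * M)) * uu T))
    (T M B : ℕ) (hB : M * T ≤ B) :
    gf {g | g ∈ Brd T ∧ ¬ InBox g B} ≤ ENNReal.ofReal (|C| * Real.exp (-(c * M)) * uu T) := by
  rcases Nat.eq_zero_or_pos T with h0 | h0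
  · have : {g | g ∈ Brd T ∧ ¬ InBox g B} = ∅ := by
      rw [Set.eq_empty_iff_forall_notMem]
      rintro g ⟨h1, h2⟩
      rw [h0, Brd_zero] at h1
      have h3 : g = [] := h1
      rw [h3] at h2
      exact h2 (inBox_nil B)
    rw [this]
    unfold gf
    simp
  · refine le_trans (gf_mono ?_) ((h T M h0).trans (ENNReal.ofReal_le_ofReal ?_))
    · rintro g ⟨h1, h2⟩
      exact ⟨h1, fun h3 => h2 (inBox_mono h3 hB)⟩
    · apply mul_le_mul_of_nonneg_right _ (uu_nonneg T)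
      apply mul_le_mul_of_nonneg_right _ (Real.exp_pos _).le
      exact le_abs_self C

lemma exists_small (D c ε : ℝ) (hc : 0 < c) (hε : 0 < ε) : ∃ M : ℕ, 1 ≤ M ∧ D * Real.exp (-(c * M)) ≤ ε := by
  have h1 : Filter.Tendsto (fun M : ℕ => D * Real.exp (-(c * M))) Filter.atTop (nhds (D * 0)) := by
    apply Filter.Tendsto.const_mul
    have h2 : Filter.Tendsto (fun M : ℕ => c * (M : ℝ)) Filter.atTop Filter.atTop :=
      Filter.Tendsto.const_mul_atTop hc tendsto_natCast_atTop_atTop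
    exact Real.tendsto_exp_neg_atTop_nhds_zero.comp h2
  rw [mul_zero] at h1
  have h3 := (h1.eventually (gt_mem_nhds hε)).and (Filter.eventually_ge_atTop 1)
  obtain ⟨M, h4, h5⟩ := h3.exists
  exact ⟨M, h5, h4.le⟩

end TH7

/-- lateral tail of the first cut words -/
theorem FC_box (h : LatTail) (K : ℕ) (ε : ℝ) (hε : 0 < ε) : ∃ B : ℕ, K ≤ B ∧ ∀ T : ℕ, 1 ≤ T →
    ∑ j ∈ Icc T (K * T), gf (FC T j ∩ {t | ¬ InBox t (B * T)}) ≤ ENNReal.ofReal ε := by
  obtain ⟨C, c, hc, hC⟩ := h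
  obtain ⟨M, hM1, hM2⟩ := TH7.exists_small (|C| * ((K : ℝ) + 1)) c ε hc hε
  refine ⟨M * (K + 1), by nlinarith, ?_⟩
  intro T hT
  have key := tk_append {t | ¬ InBox t (M * (K + 1) * T)} Set.univ T (K * T)
  have hUpos : 0 < UU T := by
    have h1 : uu 0 ≤ UU T := by
      unfold UU
      exact Finset.single_le_sum (f := fun t => uu t) (fun t _ => TH7.uu_nonneg t)
        (Finset.mem_range.2 (by omega))
    rw [uu_zero] at h1
    linarith
  have e1 : ∑ i ∈ range (T + 1), gf (Brd i ∩ Set.univ) = ENNReal.ofReal (UU T) := by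
    unfold UU
    rw [ENNReal.ofReal_sum_of_nonneg (fun i _ => TH7.uu_nonneg i)]
    apply Finset.sum_congr rfl
    intro i _
    rw [Set.inter_univ, TH7.gf_Brd_uu]
  have e2 : ∑ T' ∈ range (K * T + T + 1), gf {g | g ∈ Brd T' ∧ ∃ j a u, j ≤ K * T ∧ j ≤ T' ∧ a ∈ FC T j ∧
      a ∈ {t | ¬ InBox t (M * (K + 1) * T)} ∧ u ∈ Brd (T' - j) ∧ u ∈ Set.univ ∧ g = a ++ u} ≤
      ENNReal.ofReal (ε * UU T) := by
    calc _ ≤ ∑ T' ∈ range (K * T + T + 1), ENNReal.ofReal (|C| * Real.exp (-(c * M)) * uu T') := by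
          apply Finset.sum_le_sum
          intro T' hT'
          rw [Finset.mem_range] at hT'
          refine le_trans (gf_mono ?_) (TH7.tail hC T' M (M * (K + 1) * T) ?_)
          · rintro g ⟨h1, j, a, u, _, _, _, h2, _, _, h3⟩
            refine ⟨h1, fun h4 => h2 ?_⟩
            rw [h3] at h4
            exact TH7.inBox_left h4
          · have h1 : T' ≤ (K + 1) * T := by
              have : (K + 1) * T = K * T + T := by ring
              omega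
            calc M * T' ≤ M * ((K + 1) * T) := Nat.mul_le_mul_left M h1
              _ = M * (K + 1) * T := by ring
      _ = ENNReal.ofReal (|C| * Real.exp (-(c * M)) * UU ((K + 1) * T)) := by
          rw [← ENNReal.ofReal_sum_of_nonneg (fun i _ => mul_nonneg (by positivity) (TH7.uu_nonneg i)),
            ← Finset.mul_sum]
          have : K * T + T + 1 = (K + 1) * T + 1 := by ring
          rw [this]
          rfl
      _ ≤ ENNReal.ofReal (ε * UU T) := by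
          apply ENNReal.ofReal_le_ofReal
          calc |C| * Real.exp (-(c * M)) * UU ((K + 1) * T) ≤
              |C| * Real.exp (-(c * M)) * (((K : ℝ) + 1) * UU T) :=
                mul_le_mul_of_nonneg_left (TH7.UU_mul_le K T) (by positivity)
            _ = |C| * ((K : ℝ) + 1) * Real.exp (-(c * M)) * UU T := by ring
            _ ≤ ε * UU T := mul_le_mul_of_nonneg_right hM2 hUpos.le
  rw [e1] at key
  have h3 := key.trans e2
  rw [ENNReal.ofReal_mul hε.le] at h3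
  exact (ENNReal.mul_le_mul_iff_left (ENNReal.ofReal_pos.2 hUpos).ne' ENNReal.ofReal_ne_top).1 h3

/-- one slab: from Star by tk_append with Q = {u | InBox u (M T)}, M large (LatTail), n = K T, P = the crossing event -/
theorem FC_cross {f : List Bool → ℕ → ℤ} (hf : ∀ s t i, i ≤ s.length → f (s ++ t) i = f s i) (h : Star f)
    (hl : LatTail) : ∃ C : ℝ, 1 ≤ C ∧ ∀ (K T m : ℕ) (a b : ℤ), 1 ≤ K → 1 ≤ T → a < b →
    ∑ j ∈ Icc T (K * T), gf (FC T j ∩ {t | InBox t (K * T) ∧ Tight.Alt (f t) t.length a b m}) ≤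
      ENNReal.ofReal (Real.exp (C * (K + (K * T : ℝ) / ((b : ℝ) - a)) ^ C) * (1 / 2) ^ m) := by
  obtain ⟨C, hC1, hC⟩ := h
  obtain ⟨D, c, hc, hD⟩ := hl
  obtain ⟨M, hM1, hM2⟩ := TH7.exists_small |D| c (1 / 2) hc (by norm_num)
  have hM0 : (0 : ℝ) ≤ M := Nat.cast_nonneg M
  obtain ⟨C', hC'⟩ : ∃ C' : ℝ, C' = C * (1 + (M : ℝ)) ^ C + 1 := ⟨_, rfl⟩
  have hpw : 1 ≤ (1 + (M : ℝ)) ^ C := Real.one_le_rpow (by linarith) (by linarith)
  have hCC' : C ≤ C' := by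
    rw [hC']
    nlinarith
  refine ⟨C', by linarith, ?_⟩
  intro K T m a b hK hT hab
  have hba : (0 : ℝ) < (b : ℝ) - a := by
    have : (a : ℝ) < b := by exact_mod_cast hab
    linarith
  have hK' : (1 : ℝ) ≤ K := by exact_mod_cast hK
  have hT' : (1 : ℝ) ≤ T := by exact_mod_cast hT
  have hUpos : 0 < UU T := by
    have h1 : uu 0 ≤ UU T := by
      unfold UU
      exact Finset.single_le_sum (f := fun t => uu t) (fun t _ => TH7.uu_nonneg t)
        (Finset.mem_range.2 (by omega))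
    rw [uu_zero] at h1
    linarith
  have key := tk_append {t | InBox t (K * T) ∧ Tight.Alt (f t) t.length a b m} {u | InBox u (M * T)} T (K * T)
  -- lower bound for the second factor
  have e1 : ENNReal.ofReal (UU T / 2) ≤ ∑ i ∈ range (T + 1), gf (Brd i ∩ {u | InBox u (M * T)}) := by
    have h1 : ∀ i ∈ range (T + 1), ENNReal.ofReal (uu i / 2) ≤ gf (Brd i ∩ {u | InBox u (M * T)}) := by
      intro i hi
      rw [Finset.mem_range] at hi
      have h2 : gf (Brd i) ≤ gf (Brd i ∩ {u | InBox u (M * T)}) + gf {g | g ∈ Brd i ∧ ¬ InBox g (M * T)} := by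
        refine le_trans (gf_mono ?_) (gf_union_le _ _)
        intro g hg
        by_cases h3 : InBox g (M * T)
        · exact Or.inl ⟨hg, h3⟩
        · exact Or.inr ⟨hg, h3⟩
      have h4 := TH7.tail hD i M (M * T) (Nat.mul_le_mul_left M (by omega))
      have h5 : ENNReal.ofReal (|D| * Real.exp (-(c * M)) * uu i) ≤ ENNReal.ofReal (uu i / 2) := by
        apply ENNReal.ofReal_le_ofReal
        have := mul_le_mul_of_nonneg_right hM2 (TH7.uu_nonneg i)
        linarith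
      rw [TH7.gf_Brd_uu] at h2
      have h6 : ENNReal.ofReal (uu i) = ENNReal.ofReal (uu i / 2) + ENNReal.ofReal (uu i / 2) := by
        have h0 := TH7.uu_nonneg i
        rw [← ENNReal.ofReal_add (by linarith) (by linarith)]
        congr 1
        ring
      have h7 : ENNReal.ofReal (uu i / 2) + ENNReal.ofReal (uu i / 2) ≤
          gf (Brd i ∩ {u | InBox u (M * T)}) + ENNReal.ofReal (uu i / 2) := by
        rw [← h6]
        exact h2.trans (by gcongr; exact h4.trans h5)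
      exact (ENNReal.add_le_add_iff_right ENNReal.ofReal_ne_top).1 h7
    have h2 : UU T / 2 = ∑ i ∈ range (T + 1), uu i / 2 := by
      unfold UU
      rw [Finset.sum_div]
    rw [h2, ENNReal.ofReal_sum_of_nonneg (fun i _ => by have := TH7.uu_nonneg i; linarith)]
    exact Finset.sum_le_sum h1
  -- upper bound
  have hKM : 1 ≤ K + M := by omega
  have e2 : ∑ T' ∈ range (K * T + T + 1), gf {g | g ∈ Brd T' ∧ ∃ j x u, j ≤ K * T ∧ j ≤ T' ∧ x ∈ FC T j ∧
      x ∈ {t | InBox t (K * T) ∧ Tight.Alt (f t) t.length a b m} ∧ u ∈ Brd (T' - j) ∧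
      u ∈ {u | InBox u (M * T)} ∧ g = x ++ u} ≤
      ENNReal.ofReal (UU T * (Real.exp (C * (((K + M : ℕ) : ℝ) + (((K + M : ℕ) : ℝ) * T : ℝ) /
        ((b : ℝ) - a)) ^ C) * (1 / 2) ^ m)) := by
    refine le_trans ?_ (hC (K + M) T m a b hKM hT hab)
    have hsub : range (K * T + T + 1) ⊆ range ((K + M) * T + 1) := by
      apply Finset.range_subset_range.2
      have : 1 * T ≤ M * T := Nat.mul_le_mul_right T hM1
      have h2 : (K + M) * T = K * T + M * T := by ring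
      omega
    refine le_trans (Finset.sum_le_sum_of_subset hsub) ?_
    apply Finset.sum_le_sum
    intro T' _
    apply gf_mono
    rintro g ⟨h1, j, x, u, _, _, h2, h3, _, h4, h5⟩
    refine ⟨h1, ?_, ?_⟩
    · rw [h5]
      have h6 := TH7.inBox_cat h2.1 h3.1 h4
      have h7 : K * T + M * T = (K + M) * T := by ring
      rwa [h7] at h6
    · rw [h5]
      exact TH7.alt_left hf h3.2
  have h3 : (∑ j ∈ Icc T (K * T), gf (FC T j ∩ {t | InBox t (K * T) ∧ Tight.Alt (f t) t.length a b m})) *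
      ENNReal.ofReal (UU T / 2) ≤ ENNReal.ofReal (UU T * (Real.exp (C * (((K + M : ℕ) : ℝ) +
        (((K + M : ℕ) : ℝ) * T : ℝ) / ((b : ℝ) - a)) ^ C) * (1 / 2) ^ m)) := by
    refine le_trans ?_ (key.trans e2)
    gcongr
  -- numbers
  obtain ⟨y, hy⟩ : ∃ y : ℝ, y = (K : ℝ) + (K * T : ℝ) / ((b : ℝ) - a) := ⟨_, rfl⟩
  have hy1 : 1 ≤ y := by
    rw [hy]
    have : 0 ≤ (K * T : ℝ) / ((b : ℝ) - a) := by positivity
    linarith
  have hle : ((K + M : ℕ) : ℝ) + (((K + M : ℕ) : ℝ) * T : ℝ) / ((b : ℝ) - a) ≤ (1 + (M : ℝ)) * y := by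
    have h4 : ((K + M : ℕ) : ℝ) ≤ (1 + (M : ℝ)) * K := by
      push_cast
      nlinarith
    have h5 : (((K + M : ℕ) : ℝ) * T : ℝ) / ((b : ℝ) - a) ≤ (1 + (M : ℝ)) * ((K * T : ℝ) / ((b : ℝ) - a)) := by
      rw [← mul_div_assoc]
      apply div_le_div_of_nonneg_right _ hba.le
      calc ((K + M : ℕ) : ℝ) * T ≤ (1 + (M : ℝ)) * K * T := mul_le_mul_of_nonneg_right h4 (by linarith)
        _ = (1 + (M : ℝ)) * (K * T) := by ring
    rw [hy, mul_add]
    linarith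
  have hexp : 2 * Real.exp (C * (((K + M : ℕ) : ℝ) + (((K + M : ℕ) : ℝ) * T : ℝ) / ((b : ℝ) - a)) ^ C) ≤
      Real.exp (C' * y ^ C') := by
    have h2 : (2 : ℝ) ≤ Real.exp 1 := by
      have := Real.add_one_le_exp (1 : ℝ)
      linarith
    have h4 : C * (((K + M : ℕ) : ℝ) + (((K + M : ℕ) : ℝ) * T : ℝ) / ((b : ℝ) - a)) ^ C ≤
        C * (1 + (M : ℝ)) ^ C * y ^ C := by
      rw [mul_assoc, ← Real.mul_rpow (by linarith) (by linarith)]
      apply mul_le_mul_of_nonneg_left _ (by linarith)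
      apply Real.rpow_le_rpow _ hle (by linarith)
      positivity
    have h5 : y ^ C ≤ y ^ C' := Real.rpow_le_rpow_of_exponent_le hy1 hCC'
    have h6 : 1 ≤ y ^ C' := Real.one_le_rpow hy1 (by linarith)
    have h7 : C * (1 + (M : ℝ)) ^ C * y ^ C ≤ C * (1 + (M : ℝ)) ^ C * y ^ C' :=
      mul_le_mul_of_nonneg_left h5 (by positivity)
    calc 2 * Real.exp (C * (((K + M : ℕ) : ℝ) + (((K + M : ℕ) : ℝ) * T : ℝ) / ((b : ℝ) - a)) ^ C) ≤
        Real.exp 1 * Real.exp (C * (1 + (M : ℝ)) ^ C * y ^ C') :=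
          mul_le_mul h2 (Real.exp_le_exp.2 (h4.trans h7)) (Real.exp_pos _).le (Real.exp_pos _).le
      _ = Real.exp (1 + C * (1 + (M : ℝ)) ^ C * y ^ C') := (Real.exp_add _ _).symm
      _ ≤ Real.exp (C' * y ^ C') := by
          apply Real.exp_le_exp.2
          have : C' * y ^ C' = C * (1 + (M : ℝ)) ^ C * y ^ C' + y ^ C' := by
            rw [hC']
            ring
          rw [this]
          linarith
  rw [← hy]
  have h4 : ENNReal.ofReal (UU T * (Real.exp (C * (((K + M : ℕ) : ℝ) +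
        (((K + M : ℕ) : ℝ) * T : ℝ) / ((b : ℝ) - a)) ^ C) * (1 / 2) ^ m)) ≤
      ENNReal.ofReal (Real.exp (C' * y ^ C') * (1 / 2) ^ m) * ENNReal.ofReal (UU T / 2) := by
    rw [← ENNReal.ofReal_mul (by positivity)]
    apply ENNReal.ofReal_le_ofReal
    have h5 := mul_le_mul_of_nonneg_right hexp (show 0 ≤ (1 / 2 : ℝ) ^ m * (UU T / 2) by positivity)
    calc _ = 2 * Real.exp (C * (((K + M : ℕ) : ℝ) + (((K + M : ℕ) : ℝ) * T : ℝ) / ((b : ℝ) - a)) ^ C) *
          ((1 / 2 : ℝ) ^ m * (UU T / 2)) := by ring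
      _ ≤ Real.exp (C' * y ^ C') * ((1 / 2 : ℝ) ^ m * (UU T / 2)) := h5
      _ = _ := by ring
  exact (ENNReal.mul_le_mul_iff_left (ENNReal.ofReal_pos.2 (by linarith)).ne' ENNReal.ofReal_ne_top).1 (h3.trans h4)

/-- the good event of the scales k, 2^k ≤ T, with at most M 2^(s k) crossings -/
def GoodW (K : ℕ) (M s : ℝ) (T : ℕ) (t : List Bool) : Prop :=
  (∃ j ≤ K * T, t ∈ FC T j) ∧ InBox t (K * T) ∧ ∀ k : ℕ, 2 ^ k ≤ T →
    ∀ i ∈ Finset.Ico (-(4 * K * 2 ^ k : ℤ)) (4 * K * 2 ^ k),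
      ¬ Tight.Alt (lev t) t.length ⌊(i : ℝ) * (T / 2 ^ k)⌋ ⌈((i : ℝ) + 1) * (T / 2 ^ k)⌉
        ⌈M * ((2 : ℝ) ^ k) ^ s⌉₊ ∧
      ¬ Tight.Alt (lev2 t) t.length ⌊(i : ℝ) * (T / 2 ^ k)⌋ ⌈((i : ℝ) + 1) * (T / 2 ^ k)⌉
        ⌈M * ((2 : ℝ) ^ k) ^ s⌉₊

private lemma TH7b_term {C B ε : ℝ} (hC : 1 ≤ C) (hB : 1 ≤ B) (hε : 0 < ε) : ∃ M : ℝ, 1 ≤ M ∧ ∀ k : ℕ,
    16 * B * 2 ^ k * (Real.exp (C * (B * 2 ^ k) ^ C) * (1 / 2) ^ ⌈M * ((2 : ℝ) ^ k) ^ (C + 2)⌉₊) ≤
      ε * (1 / 2) ^ (k + 1) := by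
  have hL : 0 < Real.log 2 := Real.log_pos one_lt_two
  have hL1 : Real.log 2 ≤ 1 := by have := Real.log_two_lt_d9; linarith
  set Q : ℝ := 64 * B / ε + 1 with hQ
  have hQ0 : 0 ≤ 64 * B / ε := by positivity
  have hQ1 : 1 ≤ Q := by linarith
  refine ⟨(C * B ^ C + Q) / Real.log 2, ?_, fun k => ?_⟩
  · rw [le_div_iff₀ hL]
    have : 0 ≤ C * B ^ C := by positivity
    linarith
  · set x : ℝ := 2 ^ k with hx
    have hx1 : 1 ≤ x := one_le_pow₀ one_le_two
    have hx0 : 0 < x := by positivity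
    have h1 : x ^ C ≤ x ^ (C + 2) := Real.rpow_le_rpow_of_exponent_le hx1 (by linarith)
    have h2 : x ≤ x ^ (C + 2) := by
      calc x = x ^ (1 : ℝ) := (Real.rpow_one x).symm
        _ ≤ _ := Real.rpow_le_rpow_of_exponent_le hx1 (by linarith)
    have h3 : (B * x) ^ C = B ^ C * x ^ C := Real.mul_rpow (by linarith) hx0.le
    set m := ⌈(C * B ^ C + Q) / Real.log 2 * x ^ (C + 2)⌉₊ with hm
    have h4 : (C * B ^ C + Q) / Real.log 2 * x ^ (C + 2) ≤ m := Nat.le_ceil _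
    have h5 : (1 / 2 : ℝ) ^ m = Real.exp (-(Real.log 2 * m)) := by
      rw [Real.exp_neg, Real.exp_mul, Real.exp_log two_pos, Real.rpow_natCast]
      simp
    have h6 : (C * B ^ C + Q) * x ^ (C + 2) ≤ Real.log 2 * m := by
      have := mul_le_mul_of_nonneg_left h4 hL.le
      calc _ = Real.log 2 * ((C * B ^ C + Q) / Real.log 2 * x ^ (C + 2)) := by field_simp
        _ ≤ _ := this
    rw [h5, ← Real.exp_add]
    have h7 : C * (B * x) ^ C + -(Real.log 2 * m) ≤ -(Q * x) := by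
      rw [h3]
      have h71 : C * (B ^ C * x ^ C) ≤ C * B ^ C * x ^ (C + 2) := by
        rw [mul_assoc]
        gcongr
      have h72 : Q * x ≤ Q * x ^ (C + 2) := by gcongr
      nlinarith
    have h8 : Real.exp (-(Q * x)) ≤ 2 / (Q * x) ^ 2 := by
      rw [Real.exp_neg, inv_eq_one_div, div_le_div_iff₀ (Real.exp_pos _) (by positivity)]
      have hQx : 0 ≤ Q * x := by positivity
      have := Real.quadratic_le_exp_of_nonneg hQx
      nlinarith
    calc _ ≤ 16 * B * x * (2 / (Q * x) ^ 2) := by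
          gcongr
          exact (Real.exp_le_exp.2 h7).trans h8
      _ = 32 * B / Q ^ 2 / x := by field_simp; ring
      _ ≤ (ε / 2) / x := by
          refine div_le_div_of_nonneg_right ?_ hx0.le
          rw [div_le_iff₀ (by positivity)]
          have h9 : 64 * B ≤ ε * Q := by
            rw [hQ]
            have : ε * (64 * B / ε + 1) = 64 * B + ε := by field_simp
            rw [this]
            linarith
          have h10 : ε * Q ≤ ε * Q ^ 2 := by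
            gcongr
            nlinarith
          linarith
      _ = ε * (1 / 2) ^ (k + 1) := by
          rw [hx, pow_succ, one_div, inv_pow]
          field_simp

private lemma TH7b_slab {T k : ℕ} (hT : 1 ≤ T) (i : ℤ) :
    ⌊(i : ℝ) * (T / 2 ^ k)⌋ < ⌈((i : ℝ) + 1) * (T / 2 ^ k)⌉ ∧
      (T : ℝ) / 2 ^ k ≤ (⌈((i : ℝ) + 1) * (T / 2 ^ k)⌉ : ℝ) - ⌊(i : ℝ) * (T / 2 ^ k)⌋ := by
  have h0 : (0 : ℝ) < T / 2 ^ k := by
    have : (0 : ℝ) < T := by exact_mod_cast hT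
    positivity
  have h1 := Int.floor_le ((i : ℝ) * (T / 2 ^ k))
  have h2 := Int.le_ceil (((i : ℝ) + 1) * (T / 2 ^ k))
  have h3 : (T : ℝ) / 2 ^ k ≤ (⌈((i : ℝ) + 1) * (T / 2 ^ k)⌉ : ℝ) - ⌊(i : ℝ) * (T / 2 ^ k)⌋ := by nlinarith
  refine ⟨?_, h3⟩
  have h4 : (⌊(i : ℝ) * (T / 2 ^ k)⌋ : ℝ) < ⌈((i : ℝ) + 1) * (T / 2 ^ k)⌉ := by linarith
  exact_mod_cast h4

/-- the event that a slab of the scale k is crossed too often -/
private def TH7b_ev (f : List Bool → ℕ → ℤ) (B T m k : ℕ) (i : ℤ) : Set (List Bool) :=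
  {t | InBox t (B * T) ∧ Tight.Alt (f t) t.length ⌊(i : ℝ) * (T / 2 ^ k)⌋ ⌈((i : ℝ) + 1) * (T / 2 ^ k)⌉ m}

private lemma TH7b_one {f : List Bool → ℕ → ℤ} {C C' : ℝ} (hC : 1 ≤ C) (hCC : C ≤ C')
    (h : ∀ (K T m : ℕ) (a b : ℤ), 1 ≤ K → 1 ≤ T → a < b →
      ∑ j ∈ Icc T (K * T), gf (FC T j ∩ {t | InBox t (K * T) ∧ Tight.Alt (f t) t.length a b m}) ≤
        ENNReal.ofReal (Real.exp (C * (K + (K * T : ℝ) / ((b : ℝ) - a)) ^ C) * (1 / 2) ^ m))
    {B T : ℕ} (hB : 1 ≤ B) (hT : 1 ≤ T) (m k : ℕ) (i : ℤ) :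
    ∑ j ∈ Icc T (B * T), gf (FC T j ∩ TH7b_ev f B T m k i) ≤
      ENNReal.ofReal (Real.exp (C' * ((2 * B : ℝ) * 2 ^ k) ^ C') * (1 / 2) ^ m) := by
  obtain ⟨h1, h2⟩ := TH7b_slab (k := k) hT i
  refine (h B T m _ _ hB hT h1).trans (ENNReal.ofReal_le_ofReal ?_)
  have hB' : (1 : ℝ) ≤ B := by exact_mod_cast hB
  have hT' : (1 : ℝ) ≤ T := by exact_mod_cast hT
  have h0 : (0 : ℝ) < T / 2 ^ k := by positivity
  have h1k : (1 : ℝ) ≤ 2 ^ k := one_le_pow₀ one_le_two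
  have hpos : (0 : ℝ) < (⌈((i : ℝ) + 1) * (T / 2 ^ k)⌉ : ℝ) - ⌊(i : ℝ) * (T / 2 ^ k)⌋ := by linarith
  have h3 : (B : ℝ) + (B * T : ℝ) / ((⌈((i : ℝ) + 1) * (T / 2 ^ k)⌉ : ℝ) - ⌊(i : ℝ) * (T / 2 ^ k)⌋) ≤
      2 * B * 2 ^ k := by
    have : (B * T : ℝ) / ((⌈((i : ℝ) + 1) * (T / 2 ^ k)⌉ : ℝ) - ⌊(i : ℝ) * (T / 2 ^ k)⌋) ≤ B * 2 ^ k := by
      rw [div_le_iff₀ hpos]
      calc (B * T : ℝ) = B * 2 ^ k * (T / 2 ^ k) := by field_simp
        _ ≤ _ := by gcongr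
    nlinarith
  have h4 : 0 ≤ (B : ℝ) + (B * T : ℝ) / ((⌈((i : ℝ) + 1) * (T / 2 ^ k)⌉ : ℝ) - ⌊(i : ℝ) * (T / 2 ^ k)⌋) := by
    positivity
  have h5 : (1 : ℝ) ≤ 2 * B * 2 ^ k := by nlinarith
  have h6 : ((B : ℝ) + (B * T : ℝ) / ((⌈((i : ℝ) + 1) * (T / 2 ^ k)⌉ : ℝ) - ⌊(i : ℝ) * (T / 2 ^ k)⌋)) ^ C ≤
      ((2 * B : ℝ) * 2 ^ k) ^ C' :=
    (Real.rpow_le_rpow h4 h3 (by linarith)).trans (Real.rpow_le_rpow_of_exponent_le h5 hCC)
  have h7 : 0 ≤ ((B : ℝ) + (B * T : ℝ) / ((⌈((i : ℝ) + 1) * (T / 2 ^ k)⌉ : ℝ) - ⌊(i : ℝ) * (T / 2 ^ k)⌋)) ^ C := by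
    positivity
  have h8 : C * ((B : ℝ) + (B * T : ℝ) / ((⌈((i : ℝ) + 1) * (T / 2 ^ k)⌉ : ℝ) - ⌊(i : ℝ) * (T / 2 ^ k)⌋)) ^ C ≤
      C' * ((2 * B : ℝ) * 2 ^ k) ^ C' := mul_le_mul hCC h6 h7 (by linarith)
  exact mul_le_mul_of_nonneg_right (Real.exp_le_exp.2 h8) (by positivity)

private lemma TH7b_lev (s t : List Bool) (i : ℕ) (hi : i ≤ s.length) : lev (s ++ t) i = lev s i :=
  lev_append (by omega)

private lemma TH7b_lev2 (s t : List Bool) (i : ℕ) (hi : i ≤ s.length) : lev2 (s ++ t) i = lev2 s i := by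
  unfold lev2
  rw [vx_append (by omega)]

theorem prob_good (h1 : Star lev) (h2 : Star lev2) (h3 : LatTail) : ∃ s : ℝ, 1 ≤ s ∧ ∀ ε : ℝ, 0 < ε →
    ∃ (K : ℕ) (M : ℝ), 1 ≤ K ∧ 1 ≤ M ∧ ∀ T : ℕ, 1 ≤ T →
      gf {t | t ∈ FCW T ∧ ¬ GoodW K M s T t} ≤ ENNReal.ofReal ε := by
  obtain ⟨C1, hC1, hc1⟩ := FC_cross TH7b_lev h1 h3
  obtain ⟨C2, hC2, hc2⟩ := FC_cross TH7b_lev2 h2 h3
  set C := max C1 C2 with hC
  have hC' : 1 ≤ C := le_max_of_le_left hC1
  refine ⟨C + 2, by linarith, fun ε hε => ?_⟩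
  obtain ⟨K0, hK0, hU⟩ := UU_ratio_inv (ε / 3) (by positivity)
  obtain ⟨B, hB0, hBox⟩ := FC_box h3 K0 (ε / 3) (by positivity)
  have hB : 1 ≤ B := by omega
  have hB' : (1 : ℝ) ≤ B := by exact_mod_cast hB
  obtain ⟨M, hM, hterm⟩ := TH7b_term (B := 2 * B) hC' (by linarith) (ε := ε / 3) (by positivity)
  refine ⟨B, M, hB, hM, fun T hT => ?_⟩
  set m : ℕ → ℕ := fun k => ⌈M * ((2 : ℝ) ^ k) ^ (C + 2)⌉₊ with hm
  -- the three bad events
  have hsub : {t | t ∈ FCW T ∧ ¬ GoodW B M (C + 2) T t} ⊆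
      {t | ∃ j, K0 * T < j ∧ t ∈ FC T j} ∪ ((⋃ j ∈ Icc T (K0 * T), FC T j ∩ {t | ¬ InBox t (B * T)}) ∪
        ⋃ k : ℕ, ⋃ i ∈ Finset.Ico (-(4 * B * 2 ^ k : ℤ)) (4 * B * 2 ^ k),
          ((⋃ j ∈ Icc T (B * T), FC T j ∩ TH7b_ev lev B T (m k) k i) ∪
            (⋃ j ∈ Icc T (B * T), FC T j ∩ TH7b_ev lev2 B T (m k) k i))) := by
    rintro t ⟨⟨j, hj⟩, hbad⟩
    by_cases h5 : K0 * T < j
    · exact Or.inl ⟨j, h5, hj⟩
    push Not at h5
    have hTj : T ≤ j := hj.2.1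
    have hjB : j ≤ B * T := h5.trans (Nat.mul_le_mul_right T hB0)
    refine Or.inr ?_
    by_cases h6 : InBox t (B * T)
    · refine Or.inr ?_
      have h7 : ¬ ∀ k : ℕ, 2 ^ k ≤ T → ∀ i ∈ Finset.Ico (-(4 * B * 2 ^ k : ℤ)) (4 * B * 2 ^ k),
          ¬ Tight.Alt (lev t) t.length ⌊(i : ℝ) * (T / 2 ^ k)⌋ ⌈((i : ℝ) + 1) * (T / 2 ^ k)⌉
            ⌈M * ((2 : ℝ) ^ k) ^ (C + 2)⌉₊ ∧
          ¬ Tight.Alt (lev2 t) t.length ⌊(i : ℝ) * (T / 2 ^ k)⌋ ⌈((i : ℝ) + 1) * (T / 2 ^ k)⌉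
            ⌈M * ((2 : ℝ) ^ k) ^ (C + 2)⌉₊ := fun h => hbad ⟨⟨j, hjB, hj⟩, h6, h⟩
      push Not at h7
      obtain ⟨k, _, i, hi, h8⟩ := h7
      simp only [Set.mem_iUnion]
      refine ⟨k, i, hi, ?_⟩
      by_cases h9 : Tight.Alt (lev t) t.length ⌊(i : ℝ) * (T / 2 ^ k)⌋ ⌈((i : ℝ) + 1) * (T / 2 ^ k)⌉
            ⌈M * ((2 : ℝ) ^ k) ^ (C + 2)⌉₊
      · refine Or.inl ?_
        simp only [Set.mem_iUnion]
        exact ⟨j, Finset.mem_Icc.2 ⟨hTj, hjB⟩, hj, h6, h9⟩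
      · refine Or.inr ?_
        simp only [Set.mem_iUnion]
        exact ⟨j, Finset.mem_Icc.2 ⟨hTj, hjB⟩, hj, h6, h8 h9⟩
    · refine Or.inl ?_
      simp only [Set.mem_iUnion]
      exact ⟨j, Finset.mem_Icc.2 ⟨hTj, h5⟩, hj, h6⟩
  have hA1 : gf {t | ∃ j, K0 * T < j ∧ t ∈ FC T j} ≤ ENNReal.ofReal (ε / 3) :=
    (FCW_tail hK0 hT).trans (ENNReal.ofReal_le_ofReal (hU T hT))
  have hA2 : gf (⋃ j ∈ Icc T (K0 * T), FC T j ∩ {t | ¬ InBox t (B * T)}) ≤ ENNReal.ofReal (ε / 3) :=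
    (ENNReal.tsum_biUnion_le wE _ _).trans (hBox T hT)
  have hev : ∀ (k : ℕ) (i : ℤ), gf ((⋃ j ∈ Icc T (B * T), FC T j ∩ TH7b_ev lev B T (m k) k i) ∪
      (⋃ j ∈ Icc T (B * T), FC T j ∩ TH7b_ev lev2 B T (m k) k i)) ≤
      ENNReal.ofReal (2 * (Real.exp (C * ((2 * B : ℝ) * 2 ^ k) ^ C) * (1 / 2) ^ (m k))) := by
    intro k i
    refine (gf_union_le _ _).trans ?_
    rw [two_mul, ENNReal.ofReal_add (by positivity) (by positivity)]
    exact add_le_add
      ((ENNReal.tsum_biUnion_le wE _ _).trans (TH7b_one hC1 (le_max_left _ _) hc1 hB hT (m k) k i))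
      ((ENNReal.tsum_biUnion_le wE _ _).trans (TH7b_one hC2 (le_max_right _ _) hc2 hB hT (m k) k i))
  have hA3 : gf (⋃ k : ℕ, ⋃ i ∈ Finset.Ico (-(4 * B * 2 ^ k : ℤ)) (4 * B * 2 ^ k),
          ((⋃ j ∈ Icc T (B * T), FC T j ∩ TH7b_ev lev B T (m k) k i) ∪
            (⋃ j ∈ Icc T (B * T), FC T j ∩ TH7b_ev lev2 B T (m k) k i))) ≤ ENNReal.ofReal (ε / 3) := by
    refine (ENNReal.tsum_iUnion_le_tsum wE _).trans ?_
    calc _ ≤ ∑' k : ℕ, ENNReal.ofReal ((ε / 3) * (1 / 2) ^ (k + 1)) := by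
          refine ENNReal.tsum_le_tsum fun k => ?_
          refine (ENNReal.tsum_biUnion_le wE _ _).trans ?_
          refine (Finset.sum_le_sum fun i _ => hev k i).trans ?_
          rw [Finset.sum_const, Int.card_Ico, nsmul_eq_mul]
          have h9 : ((4 * B * 2 ^ k : ℤ) - -(4 * B * 2 ^ k : ℤ)).toNat = 8 * B * 2 ^ k := by
            have : ((4 * B * 2 ^ k : ℤ) - -(4 * B * 2 ^ k : ℤ)) = ((8 * B * 2 ^ k : ℕ) : ℤ) := by
              push_cast
              ring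
            rw [this, Int.toNat_natCast]
          rw [h9, ← ENNReal.ofReal_natCast, ← ENNReal.ofReal_mul (by positivity)]
          refine ENNReal.ofReal_le_ofReal ?_
          refine le_trans ?_ (hterm k)
          push_cast
          have hnn : 0 ≤ Real.exp (C * ((2 * B : ℝ) * 2 ^ k) ^ C) * (1 / 2) ^ (m k) := by positivity
          have h2k : (0 : ℝ) ≤ B * 2 ^ k := by positivity
          have h2k2 : (0 : ℝ) ≤ B * 2 ^ k * (Real.exp (C * ((2 * B : ℝ) * 2 ^ k) ^ C) * (1 / 2) ^ (m k)) :=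
            mul_nonneg h2k hnn
          have e1 : 8 * (B : ℝ) * 2 ^ k * (2 * (Real.exp (C * ((2 * B : ℝ) * 2 ^ k) ^ C) * (1 / 2) ^ (m k))) =
              16 * (B * 2 ^ k * (Real.exp (C * ((2 * B : ℝ) * 2 ^ k) ^ C) * (1 / 2) ^ (m k))) := by ring
          have e2 : 16 * (2 * (B : ℝ)) * 2 ^ k * (Real.exp (C * ((2 * B : ℝ) * 2 ^ k) ^ C) * (1 / 2) ^ (m k)) =
              32 * (B * 2 ^ k * (Real.exp (C * ((2 * B : ℝ) * 2 ^ k) ^ C) * (1 / 2) ^ (m k))) := by ring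
          rw [e1]
          refine le_trans ?_ (le_of_eq e2.symm)
          linarith
      _ = ENNReal.ofReal (ε / 3) := by
          rw [← ENNReal.ofReal_tsum_of_nonneg (fun k => by positivity)]
          · congr 1
            rw [tsum_mul_left]
            have : ∑' k : ℕ, (1 / 2 : ℝ) ^ (k + 1) = 1 := by
              simp_rw [pow_succ]
              rw [tsum_mul_right, tsum_geometric_two]
              norm_num
            rw [this, mul_one]
          · refine Summable.mul_left _ ?_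
            exact (summable_nat_add_iff 1).2 summable_geometric_two
  calc _ ≤ _ := gf_mono hsub
    _ ≤ _ := gf_union_le _ _
    _ ≤ ENNReal.ofReal (ε / 3) + (ENNReal.ofReal (ε / 3) + ENNReal.ofReal (ε / 3)) :=
        add_le_add hA1 ((gf_union_le _ _).trans (add_le_add hA2 hA3))
    _ = ENNReal.ofReal ε := by
        rw [← ENNReal.ofReal_add (by positivity) (by positivity),
          ← ENNReal.ofReal_add (by positivity) (by positivity)]
        congr 1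
        ring

end HexObs
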