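import Pool.Agent.Tight.Prob
import Pool.Agent.Tight.LatT

/-!
TIGHT, touching the boundary, part 1: the half plane walk near its starting point, first cuts.
-/

set_option autoImplicit false

namespace HexObs

open Finset

open scoped ENNReal

namespace Touch

lemma gf_FCW (T : ℕ) : gf (FCW T) = 1 := by
  rw [← tsum_FCW T]
  unfold gf
  exact tsum_subtype (FCW T) wE

/-- the first cut at or above s of a word with its first cut at or above T ≥ s -/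
lemma dec {s T : ℕ} (hs : s ≤ T) {t : List Bool} (ht : t ∈ FCW T) :
    ∃ j a u b, a ∈ FC s j ∧ u ∈ Brd b ∧ u ∈ FCW (T - j) ∧ t = a ++ u := by
  obtain ⟨n, hn⟩ := ht
  obtain ⟨j, a, u, h1, h2, ha, hu, rfl⟩ := FC_dec (hs.trans hn.2.1) hn.1
  refine ⟨j, a, u, n - j, ha, hu, ⟨n - j, hu, by have := hn.2.1; omega, ?_⟩, rfl⟩
  rintro c hc1 hc2 ⟨s', u', b, hs', hu', rfl⟩
  exact hn.2.2 (j + c) (by omega) (by omega) ⟨a ++ s', u', b, Brd_append ha.1 hs', hu', by rw [List.append_assoc]⟩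

lemma gf_iUnion_le {ι : Type*} (C : ι → Set (List Bool)) : gf (⋃ i, C i) ≤ ∑' i, gf (C i) :=
  ENNReal.tsum_iUnion_le_tsum wE C

/-- the law of the word up to the first cut at or above s -/
theorem mass_le (P : Set (List Bool)) {s T : ℕ} (hs : s ≤ T) :
    gf {t | t ∈ FCW T ∧ ∃ j a u b, a ∈ FC s j ∧ a ∈ P ∧ u ∈ Brd b ∧ t = a ++ u} ≤ gf (FCW s ∩ P) := by
  have hsub : {t | t ∈ FCW T ∧ ∃ j a u b, a ∈ FC s j ∧ a ∈ P ∧ u ∈ Brd b ∧ t = a ++ u} ⊆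
      ⋃ j : ℕ, {t | ∃ a u, a ∈ FC s j ∩ P ∧ u ∈ FCW (T - j) ∧ t = a ++ u} := by
    rintro t ⟨ht, j, a, u, b, ha, haP, hu, h⟩
    obtain ⟨j', a', u', b', ha', hub', hu', h'⟩ := dec hs ht
    obtain ⟨h1, h2⟩ := FC_unique ha ha' hu hub' (h.symm.trans h')
    rw [Set.mem_iUnion]
    refine ⟨j', a', u', ⟨ha', ?_⟩, hu', h'⟩
    rw [← h1]
    exact haP
  refine (gf_mono hsub).trans ((gf_iUnion_le _).trans ?_)
  have h1 : ∀ j : ℕ, gf {t | ∃ a u, a ∈ FC s j ∩ P ∧ u ∈ FCW (T - j) ∧ t = a ++ u} ≤ gf (FC s j ∩ P) := by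
    intro j
    have h2 : gf {t | ∃ a u, a ∈ FC s j ∩ P ∧ u ∈ FCW (T - j) ∧ t = a ++ u} ≤
        gf (FC s j ∩ P) * gf (FCW (T - j)) :=
      gf_le_mul fun t ht => by
        obtain ⟨a, u, ha, hu, h⟩ := ht
        exact ⟨a, ha, u, hu, h⟩
    rwa [gf_FCW, mul_one] at h2
  refine (ENNReal.tsum_le_tsum h1).trans (le_of_eq ?_)
  rw [← K1.gf_iUnion (fun j => FC s j ∩ P)]
  · congr 1
    ext t
    rw [Set.mem_iUnion]
    constructor
    · rintro ⟨j, h2, h3⟩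
      exact ⟨⟨j, h2⟩, h3⟩
    · rintro ⟨⟨j, h2⟩, h3⟩
      exact ⟨j, h2, h3⟩
  · rintro i j t ⟨hi, _⟩ ⟨hj, _⟩
    exact Brd_height hi.1 hj.1

/-- good words: first cut at or above s not above K s, in the box B s -/
def Gd (K B s : ℕ) : Set (List Bool) := {a | ∃ j, j ≤ K * s ∧ a ∈ FC s j ∧ InBox a (B * s)}

theorem gd_mass {ε : ℝ} (hε : 0 < ε) : ∃ K B : ℕ, 1 ≤ K ∧ 1 ≤ B ∧ ∀ s : ℕ, 1 ≤ s →
    gf (FCW s ∩ {a | a ∉ Gd K B s}) ≤ ENNReal.ofReal ε := by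
  obtain ⟨K, hK, hU⟩ := UU_ratio_inv (ε / 2) (by positivity)
  obtain ⟨B, hB, hbox⟩ := FC_box latTail K (ε / 2) (by positivity)
  refine ⟨K, B, by omega, by omega, fun s hs => ?_⟩
  have hsub : FCW s ∩ {a | a ∉ Gd K B s} ⊆ {t | ∃ j, K * s < j ∧ t ∈ FC s j} ∪
      ⋃ j ∈ Icc s (K * s), FC s j ∩ {t | ¬ InBox t (B * s)} := by
    rintro a ⟨⟨j, hj⟩, h⟩
    by_cases h1 : K * s < j
    · exact Or.inl ⟨j, h1, hj⟩
    · right
      simp only [Set.mem_iUnion]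
      exact ⟨j, Finset.mem_Icc.2 ⟨hj.2.1, by omega⟩, hj, fun h2 => h ⟨j, by omega, hj, h2⟩⟩
  refine (gf_mono hsub).trans ((gf_union_le _ _).trans ?_)
  have h1 := (FCW_tail hK hs).trans (ENNReal.ofReal_le_ofReal (hU s hs))
  have h2 := (ENNReal.tsum_biUnion_le wE (Icc s (K * s)) (fun j => FC s j ∩ {t | ¬ InBox t (B * s)})).trans
    (hbox s hs)
  calc _ ≤ ENNReal.ofReal (ε / 2) + ENNReal.ofReal (ε / 2) := add_le_add h1 h2
    _ = ENNReal.ofReal ε := by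
      rw [← ENNReal.ofReal_add (by positivity) (by positivity)]
      congr 1
      ring

/-- the shape near the starting point: a cut at the vertex number i0, at the height j between s and K s, everything
below is in the box B s -/
def Low (K B s : ℕ) (t : List Bool) : Prop := ∃ j i0 : ℕ, s ≤ j ∧ j ≤ K * s ∧ i0 ≤ t.length ∧ lev t i0 = 3 * j ∧
  (∀ i ≤ i0, lev t i ≤ 3 * j ∧ |lat t i| ≤ B * s) ∧ (∀ i, i0 < i → i ≤ t.length → 3 * (j : ℤ) < lev t i)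

lemma low_of {K B s j b : ℕ} {a u : List Bool} (ha : a ∈ FC s j) (hg : a ∈ Gd K B s) (hu : u ∈ Brd b) :
    Low K B s (a ++ u) := by
  obtain ⟨j', hj', ha', hbox⟩ := hg
  have hjj : j = j' := Brd_height ha.1 ha'.1
  subst hjj
  have h1 := mem_Brd.1 ha.1
  have h2 := mem_Brd.1 hu
  refine ⟨j, a.length, ha.2.1, hj', by rw [List.length_append]; omega, ?_, ?_, ?_⟩
  · rw [lev_append (by omega)]
    exact h1.2.2.2
  · intro i hi
    rw [lev_append (by omega), lat_append (by omega)]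
    refine ⟨?_, by have := hbox i hi; push_cast at this; exact this⟩
    rcases Nat.eq_zero_or_pos i with h0 | h0
    · rw [h0, lev_zero]
      positivity
    · exact (h1.1 i h0 hi).2
  · intro i hi1 hi2
    obtain ⟨k, rfl⟩ : ∃ k, i = a.length + k := ⟨i - a.length, by omega⟩
    rw [lev_cat h1.2.2.1, h1.2.2.2]
    rw [List.length_append] at hi2
    have := (h2.1 k (by omega) (by omega)).1
    omega

theorem low_mass {ε : ℝ} (hε : 0 < ε) : ∃ K B : ℕ, 1 ≤ K ∧ 1 ≤ B ∧ ∀ s T : ℕ, 1 ≤ s → s ≤ T →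
    gf {t | t ∈ FCW T ∧ ¬ Low K B s t} ≤ ENNReal.ofReal ε := by
  obtain ⟨K, B, hK, hB, h⟩ := gd_mass hε
  refine ⟨K, B, hK, hB, fun s T hs hT => ?_⟩
  refine le_trans (gf_mono ?_) ((mass_le {a | a ∉ Gd K B s} hT).trans (h s hs))
  rintro t ⟨ht, hl⟩
  obtain ⟨j, a, u, b, ha, hu, -, rfl⟩ := dec hT ht
  exact ⟨ht, j, a, u, b, ha, fun hg => hl (low_of ha hg hu), hu, rfl⟩

end Touch

end HexObs
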