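import Pool.Agent.Tight.Touch

/-!
TIGHT, touching the boundary, part 4: the subsequential limits touch the real line only at the starting point, have
cut levels at all scales, end strictly above the level 3/2, and the real part of the end point is unbounded.
-/

set_option autoImplicit false

namespace HexObs

open Finset MeasureTheory Filter Topology

open scoped ENNReal

namespace Touch

lemma law (T : ℕ) (X : List Bool → C(unitInterval, ℂ)) {S : Set C(unitInterval, ℂ)}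
    (hS : MeasurableSet S) : ((lawK T).map X).toMeasure S = gf {t | t ∈ FCW T ∧ X t ∈ S} := by
  rw [PMF.toMeasure_apply_eq_toOuterMeasure_apply _ hS, PMF.toOuterMeasure_map_apply, PMF.toOuterMeasure_apply]
  unfold gf
  rw [tsum_subtype {t | t ∈ FCW T ∧ X t ∈ S} wE]
  refine tsum_congr fun t => ?_
  show (X ⁻¹' S).indicator ((FCW T).indicator wE) t = _
  rw [Set.indicator_indicator]
  have h : X ⁻¹' S ∩ FCW T = {t | t ∈ FCW T ∧ X t ∈ S} := by
    ext x
    exact and_comm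
  rw [h]

section

variable {X : ℕ → List Bool → C(unitInterval, ℂ)} {μ : ℕ → ProbabilityMeasure C(unitInterval, ℂ)}
  {φ : ℕ → ℕ} {ν : ProbabilityMeasure C(unitInterval, ℂ)}

lemma lim_le (hμ : ∀ T, (μ T : Measure C(unitInterval, ℂ)) = ((lawK T).map (X T)).toMeasure)
    (hφ : Tendsto φ atTop atTop) (hν : Tendsto (fun k => μ (φ k)) atTop (𝓝 ν))
    {S : Set C(unitInterval, ℂ)} (hS : IsOpen S) {ε : ℝ≥0∞}
    (h : ∀ᶠ T in atTop, gf {t | t ∈ FCW T ∧ X T t ∈ S} ≤ ε) : (ν : Measure C(unitInterval, ℂ)) S ≤ ε := by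
  refine (ProbabilityMeasure.le_liminf_measure_open_of_tendsto hν hS).trans ?_
  refine liminf_le_of_frequently_le' (Eventually.frequently ?_)
  filter_upwards [hφ.eventually h] with k hk
  rw [hμ, law _ _ hS.measurableSet]
  exact hk

lemma zero_of_le {x : ℝ≥0∞} {g : ℝ → ℝ} (hg : Tendsto g (𝓝[>] 0) (𝓝 0)) {a : ℝ} (ha : 0 < a)
    (h : ∀ η : ℝ, 0 < η → η ≤ a → x ≤ ENNReal.ofReal (g η)) : x = 0 := by
  have h1 : Tendsto (fun η => ENNReal.ofReal (g η)) (𝓝[>] 0) (𝓝 (ENNReal.ofReal 0)) :=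
    (ENNReal.continuous_ofReal.tendsto 0).comp hg
  rw [ENNReal.ofReal_zero] at h1
  refine le_antisymm (ge_of_tendsto h1 ?_) zero_le
  filter_upwards [Ioc_mem_nhdsGT ha] with η hη
  exact h η hη.1 hη.2

/-- the limits touch the real line only at 0 -/
theorem touch (hX : ∀ T t, ∃ r : unitInterval ≃ₜ unitInterval, Monotone r ∧ ∀ u, X T t u = curve T t (r u))
    (hμ : ∀ T, (μ T : Measure C(unitInterval, ℂ)) = ((lawK T).map (X T)).toMeasure)
    (hφ : Tendsto φ atTop atTop) (hν : Tendsto (fun k => μ (φ k)) atTop (𝓝 ν)) :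
    ∀ᵐ (f : C(unitInterval, ℂ)) ∂(ν : Measure C(unitInterval, ℂ)), ∀ u, (f u).im = 0 → f u = 0 := by
  have h0 : ∀ e : ℝ, 0 < e → (ν : Measure C(unitInterval, ℂ)) {f | ∃ u, (f u).im = 0 ∧ e < |(f u).re|} = 0 := by
    intro e he
    refine zero_of_le (g := fun η => η) (tendsto_id.mono_left nhdsWithin_le_nhds) one_pos fun ε hε _ => ?_
    obtain ⟨K, B, hK, hB, hlow⟩ := low_mass hε
    have hB0 : (0 : ℝ) < B := by exact_mod_cast hB
    obtain ⟨d, hd⟩ : ∃ d : ℝ, d = min 1 (e / B) := ⟨_, rfl⟩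
    have hd0 : 0 < d := by rw [hd]; exact lt_min one_pos (by positivity)
    have hd1 : d ≤ 1 := by rw [hd]; exact min_le_left _ _
    have hdB : d ≤ e / B := by rw [hd]; exact min_le_right _ _
    refine (measure_mono ?_).trans (lim_le hμ hφ hν (open_low e d) ?_)
    · rintro f ⟨u, h1, h2⟩
      exact ⟨u, by rw [h1]; exact hd0, h2⟩
    · filter_upwards [eventually_ge_atTop (max 1 ⌈5 / d⌉₊)] with T hT
      have hT1 : 1 ≤ T := le_trans (le_max_left _ _) hT
      have hT5 : 5 ≤ d * T := by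
        have h1 : 5 / d ≤ (T : ℝ) := (Nat.le_ceil _).trans (by exact_mod_cast (le_trans (le_max_right _ _) hT))
        rw [div_le_iff₀ hd0] at h1
        linarith
      have hT0 : (0 : ℝ) < T := by exact_mod_cast hT1
      have hfl : (⌊d * T⌋₊ : ℝ) ≤ d * T := Nat.floor_le (by positivity)
      have hfl2 : d * T < (⌊d * T⌋₊ : ℝ) + 1 := Nat.lt_floor_add_one _
      have hs1 : 1 ≤ ⌊d * T⌋₊ := by
        rw [Nat.one_le_floor_iff]
        linarith
      have hsT : ⌊d * T⌋₊ ≤ T := by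
        have : (⌊d * T⌋₊ : ℝ) ≤ T := hfl.trans (by nlinarith)
        exact_mod_cast this
      refine (gf_mono ?_).trans (hlow ⌊d * T⌋₊ T hs1 hsT)
      rintro t ⟨ht, u, h1, h2⟩
      refine ⟨ht, fun hl => ?_⟩
      obtain ⟨j, hj⟩ := ht
      obtain ⟨r, hr, hXr⟩ := hX T t
      rw [hXr] at h1 h2
      have h3 := low_curve (e := e) hT1 (len_pos hT1 hj) hl (by linarith) (by
        have h4 : (B : ℝ) * d ≤ e := by
          have := mul_le_mul_of_nonneg_left hdB hB0.le
          rwa [mul_div_cancel₀ _ hB0.ne'] at this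
        calc (B : ℝ) * ⌊d * T⌋₊ ≤ B * (d * T) := mul_le_mul_of_nonneg_left hfl hB0.le
          _ = B * d * T := by ring
          _ ≤ e * T := mul_le_mul_of_nonneg_right h4 hT0.le) (r u) h1
      linarith
  have h1 : ∀ᵐ (f : C(unitInterval, ℂ)) ∂(ν : Measure C(unitInterval, ℂ)), ∀ n : ℕ,
      ¬ ∃ u, (f u).im = 0 ∧ 1 / ((n : ℝ) + 1) < |(f u).re| := by
    rw [ae_all_iff]
    intro n
    rw [ae_iff]
    simp only [not_not]
    exact h0 (1 / ((n : ℝ) + 1)) (by positivity)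
  filter_upwards [h1] with f hf u hu
  have h2 : |(f u).re| ≤ 0 := by
    refine le_of_forall_pos_le_add fun ε hε => ?_
    obtain ⟨n, hn⟩ := exists_nat_one_div_lt hε
    by_contra hcon
    exact hf n ⟨u, hu, by linarith⟩
  have h3 : (f u).re = 0 := abs_eq_zero.1 (le_antisymm h2 (abs_nonneg _))
  exact Complex.ext h3 hu

/-- cut levels between a and b -/
theorem cut_levels : ∃ c : ℝ, 0 < c ∧ ∀ {X : ℕ → List Bool → C(unitInterval, ℂ)}
    {μ : ℕ → ProbabilityMeasure C(unitInterval, ℂ)} {φ : ℕ → ℕ} {ν : ProbabilityMeasure C(unitInterval, ℂ)},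
    (∀ T t, ∃ r : unitInterval ≃ₜ unitInterval, Monotone r ∧ ∀ u, X T t u = curve T t (r u)) →
    (∀ T, (μ T : Measure C(unitInterval, ℂ)) = ((lawK T).map (X T)).toMeasure) →
    Tendsto φ atTop atTop → Tendsto (fun k => μ (φ k)) atTop (𝓝 ν) → ∀ a b : ℝ, 0 < a → a ≤ b → b ≤ 3 / 2 →
    (ν : Measure C(unitInterval, ℂ)) {f | ¬ ∃ h ∈ Set.Icc a b, CutLevel f h} ≤ ENNReal.ofReal (12 * (a / b) ^ c) := by
  obtain ⟨c, hc0, hc1, hcut⟩ := nocut_mass
  refine ⟨c, hc0, ?_⟩
  intro X μ φ ν hX hμ hφ hν a b ha hab hb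
  have hb0 : 0 < b := lt_of_lt_of_le ha hab
  rcases lt_or_ge b (2 * a) with hlt | hge
  · calc (ν : Measure C(unitInterval, ℂ)) {f | ¬ ∃ h ∈ Set.Icc a b, CutLevel f h} ≤ 1 := prob_le_one
      _ = ENNReal.ofReal 1 := ENNReal.ofReal_one.symm
      _ ≤ _ := by
        apply ENNReal.ofReal_le_ofReal
        have h1 : (1 / 2 : ℝ) ≤ a / b := by
          rw [le_div_iff₀ hb0]
          linarith
        have h2 : (1 / 2 : ℝ) ^ c ≤ (a / b) ^ c := Real.rpow_le_rpow (by norm_num) h1 hc0.le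
        have h3 : (1 / 2 : ℝ) ≤ (1 / 2 : ℝ) ^ c := by
          have := Real.rpow_le_rpow_of_exponent_ge (by norm_num : (0 : ℝ) < 1 / 2) (by norm_num) hc1
          rwa [Real.rpow_one] at this
        linarith
  · refine lim_le hμ hφ hν (S := {f | ¬ ∃ h ∈ Set.Icc a b, CutLevel f h}) (closed_cut a b).isOpen_compl ?_
    filter_upwards [eventually_ge_atTop (max 1 ⌈6 / a⌉₊)] with T hT
    have hT1 : 1 ≤ T := le_trans (le_max_left _ _) hT
    have hT0 : (0 : ℝ) < T := by exact_mod_cast hT1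
    have hTa : 6 ≤ a * T := by
      have h1 : 6 / a ≤ (T : ℝ) := (Nat.le_ceil _).trans (by exact_mod_cast (le_trans (le_max_right _ _) hT))
      rw [div_le_iff₀ ha] at h1
      linarith
    have hTb : 2 * (a * T) ≤ b * T := by
      have := mul_le_mul_of_nonneg_right hge hT0.le
      linarith
    obtain ⟨s, hs⟩ : ∃ s, s = ⌈2 / 3 * (a * T)⌉₊ := ⟨_, rfl⟩
    obtain ⟨S, hS⟩ : ∃ S, S = ⌊2 / 3 * (b * T)⌋₊ := ⟨_, rfl⟩
    have hs1 : 2 / 3 * (a * T) ≤ s := by rw [hs]; exact Nat.le_ceil _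
    have hs2 : (s : ℝ) < 2 / 3 * (a * T) + 1 := by rw [hs]; exact Nat.ceil_lt_add_one (by positivity)
    have hS1 : (S : ℝ) ≤ 2 / 3 * (b * T) := by rw [hS]; exact Nat.floor_le (by positivity)
    have hS2 : 2 / 3 * (b * T) < (S : ℝ) + 1 := by rw [hS]; exact Nat.lt_floor_add_one _
    have hs3 : 1 ≤ s := by
      have : (0 : ℝ) < s := by linarith
      exact_mod_cast this
    have hsS : s ≤ S := by
      have : (s : ℝ) ≤ S := by linarith
      exact_mod_cast this
    have hST : S ≤ T := by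
      have h1 : b * T ≤ 3 / 2 * T := mul_le_mul_of_nonneg_right hb hT0.le
      have : (S : ℝ) ≤ T := by linarith
      exact_mod_cast this
    refine (gf_mono ?_).trans ((hcut s S T hs3 hsS hST).trans (ENNReal.ofReal_le_ofReal ?_))
    · rintro t ⟨ht, h⟩
      refine ⟨ht, ?_⟩
      rintro ⟨j, h1, h2, h3⟩
      obtain ⟨n, hn⟩ := ht
      obtain ⟨r, hr, hXr⟩ := hX T t
      apply h
      refine ⟨(3 * j : ℝ) / 2 / T, ⟨?_, ?_⟩, cut_curve hT1 (len_pos hT1 hn) hn.1 h3 hr hXr⟩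
      · rw [div_div, le_div_iff₀ (by positivity)]
        have : (s : ℝ) ≤ j := by exact_mod_cast h1
        linarith
      · rw [div_div, div_le_iff₀ (by positivity)]
        have : (j : ℝ) ≤ S := by exact_mod_cast h2
        linarith
    · have hS0 : (0 : ℝ) < S := by
        have : (0 : ℝ) < s := by exact_mod_cast hs3
        have : (s : ℝ) ≤ S := by exact_mod_cast hsS
        linarith
      have h1 : (s : ℝ) / S ≤ 2 * (a / b) := by
        rw [div_le_iff₀ hS0]
        have e : 2 * (a / b) * S = 2 * a * S / b := by ring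
        rw [e, le_div_iff₀ hb0]
        have h2 : (s : ℝ) ≤ a * T := by linarith
        have h3 : b * T / 2 ≤ S := by linarith
        calc (s : ℝ) * b ≤ a * T * b := mul_le_mul_of_nonneg_right h2 hb0.le
          _ = 2 * a * (b * T / 2) := by ring
          _ ≤ 2 * a * S := mul_le_mul_of_nonneg_left h3 (by positivity)
      have h2 : ((s : ℝ) / S) ^ c ≤ (2 * (a / b)) ^ c := Real.rpow_le_rpow (by positivity) h1 hc0.le
      have h3 : (2 * (a / b)) ^ c ≤ 2 * (a / b) ^ c := by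
        rw [Real.mul_rpow (by norm_num) (by positivity)]
        apply mul_le_mul_of_nonneg_right _ (by positivity)
        have := Real.rpow_le_rpow_of_exponent_le (by norm_num : (1 : ℝ) ≤ 2) hc1
        rwa [Real.rpow_one] at this
      linarith

/-- a power of η tends to 0 -/
lemma pow_tendsto {c : ℝ} (hc : 0 < c) (A B : ℝ) : Tendsto (fun η : ℝ => A * (B * η) ^ c) (𝓝[>] 0) (𝓝 0) := by
  have h1 : Tendsto (fun η : ℝ => A * (B * η) ^ c) (𝓝 0) (𝓝 (A * (B * 0) ^ c)) := by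
    apply Tendsto.const_mul
    exact ((continuous_const.mul continuous_id).tendsto 0).rpow_const (Or.inr hc.le)
  rw [mul_zero, Real.zero_rpow hc.ne', mul_zero] at h1
  exact h1.mono_left nhdsWithin_le_nhds

/-- cut levels at arbitrarily small heights -/
theorem small_cuts (hX : ∀ T t, ∃ r : unitInterval ≃ₜ unitInterval, Monotone r ∧ ∀ u, X T t u = curve T t (r u))
    (hμ : ∀ T, (μ T : Measure C(unitInterval, ℂ)) = ((lawK T).map (X T)).toMeasure)
    (hφ : Tendsto φ atTop atTop) (hν : Tendsto (fun k => μ (φ k)) atTop (𝓝 ν)) :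
    ∀ᵐ (f : C(unitInterval, ℂ)) ∂(ν : Measure C(unitInterval, ℂ)), ∀ δ : ℝ, 0 < δ →
      ∃ h, 0 < h ∧ h ≤ δ ∧ CutLevel f h := by
  obtain ⟨c, hc, hcut⟩ := cut_levels
  have h1 : ∀ᵐ (f : C(unitInterval, ℂ)) ∂(ν : Measure C(unitInterval, ℂ)), ∀ n : ℕ,
      ∃ h, 0 < h ∧ h ≤ 1 / ((n : ℝ) + 1) ∧ CutLevel f h := by
    rw [ae_all_iff]
    intro n
    rw [ae_iff]
    have hn : 0 < 1 / ((n : ℝ) + 1) := by positivity
    have hn1 : 1 / ((n : ℝ) + 1) ≤ 1 := by
      rw [div_le_one (by positivity)]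
      have : (0 : ℝ) ≤ n := Nat.cast_nonneg n
      linarith
    refine zero_of_le (pow_tendsto hc 12 ((n : ℝ) + 1)) hn fun η hη hη1 => ?_
    refine (measure_mono ?_).trans ((hcut hX hμ hφ hν η (1 / ((n : ℝ) + 1)) hη hη1 (by linarith)).trans (le_of_eq ?_))
    · intro f hf
      rintro ⟨h, ⟨h2, h3⟩, h4⟩
      exact hf ⟨h, by linarith, h3, h4⟩
    · congr 3
      field_simp
  filter_upwards [h1] with f hf δ hδ
  obtain ⟨n, hn⟩ := exists_nat_one_div_lt hδ
  obtain ⟨h, h2, h3, h4⟩ := hf n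
  exact ⟨h, h2, by linarith, h4⟩

/-- the limits end strictly above the level 3/2 -/
theorem overLim (hX : ∀ T t, ∃ r : unitInterval ≃ₜ unitInterval, Monotone r ∧ ∀ u, X T t u = curve T t (r u))
    (hμ : ∀ T, (μ T : Measure C(unitInterval, ℂ)) = ((lawK T).map (X T)).toMeasure)
    (hφ : Tendsto φ atTop atTop) (hν : Tendsto (fun k => μ (φ k)) atTop (𝓝 ν)) :
    ∀ᵐ (f : C(unitInterval, ℂ)) ∂(ν : Measure C(unitInterval, ℂ)), 3 / 2 < (f 1).im := by
  obtain ⟨c, hc, hov⟩ := over_mass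
  rw [ae_iff]
  refine zero_of_le (pow_tendsto hc 2 2) (a := 1 / 2) (by norm_num) fun η hη hη1 => ?_
  have hopen : IsOpen {f : C(unitInterval, ℂ) | (f 1).im < 3 / 2 + η} :=
    isOpen_lt (Complex.continuous_im.comp (continuous_eval_const 1)) continuous_const
  refine (measure_mono ?_).trans (lim_le hμ hφ hν hopen ?_)
  · intro f hf
    have h1 : ¬ 3 / 2 < (f 1).im := hf
    show (f 1).im < 3 / 2 + η
    linarith
  · filter_upwards [eventually_ge_atTop (max 1 ⌈1 / η⌉₊)] with T hT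
    have hT1 : 1 ≤ T := le_trans (le_max_left _ _) hT
    have hT0 : (0 : ℝ) < T := by exact_mod_cast hT1
    have hTη : 1 ≤ η * T := by
      have h1 : 1 / η ≤ (T : ℝ) := (Nat.le_ceil _).trans (by exact_mod_cast (le_trans (le_max_right _ _) hT))
      rw [div_le_iff₀ hη] at h1
      linarith
    obtain ⟨m, hm⟩ : ∃ m, m = ⌈η * T⌉₊ := ⟨_, rfl⟩
    have hm1 : η * T ≤ m := by rw [hm]; exact Nat.le_ceil _
    have hm2 : (m : ℝ) < η * T + 1 := by rw [hm]; exact Nat.ceil_lt_add_one (by positivity)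
    have hm3 : 1 ≤ m := by
      have : (0 : ℝ) < m := by linarith
      exact_mod_cast this
    have hmT : m ≤ T := by
      rw [hm]
      apply Nat.ceil_le.2
      nlinarith
    refine (gf_mono ?_).trans ((hov T m hm3 hmT).trans (ENNReal.ofReal_le_ofReal ?_))
    · rintro t ⟨⟨j, hj⟩, h⟩
      refine ⟨j, ?_, hj⟩
      obtain ⟨r, hr, hXr⟩ := hX T t
      have h1 : (X T t 1).im < 3 / 2 + η := h
      rw [hXr, r_one hr] at h1
      unfold curve at h1
      rw [Tight.poly_one, im_div, (mem_Brd.1 hj.1).2.2.2] at h1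
      push_cast at h1
      rw [div_div, div_lt_iff₀ (by positivity)] at h1
      have h2 : (j : ℝ) < T + m := by nlinarith
      exact_mod_cast h2
    · have h1 : (m : ℝ) / T ≤ 2 * η := by
        rw [div_le_iff₀ hT0]
        linarith
      have := Real.rpow_le_rpow (by positivity) h1 hc.le
      linarith

lemma FCW_not {T : ℕ} {t : List Bool} (h : t ∈ FCW T) : t.map not ∈ FCW T := by
  obtain ⟨j, h1, h2, h3⟩ := h
  exact ⟨j, Brd_not h1, h2, fun c hc1 hc2 hc => h3 c hc1 hc2 (Cut_not_iff.1 hc)⟩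

lemma spread_left (A : ℕ) : ∃ (a : ℝ) (T0 : ℕ), 0 < a ∧ 1 ≤ T0 ∧ ∀ T : ℕ, T0 ≤ T →
    ENNReal.ofReal a ≤ gf {t | t ∈ FCW T ∧ latE t ≤ -(A * T : ℤ)} := by
  obtain ⟨a, T0, ha, h1, h⟩ := spread A
  refine ⟨a, T0, ha, h1, fun T hT => (h T hT).trans ?_⟩
  have := gf_le_of_inj (P := {t | t ∈ FCW T ∧ (A * T : ℤ) ≤ latE t})
    (Q := {t | t ∈ FCW T ∧ latE t ≤ -(A * T : ℤ)}) (fun t => t.map not) (fun t ht => ⟨FCW_not ht.1, by
      rw [latE_not]
      exact neg_le_neg ht.2⟩) (by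
      intro s _ t _ hst
      have := congrArg (List.map not) hst
      rwa [map_not_not, map_not_not] at this) 1 (by
      intro t _
      rw [one_mul, wE_map_not])
  rwa [one_mul] at this

lemma pos_of {X : ℕ → List Bool → C(unitInterval, ℂ)} {μ : ℕ → ProbabilityMeasure C(unitInterval, ℂ)}
    {φ : ℕ → ℕ} {ν : ProbabilityMeasure C(unitInterval, ℂ)}
    (hμ : ∀ T, (μ T : Measure C(unitInterval, ℂ)) = ((lawK T).map (X T)).toMeasure)
    (hφ : Tendsto φ atTop atTop) (hν : Tendsto (fun k => μ (φ k)) atTop (𝓝 ν))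
    {S : Set C(unitInterval, ℂ)} (hS : IsOpen S) {a : ℝ} (ha : 0 < a) {Q : ℕ → Set (List Bool)} {T0 : ℕ}
    (h1 : ∀ T, T0 ≤ T → ENNReal.ofReal a ≤ gf {t | t ∈ FCW T ∧ t ∈ Q T})
    (h2 : ∀ T t, T0 ≤ T → t ∈ FCW T → t ∈ Q T → X T t ∉ S) : 0 < (ν : Measure C(unitInterval, ℂ)) Sᶜ := by
  have h3 : (ν : Measure C(unitInterval, ℂ)) S ≤ 1 - ENNReal.ofReal a := by
    refine lim_le hμ hφ hν hS ?_
    filter_upwards [eventually_ge_atTop T0] with T hT
    have h4 : gf {t | t ∈ FCW T ∧ X T t ∈ S} + gf {t | t ∈ FCW T ∧ t ∈ Q T} ≤ 1 := by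
      rw [← gf_FCW T]
      have h5 : gf ({t | t ∈ FCW T ∧ X T t ∈ S} ∪ {t | t ∈ FCW T ∧ t ∈ Q T}) =
          gf {t | t ∈ FCW T ∧ X T t ∈ S} + gf {t | t ∈ FCW T ∧ t ∈ Q T} := by
        unfold gf
        exact ENNReal.summable.tsum_union_disjoint (by
          rw [Set.disjoint_left]
          rintro t ⟨h6, h7⟩ ⟨-, h8⟩
          exact h2 T t hT h6 h8 h7) ENNReal.summable
      rw [← h5]
      exact gf_mono fun t ht => by
        rcases ht with ht | ht
        · exact ht.1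
        · exact ht.1
    have h5 := le_trans (add_le_add le_rfl (h1 T hT)) h4
    exact ENNReal.le_sub_of_add_le_right ENNReal.ofReal_ne_top h5
  have h4 : (ν : Measure C(unitInterval, ℂ)) Sᶜ = 1 - (ν : Measure C(unitInterval, ℂ)) S :=
    prob_compl_eq_one_sub hS.measurableSet
  rw [h4, tsub_pos_iff_lt]
  refine lt_of_le_of_lt h3 ?_
  exact ENNReal.sub_lt_self ENNReal.one_ne_top one_ne_zero (ENNReal.ofReal_pos.2 ha).ne'

/-- the real part of the end point is unbounded on both sides -/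
theorem spread_lim (hX : ∀ T t, ∃ r : unitInterval ≃ₜ unitInterval, Monotone r ∧ ∀ u, X T t u = curve T t (r u))
    (hμ : ∀ T, (μ T : Measure C(unitInterval, ℂ)) = ((lawK T).map (X T)).toMeasure)
    (hφ : Tendsto φ atTop atTop) (hν : Tendsto (fun k => μ (φ k)) atTop (𝓝 ν)) (A : ℝ) :
    0 < (ν : Measure C(unitInterval, ℂ)) {f | A ≤ (f 1).re} ∧
      0 < (ν : Measure C(unitInterval, ℂ)) {f | (f 1).re ≤ -A} := by
  obtain ⟨N, hN⟩ := exists_nat_ge (2 * |A|)
  have hs3 : 1 ≤ Real.sqrt 3 := by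
    rw [Real.one_le_sqrt]
    norm_num
  have hA := le_abs_self A
  have hA0 := abs_nonneg A
  have hre : ∀ T t, 1 ≤ T → (X T t 1).re = Real.sqrt 3 / 2 * latE t / T := by
    intro T t hT
    obtain ⟨r, hr, hXr⟩ := hX T t
    rw [hXr, r_one hr]
    unfold curve
    rw [Tight.poly_one, re_div]
    rfl
  constructor
  · obtain ⟨a, T0, ha, hT0, hsp⟩ := spread N
    have h1 : {f : C(unitInterval, ℂ) | A ≤ (f 1).re} = {f : C(unitInterval, ℂ) | (f 1).re < A}ᶜ := by
      ext f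
      simp only [Set.mem_ofPred_eq, Set.mem_compl_iff, not_lt]
    rw [h1]
    have hopen : IsOpen {f : C(unitInterval, ℂ) | (f 1).re < A} :=
      isOpen_lt (Complex.continuous_re.comp (continuous_eval_const 1)) continuous_const
    refine pos_of hμ hφ hν hopen ha (Q := fun T => {t | (N * T : ℤ) ≤ latE t}) (T0 := T0) (fun T hT => hsp T hT) ?_
    intro T t hT _ ht h2
    have hT1 : (0 : ℝ) < T := by exact_mod_cast (by omega : 0 < T)
    have h3 : (X T t 1).re < A := h2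
    rw [hre T t (by omega), div_lt_iff₀ hT1] at h3
    have h4 : (N * T : ℝ) ≤ latE t := by exact_mod_cast ht
    have h5 : (0 : ℝ) ≤ latE t := le_trans (by positivity) h4
    have h6 : A * T ≤ 1 / 2 * (latE t : ℝ) := by
      have : 2 * |A| * T ≤ N * T := mul_le_mul_of_nonneg_right hN hT1.le
      nlinarith
    nlinarith
  · obtain ⟨a, T0, ha, hT0, hsp⟩ := spread_left N
    have h1 : {f : C(unitInterval, ℂ) | (f 1).re ≤ -A} = {f : C(unitInterval, ℂ) | -A < (f 1).re}ᶜ := by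
      ext f
      simp only [Set.mem_ofPred_eq, Set.mem_compl_iff, not_lt]
    rw [h1]
    have hopen : IsOpen {f : C(unitInterval, ℂ) | -A < (f 1).re} :=
      isOpen_lt continuous_const (Complex.continuous_re.comp (continuous_eval_const 1))
    refine pos_of hμ hφ hν hopen ha (Q := fun T => {t | latE t ≤ -(N * T : ℤ)}) (T0 := T0) (fun T hT => hsp T hT) ?_
    intro T t hT _ ht h2
    have hT1 : (0 : ℝ) < T := by exact_mod_cast (by omega : 0 < T)
    have h3 : -A < (X T t 1).re := h2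
    rw [hre T t (by omega), lt_div_iff₀ hT1] at h3
    have h4 : (latE t : ℝ) ≤ -(N * T : ℝ) := by exact_mod_cast ht
    have h5 : (latE t : ℝ) ≤ 0 := le_trans h4 (by
      have : (0 : ℝ) ≤ N * T := by positivity
      linarith)
    have h6 : 1 / 2 * (latE t : ℝ) ≤ -A * T := by
      have : 2 * |A| * T ≤ N * T := mul_le_mul_of_nonneg_right hN hT1.le
      nlinarith
    nlinarith

/-- the limits stay in the closed half plane -/
theorem half (hX : ∀ T t, ∃ r : unitInterval ≃ₜ unitInterval, Monotone r ∧ ∀ u, X T t u = curve T t (r u))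
    (hμ : ∀ T, (μ T : Measure C(unitInterval, ℂ)) = ((lawK T).map (X T)).toMeasure)
    (hφ : Tendsto φ atTop atTop) (hν : Tendsto (fun k => μ (φ k)) atTop (𝓝 ν)) :
    ∀ᵐ (f : C(unitInterval, ℂ)) ∂(ν : Measure C(unitInterval, ℂ)), ∀ u, 0 ≤ (f u).im := by
  rw [ae_iff]
  have h1 : {f : C(unitInterval, ℂ) | ¬ ∀ u, 0 ≤ (f u).im} = ⋃ u : unitInterval, {f | (f u).im < 0} := by
    ext f
    simp only [Set.mem_ofPred_eq, Set.mem_iUnion, not_forall, not_le]
  rw [h1]
  have hopen : IsOpen (⋃ u : unitInterval, {f : C(unitInterval, ℂ) | (f u).im < 0}) :=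
    isOpen_iUnion fun u => isOpen_lt (Complex.continuous_im.comp (continuous_eval_const u)) continuous_const
  refine le_antisymm (lim_le hμ hφ hν hopen ?_) zero_le
  filter_upwards [eventually_ge_atTop 1] with T hT
  refine le_of_eq ?_
  have h2 : {t | t ∈ FCW T ∧ X T t ∈ ⋃ u : unitInterval, {f : C(unitInterval, ℂ) | (f u).im < 0}} = ∅ := by
    rw [Set.eq_empty_iff_forall_notMem]
    rintro t ⟨⟨j, hj⟩, h⟩
    rw [Set.mem_iUnion] at h
    obtain ⟨u, hu⟩ := h
    obtain ⟨r, hr, hXr⟩ := hX T t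
    have h3 : (X T t u).im < 0 := hu
    rw [hXr] at h3
    obtain ⟨i, x, hi, hx0, hx1, -, him, -⟩ := pts (T := T) (len_pos hT hj) (r u)
    have hT0 : (0 : ℝ) < T := by exact_mod_cast hT
    have h4 : ∀ k ≤ t.length, 0 ≤ (zp t k / (T : ℂ)).im := by
      intro k hk
      rw [im_div]
      have h5 : 0 ≤ lev t k := by
        rcases Nat.eq_zero_or_pos k with h0 | h0
        · rw [h0, lev_zero]
        · exact ((mem_Brd.1 hj.1).1 k h0 hk).1.le
      have h6 : (0 : ℝ) ≤ lev t k := by exact_mod_cast h5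
      positivity
    have h5 := h4 i hi.le
    have h6 := h4 (i + 1) hi
    rw [him] at h3
    nlinarith
  rw [h2]
  unfold gf
  simp

end

end Touch

/-- PROPERTIES OF ALL SUBSEQUENTIAL LIMITS of the rescaled critical half plane self-avoiding walk, up to its first cut
at or above the height T: the limiting curve touches the real line only at its starting point 0 and does not come back to 0,
it has cut levels at all scales, it ends strictly above the level 3/2 and the law of the real part of its end point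
is unbounded on both sides. -/
theorem Touch_limits : ∃ c : ℝ, 0 < c ∧ ∀ {X : ℕ → List Bool → C(unitInterval, ℂ)}
    {μ : ℕ → ProbabilityMeasure C(unitInterval, ℂ)} {φ : ℕ → ℕ} {ν : ProbabilityMeasure C(unitInterval, ℂ)},
    (∀ T t, ∃ r : unitInterval ≃ₜ unitInterval, Monotone r ∧ ∀ u, X T t u = curve T t (r u)) →
    (∀ T, (μ T : Measure C(unitInterval, ℂ)) = ((lawK T).map (X T)).toMeasure) →
    Tendsto φ atTop atTop → Tendsto (fun k => μ (φ k)) atTop (𝓝 ν) →
    (∀ᵐ (f : C(unitInterval, ℂ)) ∂(ν : Measure C(unitInterval, ℂ)),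
      (∀ u, 0 ≤ (f u).im) ∧ (∀ u, (f u).im = 0 → f u = 0) ∧ (∀ u, f u = 0 → ∀ v ≤ u, f v = 0) ∧
      (∀ δ : ℝ, 0 < δ → ∃ h, 0 < h ∧ h ≤ δ ∧ CutLevel f h) ∧ 3 / 2 < (f 1).im) ∧
    (∀ a b : ℝ, 0 < a → a ≤ b → b ≤ 3 / 2 → (ν : Measure C(unitInterval, ℂ))
      {f | ¬ ∃ h ∈ Set.Icc a b, CutLevel f h} ≤ ENNReal.ofReal (12 * (a / b) ^ c)) ∧
    (∀ A : ℝ, 0 < (ν : Measure C(unitInterval, ℂ)) {f | A ≤ (f 1).re} ∧
      0 < (ν : Measure C(unitInterval, ℂ)) {f | (f 1).re ≤ -A}) := by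
  obtain ⟨c, hc, hcut⟩ := Touch.cut_levels
  refine ⟨c, hc, ?_⟩
  intro X μ φ ν hX hμ hφ hν
  refine ⟨?_, fun a b ha hab hb => hcut hX hμ hφ hν a b ha hab hb, fun A => Touch.spread_lim hX hμ hφ hν A⟩
  filter_upwards [Touch.half hX hμ hφ hν, Touch.touch hX hμ hφ hν, Touch.small_cuts hX hμ hφ hν,
    Touch.overLim hX hμ hφ hν] with f h1 h2 h3 h4
  refine ⟨h1, h2, fun u hu v hv => ?_, h3, h4⟩
  apply h2
  refine le_antisymm (le_of_forall_pos_le_add fun δ hδ => ?_) (h1 v)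
  obtain ⟨h, hh0, hhδ, u0, hlo, hhi⟩ := h3 δ hδ
  have h5 : u ≤ u0 := by
    by_contra hcon
    have h6 := hhi u (not_le.1 hcon).le
    rw [hu, Complex.zero_im] at h6
    linarith
  have h6 := hlo v (hv.trans h5)
  linarith

end HexObs
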