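import Pool.Agent.Tight.LawK
import Pool.Agent.PHW7.FoldOf
import Pool.Agent.PHW7.DeepRet
import Pool.Agent.PHW5.Out
import Pool.Agent.HexWall.Sym

/-!
TIGHT: the half plane walk up to its first cut at or above T comes back to a neighbourhood of its first line, or of its
last line, only with small probability (from the deep returns of section S7 of PHW).
-/

set_option autoImplicit false

namespace HexObs

open Finset

open scoped ENNReal

/-- (DR), unconditionally -/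
theorem deep_returns_final : ∃ C c : ℝ, 0 < C ∧ 0 < c ∧ ∀ y τ R : ℕ, 1 ≤ y → y ≤ τ →
    ∑ r ∈ Finset.range R, KR y τ r ≤ ENNReal.ofReal (C / UU τ * ((y : ℝ) / τ) ^ c) :=
  deep_returns (foldGain_of (fun A => Fld.fold_H6 S5_out A))

namespace TouchR

lemma ret_mono {y y' τ τ' : ℕ} (hy : y ≤ y') (hτ : τ' ≤ τ) {t : List Bool} (h : Ret y τ t) : Ret y' τ' t := by
  obtain ⟨i, j, h1, h2, h3, h4⟩ := h
  exact ⟨i, j, h1, h2, by omega, by omega⟩

lemma beyond {c b : ℕ} {s u : List Bool} (hs : s ∈ Brd c) (hu : u ∈ Brd b) {i : ℕ}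
    (h1 : s.length < i) (h2 : i ≤ (s ++ u).length) : 3 * (c : ℤ) < lev (s ++ u) i := by
  rw [mem_Brd] at hs hu
  obtain ⟨s1, s2, s3, s4⟩ := hs
  obtain ⟨u1, u2, u3, u4⟩ := hu
  rw [List.length_append] at h2
  obtain ⟨k, rfl⟩ : ∃ k, i = s.length + k := ⟨i - s.length, by omega⟩
  have := (u1 k (by omega) (by omega)).1
  rw [lev_cat s3, s4]
  omega

lemma below {c : ℕ} {s u : List Bool} (hs : s ∈ Brd c) {i : ℕ} (h1 : i ≤ s.length) :
    lev (s ++ u) i ≤ 3 * (c : ℤ) := by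
  rw [lev_append (by omega)]
  rcases Nat.eq_zero_or_pos i with rfl | hi
  · rw [lev_zero]
    omega
  · exact ((mem_Brd.1 hs).1 i hi h1).2

/-- the piece that jumps over the level s; the rest is again a word of the law -/
lemma dec {T j s : ℕ} {t : List Bool} (ht : t ∈ FC T j) (hs : s < j) :
    ∃ c r a p u, c ≤ s ∧ s < c + r ∧ c + r ≤ j ∧ c < T ∧ a ∈ Brd c ∧ p ∈ Irr r ∧ u ∈ Brd (j - c - r) ∧
      u ∈ FCW (T - (c + r)) ∧ t = a ++ p ++ u := by
  obtain ⟨hB, hT, hcut⟩ := ht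
  obtain ⟨c, r, a, p, u, h1, h2, h3, ha, hp, hu, htt⟩ := jump_dec hs hB
  refine ⟨c, r, a, p, u, h1, h2, h3, ?_, ha, hp, hu, ⟨j - c - r, hu, by omega, ?_⟩, htt⟩
  · by_contra hc
    push Not at hc
    exact hcut c hc (by omega) ⟨a, p ++ u, r + (j - c - r), ha, Brd_append hp.1 hu, by
      rw [htt, List.append_assoc]⟩
  · rintro c' h4 h5 ⟨s', u', b, hs', hu', h6⟩
    refine hcut (c + r + c') (by omega) (by omega) ⟨a ++ p ++ s', u', b, ?_, hu', ?_⟩
    · exact Brd_append (Brd_append ha hp.1) hs'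
    · rw [htt, h6, List.append_assoc, List.append_assoc, List.append_assoc]

lemma gf_FCW (T : ℕ) : gf (FCW T) = 1 := by
  rw [← tsum_FCW T]
  unfold gf
  exact tsum_subtype (FCW T) wE

/-- union bound over the piece with the property Q -/
lemma core {N T : ℕ} {E : Set (List Bool)} (Q : List Bool → Prop)
    (hE : ∀ t ∈ E, ∃ c r a p u, c < N ∧ a ∈ Brd c ∧ p ∈ Irr r ∧ Q p ∧ u ∈ FCW (T - (c + r)) ∧ t = a ++ p ++ u) :
    gf E ≤ ENNReal.ofReal (UU N) * ∑' r : ℕ, gf {p | p ∈ Irr r ∧ Q p} := by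
  let C : ℕ → ℕ → Set (List Bool) := fun c r => {t | ∃ a p u, a ∈ Brd c ∧ p ∈ Irr r ∧ Q p ∧ u ∈ FCW (T - (c + r)) ∧
    t = a ++ p ++ u}
  have h1 : ∀ c r, gf (C c r) ≤ BT c * gf {p | p ∈ Irr r ∧ Q p} := by
    intro c r
    have e1 : gf (C c r) ≤ gf {w | ∃ a p, a ∈ Brd c ∧ p ∈ Irr r ∧ Q p ∧ w = a ++ p} * gf (FCW (T - (c + r))) := by
      apply gf_le_mul
      rintro t ⟨a, p, u, ha, hp, hQ, hu, rfl⟩
      exact ⟨a ++ p, ⟨a, p, ha, hp, hQ, rfl⟩, u, hu, rfl⟩
    rw [gf_FCW, mul_one] at e1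
    refine e1.trans ?_
    rw [← gf_Brd]
    apply gf_le_mul
    rintro t ⟨a, p, ha, hp, hQ, rfl⟩
    exact ⟨a, ha, p, ⟨hp, hQ⟩, rfl⟩
  have h2 : E ⊆ ⋃ c ∈ Finset.range N, ⋃ r : ℕ, C c r := by
    intro t ht
    obtain ⟨c, r, a, p, u, hc, ha, hp, hQ, hu, he⟩ := hE t ht
    simp only [Set.mem_iUnion]
    exact ⟨c, Finset.mem_range.2 hc, r, a, p, u, ha, hp, hQ, hu, he⟩
  have h3 : ∀ c, gf (⋃ r : ℕ, C c r) ≤ BT c * ∑' r : ℕ, gf {p | p ∈ Irr r ∧ Q p} := by
    intro c
    rw [← ENNReal.tsum_mul_left]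
    refine le_trans ?_ (ENNReal.tsum_le_tsum fun r => h1 c r)
    unfold gf
    exact ENNReal.tsum_iUnion_le_tsum wE (fun r => C c r)
  have h4 : gf (⋃ c ∈ Finset.range N, ⋃ r : ℕ, C c r) ≤ ∑ c ∈ Finset.range N, gf (⋃ r : ℕ, C c r) := by
    unfold gf
    exact ENNReal.tsum_biUnion_le wE (Finset.range N) (fun c => ⋃ r : ℕ, C c r)
  refine (gf_mono h2).trans (h4.trans ?_)
  refine (Finset.sum_le_sum fun c _ => h3 c).trans ?_
  rw [← Finset.sum_mul]
  gcongr
  have h5 : ENNReal.ofReal (UU N) = ∑ i ∈ Finset.range (N + 1), BT i := by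
    unfold UU
    rw [ENNReal.ofReal_sum_of_nonneg (fun i _ => (uu_pos i).le)]
    exact Finset.sum_congr rfl fun i _ => (Wall.BT_ofReal i).symm
  rw [h5, Finset.sum_range_succ]
  exact le_self_add

lemma tsum_KR {C c : ℝ} (h : ∀ y τ R : ℕ, 1 ≤ y → y ≤ τ →
    ∑ r ∈ Finset.range R, KR y τ r ≤ ENNReal.ofReal (C / UU τ * ((y : ℝ) / τ) ^ c)) {y τ : ℕ} (hy : 1 ≤ y)
    (hτ : y ≤ τ) : ∑' r : ℕ, KR y τ r ≤ ENNReal.ofReal (C / UU τ * ((y : ℝ) / τ) ^ c) :=
  ENNReal.tsum_le_of_sum_range_le fun R => h y τ R hy hτ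

end TouchR

open TouchR

/-- (R1) the walk comes back to the height y after a visit of the height t1 -/
theorem touch_low : ∃ C c : ℝ, 0 < C ∧ 0 < c ∧ ∀ y t1 T : ℕ, 1 ≤ y → y ≤ t1 → t1 ≤ T →
    gf {t | t ∈ FCW T ∧ ∃ i i' : ℕ, i ≤ i' ∧ i' ≤ t.length ∧ 3 * (t1 : ℤ) ≤ lev t i ∧ lev t i' ≤ 3 * (y : ℤ)} ≤
      ENNReal.ofReal (C * ((y : ℝ) / t1) ^ c) := by
  obtain ⟨C, c, hC, hc, h⟩ := deep_returns_final
  refine ⟨(2 * C + 1) * 3 ^ c, c, by positivity, hc, ?_⟩
  intro y t1 T hy hyt htT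
  have hy0 : (0 : ℝ) < y := by exact_mod_cast hy
  have ht0 : (0 : ℝ) < t1 := lt_of_lt_of_le hy0 (by exact_mod_cast hyt)
  have h3 : (3 : ℝ) ^ c * ((y : ℝ) / t1) ^ c = (3 * (y : ℝ) / t1) ^ c := by
    rw [← Real.mul_rpow (by norm_num) (by positivity), mul_div_assoc]
  rcases Nat.lt_or_ge t1 (3 * y) with hsm | hbig
  · calc _ ≤ gf (FCW T) := gf_mono fun t ht => ht.1
      _ = 1 := gf_FCW T
      _ = ENNReal.ofReal 1 := ENNReal.ofReal_one.symm
      _ ≤ _ := by
          apply ENNReal.ofReal_le_ofReal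
          rw [mul_assoc, h3]
          have h4 : (1 : ℝ) ≤ 3 * (y : ℝ) / t1 := by
            rw [le_div_iff₀ ht0, one_mul]
            exact_mod_cast hsm.le
          have h5 : (1 : ℝ) ≤ (3 * (y : ℝ) / t1) ^ c := Real.one_le_rpow h4 hc.le
          nlinarith
  · have hd : y ≤ t1 - y := by omega
    have hU : 0 < UU (t1 - y) := Num2Aux.UU_pos _
    have h1 : gf {t | t ∈ FCW T ∧ ∃ i i' : ℕ, i ≤ i' ∧ i' ≤ t.length ∧ 3 * (t1 : ℤ) ≤ lev t i ∧ lev t i' ≤ 3 * (y : ℤ)}
        ≤ ENNReal.ofReal (UU (y + 1)) * ∑' r : ℕ, KR y (t1 - y) r := by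
      refine core (T := T) (Ret y (t1 - y)) ?_
      rintro t ⟨⟨j, hj⟩, i, i', hii, hi', hl1, hl2⟩
      have hTj : T ≤ j := hj.2.1
      obtain ⟨c0, r, a, p, u, g1, g2, g3, _, ha, hp, hu, hu', htt⟩ := dec (s := y) hj (by omega)
      refine ⟨c0, r, a, p, u, by omega, ha, hp, ?_, hu', htt⟩
      have hap : a ++ p ∈ Brd (c0 + r) := Brd_append ha hp.1
      have k1 : a.length < i := by
        by_contra hlt
        push Not at hlt
        have := below (u := p ++ u) ha hlt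
        rw [← List.append_assoc, ← htt] at this
        omega
      have k2 : i' ≤ a.length + p.length := by
        by_contra hlt
        push Not at hlt
        have := beyond hap hu (i := i') (by rw [List.length_append]; omega) (by rw [← htt]; exact hi')
        rw [← htt] at this
        omega
      have k3 : ∀ k, k ≤ p.length → lev t (a.length + k) = 3 * (c0 : ℤ) + lev p k := by
        intro k hk
        rw [htt, lev_append (by rw [List.length_append]; omega), lev_cat (mem_Brd.1 ha).2.2.1, (mem_Brd.1 ha).2.2.2]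
      have k4 : i ≠ i' := by
        rintro rfl
        omega
      refine ⟨i - a.length, i' - a.length, by omega, by omega, ?_, ?_⟩
      · have := k3 (i - a.length) (by omega)
        rw [show a.length + (i - a.length) = i by omega] at this
        omega
      · have := k3 (i' - a.length) (by omega)
        rw [show a.length + (i' - a.length) = i' by omega] at this
        omega
    refine h1.trans ((mul_le_mul_right (tsum_KR h hy hd) _).trans ?_)
    rw [← ENNReal.ofReal_mul (Num2Aux.UU_pos _).le]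
    apply ENNReal.ofReal_le_ofReal
    have e1 : UU (y + 1) ≤ 2 * UU (t1 - y) := by
      calc UU (y + 1) ≤ UU (2 * y) := Num2Aux.UU_mono (by omega)
        _ ≤ 2 * UU y := UU_double y
        _ ≤ 2 * UU (t1 - y) := by
            have := Num2Aux.UU_mono hd
            linarith
    have e2 : ((y : ℝ) / ((t1 - y : ℕ) : ℝ)) ^ c ≤ (3 * (y : ℝ) / t1) ^ c := by
      apply Real.rpow_le_rpow (by positivity) _ hc.le
      have e3 : (0 : ℝ) < ((t1 - y : ℕ) : ℝ) := by exact_mod_cast (by omega : 0 < t1 - y)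
      rw [div_le_div_iff₀ e3 ht0]
      have e4 : (t1 : ℝ) ≤ 3 * ((t1 - y : ℕ) : ℝ) := by exact_mod_cast (by omega : t1 ≤ 3 * (t1 - y))
      nlinarith
    calc UU (y + 1) * (C / UU (t1 - y) * ((y : ℝ) / ((t1 - y : ℕ) : ℝ)) ^ c)
        ≤ (2 * UU (t1 - y)) * (C / UU (t1 - y) * (3 * (y : ℝ) / t1) ^ c) := by gcongr
      _ = 2 * C * (3 * (y : ℝ) / t1) ^ c := by field_simp
      _ ≤ (2 * C + 1) * (3 * (y : ℝ) / t1) ^ c := by
          gcongr
          linarith
      _ = (2 * C + 1) * 3 ^ c * ((y : ℝ) / t1) ^ c := by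
          rw [← h3]
          ring

/-- (R1') the walk comes down by t1 after a visit of the last y lines -/
theorem touch_high : ∃ C c : ℝ, 0 < C ∧ 0 < c ∧ ∀ y t1 T : ℕ, 1 ≤ y → y ≤ t1 → t1 ≤ T →
    gf {t | ∃ j : ℕ, t ∈ FC T j ∧ ∃ i i' : ℕ, i ≤ i' ∧ i' ≤ t.length ∧ 3 * ((j : ℤ) - y) ≤ lev t i ∧
        lev t i' ≤ 3 * ((j : ℤ) - t1)} ≤
      ENNReal.ofReal (C * ((T : ℝ) / t1) * ((y : ℝ) / t1) ^ c) := by
  obtain ⟨C, c, hC, hc, h⟩ := deep_returns_final
  have hW := Num2Aux.CW_pos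
  refine ⟨(2 * (6 + CW) * C + 1) * 4 ^ c, c, by positivity, hc, ?_⟩
  intro y t1 T hy hyt htT
  have hy0 : (0 : ℝ) < y := by exact_mod_cast hy
  have ht0 : (0 : ℝ) < t1 := lt_of_lt_of_le hy0 (by exact_mod_cast hyt)
  have hTt : (1 : ℝ) ≤ (T : ℝ) / t1 := by
    rw [le_div_iff₀ ht0, one_mul]
    exact_mod_cast htT
  have h3 : (4 : ℝ) ^ c * ((y : ℝ) / t1) ^ c = (4 * (y : ℝ) / t1) ^ c := by
    rw [← Real.mul_rpow (by norm_num) (by positivity), mul_div_assoc]
  have h3' : (2 * (6 + CW) * C + 1) * 4 ^ c * ((T : ℝ) / t1) * ((y : ℝ) / t1) ^ c =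
      (2 * (6 + CW) * C + 1) * ((T : ℝ) / t1) * (4 * (y : ℝ) / t1) ^ c := by
    rw [← h3]
    ring
  rw [h3']
  rcases Nat.lt_or_ge t1 (4 * y) with hsm | hbig
  · calc _ ≤ gf (FCW T) := gf_mono (by
          rintro t ⟨j, hj, _⟩
          exact ⟨j, hj⟩)
      _ = 1 := gf_FCW T
      _ = ENNReal.ofReal 1 := ENNReal.ofReal_one.symm
      _ ≤ _ := by
          apply ENNReal.ofReal_le_ofReal
          have h4 : (1 : ℝ) ≤ 4 * (y : ℝ) / t1 := by
            rw [le_div_iff₀ ht0, one_mul]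
            exact_mod_cast hsm.le
          have h5 : (1 : ℝ) ≤ (4 * (y : ℝ) / t1) ^ c := Real.one_le_rpow h4 hc.le
          have h6 : (1 : ℝ) ≤ 2 * (6 + CW) * C + 1 := by
            have : 0 < 2 * (6 + CW) * C := by positivity
            linarith
          exact one_le_mul_of_one_le_of_one_le (one_le_mul_of_one_le_of_one_le h6 hTt) h5
  · have hd : 2 * y ≤ t1 - y := by omega
    have hU : 0 < UU (t1 - y) := Num2Aux.UU_pos _
    have h1 : gf {t | ∃ j : ℕ, t ∈ FC T j ∧ ∃ i i' : ℕ, i ≤ i' ∧ i' ≤ t.length ∧ 3 * ((j : ℤ) - y) ≤ lev t i ∧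
        lev t i' ≤ 3 * ((j : ℤ) - t1)}
        ≤ ENNReal.ofReal (UU T) * ∑' r : ℕ, KR (2 * y) (t1 - y) r := by
      have e0 : ∀ r, KR (2 * y) (t1 - y) r = gf {p | p ∈ Irr r ∧ Ret (2 * y) (t1 - y) (rev p)} := fun r =>
        (Wall.gf_Irr_rev r (fun P => Ret (2 * y) (t1 - y) P)).symm
      simp_rw [e0]
      refine core (T := T) (fun p => Ret (2 * y) (t1 - y) (rev p)) ?_
      rintro t ⟨j, hj, i, i', hii, hi', hl1, hl2⟩
      have hTj : T ≤ j := hj.2.1
      obtain ⟨c0, r, a, p, u, g1, g2, g3, g4, ha, hp, hu, hu', htt⟩ := dec (s := j - y - 1) hj (by omega)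
      refine ⟨c0, r, a, p, u, g4, ha, hp, ?_, hu', htt⟩
      have hap : a ++ p ∈ Brd (c0 + r) := Brd_append ha hp.1
      have k1 : a.length < i := by
        by_contra hlt
        push Not at hlt
        have := below (u := p ++ u) ha hlt
        rw [← List.append_assoc, ← htt] at this
        omega
      have k2 : i' ≤ a.length + p.length := by
        by_contra hlt
        push Not at hlt
        have := beyond hap hu (i := i') (by rw [List.length_append]; omega) (by rw [← htt]; exact hi')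
        rw [← htt] at this
        omega
      have k3 : ∀ k, k ≤ p.length → lev t (a.length + k) = 3 * (c0 : ℤ) + lev p k := by
        intro k hk
        rw [htt, lev_append (by rw [List.length_append]; omega), lev_cat (mem_Brd.1 ha).2.2.1, (mem_Brd.1 ha).2.2.2]
      have k4 : i ≠ i' := by
        rintro rfl
        omega
      have k5 : ∀ k, 1 ≤ k → k ≤ p.length → lev (rev p) (p.length + 1 - k) = 3 * (r : ℤ) + 2 - lev p k := by
        intro k hk1 hk2
        have hp' := mem_Brd.1 hp.1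
        rw [lev_rot hp'.2.2.1 (by omega), show p.length + 1 - (p.length + 1 - k) = k by omega, lev_succ, hp'.2.2.1,
          hp'.2.2.2]
        have : ip up up = 2 := by decide
        rw [this]
      refine ⟨p.length + 1 - (i' - a.length), p.length + 1 - (i - a.length), by omega, ?_, ?_, ?_⟩
      · rw [rev_length]
        omega
      · have m1 := k3 (i' - a.length) (by omega)
        rw [show a.length + (i' - a.length) = i' by omega] at m1
        rw [k5 (i' - a.length) (by omega) (by omega)]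
        omega
      · have m1 := k3 (i - a.length) (by omega)
        rw [show a.length + (i - a.length) = i by omega] at m1
        rw [k5 (i - a.length) (by omega) (by omega)]
        push_cast
        omega
    refine h1.trans ((mul_le_mul_right (tsum_KR h (by omega) hd) _).trans ?_)
    rw [← ENNReal.ofReal_mul (Num2Aux.UU_pos _).le]
    apply ENNReal.ofReal_le_ofReal
    have e3 : (0 : ℝ) < ((t1 - y : ℕ) : ℝ) := by exact_mod_cast (by omega : 0 < t1 - y)
    have e4 : (t1 : ℝ) ≤ 2 * ((t1 - y : ℕ) : ℝ) := by exact_mod_cast (by omega : t1 ≤ 2 * (t1 - y))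
    have e1 : UU T ≤ 2 * (6 + CW) * ((T : ℝ) / t1) * UU (t1 - y) := by
      have f1 := UU_le_mul (T := T) (by omega)
      have f2 := Num2Aux.mul_le_UU (t1 - y)
      have f3 : uu T ≤ uu (t1 - y) := Num2Aux.anti (by omega)
      have f4 : 0 ≤ uu (t1 - y) := Num2Aux.nonneg _
      have f5 : (t1 : ℝ) * uu (t1 - y) ≤ 2 * UU (t1 - y) := by
        calc (t1 : ℝ) * uu (t1 - y) ≤ 2 * ((t1 - y : ℕ) : ℝ) * uu (t1 - y) := by gcongr
          _ = 2 * (((t1 - y : ℕ) : ℝ) * uu (t1 - y)) := by ring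
          _ ≤ _ := by linarith
      calc UU T ≤ (6 + CW) * (T * uu T) := f1
        _ ≤ (6 + CW) * (T * uu (t1 - y)) := by gcongr
        _ = (6 + CW) * ((T : ℝ) / t1) * (t1 * uu (t1 - y)) := by field_simp
        _ ≤ (6 + CW) * ((T : ℝ) / t1) * (2 * UU (t1 - y)) := by gcongr
        _ = _ := by ring
    have e2 : (((2 * y : ℕ) : ℝ) / ((t1 - y : ℕ) : ℝ)) ^ c ≤ (4 * (y : ℝ) / t1) ^ c := by
      apply Real.rpow_le_rpow (by positivity) _ hc.le
      rw [div_le_div_iff₀ e3 ht0]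
      push_cast
      nlinarith
    calc UU T * (C / UU (t1 - y) * (((2 * y : ℕ) : ℝ) / ((t1 - y : ℕ) : ℝ)) ^ c)
        ≤ (2 * (6 + CW) * ((T : ℝ) / t1) * UU (t1 - y)) * (C / UU (t1 - y) * (4 * (y : ℝ) / t1) ^ c) := by gcongr
      _ = 2 * (6 + CW) * C * ((T : ℝ) / t1) * (4 * (y : ℝ) / t1) ^ c := by field_simp
      _ ≤ (2 * (6 + CW) * C + 1) * ((T : ℝ) / t1) * (4 * (y : ℝ) / t1) ^ c := by
          gcongr
          linarith

end HexObs
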