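import Pool.Agent.Tight.Touch2
import Pool.Agent.Tight.TouchR

/-!
TIGHT, touching the boundary, part 5: the subsequential limits do not leave their last line.
-/

set_option autoImplicit false

namespace HexObs

open Finset MeasureTheory Filter Topology

open scoped ENNReal

namespace Touch

lemma convex_max {A B V x : ℝ} (h0 : 0 ≤ x) (h1 : x ≤ 1) (h : V = (1 - x) * A + x * B) (hA : A < V) (hB : B < V) :
    False := by
  have e : (1 - x) * (V - A) + x * (V - B) = 0 := by
    have : (1 - x) * (V - A) + x * (V - B) = V - ((1 - x) * A + x * B) := by ring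
    rw [this, ← h, sub_self]
  rcases h0.eq_or_lt with h2 | h2
  · rw [← h2] at e
    linarith
  · have h3 : 0 < x * (V - B) := mul_pos h2 (by linarith)
    have h4 : 0 ≤ (1 - x) * (V - A) := mul_nonneg (by linarith) (by linarith)
    linarith

lemma top_curve {T j y t1 : ℕ} (hT : 1 ≤ T) {d e : ℝ} {t : List Bool} (ht : t ∈ FC T j) {u v : unitInterval}
    (huv : u ≤ v) (hu : (curve T t 1).im - (curve T t u).im < e) (hv : d < (curve T t 1).im - (curve T t v).im)
    (h1 : 2 * e * T ≤ 3 * y) (h2 : (3 * t1 : ℝ) ≤ 2 * d * T) (h3 : 2 < (d - e) * T) :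
    ∃ i i' : ℕ, i ≤ i' ∧ i' ≤ t.length ∧ 3 * ((j : ℤ) - y) ≤ lev t i ∧ lev t i' ≤ 3 * ((j : ℤ) - t1) := by
  have hn := len_pos hT ht
  have hT' : (0 : ℝ) < T := by exact_mod_cast hT
  have hn0 : (0 : ℝ) < t.length := by exact_mod_cast hn
  have htop : (curve T t 1).im = (3 * j : ℝ) / 2 / T := by
    unfold curve
    rw [Tight.poly_one, im_div, (mem_Brd.1 ht.1).2.2.2]
    push_cast
    ring
  obtain ⟨i, x, hi, hx0, hx1, hx, him, -⟩ := pts (T := T) hn u
  obtain ⟨i', x', hi', hx0', hx1', hx', him', -⟩ := pts (T := T) hn v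
  have hst := im_step t hT i
  have hst' := im_step t hT i'
  rw [abs_le] at hst hst'
  -- a high vertex
  obtain ⟨k, hk1, hk2, hk3⟩ : ∃ k, i ≤ k ∧ k ≤ i + 1 ∧ (curve T t u).im ≤ (zp t k / (T : ℂ)).im := by
    by_contra hcon
    push Not at hcon
    exact convex_max hx0 hx1 him (hcon i le_rfl (by omega)) (hcon (i + 1) (by omega) le_rfl)
  obtain ⟨k', hk1', hk2', hk3'⟩ : ∃ k, i' ≤ k ∧ k ≤ i' + 1 ∧ (zp t k / (T : ℂ)).im ≤ (curve T t v).im := by
    by_contra hcon
    push Not at hcon
    refine convex_max (A := -(zp t i' / (T : ℂ)).im) (B := -(zp t (i' + 1) / (T : ℂ)).im)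
      (V := -(curve T t v).im) hx0' hx1' (by rw [him']; ring) ?_ ?_
    · exact neg_lt_neg (hcon i' le_rfl (by omega))
    · exact neg_lt_neg (hcon (i' + 1) (by omega) le_rfl)
  have hii : i ≤ i' := by
    by_contra hcon
    have a1 : (u : ℝ) ≤ v := huv
    have a2 : (u : ℝ) * t.length ≤ v * t.length := mul_le_mul_of_nonneg_right a1 hn0.le
    have a3 : ((i' + 1 : ℕ) : ℝ) ≤ i := by exact_mod_cast (by omega : i' + 1 ≤ i)
    push_cast at a3
    have a4 : x' = 1 := by linarith
    have a5 : x = 0 := by linarith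
    have a6 : i = i' + 1 := by
      have : (i : ℝ) = ((i' + 1 : ℕ) : ℝ) := by push_cast; linarith
      exact_mod_cast this
    rw [a5] at him
    rw [a4] at him'
    rw [a6] at him
    have a7 : (curve T t u).im = (curve T t v).im := by rw [him, him']; ring
    rw [a7] at hu
    have a8 : 0 < (d - e) * T := by linarith
    have a9 : 0 < d - e := by
      by_contra hcon2
      push Not at hcon2
      have := mul_nonpos_of_nonpos_of_nonneg hcon2 hT'.le
      linarith
    linarith
  have hd : d - e < (zp t k / (T : ℂ)).im - (zp t k' / (T : ℂ)).im := by linarith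
  have hkk : k ≤ k' := by
    by_contra hcon
    have a1 : k = i + 1 := by omega
    have a2 : k' = i := by omega
    have a3 : i' = i := by omega
    rw [a1, a2] at hd
    have a4 : (d - e) * T < 1 := by
      have : d - e < 1 / T := by linarith
      rwa [lt_div_iff₀ hT'] at this
    linarith
  refine ⟨k, k', hkk, by omega, ?_, ?_⟩
  · rw [im_div] at hk3
    have a1 : (3 * j : ℝ) / 2 / T - e < (lev t k : ℝ) / 2 / T := by linarith
    have a2 : (3 * j : ℝ) - 2 * e * T < lev t k := by
      have := mul_lt_mul_of_pos_right a1 (show (0 : ℝ) < 2 * T by positivity)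
      have e1 : ((3 * j : ℝ) / 2 / T - e) * (2 * T) = 3 * j - 2 * e * T := by
        field_simp
      have e2 : (lev t k : ℝ) / 2 / T * (2 * T) = lev t k := by
        field_simp
      rwa [e1, e2] at this
    have a3 : (3 * ((j : ℝ) - y)) < lev t k := by linarith
    have a4 : 3 * ((j : ℤ) - y) < lev t k := by exact_mod_cast a3
    exact a4.le
  · rw [im_div] at hk3'
    have a1 : (lev t k' : ℝ) / 2 / T < (3 * j : ℝ) / 2 / T - d := by linarith
    have a2 : (lev t k' : ℝ) < (3 * j : ℝ) - 2 * d * T := by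
      have := mul_lt_mul_of_pos_right a1 (show (0 : ℝ) < 2 * T by positivity)
      have e1 : ((3 * j : ℝ) / 2 / T - d) * (2 * T) = 3 * j - 2 * d * T := by
        field_simp
      have e2 : (lev t k' : ℝ) / 2 / T * (2 * T) = lev t k' := by
        field_simp
      rwa [e1, e2] at this
    have a3 : (lev t k' : ℝ) < (3 * ((j : ℝ) - t1)) := by linarith
    have a4 : lev t k' < 3 * ((j : ℤ) - t1) := by exact_mod_cast a3
    exact a4.le

/-- after the first visit of their last line, the limits stay on this line -/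
theorem top_line {X : ℕ → List Bool → C(unitInterval, ℂ)} {μ : ℕ → ProbabilityMeasure C(unitInterval, ℂ)}
    {φ : ℕ → ℕ} {ν : ProbabilityMeasure C(unitInterval, ℂ)}
    (hX : ∀ T t, ∃ r : unitInterval ≃ₜ unitInterval, Monotone r ∧ ∀ u, X T t u = curve T t (r u))
    (hμ : ∀ T, (μ T : Measure C(unitInterval, ℂ)) = ((lawK T).map (X T)).toMeasure)
    (hφ : Tendsto φ atTop atTop) (hν : Tendsto (fun k => μ (φ k)) atTop (𝓝 ν)) :
    ∀ᵐ (f : C(unitInterval, ℂ)) ∂(ν : Measure C(unitInterval, ℂ)), ∀ u v, u ≤ v → (f u).im = (f 1).im →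
      (f 1).im ≤ (f v).im := by
  obtain ⟨C, c, hC, hc, hth⟩ := touch_high
  have h0 : ∀ d : ℝ, 0 < d → d ≤ 1 → (ν : Measure C(unitInterval, ℂ))
      {f | ∃ u v : unitInterval, u ≤ v ∧ (f u).im = (f 1).im ∧ d < (f 1).im - (f v).im} = 0 := by
    intro d hd hd1
    refine zero_of_le (pow_tendsto hc (C * (3 / d)) (4 / d)) (a := d / 8) (by positivity) fun e he he1 => ?_
    have hopen : IsOpen {f : C(unitInterval, ℂ) | ∃ u v : unitInterval, u ≤ v ∧ (f 1).im - (f u).im < e ∧
        d < (f 1).im - (f v).im} := by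
      have h : {f : C(unitInterval, ℂ) | ∃ u v : unitInterval, u ≤ v ∧ (f 1).im - (f u).im < e ∧
          d < (f 1).im - (f v).im} = ⋃ u : unitInterval, ⋃ v : unitInterval, ⋃ _ : u ≤ v,
            ({f : C(unitInterval, ℂ) | (f 1).im - (f u).im < e} ∩ {f | d < (f 1).im - (f v).im}) := by
        ext f
        simp only [Set.mem_ofPred_eq, Set.mem_iUnion, Set.mem_inter_iff, exists_prop]
      rw [h]
      have hc1 : ∀ u : unitInterval, Continuous fun f : C(unitInterval, ℂ) => (f 1).im - (f u).im := fun u =>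
        (Complex.continuous_im.comp (continuous_eval_const 1)).sub (Complex.continuous_im.comp (continuous_eval_const u))
      exact isOpen_iUnion fun u => isOpen_iUnion fun v => isOpen_iUnion fun _ =>
        (isOpen_lt (hc1 u) continuous_const).inter (isOpen_lt continuous_const (hc1 v))
    refine (measure_mono ?_).trans (lim_le hμ hφ hν hopen ?_)
    · rintro f ⟨u, v, h1, h2, h3⟩
      exact ⟨u, v, h1, by rw [h2, sub_self]; exact he, h3⟩
    · filter_upwards [eventually_ge_atTop (max 1 ⌈6 / e⌉₊)] with T hT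
      have hT1 : 1 ≤ T := le_trans (le_max_left _ _) hT
      have hT0 : (0 : ℝ) < T := by exact_mod_cast hT1
      have hTe : 6 ≤ e * T := by
        have h1 : 6 / e ≤ (T : ℝ) := (Nat.le_ceil _).trans (by exact_mod_cast (le_trans (le_max_right _ _) hT))
        rw [div_le_iff₀ he] at h1
        linarith
      have hde : 8 * (e * T) ≤ d * T := by
        have := mul_le_mul_of_nonneg_right he1 hT0.le
        linarith
      obtain ⟨y, hy⟩ : ∃ y, y = ⌈e * T⌉₊ := ⟨_, rfl⟩
      obtain ⟨t1, ht1⟩ : ∃ t1, t1 = ⌊d * T / 2⌋₊ := ⟨_, rfl⟩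
      have hy1 : e * T ≤ y := by rw [hy]; exact Nat.le_ceil _
      have hy2 : (y : ℝ) < e * T + 1 := by rw [hy]; exact Nat.ceil_lt_add_one (by positivity)
      have ht1a : (t1 : ℝ) ≤ d * T / 2 := by rw [ht1]; exact Nat.floor_le (by positivity)
      have ht1b : d * T / 2 < (t1 : ℝ) + 1 := by rw [ht1]; exact Nat.lt_floor_add_one _
      have hy3 : 1 ≤ y := by
        have : (0 : ℝ) < y := by linarith
        exact_mod_cast this
      have hyt : y ≤ t1 := by
        have : (y : ℝ) ≤ t1 := by linarith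
        exact_mod_cast this
      have ht1T : t1 ≤ T := by
        have : (t1 : ℝ) ≤ T := by nlinarith
        exact_mod_cast this
      refine (gf_mono ?_).trans ((hth y t1 T hy3 hyt ht1T).trans (ENNReal.ofReal_le_ofReal ?_))
      · rintro t ⟨⟨j, hj⟩, u, v, h1, h2, h3⟩
        obtain ⟨r, hr, hXr⟩ := hX T t
        rw [hXr, hXr, r_one hr] at h2 h3
        exact ⟨j, hj, top_curve hT1 hj (hr h1) h2 h3 (by nlinarith) (by nlinarith) (by nlinarith)⟩
      · have ht0 : (0 : ℝ) < t1 := by
          have a1 : (1 : ℝ) ≤ y := by exact_mod_cast hy3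
          have a2 : (y : ℝ) ≤ t1 := by exact_mod_cast hyt
          linarith
        have h1 : (T : ℝ) / t1 ≤ 3 / d := by
          rw [div_le_div_iff₀ ht0 hd]
          nlinarith
        have h2 : (y : ℝ) / t1 ≤ 4 / d * e := by
          rw [div_le_iff₀ ht0]
          have a1 : 4 / d * e * t1 = 4 * e * t1 / d := by ring
          rw [a1, le_div_iff₀ hd]
          have a2 : (y : ℝ) * d ≤ (e * T + 1) * d := mul_le_mul_of_nonneg_right hy2.le hd.le
          have a3 : d * T / 2 - 1 ≤ t1 := by linarith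
          have a4 : 4 * e * (d * T / 2 - 1) ≤ 4 * e * t1 := mul_le_mul_of_nonneg_left a3 (by positivity)
          have a5 : (e * T + 1) * d ≤ 4 * e * (d * T / 2 - 1) := by
            have a6 : 4 * e * (d * T / 2 - 1) = 2 * (e * (d * T)) - 4 * e := by ring
            have a7 : (e * T + 1) * d = e * (d * T) + d := by ring
            have a8 : 6 * d ≤ e * (d * T) := by
              have := mul_le_mul_of_nonneg_left hTe hd.le
              linarith
            have a9 : 8 * e ≤ d := by linarith
            linarith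
          linarith
        have h3 : ((y : ℝ) / t1) ^ c ≤ (4 / d * e) ^ c := Real.rpow_le_rpow (by positivity) h2 hc.le
        have h4 : (0 : ℝ) ≤ (T : ℝ) / t1 := by positivity
        calc C * ((T : ℝ) / t1) * ((y : ℝ) / t1) ^ c ≤ C * (3 / d) * (4 / d * e) ^ c := by gcongr
          _ = _ := by ring
  have h1 : ∀ᵐ (f : C(unitInterval, ℂ)) ∂(ν : Measure C(unitInterval, ℂ)), ∀ n : ℕ,
      ¬ ∃ u v : unitInterval, u ≤ v ∧ (f u).im = (f 1).im ∧ 1 / ((n : ℝ) + 1) < (f 1).im - (f v).im := by
    rw [ae_all_iff]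
    intro n
    rw [ae_iff]
    simp only [not_not]
    refine h0 (1 / ((n : ℝ) + 1)) (by positivity) ?_
    rw [div_le_one (by positivity)]
    have : (0 : ℝ) ≤ n := Nat.cast_nonneg n
    linarith
  filter_upwards [h1] with f hf u v huv hu
  refine le_of_forall_pos_le_add fun ε hε => ?_
  obtain ⟨n, hn⟩ := exists_nat_one_div_lt hε
  by_contra hcon
  exact hf n ⟨u, v, huv, hu, by linarith⟩

end Touch

end HexObs
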