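import Pool.Agent.Tight.Defs

/-!
TIGHT, modules TH2 (reparametrisation) and TH3 (compactness).
-/

set_option autoImplicit false

namespace Tight

open Finset

lemma th2_clamp_lt {x : ℝ} {j i : ℕ} (hj : j < i) (hx : (i : ℝ) ≤ x) : max 0 (min 1 (x - j)) = 1 := by
  have h1 : ((j + 1 : ℕ) : ℝ) ≤ i := by exact_mod_cast hj
  push_cast at h1
  rw [min_eq_left (by linarith), max_eq_right zero_le_one]

lemma th2_clamp_gt {x : ℝ} {j i : ℕ} (hj : i < j) (hx : x ≤ i + 1) : max 0 (min 1 (x - j)) = 0 := by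
  have h1 : ((i + 1 : ℕ) : ℝ) ≤ j := by exact_mod_cast hj
  push_cast at h1
  rw [min_eq_right (by linarith), max_eq_left (by linarith)]

lemma th2_clamp_eq {x : ℝ} {i : ℕ} (h1 : (i : ℝ) ≤ x) (h2 : x ≤ i + 1) : max 0 (min 1 (x - i)) = x - i := by
  rw [min_eq_right (by linarith), max_eq_right (by linarith)]

lemma th2_sum {E : Type*} [AddCommGroup E] [Module ℝ E] (v : ℕ → E) {n i : ℕ} (hi : i < n) {x : ℝ}
    (h1 : (i : ℝ) ≤ x) (h2 : x ≤ i + 1) :
    ∑ j ∈ range n, (max 0 (min 1 (x - j))) • v j = ∑ j ∈ range i, v j + (x - i) • v i := by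
  rw [← Finset.sum_range_add_sum_Ico _ (show i + 1 ≤ n from hi), Finset.sum_range_succ, th2_clamp_eq h1 h2]
  have e1 : ∑ j ∈ range i, (max 0 (min 1 (x - j))) • v j = ∑ j ∈ range i, v j := by
    apply Finset.sum_congr rfl
    intro j hj
    rw [Finset.mem_range] at hj
    rw [th2_clamp_lt hj h1, one_smul]
  have e2 : ∑ j ∈ Ico (i + 1) n, (max 0 (min 1 (x - j))) • v j = 0 := by
    apply Finset.sum_eq_zero
    intro j hj
    rw [Finset.mem_Ico] at hj
    rw [th2_clamp_gt (i := i) (by omega) h2, zero_smul]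
  rw [e1, e2, add_zero]

/-- values of the polygonal curve -/
theorem poly_apply {z : ℕ → ℂ} {n i : ℕ} (hi : i < n) {s : unitInterval} (h1 : (i : ℝ) ≤ s * n)
    (h2 : (s : ℝ) * n ≤ i + 1) : poly z n s = z i + (((s : ℝ) * n - i : ℝ) : ℂ) * (z (i + 1) - z i) := by
  have h := th2_sum (fun j => z (j + 1) - z j) hi h1 h2
  have e : poly z n s = z 0 + ∑ j ∈ range n, (max 0 (min 1 ((s : ℝ) * n - j))) • (z (j + 1) - z j) := by
    show z 0 + ∑ i ∈ range n, ((max 0 (min 1 ((s : ℝ) * n - i)) : ℝ) : ℂ) * (z (i + 1) - z i) = _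
    congr 1
  rw [e, h, Finset.sum_range_sub, Complex.real_smul]
  ring

theorem poly_zero (z : ℕ → ℂ) (n : ℕ) : poly z n 0 = z 0 := by
  show z 0 + ∑ i ∈ range n, ((max 0 (min 1 (((0 : unitInterval) : ℝ) * n - i)) : ℝ) : ℂ) * (z (i + 1) - z i) = z 0
  rw [Finset.sum_eq_zero, add_zero]
  intro i _
  have h : (0 : ℝ) ≤ i := Nat.cast_nonneg i
  have e : max 0 (min 1 (((0 : unitInterval) : ℝ) * n - i)) = 0 := by
    rw [Set.Icc.coe_zero, zero_mul, zero_sub, min_eq_right (by linarith), max_eq_left (by linarith)]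
  rw [e]
  simp

theorem poly_one {z : ℕ → ℂ} {n : ℕ} : poly z n 1 = z n := by
  show z 0 + ∑ i ∈ range n, ((max 0 (min 1 (((1 : unitInterval) : ℝ) * n - i)) : ℝ) : ℂ) * (z (i + 1) - z i) = z n
  have e : ∑ i ∈ range n, ((max 0 (min 1 (((1 : unitInterval) : ℝ) * n - i)) : ℝ) : ℂ) * (z (i + 1) - z i) =
      ∑ i ∈ range n, (z (i + 1) - z i) := by
    apply Finset.sum_congr rfl
    intro i hi
    rw [Finset.mem_range] at hi
    rw [Set.Icc.coe_one, one_mul, th2_clamp_lt hi le_rfl]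
    simp
  rw [e, Finset.sum_range_sub]
  ring

lemma th2_idx {n : ℕ} (hn : 1 ≤ n) (s : unitInterval) : ∃ i < n, (i : ℝ) ≤ s * n ∧ (s : ℝ) * n ≤ i + 1 := by
  have hn0 : (0 : ℝ) < n := by exact_mod_cast hn
  have h0 : 0 ≤ (s : ℝ) * n := mul_nonneg s.2.1 hn0.le
  rcases s.2.2.lt_or_eq with h | h
  · refine ⟨⌊(s : ℝ) * n⌋₊, ?_, Nat.floor_le h0, (Nat.lt_floor_add_one _).le⟩
    rw [Nat.floor_lt h0]
    calc (s : ℝ) * n < 1 * n := mul_lt_mul_of_pos_right h hn0
      _ = n := one_mul _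
  · refine ⟨n - 1, by omega, ?_, ?_⟩
    · rw [h, one_mul, Nat.cast_sub hn]
      simp
    · rw [h, one_mul, Nat.cast_sub hn]
      simp

/-- the time change -/
noncomputable def th2_T (w : ℕ → ℝ) (n : ℕ) (s : unitInterval) : ℝ :=
  ∑ j ∈ range n, (max 0 (min 1 ((s : ℝ) * n - j))) • w j

lemma th2_T_cont (w : ℕ → ℝ) (n : ℕ) : Continuous (th2_T w n) := by
  unfold th2_T
  fun_prop

lemma th2_T_zero (w : ℕ → ℝ) (n : ℕ) : th2_T w n 0 = 0 := by
  unfold th2_T
  apply Finset.sum_eq_zero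
  intro i _
  have h : (0 : ℝ) ≤ i := Nat.cast_nonneg i
  rw [Set.Icc.coe_zero, zero_mul, zero_sub, min_eq_right (by linarith), max_eq_left (by linarith), zero_smul]

lemma th2_T_one (w : ℕ → ℝ) (n : ℕ) : th2_T w n 1 = ∑ e ∈ range n, w e := by
  unfold th2_T
  apply Finset.sum_congr rfl
  intro i hi
  rw [Finset.mem_range] at hi
  rw [Set.Icc.coe_one, one_mul, th2_clamp_lt hi le_rfl, one_smul]

lemma th2_T_strict {w : ℕ → ℝ} {n : ℕ} (hn : 1 ≤ n) (hw : ∀ e < n, 0 < w e) : StrictMono (th2_T w n) := by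
  intro a b hab
  have hab' : (a : ℝ) < b := hab
  have hn0 : (0 : ℝ) < n := by exact_mod_cast hn
  have h0 : 0 ≤ (a : ℝ) * n := mul_nonneg a.2.1 hn0.le
  have hmul : (a : ℝ) * n < b * n := mul_lt_mul_of_pos_right hab' hn0
  unfold th2_T
  apply Finset.sum_lt_sum
  · intro j hj
    rw [Finset.mem_range] at hj
    rw [smul_eq_mul, smul_eq_mul]
    apply mul_le_mul_of_nonneg_right _ (hw j hj).le
    exact max_le_max le_rfl (min_le_min le_rfl (by linarith))
  · refine ⟨⌊(a : ℝ) * n⌋₊, ?_, ?_⟩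
    · rw [Finset.mem_range, Nat.floor_lt h0]
      have : (b : ℝ) ≤ 1 := b.2.2
      calc (a : ℝ) * n < b * n := hmul
        _ ≤ 1 * n := mul_le_mul_of_nonneg_right this hn0.le
        _ = n := one_mul _
    · have hlt : ⌊(a : ℝ) * n⌋₊ < n := by
        rw [Nat.floor_lt h0]
        have : (b : ℝ) ≤ 1 := b.2.2
        calc (a : ℝ) * n < b * n := hmul
          _ ≤ 1 * n := mul_le_mul_of_nonneg_right this hn0.le
          _ = n := one_mul _
      have h1 := Nat.floor_le h0
      have h2 := Nat.lt_floor_add_one ((a : ℝ) * n)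
      rw [smul_eq_mul, smul_eq_mul]
      apply mul_lt_mul_of_pos_right _ (hw _ hlt)
      rw [th2_clamp_eq h1 h2.le]
      refine lt_of_lt_of_le ?_ (le_max_right _ _)
      rw [lt_min_iff]
      constructor <;> linarith

lemma th2_T_apply {w : ℕ → ℝ} {n i : ℕ} (hi : i < n) {s : unitInterval} (h1 : (i : ℝ) ≤ s * n)
    (h2 : (s : ℝ) * n ≤ i + 1) : th2_T w n s = ∑ j ∈ range i, w j + ((s : ℝ) * n - i) * w i :=
  th2_sum w hi h1 h2

/-- a part of an edge -/
lemma th2_edge {α C η x W d : ℝ} (hα0 : 0 < α) (hα1 : α ≤ 1) (hC : 0 ≤ C) (hx0 : 0 ≤ x) (hx1 : x ≤ 1) (hW : 0 ≤ W)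
    (hd : d ≤ η) (hη : η ≤ C * W ^ α) : x * d ≤ C * (x * W) ^ α := by
  have h1 : x ≤ x ^ α := by
    rcases hx0.eq_or_lt with h | h
    · rw [← h, Real.zero_rpow hα0.ne']
    · calc x = x ^ (1 : ℝ) := (Real.rpow_one x).symm
        _ ≤ x ^ α := Real.rpow_le_rpow_of_exponent_ge h hx1 hα1
  calc x * d ≤ x * (C * W ^ α) := mul_le_mul_of_nonneg_left (hd.trans hη) hx0
    _ = (C * W ^ α) * x := mul_comm _ _
    _ ≤ (C * W ^ α) * x ^ α := mul_le_mul_of_nonneg_left h1 (mul_nonneg hC (Real.rpow_nonneg hW _))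
    _ = C * (x * W) ^ α := by
        rw [Real.mul_rpow hx0 hW]
        ring

/-- the estimate for ordered times -/
lemma th2_main {α C η : ℝ} (hα0 : 0 < α) (hα1 : α ≤ 1) (hC : 0 ≤ C) {z : ℕ → ℂ} {n : ℕ} (hn : 1 ≤ n)
    {w : ℕ → ℝ} (hw : ∀ e < n, 0 < w e)
    (hstep : ∀ i < n, dist (z i) (z (i + 1)) ≤ η) (hη : ∀ e < n, η ≤ C * (w e) ^ α)
    (hdist : ∀ i j, i ≤ j → j ≤ n → dist (z i) (z j) ≤ C * (∑ e ∈ Ico i j, w e) ^ α)
    {a b : unitInterval} (hab : a ≤ b) :
    dist (poly z n a) (poly z n b) ≤ 3 * C * (th2_T w n b - th2_T w n a) ^ α := by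
  have hn0 : (0 : ℝ) < n := by exact_mod_cast hn
  have hab' : (a : ℝ) ≤ b := hab
  have hmul : (a : ℝ) * n ≤ b * n := mul_le_mul_of_nonneg_right hab' hn0.le
  have hT : 0 ≤ th2_T w n b - th2_T w n a := sub_nonneg.2 ((th2_T_strict hn hw).monotone hab)
  have hT' : 0 ≤ (th2_T w n b - th2_T w n a) ^ α := Real.rpow_nonneg hT _
  obtain ⟨i, hi, i1, i2⟩ := th2_idx hn a
  obtain ⟨j, hj, j1, j2⟩ := th2_idx hn b
  rcases lt_trichotomy i j with hij | hij | hij
  · -- different edges
    have hij' : ((i + 1 : ℕ) : ℝ) ≤ j := by exact_mod_cast hij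
    push_cast at hij'
    have Ta := th2_T_apply (w := w) hi i1 i2
    have Tb := th2_T_apply (w := w) hj j1 j2
    have hsplit : ∑ e ∈ range j, w e = ∑ e ∈ range i, w e + w i + ∑ e ∈ Ico (i + 1) j, w e := by
      rw [← Finset.sum_range_add_sum_Ico _ (show i + 1 ≤ j from hij), Finset.sum_range_succ]
    have hS : 0 ≤ ∑ e ∈ Ico (i + 1) j, w e := by
      apply Finset.sum_nonneg
      intro e he
      rw [Finset.mem_Ico] at he
      exact (hw e (by omega)).le
    have hwi := hw i hi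
    have hwj := hw j hj
    set x : ℝ := 1 - ((a : ℝ) * n - i) with hx
    set y : ℝ := (b : ℝ) * n - j with hy
    have hx0 : 0 ≤ x := by rw [hx]; linarith
    have hx1 : x ≤ 1 := by rw [hx]; linarith
    have hy0 : 0 ≤ y := by rw [hy]; linarith
    have hy1 : y ≤ 1 := by rw [hy]; linarith
    have hdiff : th2_T w n b - th2_T w n a = x * w i + ∑ e ∈ Ico (i + 1) j, w e + y * w j := by
      rw [Ta, Tb, hsplit, hx]
      ring
    have hxw : 0 ≤ x * w i := mul_nonneg hx0 hwi.le
    have hyw : 0 ≤ y * w j := mul_nonneg hy0 hwj.le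
    have p1 : dist (poly z n a) (z (i + 1)) ≤ C * (th2_T w n b - th2_T w n a) ^ α := by
      have e1 : poly z n a - z (i + 1) = ((-x : ℝ) : ℂ) * (z (i + 1) - z i) := by
        rw [poly_apply hi i1 i2, hx]
        push_cast
        ring
      rw [dist_eq_norm, e1, norm_mul, Complex.norm_real, norm_neg, Real.norm_of_nonneg hx0, ← dist_eq_norm,
        dist_comm]
      refine (th2_edge hα0 hα1 hC hx0 hx1 hwi.le (hstep i hi) (hη i hi)).trans ?_
      apply mul_le_mul_of_nonneg_left _ hC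
      apply Real.rpow_le_rpow hxw _ hα0.le
      rw [hdiff]
      linarith
    have p2 : dist (z (i + 1)) (z j) ≤ C * (th2_T w n b - th2_T w n a) ^ α := by
      refine (hdist (i + 1) j hij hj.le).trans ?_
      apply mul_le_mul_of_nonneg_left _ hC
      apply Real.rpow_le_rpow hS _ hα0.le
      rw [hdiff]
      linarith
    have p3 : dist (z j) (poly z n b) ≤ C * (th2_T w n b - th2_T w n a) ^ α := by
      have e1 : z j - poly z n b = ((-y : ℝ) : ℂ) * (z (j + 1) - z j) := by
        rw [poly_apply hj j1 j2, hy]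
        push_cast
        ring
      rw [dist_eq_norm, e1, norm_mul, Complex.norm_real, norm_neg, Real.norm_of_nonneg hy0, ← dist_eq_norm,
        dist_comm]
      refine (th2_edge hα0 hα1 hC hy0 hy1 hwj.le (hstep j hj) (hη j hj)).trans ?_
      apply mul_le_mul_of_nonneg_left _ hC
      apply Real.rpow_le_rpow hyw _ hα0.le
      rw [hdiff]
      linarith
    have := dist_triangle4 (poly z n a) (z (i + 1)) (z j) (poly z n b)
    linarith
  · -- the same edge
    subst hij
    have Ta := th2_T_apply (w := w) hi i1 i2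
    have Tb := th2_T_apply (w := w) hi j1 j2
    have hwi := hw i hi
    set x : ℝ := (b : ℝ) * n - a * n with hx
    have hx0 : 0 ≤ x := by rw [hx]; linarith
    have hx1 : x ≤ 1 := by rw [hx]; linarith
    have hdiff : th2_T w n b - th2_T w n a = x * w i := by
      rw [Ta, Tb, hx]
      ring
    have e1 : poly z n a - poly z n b = ((-x : ℝ) : ℂ) * (z (i + 1) - z i) := by
      rw [poly_apply hi i1 i2, poly_apply hi j1 j2, hx]
      push_cast
      ring
    have p1 : dist (poly z n a) (poly z n b) ≤ C * (th2_T w n b - th2_T w n a) ^ α := by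
      rw [dist_eq_norm, e1, norm_mul, Complex.norm_real, norm_neg, Real.norm_of_nonneg hx0, ← dist_eq_norm,
        dist_comm, hdiff]
      exact th2_edge hα0 hα1 hC hx0 hx1 hwi.le (hstep i hi) (hη i hi)
    have : 0 ≤ C * (th2_T w n b - th2_T w n a) ^ α := mul_nonneg hC hT'
    linarith
  · -- the same point
    have hij' : ((j + 1 : ℕ) : ℝ) ≤ i := by exact_mod_cast hij
    push_cast at hij'
    have h1 : (a : ℝ) * n = b * n := by linarith
    have h2 : (a : ℝ) = b := mul_right_cancel₀ hn0.ne' h1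
    have h3 : a = b := Subtype.ext h2
    rw [h3, dist_self]
    have : 0 ≤ (th2_T w n b - th2_T w n b) ^ α := by
      rw [← h3] at hT' ⊢
      exact hT'
    positivity

/-- time change by mass: r is the inverse of the piecewise affine function with values (∑ e < i, w e) at i / n -/
theorem holder_reparam {α C η : ℝ} (hα0 : 0 < α) (hα1 : α ≤ 1) (hC : 0 ≤ C) {z : ℕ → ℂ} {n : ℕ} (hn : 1 ≤ n)
    {w : ℕ → ℝ} (hw : ∀ e < n, 0 < w e) (hsum : ∑ e ∈ range n, w e = 1)
    (hstep : ∀ i < n, dist (z i) (z (i + 1)) ≤ η) (hη : ∀ e < n, η ≤ C * (w e) ^ α)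
    (hdist : ∀ i j, i ≤ j → j ≤ n → dist (z i) (z j) ≤ C * (∑ e ∈ Ico i j, w e) ^ α) :
    ∃ r : unitInterval ≃ₜ unitInterval, Monotone r ∧
      HolderWith (Real.toNNReal (3 * C)) (Real.toNNReal α) (fun s => poly z n (r s)) := by
  have hstrict := th2_T_strict hn hw
  have h0 := th2_T_zero w n
  have h1 := th2_T_one w n
  rw [hsum] at h1
  have hmem : ∀ s : unitInterval, th2_T w n s ∈ unitInterval := by
    intro s
    refine ⟨?_, ?_⟩
    · rw [← h0]
      exact hstrict.monotone s.2.1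
    · rw [← h1]
      exact hstrict.monotone s.2.2
  let θ : unitInterval → unitInterval := fun s => ⟨th2_T w n s, hmem s⟩
  have hθ : StrictMono θ := fun a b hab => hstrict hab
  have hsurj : Function.Surjective θ := by
    intro y
    have hy : (y : ℝ) ∈ Set.range (th2_T w n) :=
      mem_range_of_exists_le_of_exists_ge (th2_T_cont w n) ⟨0, by rw [h0]; exact y.2.1⟩
        ⟨1, by rw [h1]; exact y.2.2⟩
    obtain ⟨s, hs⟩ := hy
    exact ⟨s, Subtype.ext hs⟩
  let o : unitInterval ≃o unitInterval := hθ.orderIsoOfSurjective θ hsurj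
  have ho : ∀ s, o s = θ s := fun s => rfl
  refine ⟨o.symm.toHomeomorph, o.symm.monotone, ?_⟩
  have key : ∀ s t : unitInterval, s ≤ t →
      dist (poly z n (o.symm s)) (poly z n (o.symm t)) ≤ 3 * C * (dist s t) ^ α := by
    intro s t hst
    have h2 := th2_main hα0 hα1 hC hn hw hstep hη hdist (a := o.symm s) (b := o.symm t) (o.symm.monotone hst)
    have e1 : th2_T w n (o.symm t) = t := congrArg Subtype.val (o.apply_symm_apply t)
    have e2 : th2_T w n (o.symm s) = s := congrArg Subtype.val (o.apply_symm_apply s)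
    rw [e1, e2] at h2
    have e3 : dist s t = (t : ℝ) - s := by
      have hst' : (s : ℝ) ≤ t := hst
      rw [Subtype.dist_eq, dist_comm, Real.dist_eq, abs_of_nonneg (by linarith)]
    rw [e3]
    exact h2
  intro s t
  show edist (poly z n (o.symm s)) (poly z n (o.symm t)) ≤ _
  have key2 : dist (poly z n (o.symm s)) (poly z n (o.symm t)) ≤ 3 * C * (dist s t) ^ α := by
    rcases le_total s t with h | h
    · exact key s t h
    · rw [dist_comm, dist_comm s t]
      exact key t s h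
  rw [edist_dist, edist_dist, Real.coe_toNNReal α hα0.le, ENNReal.ofReal_rpow_of_nonneg dist_nonneg hα0.le]
  show _ ≤ ENNReal.ofReal (3 * C) * _
  rw [← ENNReal.ofReal_mul (by positivity)]
  exact ENNReal.ofReal_le_ofReal key2

private theorem th3_closed (M α : NNReal) :
    IsClosed {f : unitInterval → ℂ | f 0 = 0 ∧ HolderWith M α f} := by
  have h1 : IsClosed {f : unitInterval → ℂ | f 0 = 0} :=
    isClosed_eq (continuous_apply 0) continuous_const
  have h2 : IsClosed {f : unitInterval → ℂ | HolderWith M α f} := by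
    have e : {f : unitInterval → ℂ | HolderWith M α f} =
        ⋂ x : unitInterval, ⋂ y : unitInterval,
          {f : unitInterval → ℂ | edist (f x) (f y) ≤ M * edist x y ^ (α : ℝ)} := by
      ext f
      simp only [HolderWith, Set.mem_iInter, Set.mem_ofPred_eq]
    rw [e]
    exact isClosed_iInter fun x => isClosed_iInter fun y =>
      isClosed_le ((continuous_apply x).edist (continuous_apply y)) continuous_const
  exact h1.inter h2

private theorem th3_compact (M α : NNReal) :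
    IsCompact {f : unitInterval → ℂ | f 0 = 0 ∧ HolderWith M α f} := by
  have hc : IsCompact (Set.pi Set.univ fun _ : unitInterval => Metric.closedBall (0 : ℂ) M) :=
    isCompact_univ_pi fun _ => isCompact_closedBall _ _
  refine hc.of_isClosed_subset (th3_closed M α) ?_
  rintro f ⟨h0, hf⟩ x _
  rw [Metric.mem_closedBall, ← h0]
  have h := hf.dist_le x 0
  have hx : dist x 0 ≤ 1 := by
    rw [Subtype.dist_eq, Real.dist_eq]
    have e0 : ((0 : unitInterval) : ℝ) = 0 := rfl
    rw [e0, sub_zero, abs_of_nonneg x.2.1]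
    exact x.2.2
  have h1 : dist x 0 ^ (α : ℝ) ≤ 1 := Real.rpow_le_one dist_nonneg hx α.2
  calc dist (f x) (f 0) ≤ M * dist x 0 ^ (α : ℝ) := h
    _ ≤ M * 1 := mul_le_mul_of_nonneg_left h1 M.2
    _ = M := mul_one _

/-- Arzela-Ascoli -/
theorem isCompact_holder (M α : NNReal) (hα : 0 < α) :
    IsCompact {f : C(unitInterval, ℂ) | f 0 = 0 ∧ HolderWith M α f} := by
  apply ArzelaAscoli.isCompact_of_equicontinuous
  · have e : ContinuousMap.toFun '' {f : C(unitInterval, ℂ) | f 0 = 0 ∧ HolderWith M α f} =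
        {f : unitInterval → ℂ | f 0 = 0 ∧ HolderWith M α f} := by
      ext f
      constructor
      · rintro ⟨g, hg, rfl⟩
        exact hg
      · rintro ⟨h0, hf⟩
        exact ⟨⟨f, hf.continuous hα⟩, ⟨h0, hf⟩, rfl⟩
    rw [e]
    exact th3_compact M α
  · refine Metric.equicontinuous_of_continuity_modulus (fun r => M * r ^ (α : ℝ)) ?_ _ ?_
    · have hα' : (0 : ℝ) < α := hα
      have h := ((Real.continuousAt_rpow_const 0 (α : ℝ) (Or.inr hα'.le)).tendsto).const_mul (M : ℝ)
      rw [Real.zero_rpow hα'.ne', mul_zero] at h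
      exact h
    · rintro x y ⟨f, hf⟩
      exact hf.2.dist_le x y

end Tight
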