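import Mathlib

/-!
TIGHT: the Borel sigma-algebra of the space C([0, 1], ℂ) with the supremum norm.
-/

set_option autoImplicit false

namespace Tight

/-- the Borel sigma-algebra of the space of the continuous curves -/
noncomputable instance instBorelCurves : MeasurableSpace C(unitInterval, ℂ) := borel _

instance instBorelSpaceCurves : BorelSpace C(unitInterval, ℂ) := ⟨rfl⟩

end Tight
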