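import Mathlib

/-!
TIGHT, module TH1: masses of the edges from partitions at all scales.
-/

set_option autoImplicit false

namespace Tight

open Finset

namespace TH1

/-- one partition: masses with total at most one, every nonempty piece has mass at least `1 / J` -/
lemma piece_mass {n J : ℕ} {t : ℕ → ℕ} (hJ : 1 ≤ J) (htn : t J = n) (hmono : Monotone t) :
    ∃ m : ℕ → ℝ, (∀ e, 0 ≤ m e) ∧ ∑ e ∈ range n, m e ≤ 1 ∧
      ∀ r, r < J → t r < t (r + 1) → 1 / (J : ℝ) ≤ ∑ e ∈ Ico (t r) (t (r + 1)), m e := by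
  classical
  have hJ' : (0 : ℝ) < J := by exact_mod_cast hJ
  let f : ℕ → ℕ → ℝ := fun r e =>
    if e ∈ Ico (t r) (t (r + 1)) then 1 / ((J : ℝ) * ((t (r + 1) - t r : ℕ) : ℝ)) else 0
  have hf0 : ∀ r e, 0 ≤ f r e := by
    intro r e
    simp only [f]
    split_ifs
    · positivity
    · exact le_rfl
  have hfs : ∀ r, t r < t (r + 1) → ∑ e ∈ Ico (t r) (t (r + 1)), f r e = 1 / (J : ℝ) := by
    intro r hr
    have h1 : ∑ e ∈ Ico (t r) (t (r + 1)), f r e =
        ∑ _e ∈ Ico (t r) (t (r + 1)), 1 / ((J : ℝ) * ((t (r + 1) - t r : ℕ) : ℝ)) := by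
      refine Finset.sum_congr rfl fun e he => ?_
      simp only [f, if_pos he]
    have h2 : (0 : ℝ) < ((t (r + 1) - t r : ℕ) : ℝ) := by
      have : 0 < t (r + 1) - t r := by omega
      exact_mod_cast this
    rw [h1, Finset.sum_const, Nat.card_Ico, nsmul_eq_mul]
    field_simp
  refine ⟨fun e => ∑ r ∈ range J, f r e, fun e => Finset.sum_nonneg fun r _ => hf0 r e, ?_, ?_⟩
  · rw [Finset.sum_comm]
    have h3 : ∀ r ∈ range J, ∑ e ∈ range n, f r e ≤ 1 / (J : ℝ) := by
      intro r hr
      rw [mem_range] at hr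
      rcases (hmono (Nat.le_succ r)).eq_or_lt with h | h
      · have h4 : ∑ e ∈ range n, f r e = 0 := by
          refine Finset.sum_eq_zero fun e _ => ?_
          simp only [f]
          rw [if_neg]
          rw [mem_Ico]
          rw [Nat.succ_eq_add_one] at h
          omega
        rw [h4]
        positivity
      · rw [← hfs r h]
        have hsub : Ico (t r) (t (r + 1)) ⊆ range n := by
          intro e he
          rw [mem_Ico] at he
          rw [mem_range, ← htn]
          exact lt_of_lt_of_le he.2 (hmono hr)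
        refine le_of_eq (Finset.sum_subset hsub fun e _ he => ?_).symm
        simp only [f, if_neg he]
    calc ∑ r ∈ range J, ∑ e ∈ range n, f r e ≤ ∑ _r ∈ range J, 1 / (J : ℝ) := Finset.sum_le_sum h3
      _ = 1 := by
        rw [Finset.sum_const, card_range, nsmul_eq_mul]
        field_simp
  · intro r hr h
    rw [← hfs r h]
    refine Finset.sum_le_sum fun e _ => ?_
    exact Finset.single_le_sum (f := fun r => f r e) (fun r _ => hf0 r e) (mem_range.2 hr)

/-- the last index `p` with `t p ≤ i` -/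
lemma exists_last {t : ℕ → ℕ} {J i : ℕ} (h0 : t 0 = 0) :
    ∃ p ≤ J, t p ≤ i ∧ ∀ q, p < q → q ≤ J → i < t q := by
  classical
  let A : Finset ℕ := (range (J + 1)).filter fun p => t p ≤ i
  have hA : A.Nonempty := ⟨0, by
    rw [mem_filter, mem_range]
    exact ⟨by omega, by omega⟩⟩
  refine ⟨A.max' hA, ?_, ?_, ?_⟩
  · have := (mem_filter.1 (A.max'_mem hA)).1
    rw [mem_range] at this
    omega
  · exact (mem_filter.1 (A.max'_mem hA)).2
  · intro q hq hqJ
    by_contra hcon
    have hmem : q ∈ A := by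
      rw [mem_filter, mem_range]
      exact ⟨by omega, by omega⟩
    have := A.le_max' q hmem
    omega

/-- a chain of at most `J` pieces -/
lemma dist_le_pieces {z : ℕ → ℂ} {n J : ℕ} {t : ℕ → ℕ} {d : ℝ} (hd : 0 ≤ d) (h0 : t 0 = 0) (htn : t J = n)
    (hmono : Monotone t)
    (hdiam : ∀ j, ∀ i i', t j ≤ i → i ≤ t (j + 1) → t j ≤ i' → i' ≤ t (j + 1) → dist (z i) (z i') ≤ d)
    {i j : ℕ} (hij : i ≤ j) (hj : j ≤ n) : dist (z i) (z j) ≤ J * d ∧
      (2 * d < dist (z i) (z j) → ∃ r < J, t r < t (r + 1) ∧ i ≤ t r ∧ t (r + 1) ≤ j) := by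
  obtain ⟨p, hpJ, hpi, hp⟩ := exists_last (J := J) (i := i) h0
  obtain ⟨q, hqJ, hqj, hq⟩ := exists_last (J := J) (i := j) h0
  have hpq : p ≤ q := by
    by_contra hcon
    have := hq p (by omega) hpJ
    omega
  -- from `t q` to `j`
  have hend : dist (z (t q)) (z j) ≤ (if q < J then d else 0) := by
    split_ifs with h
    · exact hdiam q (t q) j le_rfl (hmono (Nat.le_succ q)) hqj (hq (q + 1) (Nat.lt_succ_self q) h).le
    · have hqJ' : q = J := by omega
      have : t q = j := by
        rw [hqJ', htn] at hqj ⊢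
        omega
      rw [this, dist_self]
  have hend' : dist (z (t q)) (z j) ≤ d := by
    refine hend.trans ?_
    split_ifs
    · exact le_rfl
    · exact hd
  rcases hpJ.eq_or_lt with hpe | hpl
  · -- `i = n = j`
    have hij' : i = j := by
      rw [hpe, htn] at hpi
      omega
    subst hij'
    rw [dist_self]
    refine ⟨by positivity, fun h => ?_⟩
    exfalso
    linarith
  · have hstart : i ≤ t (p + 1) := (hp (p + 1) (Nat.lt_succ_self p) hpl).le
    rcases hpq.eq_or_lt with hpe | hplq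
    · -- the same piece
      have h1 : dist (z i) (z j) ≤ d := by
        have hj' : j ≤ t (p + 1) := (hq (p + 1) (by omega) hpl).le
        exact hdiam p i j hpi hstart (hpi.trans hij) hj'
      have hJ1 : (1 : ℝ) ≤ J := by
        have : 1 ≤ J := by omega
        exact_mod_cast this
      refine ⟨?_, fun h => ?_⟩
      · nlinarith
      · exfalso
        linarith
    · have h1 : dist (z i) (z (t (p + 1))) ≤ d := hdiam p i (t (p + 1)) hpi hstart (hmono (Nat.le_succ p)) le_rfl
      have h2 : dist (z (t (p + 1))) (z (t q)) ≤ ((q - (p + 1) : ℕ) : ℝ) * d := by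
        have h3 := dist_le_Ico_sum_dist (fun a => z (t a)) (show p + 1 ≤ q by omega)
        refine h3.trans ?_
        have h4 : ∀ a ∈ Ico (p + 1) q, dist (z (t a)) (z (t (a + 1))) ≤ d := fun a _ =>
          hdiam a (t a) (t (a + 1)) le_rfl (hmono (Nat.le_succ a)) (hmono (Nat.le_succ a)) le_rfl
        refine (Finset.sum_le_sum h4).trans (le_of_eq ?_)
        rw [Finset.sum_const, Nat.card_Ico, nsmul_eq_mul]
      have h5 : dist (z i) (z j) ≤
          dist (z i) (z (t (p + 1))) + dist (z (t (p + 1))) (z (t q)) + dist (z (t q)) (z j) := dist_triangle4 _ _ _ _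
      constructor
      · have h6 : (if q < J then d else 0) = ((if q < J then 1 else 0 : ℕ) : ℝ) * d := by
          split_ifs <;> simp
        rw [h6] at hend
        have h7 : (1 + (q - (p + 1)) + (if q < J then 1 else 0) : ℕ) ≤ J := by
          split_ifs <;> omega
        have h8 : ((1 + (q - (p + 1)) + (if q < J then 1 else 0) : ℕ) : ℝ) ≤ J := by exact_mod_cast h7
        have h9 := mul_le_mul_of_nonneg_right h8 hd
        push_cast at h9 hend h2 ⊢
        nlinarith
      · intro hbig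
        have hne : t (p + 1) < t q := by
          by_contra hcon
          have heq : t (p + 1) = t q := le_antisymm (hmono (show p + 1 ≤ q by omega)) (not_lt.1 hcon)
          rw [heq, dist_self] at h5
          rw [heq] at h1
          linarith
        -- a nonempty piece
        have hex : ∃ r, p + 1 ≤ r ∧ r < q ∧ t r < t (r + 1) := by
          by_contra hcon
          push Not at hcon
          have hconst : ∀ a, p + 1 + a ≤ q → t (p + 1 + a) = t (p + 1) := by
            intro a
            induction a with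
            | zero => intro _; rfl
            | succ a ih =>
              intro ha
              have h10 := ih (by omega)
              have h11 := hcon (p + 1 + a) (by omega) (by omega)
              have h12 := hmono (Nat.le_succ (p + 1 + a))
              have h13 : t (p + 1 + (a + 1)) = t (p + 1 + a + 1) := rfl
              rw [h13]
              rw [Nat.succ_eq_add_one] at h12
              omega
          have h14 := hconst (q - (p + 1)) (by omega)
          have h15 : p + 1 + (q - (p + 1)) = q := by omega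
          rw [h15] at h14
          omega
        obtain ⟨r, hr1, hr2, hr3⟩ := hex
        exact ⟨r, by omega, hr3, hstart.trans (hmono hr1), (hmono (show r + 1 ≤ q by omega)).trans hqj⟩

/-- the power inequality -/
lemma pow_ineq {s c x m : ℝ} (hs : 1 ≤ s) (hc : 1 ≤ c) (hx : 0 ≤ x) (h : x ^ (s + 1) / c ≤ m) :
    x / c ≤ m ^ (1 / (s + 1)) := by
  have hs1 : 0 < s + 1 := by linarith
  have ha0 : 0 ≤ 1 / (s + 1) := by positivity
  have ha1 : 1 / (s + 1) ≤ 1 := by
    rw [div_le_one hs1]
    linarith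
  have hc0 : 0 < c := by linarith
  have h1 : (x ^ (s + 1) / c) ^ (1 / (s + 1)) = x * (1 / c) ^ (1 / (s + 1)) := by
    rw [div_eq_mul_one_div, Real.mul_rpow (by positivity) (by positivity), ← Real.rpow_mul hx,
      mul_one_div_cancel hs1.ne', Real.rpow_one]
  have h2 : 1 / c ≤ (1 / c) ^ (1 / (s + 1)) :=
    Real.self_le_rpow_of_le_one (by positivity) (by rw [div_le_one hc0]; exact hc) ha1
  calc x / c = x * (1 / c) := div_eq_mul_one_div x c
    _ ≤ x * (1 / c) ^ (1 / (s + 1)) := mul_le_mul_of_nonneg_left h2 hx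
    _ = (x ^ (s + 1) / c) ^ (1 / (s + 1)) := h1.symm
    _ ≤ m ^ (1 / (s + 1)) := Real.rpow_le_rpow (by positivity) h ha0

end TH1

/-- Partitions of the path z 0, ..., z n into at most M 2^(s k) pieces of diameter at most D 2^(-k), for all scales
above the step size, give masses w e of the edges (total mass 1) such that the distance of two points of the path is
at most a constant times the power 1/(s+1) of the mass between them.
Proof: for every scale k with eta ≤ 2^(-k) give every nonempty piece [t j, t (j+1)) of the partition the mass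
2^(-(k+2)) / J, distributed uniformly on its edges, and give all edges together the remaining mass (at least 1/2),
uniformly. If dist (z i) (z j) > 2 D 2^(-k) then a nonempty piece lies between i and j. -/
theorem holder_mass {D s M η : ℝ} (hD : 1 ≤ D) (hs : 1 ≤ s) (hM : 1 ≤ M) (hη0 : 0 < η) (hη1 : η ≤ 1)
    {z : ℕ → ℂ} {n : ℕ} (hn : 1 ≤ n) (hstep : ∀ i < n, dist (z i) (z (i + 1)) ≤ η)
    (hn' : (n : ℝ) ≤ M * (η⁻¹) ^ s)
    (hpart : ∀ k : ℕ, η ≤ (1 / 2) ^ k → ∃ (J : ℕ) (t : ℕ → ℕ), 1 ≤ J ∧ (J : ℝ) ≤ M * ((2 : ℝ) ^ k) ^ s ∧ t 0 = 0 ∧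
      t J = n ∧ Monotone t ∧ ∀ j, ∀ i i', t j ≤ i → i ≤ t (j + 1) → t j ≤ i' → i' ≤ t (j + 1) →
        dist (z i) (z i') ≤ D * (1 / 2) ^ k) :
    ∃ w : ℕ → ℝ, (∀ e < n, 0 < w e) ∧ ∑ e ∈ range n, w e = 1 ∧
      (∀ e < n, η ≤ (32 * D * M ^ 2) * (w e) ^ (1 / (s + 1))) ∧
      ∀ i j, i ≤ j → j ≤ n → dist (z i) (z j) ≤ (32 * D * M ^ 2) * (∑ e ∈ Ico i j, w e) ^ (1 / (s + 1)) := by
  classical
  have hn0 : (0 : ℝ) < n := by exact_mod_cast hn
  -- the masses of the scales
  have hscale : ∀ k : ℕ, ∃ m : ℕ → ℝ, (∀ e, 0 ≤ m e) ∧ ∑ e ∈ range n, m e ≤ 1 ∧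
      (η ≤ (1 / 2) ^ k → ∀ i j, i ≤ j → j ≤ n → 2 * (D * (1 / 2) ^ k) < dist (z i) (z j) →
        1 / (M * ((2 : ℝ) ^ k) ^ s) ≤ ∑ e ∈ Ico i j, m e) := by
    intro k
    by_cases hk : η ≤ (1 / 2) ^ k
    · obtain ⟨J, t, hJ, hJM, h0, htn, hmono, hdiam⟩ := hpart k hk
      obtain ⟨m, hm0, hm1, hm2⟩ := TH1.piece_mass hJ htn hmono
      refine ⟨m, hm0, hm1, fun _ i j hij hj hbig => ?_⟩
      obtain ⟨-, h2⟩ := TH1.dist_le_pieces (d := D * (1 / 2) ^ k) (by positivity) h0 htn hmono hdiam hij hj
      obtain ⟨r, hr, hr1, hr2, hr3⟩ := h2 hbig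
      have h3 := hm2 r hr hr1
      have hJ0 : (0 : ℝ) < J := by exact_mod_cast hJ
      calc 1 / (M * ((2 : ℝ) ^ k) ^ s) ≤ 1 / (J : ℝ) := one_div_le_one_div_of_le hJ0 hJM
        _ ≤ ∑ e ∈ Ico (t r) (t (r + 1)), m e := h3
        _ ≤ ∑ e ∈ Ico i j, m e := by
          refine Finset.sum_le_sum_of_subset_of_nonneg ?_ fun e _ _ => hm0 e
          exact Finset.Ico_subset_Ico hr2 hr3
    · refine ⟨fun _ => 0, fun _ => le_rfl, by simp, fun h => absurd h hk⟩
  choose m hm0 hm1 hm2 using hscale
  -- the number of scales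
  have hK : ∃ k : ℕ, (1 / 2 : ℝ) ^ k < η := exists_pow_lt_of_lt_one hη0 (by norm_num)
  set K := Nat.find hK with hKdef
  have hKs : (1 / 2 : ℝ) ^ K < η := Nat.find_spec hK
  have hKlt : ∀ k, k < K → η ≤ (1 / 2 : ℝ) ^ k := fun k hk => not_lt.1 (Nat.find_min hK hk)
  set R : ℝ := 1 - ∑ k ∈ range K, (1 / 2 : ℝ) ^ (k + 2) * ∑ e ∈ range n, m k e with hR
  have hRhalf : 1 / 2 ≤ R := by
    have h1 : ∑ k ∈ range K, (1 / 2 : ℝ) ^ (k + 2) * ∑ e ∈ range n, m k e ≤
        ∑ k ∈ range K, (1 / 4 : ℝ) * (1 / 2) ^ k := by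
      refine Finset.sum_le_sum fun k _ => ?_
      calc (1 / 2 : ℝ) ^ (k + 2) * ∑ e ∈ range n, m k e ≤ (1 / 2 : ℝ) ^ (k + 2) * 1 :=
            mul_le_mul_of_nonneg_left (hm1 k) (by positivity)
        _ = (1 / 4 : ℝ) * (1 / 2) ^ k := by rw [pow_add]; ring
    rw [← Finset.mul_sum] at h1
    have h2 := sum_geometric_two_le K
    rw [hR]
    linarith
  let w : ℕ → ℝ := fun e => ∑ k ∈ range K, (1 / 2 : ℝ) ^ (k + 2) * m k e + R / n
  have hw : ∀ e, w e = ∑ k ∈ range K, (1 / 2 : ℝ) ^ (k + 2) * m k e + R / n := fun _ => rfl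
  have hterm : ∀ k e, 0 ≤ (1 / 2 : ℝ) ^ (k + 2) * m k e := fun k e => mul_nonneg (by positivity) (hm0 k e)
  have hwn : ∀ e, 1 / (2 * n) ≤ w e := by
    intro e
    have h1 : 0 ≤ ∑ k ∈ range K, (1 / 2 : ℝ) ^ (k + 2) * m k e := Finset.sum_nonneg fun k _ => hterm k e
    have h2 : 1 / (2 * (n : ℝ)) ≤ R / n := by
      rw [div_le_div_iff₀ (by positivity) hn0]
      nlinarith
    rw [hw]
    linarith
  have hw0 : ∀ e, 0 < w e := fun e => lt_of_lt_of_le (by positivity) (hwn e)
  have hηs : η ^ (s + 1) / (2 * M) ≤ 1 / (2 * n) := by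
    have h1 : η ^ (s + 1) ≤ η ^ s := Real.rpow_le_rpow_of_exponent_ge hη0 hη1 (by linarith)
    have h2 : 0 < η ^ s := Real.rpow_pos_of_pos hη0 s
    have h3 : (n : ℝ) * η ^ s ≤ M := by
      have h4 := mul_le_mul_of_nonneg_right hn' h2.le
      rw [Real.inv_rpow hη0.le, mul_assoc, inv_mul_cancel₀ h2.ne', mul_one] at h4
      exact h4
    rw [div_le_div_iff₀ (by positivity) (by positivity)]
    nlinarith
  have hηw : ∀ x : ℝ, 1 / (2 * (n : ℝ)) ≤ x → η / (2 * M) ≤ x ^ (1 / (s + 1)) := fun x hx =>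
    TH1.pow_ineq hs (by linarith) hη0.le (hηs.trans hx)
  refine ⟨w, fun e _ => hw0 e, ?_, ?_, ?_⟩
  · rw [Finset.sum_congr rfl fun e _ => hw e, Finset.sum_add_distrib, Finset.sum_comm, Finset.sum_const, card_range,
      nsmul_eq_mul, mul_div_cancel₀ _ hn0.ne', hR]
    have h1 : ∑ k ∈ range K, ∑ e ∈ range n, (1 / 2 : ℝ) ^ (k + 2) * m k e =
        ∑ k ∈ range K, (1 / 2 : ℝ) ^ (k + 2) * ∑ e ∈ range n, m k e :=
      Finset.sum_congr rfl fun k _ => (Finset.mul_sum _ _ _).symm
    rw [h1]
    ring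
  · intro e _
    have h1 := hηw (w e) (hwn e)
    rw [div_le_iff₀ (by positivity)] at h1
    have h2 : 0 ≤ (w e) ^ (1 / (s + 1)) := Real.rpow_nonneg (hw0 e).le _
    refine h1.trans ?_
    rw [mul_comm]
    refine mul_le_mul_of_nonneg_right ?_ h2
    nlinarith [mul_le_mul hD hM (by norm_num) (by linarith), mul_pos (show (0 : ℝ) < D by linarith) (show (0 : ℝ) < M by linarith)]
  · intro i j hij hj
    set W := ∑ e ∈ Ico i j, w e with hW
    have hW0 : 0 ≤ W := Finset.sum_nonneg fun e _ => (hw0 e).le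
    have hWa : 0 ≤ W ^ (1 / (s + 1)) := Real.rpow_nonneg hW0 _
    have hDM : 1 ≤ D * M := by nlinarith
    have hDMM : D * M ≤ D * M ^ 2 := by nlinarith [mul_pos (show (0 : ℝ) < D by linarith) (show (0 : ℝ) < M by linarith)]
    rcases (dist_nonneg : 0 ≤ dist (z i) (z j)).eq_or_lt with h0 | hpos
    · rw [← h0]
      positivity
    -- the scale
    have hk : ∃ k : ℕ, 2 * (D * (1 / 2) ^ k) < dist (z i) (z j) := by
      obtain ⟨k, hk⟩ := exists_pow_lt_of_lt_one (y := (1 / 2 : ℝ)) (show 0 < dist (z i) (z j) / (2 * D) by positivity)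
        (by norm_num)
      refine ⟨k, ?_⟩
      rw [lt_div_iff₀ (by positivity)] at hk
      linarith
    set k := Nat.find hk with hkdef
    have hks : 2 * (D * (1 / 2) ^ k) < dist (z i) (z j) := Nat.find_spec hk
    -- lower bounds for the mass
    have hmassK : k < K → (1 / 2 : ℝ) ^ k / (4 * M) ≤ W ^ (1 / (s + 1)) := by
      intro hkK
      refine TH1.pow_ineq hs (by linarith) (by positivity) ?_
      have h1 := hm2 k (hKlt k hkK) i j hij hj hks
      have h2 : (1 / 2 : ℝ) ^ (k + 2) * ∑ e ∈ Ico i j, m k e ≤ W := by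
        rw [hW, Finset.mul_sum]
        refine Finset.sum_le_sum fun e _ => ?_
        rw [hw]
        have h3 : (1 / 2 : ℝ) ^ (k + 2) * m k e ≤ ∑ k ∈ range K, (1 / 2 : ℝ) ^ (k + 2) * m k e :=
          Finset.single_le_sum (f := fun k => (1 / 2 : ℝ) ^ (k + 2) * m k e) (fun k _ => hterm k e)
            (mem_range.2 hkK)
        have h4 : 0 ≤ R / n := div_nonneg (by linarith) hn0.le
        linarith
      refine le_trans ?_ h2
      have h5 : ((1 / 2 : ℝ) ^ k) ^ (s + 1) / (4 * M) = (1 / 2 : ℝ) ^ (k + 2) * (1 / (M * ((2 : ℝ) ^ k) ^ s)) := by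
        have h6 : (0 : ℝ) < (1 / 2 : ℝ) ^ k := by positivity
        have h7 : ((1 / 2 : ℝ) ^ k) ^ s = (((2 : ℝ) ^ k) ^ s)⁻¹ := by
          rw [← Real.inv_rpow (by positivity), one_div, inv_pow]
        rw [Real.rpow_add h6, Real.rpow_one, h7, pow_add]
        have h8 : (0 : ℝ) < ((2 : ℝ) ^ k) ^ s := by positivity
        field_simp
        ring
      rw [h5]
      exact mul_le_mul_of_nonneg_left h1 (by positivity)
    rcases Nat.eq_zero_or_pos k with hk0 | hkpos
    · -- scale zero
      have hK0 : 0 < K := by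
        by_contra hcon
        have : K = 0 := by omega
        rw [this, pow_zero] at hKs
        linarith
      have h1 := hmassK (by omega)
      rw [hk0, pow_zero] at h1
      obtain ⟨J, t, hJ, hJM, h0, htn, hmono, hdiam⟩ := hpart 0 (by simpa using hη1)
      have h2 := (TH1.dist_le_pieces (d := D * (1 / 2) ^ 0) (by positivity) h0 htn hmono hdiam hij hj).1
      rw [pow_zero, mul_one] at h2
      rw [pow_zero, Real.one_rpow, mul_one] at hJM
      have h3 : dist (z i) (z j) ≤ M * D := h2.trans (mul_le_mul_of_nonneg_right hJM (by linarith))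
      rw [div_le_iff₀ (by positivity)] at h1
      calc dist (z i) (z j) ≤ M * D := h3
        _ = M * D * 1 := (mul_one _).symm
        _ ≤ M * D * (W ^ (1 / (s + 1)) * (4 * M)) := mul_le_mul_of_nonneg_left h1 (by positivity)
        _ = (4 * D * M ^ 2) * W ^ (1 / (s + 1)) := by ring
        _ ≤ (32 * D * M ^ 2) * W ^ (1 / (s + 1)) := by
          refine mul_le_mul_of_nonneg_right ?_ hWa
          nlinarith [show 0 < D * M ^ 2 by positivity]
    · have hprev : dist (z i) (z j) ≤ 4 * D * (1 / 2) ^ k := by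
        have h1 := Nat.find_min hk (show k - 1 < k by omega)
        rw [not_lt] at h1
        refine h1.trans (le_of_eq ?_)
        obtain ⟨l, hl⟩ : ∃ l, k = l + 1 := ⟨k - 1, by omega⟩
        rw [hl, Nat.add_sub_cancel, pow_succ]
        ring
      by_cases hkK : k < K
      · have h1 := hmassK hkK
        rw [div_le_iff₀ (by positivity)] at h1
        calc dist (z i) (z j) ≤ 4 * D * (1 / 2) ^ k := hprev
          _ ≤ 4 * D * (W ^ (1 / (s + 1)) * (4 * M)) := mul_le_mul_of_nonneg_left h1 (by positivity)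
          _ = (16 * (D * M)) * W ^ (1 / (s + 1)) := by ring
          _ ≤ (32 * D * M ^ 2) * W ^ (1 / (s + 1)) := by
            refine mul_le_mul_of_nonneg_right ?_ hWa
            nlinarith [show 0 < D * M ^ 2 by positivity]
      · have h1 : (1 / 2 : ℝ) ^ k ≤ η := by
          refine le_trans ?_ hKs.le
          exact pow_le_pow_of_le_one (by norm_num) (by norm_num) (not_lt.1 hkK)
        have hne : i < j := by
          refine lt_of_le_of_ne hij ?_
          rintro rfl
          rw [dist_self] at hpos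
          exact lt_irrefl _ hpos
        have h2 : 1 / (2 * n) ≤ W := by
          refine (hwn i).trans ?_
          rw [hW]
          exact Finset.single_le_sum (f := w) (fun e _ => (hw0 e).le) (Finset.left_mem_Ico.2 hne)
        have h3 := hηw W h2
        rw [div_le_iff₀ (by positivity)] at h3
        calc dist (z i) (z j) ≤ 4 * D * (1 / 2) ^ k := hprev
          _ ≤ 4 * D * η := mul_le_mul_of_nonneg_left h1 (by positivity)
          _ ≤ 4 * D * (W ^ (1 / (s + 1)) * (2 * M)) := mul_le_mul_of_nonneg_left h3 (by positivity)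
          _ = (8 * (D * M)) * W ^ (1 / (s + 1)) := by ring
          _ ≤ (32 * D * M ^ 2) * W ^ (1 / (s + 1)) := by
            refine mul_le_mul_of_nonneg_right ?_ hWa
            nlinarith [show 0 < D * M ^ 2 by positivity]

end Tight
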