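import Pool.Agent.Tight.Curve
import Pool.Agent.Tight.Inst

/-!
TIGHT, module TH4: tightness and subsequential limits from Hoelder bounds.
-/

set_option autoImplicit false

namespace Tight

open Finset MeasureTheory Filter Topology

private theorem prokh_closed_holder (M α : NNReal) : IsClosed {f : C(unitInterval, ℂ) | HolderWith M α f} := by
  have h1 : {f : C(unitInterval, ℂ) | HolderWith M α f} =
      ⋂ x : unitInterval, ⋂ y : unitInterval,
        {f : C(unitInterval, ℂ) | edist (f x) (f y) ≤ (M : ENNReal) * edist x y ^ (α : ℝ)} := by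
    ext f
    simp only [Set.mem_iInter, Set.mem_ofPred_eq]
    rfl
  rw [h1]
  refine isClosed_iInter fun x => isClosed_iInter fun y => ?_
  exact isClosed_le ((ContinuousEvalConst.continuous_eval_const x).edist (ContinuousEvalConst.continuous_eval_const y))
    continuous_const

private theorem prokh_closed_zero : IsClosed {f : C(unitInterval, ℂ) | f 0 = 0} :=
  isClosed_eq (ContinuousEvalConst.continuous_eval_const 0) continuous_const

theorem tight_of_holder {α : NNReal} (hα : 0 < α) (μ : ℕ → ProbabilityMeasure C(unitInterval, ℂ))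
    (h0 : ∀ T, ∀ᵐ (f : C(unitInterval, ℂ)) ∂(μ T : Measure C(unitInterval, ℂ)), f 0 = 0)
    (h : ∀ ε : ℝ, 0 < ε → ∃ M : NNReal, ∀ T, 1 ≤ T →
      (μ T : Measure C(unitInterval, ℂ)) {f : C(unitInterval, ℂ) | ¬ HolderWith M α f} ≤ ENNReal.ofReal ε) :
    IsTightMeasureSet {ν : Measure C(unitInterval, ℂ) | ∃ T, 1 ≤ T ∧ ν = μ T} := by
  rw [isTightMeasureSet_iff_exists_isCompact_measure_compl_le]
  intro ε hε
  have h1 : min ε 1 ≠ ⊤ := ne_top_of_le_ne_top ENNReal.one_ne_top (min_le_right _ _)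
  obtain ⟨M, hM⟩ := h (min ε 1).toReal (ENNReal.toReal_pos (lt_min hε one_pos).ne' h1)
  refine ⟨{f | f 0 = 0 ∧ HolderWith M α f}, isCompact_holder M α hα, ?_⟩
  rintro ν ⟨T, hT, rfl⟩
  have h2 : {f : C(unitInterval, ℂ) | f 0 = 0 ∧ HolderWith M α f}ᶜ ⊆
      {f | ¬ f 0 = 0} ∪ {f | ¬ HolderWith M α f} := by
    intro f hf
    by_contra h3
    apply hf
    rw [Set.mem_union, not_or] at h3
    exact ⟨not_not.1 h3.1, not_not.1 h3.2⟩
  refine (measure_mono h2).trans ((measure_union_le _ _).trans ?_)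
  have h3 : (μ T : Measure C(unitInterval, ℂ)) {f | ¬ f 0 = 0} = 0 := h0 T
  rw [h3, zero_add]
  refine (hM T hT).trans ?_
  rw [ENNReal.ofReal_toReal h1]
  exact min_le_left _ _

/-- closed sets of full measure stay of full measure in the limit -/
private theorem prokh_ae {μ : ℕ → ProbabilityMeasure C(unitInterval, ℂ)} {ν : ProbabilityMeasure C(unitInterval, ℂ)}
    (h : Tendsto μ atTop (𝓝 ν)) {S : Set C(unitInterval, ℂ)} (hS : IsClosed S) {ε : ENNReal}
    (hμ : ∀ᶠ k in atTop, (μ k : Measure C(unitInterval, ℂ)) Sᶜ ≤ ε) :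
    (ν : Measure C(unitInterval, ℂ)) Sᶜ ≤ ε := by
  refine (ProbabilityMeasure.le_liminf_measure_open_of_tendsto h hS.isOpen_compl).trans ?_
  exact liminf_le_of_frequently_le' hμ.frequently

theorem subseq_of_holder {α : NNReal} (hα : 0 < α) (μ : ℕ → ProbabilityMeasure C(unitInterval, ℂ))
    (h0 : ∀ T, ∀ᵐ (f : C(unitInterval, ℂ)) ∂(μ T : Measure C(unitInterval, ℂ)), f 0 = 0)
    (h : ∀ ε : ℝ, 0 < ε → ∃ M : NNReal, ∀ T, 1 ≤ T →
      (μ T : Measure C(unitInterval, ℂ)) {f : C(unitInterval, ℂ) | ¬ HolderWith M α f} ≤ ENNReal.ofReal ε)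
    (φ : ℕ → ℕ) (hφ : StrictMono φ) :
    ∃ ψ : ℕ → ℕ, StrictMono ψ ∧ ∃ ν : ProbabilityMeasure C(unitInterval, ℂ),
      Tendsto (fun k => μ (φ (ψ k))) atTop (𝓝 ν) ∧
      ∀ᵐ (f : C(unitInterval, ℂ)) ∂(ν : Measure C(unitInterval, ℂ)), f 0 = 0 ∧ ∃ M : NNReal, HolderWith M α f := by
  have hφ1 : ∀ k, 1 ≤ φ (k + 1) := fun k => le_trans (Nat.succ_le_succ (Nat.zero_le k)) (hφ.le_apply (x := k + 1))
  have ht : IsTightMeasureSet {((ρ : ProbabilityMeasure C(unitInterval, ℂ)) : Measure C(unitInterval, ℂ)) |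
      ρ ∈ Set.range fun k => μ (φ (k + 1))} := by
    refine (tight_of_holder hα μ h0 h).subset ?_
    rintro _ ⟨ρ, ⟨k, rfl⟩, rfl⟩
    exact ⟨φ (k + 1), hφ1 k, rfl⟩
  have hc := isCompact_closure_of_isTightMeasureSet ht
  obtain ⟨ν, -, ψ, hψ, hlim⟩ := hc.tendsto_subseq (x := fun k => μ (φ (k + 1)))
    (fun k => subset_closure ⟨k, rfl⟩)
  refine ⟨fun k => ψ k + 1, fun a b hab => Nat.succ_lt_succ (hψ hab), ν, hlim, ?_⟩
  have e0 : ∀ᵐ (f : C(unitInterval, ℂ)) ∂(ν : Measure C(unitInterval, ℂ)), f 0 = 0 := by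
    have h1 := prokh_ae hlim prokh_closed_zero (ε := 0) (Eventually.of_forall fun k => by
      refine le_of_eq ?_
      exact h0 (φ (ψ k + 1)))
    exact le_antisymm h1 zero_le
  have e1 : ∀ᵐ (f : C(unitInterval, ℂ)) ∂(ν : Measure C(unitInterval, ℂ)), ∃ M : NNReal, HolderWith M α f := by
    rw [ae_iff]
    refine le_antisymm (ENNReal.le_of_forall_pos_le_add ?_) zero_le
    intro ε hε _
    obtain ⟨M, hM⟩ := h ε (by exact_mod_cast hε)
    have h1 := prokh_ae hlim (prokh_closed_holder M α) (ε := ENNReal.ofReal ε) (Eventually.of_forall fun k => by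
      exact hM (φ (ψ k + 1)) (hφ1 _))
    rw [zero_add]
    rw [ENNReal.ofReal_coe_nnreal] at h1
    refine (measure_mono ?_).trans h1
    intro f hf hfM
    exact hf ⟨M, hfM⟩
  filter_upwards [e0, e1] with f h1 h2
  exact ⟨h1, h2⟩

/-- closed sets of full measure stay of full measure in the limit -/
theorem ae_of_tendsto {μ : ℕ → ProbabilityMeasure C(unitInterval, ℂ)} {ν : ProbabilityMeasure C(unitInterval, ℂ)}
    (h : Tendsto μ atTop (𝓝 ν)) {S : Set C(unitInterval, ℂ)} (hS : IsClosed S)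
    (hμ : ∀ᶠ k in atTop, ∀ᵐ (f : C(unitInterval, ℂ)) ∂(μ k : Measure C(unitInterval, ℂ)), f ∈ S) :
    ∀ᵐ (f : C(unitInterval, ℂ)) ∂(ν : Measure C(unitInterval, ℂ)), f ∈ S := by
  have h1 := prokh_ae h hS (ε := 0) (hμ.mono fun k hk => le_of_eq hk)
  exact le_antisymm h1 zero_le

end Tight
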