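import Pool.Agent.Tight.Prob
import Pool.Agent.Tight.HolderMass
import Pool.Agent.Tight.Prokh

/-!
TIGHT, module TH8: the final theorem from the crossing estimates.
-/

set_option autoImplicit false

namespace HexObs

open Finset MeasureTheory Filter Topology

open scoped ENNReal

/-- the law of the half plane walk up to its first cut at or above T: the word t has the probability x_c^length -/
noncomputable def lawK (T : ℕ) : PMF (List Bool) :=
  ⟨(FCW T).indicator wE, by rw [← tsum_FCW T]; exact ENNReal.summable.hasSum⟩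

/-- the rescaled polygonal curve of the walk -/
noncomputable def curve (T : ℕ) (t : List Bool) : C(unitInterval, ℂ) := Tight.poly (fun i => zp t i / T) t.length

private lemma th8_step (t : List Bool) {T : ℕ} (hT : 1 ≤ T) (i : ℕ) :
    dist (zp t i / T) (zp t (i + 1) / T) = 1 / T := by
  have hT' : (0 : ℝ) < T := by exact_mod_cast hT
  rw [dist_eq_norm, ← sub_div, norm_div, ← dist_eq_norm, zp_step, Complex.norm_natCast]

private lemma th8_length {K T j : ℕ} {s : ℝ} (hK : 1 ≤ K) (hT : 1 ≤ T) (hs : 1 ≤ s) {t : List Bool} (ht : t ∈ Brd j)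
    (hj : j ≤ K * T) (hb : InBox t (K * T)) : (t.length : ℝ) ≤ 12 * (K : ℝ) ^ 2 * (T : ℝ) ^ (s + 1) := by
  have h1 := length_le ht hb
  have hKT : 1 ≤ K * T := Nat.mul_pos hK hT
  have h2 : t.length ≤ (3 * (K * T)) * (4 * (K * T)) := by
    refine h1.trans ?_
    apply Nat.mul_le_mul <;> omega
  have h3 : (t.length : ℝ) ≤ 12 * (K : ℝ) ^ 2 * (T : ℝ) ^ 2 := by
    have : (t.length : ℝ) ≤ ((3 * (K * T)) * (4 * (K * T)) : ℕ) := by exact_mod_cast h2
    refine this.trans (le_of_eq ?_)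
    push_cast
    ring
  refine h3.trans ?_
  apply mul_le_mul_of_nonneg_left _ (by positivity)
  have hT1 : (1 : ℝ) ≤ T := by exact_mod_cast hT
  have h4 := Real.rpow_le_rpow_of_exponent_le hT1 (show (2 : ℝ) ≤ s + 1 by linarith)
  rwa [Real.rpow_two] at h4

private lemma th8_parts {K k : ℕ} {M s : ℝ} (hK : 1 ≤ K) (hM : 1 ≤ M) (hs : 1 ≤ s) :
    ((16 * K * 2 ^ k * ⌈M * ((2 : ℝ) ^ k) ^ s⌉₊ + 1 : ℕ) : ℝ) ≤ 100 * (K : ℝ) ^ 2 * M * ((2 : ℝ) ^ k) ^ (s + 1) := by
  have hx : (1 : ℝ) ≤ (2 : ℝ) ^ k := one_le_pow₀ (by norm_num)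
  have hxs : (1 : ℝ) ≤ ((2 : ℝ) ^ k) ^ s := Real.one_le_rpow hx (by linarith)
  have hK1 : (1 : ℝ) ≤ K := by exact_mod_cast hK
  rw [Real.rpow_add_one (by positivity)]
  set x : ℝ := (2 : ℝ) ^ k with hxdef
  set y : ℝ := x ^ s with hy
  have hc : ((⌈M * y⌉₊ : ℕ) : ℝ) ≤ 2 * (M * y) := by
    have h1 := (Nat.ceil_lt_add_one (show 0 ≤ M * y by positivity)).le
    have h2 : 1 ≤ M * y := one_le_mul_of_one_le_of_one_le hM hxs
    linarith
  have h3 : (1 : ℝ) ≤ K * M * (y * x) := by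
    have := one_le_mul_of_one_le_of_one_le (one_le_mul_of_one_le_of_one_le hK1 hM)
      (one_le_mul_of_one_le_of_one_le hxs hx)
    exact this
  have h4 : K * M * (y * x) ≤ (K : ℝ) ^ 2 * M * (y * x) := by
    have : (K : ℝ) ≤ (K : ℝ) ^ 2 := by nlinarith
    have h5 : 0 ≤ M * (y * x) := by positivity
    calc K * M * (y * x) = K * (M * (y * x)) := by ring
      _ ≤ (K : ℝ) ^ 2 * (M * (y * x)) := mul_le_mul_of_nonneg_right this h5
      _ = (K : ℝ) ^ 2 * M * (y * x) := by ring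
  push_cast
  have h6 : 16 * (K : ℝ) * 2 ^ k * (⌈M * y⌉₊ : ℝ) ≤ 16 * (K : ℝ) * x * (2 * (M * y)) := by
    rw [← hxdef]
    exact mul_le_mul_of_nonneg_left hc (by positivity)
  have h7 : 16 * (K : ℝ) * x * (2 * (M * y)) = 32 * (K * M * (y * x)) := by ring
  have h8 : 100 * (K : ℝ) ^ 2 * M * (y * x) = 100 * ((K : ℝ) ^ 2 * M * (y * x)) := by ring
  rw [h8]
  linarith

/-- good walks have a Hoelder continuous parametrisation -/
theorem good_holder (K : ℕ) (M s : ℝ) (hK : 1 ≤ K) (hM : 1 ≤ M) (hs : 1 ≤ s) : ∃ C : NNReal, ∀ (T : ℕ)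
    (t : List Bool), 1 ≤ T → GoodW K M s T t → ∃ r : unitInterval ≃ₜ unitInterval, Monotone r ∧
      HolderWith C (Real.toNNReal (1 / (s + 2))) (fun u => curve T t (r u)) := by
  have hK1 : (1 : ℝ) ≤ K := by exact_mod_cast hK
  have hM' : (1 : ℝ) ≤ 100 * (K : ℝ) ^ 2 * M := by
    have h1 : (1 : ℝ) ≤ (K : ℝ) ^ 2 := one_le_pow₀ hK1
    nlinarith
  refine ⟨Real.toNNReal (3 * (32 * 10 * (100 * (K : ℝ) ^ 2 * M) ^ 2)), ?_⟩
  intro T t hT hG
  obtain ⟨⟨j, hj, hFC⟩, hbox, hcr⟩ := hG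
  have hB : t ∈ Brd j := hFC.1
  have hTj : T ≤ j := hFC.2.1
  have hT' : (0 : ℝ) < T := by exact_mod_cast hT
  have hT1 : (1 : ℝ) ≤ T := by exact_mod_cast hT
  have hn : 1 ≤ t.length := by
    by_contra hcon
    have h0 : t.length = 0 := by omega
    have h1 := (mem_Brd.1 hB).2.2.2
    rw [h0, lev_zero] at h1
    omega
  have hη0 : (0 : ℝ) < 1 / T := by positivity
  have hη1 : (1 : ℝ) / T ≤ 1 := by
    rw [div_le_one hT']
    exact hT1
  have hinv : ((1 : ℝ) / T)⁻¹ = T := by rw [one_div, inv_inv]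
  obtain ⟨w, hw1, hw2, hw3, hw4⟩ := Tight.holder_mass (D := 10) (s := s + 1) (M := 100 * (K : ℝ) ^ 2 * M)
    (η := 1 / T) (by norm_num) (by linarith) hM' hη0 hη1 (z := fun i => zp t i / T) (n := t.length) hn
    (fun i _ => (th8_step t hT i).le) (by
      rw [hinv]
      refine (th8_length hK hT hs hB hj hbox).trans ?_
      apply mul_le_mul_of_nonneg_right _ (by positivity)
      have h1 : 0 ≤ (K : ℝ) ^ 2 := by positivity
      nlinarith) (by
      intro k hk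
      have hk' : 2 ^ k ≤ T := by
        have h1 : ((2 : ℝ) ^ k) ≤ T := by
          rw [one_div_pow, one_div_le_one_div hT' (by positivity)] at hk
          exact hk
        exact_mod_cast h1
      obtain ⟨tt, ht1, ht2, ht3, ht4⟩ := good_parts hK hT hk' hB hj hbox (hcr k hk')
      refine ⟨16 * K * 2 ^ k * ⌈M * ((2 : ℝ) ^ k) ^ s⌉₊ + 1, tt, by omega, th8_parts hK hM hs, ht1, ht2, ht3, ?_⟩
      intro l i i' h1 h2 h3 h4
      exact ht4 l i i' h1 h2 h3 h4)
  have he : s + 1 + 1 = s + 2 := by ring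
  rw [he] at hw3 hw4
  have hα0 : (0 : ℝ) < 1 / (s + 2) := by
    have : 0 < s + 2 := by linarith
    positivity
  have hα1 : (1 : ℝ) / (s + 2) ≤ 1 := by
    rw [div_le_one (by linarith)]
    linarith
  obtain ⟨r, hr1, hr2⟩ := Tight.holder_reparam (α := 1 / (s + 2)) (C := 32 * 10 * (100 * (K : ℝ) ^ 2 * M) ^ 2)
    (η := 1 / T) hα0 hα1 (by positivity) (z := fun i => zp t i / T) (n := t.length) hn hw1 hw2
    (fun i _ => (th8_step t hT i).le) hw3 hw4
  exact ⟨r, hr1, hr2⟩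

/-! ### module TH8b -/

lemma th8b_isClosed_holder (M α : NNReal) : IsClosed {f : C(unitInterval, ℂ) | HolderWith M α f} := by
  have h : {f : C(unitInterval, ℂ) | HolderWith M α f} =
      ⋂ x : unitInterval, ⋂ y : unitInterval, {f : C(unitInterval, ℂ) | edist (f x) (f y) ≤
        (M : ℝ≥0∞) * edist x y ^ (α : ℝ)} := by
    ext f
    simp only [Set.mem_iInter, Set.mem_ofPred_eq, HolderWith]
  rw [h]
  refine isClosed_iInter fun x => isClosed_iInter fun y => isClosed_le ?_ continuous_const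
  exact (continuous_eval_const x).edist (continuous_eval_const y)

lemma th8b_isClosed_half : IsClosed {f : C(unitInterval, ℂ) | (∀ u, 0 ≤ (f u).im) ∧ 3 / 2 ≤ (f 1).im ∧
    ∀ u, (f u).im ≤ (f 1).im} := by
  have h : {f : C(unitInterval, ℂ) | (∀ u, 0 ≤ (f u).im) ∧ 3 / 2 ≤ (f 1).im ∧ ∀ u, (f u).im ≤ (f 1).im} =
      (⋂ u : unitInterval, {f : C(unitInterval, ℂ) | 0 ≤ (f u).im}) ∩
        ({f : C(unitInterval, ℂ) | 3 / 2 ≤ (f 1).im} ∩
          ⋂ u : unitInterval, {f : C(unitInterval, ℂ) | (f u).im ≤ (f 1).im}) := by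
    ext f
    simp only [Set.mem_inter_iff, Set.mem_iInter, Set.mem_ofPred_eq]
  have hc : ∀ u : unitInterval, Continuous fun f : C(unitInterval, ℂ) => (f u).im :=
    fun u => Complex.continuous_im.comp (continuous_eval_const u)
  rw [h]
  refine IsClosed.inter (isClosed_iInter fun u => isClosed_le continuous_const (hc u)) ?_
  exact IsClosed.inter (isClosed_le continuous_const (hc 1)) (isClosed_iInter fun u => isClosed_le (hc u) (hc 1))

lemma th8b_r_zero {r : unitInterval ≃ₜ unitInterval} (h : Monotone r) : r 0 = 0 := by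
  obtain ⟨x, hx⟩ := r.surjective 0
  have h1 : r 0 ≤ r x := h unitInterval.nonneg'
  rw [hx] at h1
  exact le_antisymm h1 unitInterval.nonneg'

lemma th8b_r_one {r : unitInterval ≃ₜ unitInterval} (h : Monotone r) : r 1 = 1 := by
  obtain ⟨x, hx⟩ := r.surjective 1
  have h1 : r x ≤ r 1 := h unitInterval.le_one'
  rw [hx] at h1
  exact le_antisymm unitInterval.le_one' h1

lemma th8b_im_poly {z : ℕ → ℂ} {n : ℕ} (hn : 1 ≤ n) {a b : ℝ}
    (h : ∀ i ≤ n, a ≤ (z i).im ∧ (z i).im ≤ b) (s : unitInterval) :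
    a ≤ (Tight.poly z n s).im ∧ (Tight.poly z n s).im ≤ b := by
  have hn0 : (0 : ℝ) < n := by exact_mod_cast hn
  obtain ⟨i, hi, h1, h2⟩ : ∃ i < n, (i : ℝ) ≤ s * n ∧ (s : ℝ) * n ≤ i + 1 := by
    by_cases hs : (s : ℝ) * n < n
    · have h0 : (0 : ℝ) ≤ (s : ℝ) * n := mul_nonneg s.2.1 hn0.le
      exact ⟨⌊(s : ℝ) * n⌋₊, (Nat.floor_lt h0).2 hs, Nat.floor_le h0, (Nat.lt_floor_add_one _).le⟩
    · rw [not_lt] at hs
      have h3 : (s : ℝ) * n ≤ n := by
        have := mul_le_mul_of_nonneg_right s.2.2 hn0.le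
        rwa [one_mul] at this
      have h4 : ((n - 1 : ℕ) : ℝ) = n - 1 := by
        rw [Nat.cast_sub hn, Nat.cast_one]
      refine ⟨n - 1, by omega, ?_, ?_⟩
      · rw [h4]
        linarith
      · rw [h4]
        linarith
  rw [Tight.poly_apply hi h1 h2]
  obtain ⟨x, hx⟩ : ∃ x : ℝ, x = (s : ℝ) * n - i := ⟨_, rfl⟩
  have hx0 : 0 ≤ x := by linarith
  have hx1 : x ≤ 1 := by linarith
  rw [← hx]
  have him : (z i + (x : ℂ) * (z (i + 1) - z i)).im = (1 - x) * (z i).im + x * (z (i + 1)).im := by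
    rw [Complex.add_im, Complex.im_ofReal_mul, Complex.sub_im]
    ring
  rw [him]
  obtain ⟨p1, p2⟩ := h i hi.le
  obtain ⟨q1, q2⟩ := h (i + 1) hi
  constructor <;> nlinarith

lemma th8b_curve {T j : ℕ} (hT : 1 ≤ T) {t : List Bool} (ht : t ∈ FC T j) :
    (∀ u, 0 ≤ (curve T t u).im) ∧ 3 / 2 ≤ (curve T t 1).im ∧ ∀ u, (curve T t u).im ≤ (curve T t 1).im := by
  have hT0 : (0 : ℝ) < T := by exact_mod_cast hT
  obtain ⟨hb, hj, -⟩ := ht
  obtain ⟨b1, -, -, b4⟩ := mem_Brd.1 hb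
  have hn : 1 ≤ t.length := by
    by_contra h
    have h0 : t.length = 0 := by omega
    rw [h0, lev_zero] at b4
    omega
  have him : ∀ i, (zp t i / (T : ℂ)).im = (lev t i : ℝ) / 2 / T := by
    intro i
    rw [Complex.div_natCast_im, zp_im]
  have hlast : ((lev t t.length : ℤ) : ℝ) = 3 * j := by
    rw [b4]
    push_cast
    ring
  have hall : ∀ i ≤ t.length, 0 ≤ (zp t i / (T : ℂ)).im ∧ (zp t i / (T : ℂ)).im ≤ (3 * j : ℝ) / 2 / T := by
    intro i hi
    rw [him]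
    have h1 : 0 ≤ lev t i ∧ lev t i ≤ 3 * j := by
      rcases Nat.eq_zero_or_pos i with h | h
      · rw [h, lev_zero]
        constructor
        · exact le_rfl
        · positivity
      · exact ⟨(b1 i h hi).1.le, (b1 i h hi).2⟩
    have h2 : (0 : ℝ) ≤ lev t i := by exact_mod_cast h1.1
    have h3 : ((lev t i : ℤ) : ℝ) ≤ 3 * j := by exact_mod_cast h1.2
    constructor
    · positivity
    · gcongr
  have h1 : (curve T t 1).im = (3 * j : ℝ) / 2 / T := by
    unfold curve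
    rw [Tight.poly_one, him, hlast]
  refine ⟨fun u => (th8b_im_poly hn hall u).1, ?_, fun u => ?_⟩
  · rw [h1, le_div_iff₀ hT0]
    have : (T : ℝ) ≤ j := by exact_mod_cast hj
    linarith
  · rw [h1]
    exact (th8b_im_poly hn hall u).2

lemma th8b_law (T : ℕ) (X : List Bool → C(unitInterval, ℂ)) {S : Set C(unitInterval, ℂ)}
    (hS : MeasurableSet S) : ((lawK T).map X).toMeasure S = gf {t | t ∈ FCW T ∧ X t ∈ S} := by
  rw [PMF.toMeasure_apply_eq_toOuterMeasure_apply _ hS, PMF.toOuterMeasure_map_apply, PMF.toOuterMeasure_apply]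
  unfold gf
  rw [tsum_subtype {t | t ∈ FCW T ∧ X t ∈ S} wE]
  refine tsum_congr fun t => ?_
  show (X ⁻¹' S).indicator ((FCW T).indicator wE) t = _
  rw [Set.indicator_indicator]
  have h : X ⁻¹' S ∩ FCW T = {t | t ∈ FCW T ∧ X t ∈ S} := by
    ext x
    exact and_comm
  rw [h]

lemma th8b_ae (T : ℕ) (X : List Bool → C(unitInterval, ℂ)) {S : Set C(unitInterval, ℂ)}
    (hS : IsClosed S) (h : ∀ t ∈ FCW T, X t ∈ S) :
    ∀ᵐ (f : C(unitInterval, ℂ)) ∂(((lawK T).map X).toMeasure), f ∈ S := by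
  rw [ae_iff]
  have h1 : {f : C(unitInterval, ℂ) | ¬ f ∈ S} = Sᶜ := rfl
  rw [h1, th8b_law T X hS.measurableSet.compl]
  have h2 : {t | t ∈ FCW T ∧ X t ∈ Sᶜ} = ∅ := by
    ext t
    simp only [Set.mem_ofPred_eq, Set.mem_empty_iff_false, iff_false, not_and]
    intro ht hX
    exact hX (h t ht)
  rw [h2]
  unfold gf
  exact tsum_empty

/-- TIGHTNESS from the crossing estimates -/
theorem tight_of_star (h1 : Star lev) (h2 : Star lev2) (h3 : LatTail) :
    ∃ (α : NNReal) (X : ℕ → List Bool → C(unitInterval, ℂ)) (μ : ℕ → ProbabilityMeasure C(unitInterval, ℂ)),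
      0 < α ∧
      (∀ T t, ∃ r : unitInterval ≃ₜ unitInterval, Monotone r ∧ ∀ u, X T t u = curve T t (r u)) ∧
      (∀ T, (μ T : Measure C(unitInterval, ℂ)) = ((lawK T).map (X T)).toMeasure) ∧
      (∀ ε : ℝ, 0 < ε → ∃ M : NNReal, ∀ T, 1 ≤ T →
        (μ T : Measure C(unitInterval, ℂ)) {f : C(unitInterval, ℂ) | ¬ HolderWith M α f} ≤ ENNReal.ofReal ε) ∧
      IsTightMeasureSet {ν : Measure C(unitInterval, ℂ) | ∃ T, 1 ≤ T ∧ ν = μ T} ∧
      (∀ φ : ℕ → ℕ, StrictMono φ → ∃ ψ : ℕ → ℕ, StrictMono ψ ∧ ∃ ν : ProbabilityMeasure C(unitInterval, ℂ),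
        Tendsto (fun k => μ (φ (ψ k))) atTop (𝓝 ν) ∧
        ∀ᵐ (f : C(unitInterval, ℂ)) ∂(ν : Measure C(unitInterval, ℂ)), f 0 = 0 ∧ (∃ M : NNReal, HolderWith M α f) ∧
          (∀ u, 0 ≤ (f u).im) ∧ 3 / 2 ≤ (f 1).im ∧ ∀ u, (f u).im ≤ (f 1).im) := by
  obtain ⟨s, hs, hp⟩ := prob_good h1 h2 h3
  have hpos : ∀ n : ℕ, (0 : ℝ) < 1 / ((n : ℝ) + 1) := fun n => by positivity
  choose K M hK hM hg using fun n : ℕ => hp (1 / ((n : ℝ) + 1)) (hpos n)
  choose Ch hCh using fun n : ℕ => good_holder (K n) (M n) s (hK n) (hM n) hs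
  obtain ⟨α, hα⟩ : ∃ α : NNReal, α = Real.toNNReal (1 / (s + 2)) := ⟨_, rfl⟩
  have hα0 : 0 < α := by
    rw [hα, Real.toNNReal_pos]
    have : 0 < s + 2 := by linarith
    positivity
  obtain ⟨c, hc⟩ : ∃ c : ℕ → NNReal, c = fun n => ∑ i ∈ range (n + 1), Ch i := ⟨_, rfl⟩
  have hc1 : ∀ n, Ch n ≤ c n := by
    intro n
    rw [hc]
    exact Finset.single_le_sum (f := Ch) (fun i _ => zero_le) (Finset.self_mem_range_succ n)
  have hc2 : Monotone c := by
    refine monotone_nat_of_le_succ fun n => ?_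
    rw [hc]
    show ∑ i ∈ range (n + 1), Ch i ≤ ∑ i ∈ range (n + 1 + 1), Ch i
    rw [Finset.sum_range_succ _ (n + 1)]
    exact le_self_add
  have key : ∀ (T : ℕ) (t : List Bool), ∃ r : unitInterval ≃ₜ unitInterval, Monotone r ∧
      ∀ n : ℕ, (∃ r' : unitInterval ≃ₜ unitInterval, Monotone r' ∧ HolderWith (c n) α (fun u => curve T t (r' u))) →
        HolderWith (c n) α (fun u => curve T t (r u)) := by
    intro T t
    classical
    by_cases hex : ∃ n : ℕ, ∃ r' : unitInterval ≃ₜ unitInterval, Monotone r' ∧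
        HolderWith (c n) α (fun u => curve T t (r' u))
    · obtain ⟨r, hr1, hr2⟩ := Nat.find_spec hex
      exact ⟨r, hr1, fun n hn => hr2.mono (hc2 (Nat.find_min' hex hn))⟩
    · exact ⟨Homeomorph.refl _, monotone_id, fun n hn => absurd ⟨n, hn⟩ hex⟩
  choose R hR1 hR2 using key
  obtain ⟨X, hX⟩ : ∃ X : ℕ → List Bool → C(unitInterval, ℂ),
      X = fun T t => (curve T t).comp ⟨R T t, (R T t).continuous⟩ := ⟨_, rfl⟩
  have hXa : ∀ T t u, X T t u = curve T t (R T t u) := by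
    intro T t u
    rw [hX]
    rfl
  obtain ⟨μ, hμ⟩ : ∃ μ : ℕ → ProbabilityMeasure C(unitInterval, ℂ),
      ∀ T, (μ T : Measure C(unitInterval, ℂ)) = ((lawK T).map (X T)).toMeasure :=
    ⟨fun T => ⟨((lawK T).map (X T)).toMeasure, inferInstance⟩, fun T => rfl⟩
  have H0 : ∀ T, ∀ᵐ (f : C(unitInterval, ℂ)) ∂(μ T : Measure C(unitInterval, ℂ)), f 0 = 0 := by
    intro T
    rw [hμ]
    have hcl : IsClosed {f : C(unitInterval, ℂ) | f 0 = 0} :=
      isClosed_eq (continuous_eval_const 0) continuous_const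
    refine th8b_ae T (X T) hcl fun t _ => ?_
    show X T t 0 = 0
    rw [hXa, th8b_r_zero (hR1 T t)]
    unfold curve
    rw [Tight.poly_zero, zp_zero, zero_div]
  have H : ∀ ε : ℝ, 0 < ε → ∃ M : NNReal, ∀ T, 1 ≤ T →
      (μ T : Measure C(unitInterval, ℂ)) {f : C(unitInterval, ℂ) | ¬ HolderWith M α f} ≤ ENNReal.ofReal ε := by
    intro ε hε
    obtain ⟨n, hn⟩ := exists_nat_one_div_lt hε
    refine ⟨c n, fun T hT => ?_⟩
    have hms : MeasurableSet {f : C(unitInterval, ℂ) | ¬ HolderWith (c n) α f} :=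
      (th8b_isClosed_holder (c n) α).measurableSet.compl
    rw [hμ, th8b_law T (X T) hms]
    refine (gf_mono ?_).trans ((hg n T hT).trans (ENNReal.ofReal_le_ofReal hn.le))
    rintro t ⟨ht1, ht2⟩
    refine ⟨ht1, fun hgood => ht2 ?_⟩
    obtain ⟨r, hr1, hr2⟩ := hCh n T t hT hgood
    rw [← hα] at hr2
    have h4 := hR2 T t n ⟨r, hr1, hr2.mono (hc1 n)⟩
    have h5 : (fun u => curve T t (R T t u)) = fun u => X T t u := by
      funext u
      exact (hXa T t u).symm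
    rw [h5] at h4
    exact h4
  refine ⟨α, X, μ, hα0, fun T t => ⟨R T t, hR1 T t, hXa T t⟩, hμ, H, Tight.tight_of_holder hα0 μ H0 H, ?_⟩
  intro φ hφ
  obtain ⟨ψ, hψ, ν, hν1, hν2⟩ := Tight.subseq_of_holder hα0 μ H0 H φ hφ
  refine ⟨ψ, hψ, ν, hν1, ?_⟩
  have hcl := Tight.ae_of_tendsto hν1 th8b_isClosed_half (by
    filter_upwards [eventually_ge_atTop 1] with k hk
    have hT : 1 ≤ φ (ψ k) := hk.trans ((hφ.comp hψ).le_apply)
    rw [hμ]
    refine th8b_ae _ _ th8b_isClosed_half fun t ht => ?_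
    obtain ⟨j, hj⟩ := ht
    obtain ⟨c1, c2, c3⟩ := th8b_curve hT hj
    have hX1 : X (φ (ψ k)) t 1 = curve (φ (ψ k)) t 1 := by
      rw [hXa, th8b_r_one (hR1 _ _)]
    refine ⟨fun u => ?_, ?_, fun u => ?_⟩
    · rw [hXa]
      exact c1 _
    · rw [hX1]
      exact c2
    · rw [hX1, hXa]
      exact c3 _)
  filter_upwards [hν2, hcl] with f hf1 hf2
  exact ⟨hf1.1, hf1.2, hf2.1, hf2.2.1, hf2.2.2⟩

end HexObs
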