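import Pool.Agent.Tight.LawK

/-!
TIGHT, module TH6 (deterministic): few crossings of the slabs give partitions at all scales.
-/

set_option autoImplicit false

namespace HexObs

open Finset

section TH6aAux

lemma TH6a_vx (t : List Bool) (i : ℕ) :
    lev t i = (vx oo up t i).1 + 2 * (vx oo up t i).2 ∧ lat t i = (vx oo up t i).1 ∧
      lev2 t i = 2 * (vx oo up t i).1 + (vx oo up t i).2 := by
  refine ⟨?_, ?_, ?_⟩
  · simp only [lev, ip, up]
    ring
  · simp only [lat, cross, up]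
    ring
  · simp only [lev2, ip, rotR, up]
    ring

lemma TH6a_exp : Complex.exp (((Real.pi / 6 : ℝ) : ℂ) * Complex.I) = ⟨Real.sqrt 3 / 2, 1 / 2⟩ := by
  rw [Complex.exp_mul_I, ← Complex.ofReal_cos, ← Complex.ofReal_sin, Real.cos_pi_div_six,
    Real.sin_pi_div_six]
  apply Complex.ext <;> simp

lemma TH6a_norm (z : ℂ) : ‖z * Complex.exp (((Real.pi / 6 : ℝ) : ℂ) * Complex.I)‖ = ‖z‖ := by
  rw [norm_mul, Complex.norm_exp_ofReal_mul_I, mul_one]

end TH6aAux

lemma zp_zero (t : List Bool) : zp t 0 = 0 := by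
  have h : emb (vx oo up t 0) = 0 := by
    show emb oo = 0
    simp [emb, oo]
  rw [zp, h, zero_mul]

/-- the coordinates of the plane: Im = lev / 2, Re = (sqrt 3 / 2) lat, inner product with 30 degrees = lev2 / 2 -/
theorem zp_im (t : List Bool) (i : ℕ) : (zp t i).im = lev t i / 2 := by
  have h3 : Real.sqrt 3 * Real.sqrt 3 = 3 := Real.mul_self_sqrt (by norm_num)
  rw [(TH6a_vx t i).1, zp, TH6a_exp, Complex.mul_im, emb_re, emb_im]
  push_cast
  linear_combination ((vx oo up t i).2 / 4 : ℝ) * h3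

theorem zp_re (t : List Bool) (i : ℕ) : (zp t i).re = Real.sqrt 3 / 2 * lat t i := by
  rw [(TH6a_vx t i).2.1, zp, TH6a_exp, Complex.mul_re, emb_re, emb_im]
  ring

theorem zp_step (t : List Bool) (i : ℕ) : dist (zp t i) (zp t (i + 1)) = 1 := by
  rw [dist_comm, Complex.dist_eq, zp, zp, ← sub_mul, TH6a_norm, ← emb_sub, vx_succ, add_sub_cancel_left]
  have h1 := re_emb_mul (dx up t i) (dx up t i)
  rw [ip_self, mem_dirs.1 (dx_mem upd t i), Complex.mul_conj, Complex.ofReal_re,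
    Complex.normSq_eq_norm_sq] at h1
  have h2 : ‖emb (dx up t i)‖ ^ 2 = 1 := by
    rw [h1]
    norm_num
  nlinarith [norm_nonneg (emb (dx up t i))]

/-- two directions separate points -/
theorem zp_sep (t : List Bool) {i j : ℕ} {r : ℝ} (h : 4 * r ≤ dist (zp t i) (zp t j)) :
    2 * r ≤ |(lev t i : ℝ) - lev t j| ∨ 2 * r ≤ |(lev2 t i : ℝ) - lev2 t j| := by
  by_contra hc
  rw [not_or, not_le, not_le] at hc
  obtain ⟨h1, h2⟩ := hc
  have hr : 0 < r := by
    have := abs_nonneg ((lev t i : ℝ) - lev t j)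
    linarith
  have h3 : Real.sqrt 3 * Real.sqrt 3 = 3 := Real.mul_self_sqrt (by norm_num)
  have hl : ∀ k : ℕ, (3 : ℝ) * lat t k = 2 * lev2 t k - lev t k := by
    intro k
    have := TH6a_vx t k
    obtain ⟨e1, e2, e3⟩ := this
    rw [e1, e2, e3]
    push_cast
    ring
  have hre : (zp t i - zp t j).re = Real.sqrt 3 / 6 *
      (2 * ((lev2 t i : ℝ) - lev2 t j) - ((lev t i : ℝ) - lev t j)) := by
    rw [Complex.sub_re, zp_re, zp_re]
    linear_combination (Real.sqrt 3 / 6) * (hl i) - (Real.sqrt 3 / 6) * (hl j)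
  have him : (zp t i - zp t j).im = ((lev t i : ℝ) - lev t j) / 2 := by
    rw [Complex.sub_im, zp_im, zp_im]
    ring
  have hd : dist (zp t i) (zp t j) ^ 2 = (zp t i - zp t j).re ^ 2 + (zp t i - zp t j).im ^ 2 := by
    rw [Complex.dist_eq, ← Complex.normSq_eq_norm_sq, Complex.normSq_apply]
    ring
  rw [hre, him] at hd
  set x : ℝ := (lev t i : ℝ) - lev t j with hx
  set y : ℝ := (lev2 t i : ℝ) - lev2 t j with hy
  rw [abs_lt] at h1 h2
  have h4 : x ^ 2 < 4 * r ^ 2 := by nlinarith [h1.1, h1.2]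
  have h5 : |2 * y - x| < 6 * r := by
    rw [abs_lt]
    constructor <;> linarith [h1.1, h1.2, h2.1, h2.2]
  rw [abs_lt] at h5
  have h6 : (2 * y - x) ^ 2 < 36 * r ^ 2 := by nlinarith [h5.1, h5.2]
  have h7 : (Real.sqrt 3 / 6 * (2 * y - x)) ^ 2 = (2 * y - x) ^ 2 / 12 := by
    linear_combination ((2 * y - x) ^ 2 / 36) * h3
  rw [h7] at hd
  nlinarith [h, hr]

theorem lev2_eq (t : List Bool) (i : ℕ) : 2 * lev2 t i = lev t i + 3 * lat t i := by
  obtain ⟨e1, e2, e3⟩ := TH6a_vx t i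
  rw [e1, e2, e3]
  ring

/-- a self-avoiding walk in a box is not too long -/
theorem length_le {j B : ℕ} {t : List Bool} (ht : t ∈ Brd j) (hb : InBox t B) :
    t.length ≤ (2 * B + 1) * (3 * j + 1) := by
  rw [mem_Brd] at ht
  obtain ⟨h1, h2, -, -⟩ := ht
  have hinj : Set.InjOn (fun i => (lat t i, lev t i)) (Icc 1 t.length : Finset ℕ) := by
    intro i hi k hk hik
    rw [Finset.mem_coe, Finset.mem_Icc] at hi hk
    have h3 : lat t i = lat t k := congrArg Prod.fst hik
    have h4 : lev t i = lev t k := congrArg Prod.snd hik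
    obtain ⟨a1, a2, -⟩ := TH6a_vx t i
    obtain ⟨b1, b2, -⟩ := TH6a_vx t k
    have h5 : vx oo up t i = vx oo up t k := by
      apply Prod.ext
      · rw [← a2, ← b2, h3]
      · have : 2 * (vx oo up t i).2 = 2 * (vx oo up t k).2 := by
          rw [a2, b2] at h3
          rw [a1, b1] at h4
          linarith
        linarith
    rcases lt_trichotomy i k with h | h | h
    · exact absurd h5 (h2 i k h hk.2)
    · exact h
    · exact absurd h5.symm (h2 k i h hi.2)
  have hsub : (Icc 1 t.length).image (fun i => (lat t i, lev t i)) ⊆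
      Icc (-(B : ℤ)) B ×ˢ Icc (0 : ℤ) (3 * j) := by
    intro p hp
    rw [Finset.mem_image] at hp
    obtain ⟨i, hi, rfl⟩ := hp
    rw [Finset.mem_Icc] at hi
    have h3 := hb i hi.2
    have h4 := h1 i hi.1 hi.2
    rw [abs_le] at h3
    rw [Finset.mem_product, Finset.mem_Icc, Finset.mem_Icc]
    exact ⟨h3, h4.1.le, h4.2⟩
  have hcard := Finset.card_le_card hsub
  rw [Finset.card_image_of_injOn hinj, Nat.card_Icc, Finset.card_product, Int.card_Icc, Int.card_Icc]
    at hcard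
  have e1 : ((B : ℤ) + 1 - -(B : ℤ)).toNat = 2 * B + 1 := by omega
  have e2 : ((3 * j : ℤ) + 1 - 0).toNat = 3 * j + 1 := by omega
  rw [e1, e2] at hcard
  omega

/-- an alternation between real values is one between integers -/
private lemma th6b_alt {f : ℕ → ℤ} {n m : ℕ} {x y : ℝ} (h : Tight.Alt (fun i => (f i : ℝ)) n x y m) :
    Tight.Alt f n ⌊x⌋ ⌈y⌉ m := by
  obtain ⟨i, h1, h2, h3⟩ := h
  refine ⟨i, h1, h2, fun k hk => ?_⟩
  have h4 := h3 k hk
  split_ifs at h4 ⊢ with he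
  · exact Int.le_floor.2 h4
  · exact Int.ceil_le.2 h4

/-- tortuosity at the scale r = T / 2^k -/
theorem good_parts {K T j k m : ℕ} (hK : 1 ≤ K) (hT : 1 ≤ T) (hk : 2 ^ k ≤ T) {t : List Bool} (ht : t ∈ Brd j)
    (hj : j ≤ K * T) (hb : InBox t (K * T))
    (hc : ∀ i ∈ Finset.Ico (-(4 * K * 2 ^ k : ℤ)) (4 * K * 2 ^ k),
      ¬ Tight.Alt (lev t) t.length ⌊(i : ℝ) * (T / 2 ^ k)⌋ ⌈((i : ℝ) + 1) * (T / 2 ^ k)⌉ m ∧
      ¬ Tight.Alt (lev2 t) t.length ⌊(i : ℝ) * (T / 2 ^ k)⌋ ⌈((i : ℝ) + 1) * (T / 2 ^ k)⌉ m) :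
    ∃ (tt : ℕ → ℕ), tt 0 = 0 ∧ tt (16 * K * 2 ^ k * m + 1) = t.length ∧ Monotone tt ∧
      ∀ l, ∀ i i', tt l ≤ i → i ≤ tt (l + 1) → tt l ≤ i' → i' ≤ tt (l + 1) →
        dist (zp t i / T) (zp t i' / T) ≤ 10 * (1 / 2) ^ k := by
  have hT0 : (0 : ℝ) < T := by exact_mod_cast hT
  have h2k : (0 : ℝ) < 2 ^ k := by positivity
  have hkT : (2 : ℝ) ^ k ≤ T := by exact_mod_cast hk
  have hr0 : (0 : ℝ) < T / 2 ^ k := by positivity
  have hjK : (j : ℤ) ≤ K * T := by exact_mod_cast hj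
  have hbr := mem_Brd.1 ht
  have hlev : ∀ i ≤ t.length, 0 ≤ lev t i ∧ lev t i ≤ 3 * (K * T : ℤ) := by
    intro i hi
    rcases Nat.eq_zero_or_pos i with h | h
    · rw [h, lev_zero]
      exact ⟨le_rfl, by positivity⟩
    · have h1 := hbr.1 i h hi
      exact ⟨h1.1.le, by linarith [h1.2]⟩
  have hlev2 : ∀ i ≤ t.length, |lev2 t i| ≤ 3 * (K * T : ℤ) := by
    intro i hi
    have h1 := hlev i hi
    have h2 := abs_le.1 (hb i hi)
    have h3 := lev2_eq t i
    push_cast at h2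
    rw [abs_le]
    constructor <;> linarith [h1.1, h1.2, h2.1, h2.2]
  have hKT0 : (0 : ℝ) ≤ K * T := by positivity
  have hQ : ((4 * K * 2 ^ k : ℕ) : ℝ) * (T / 2 ^ k) = 4 * (K * T) := by
    push_cast
    field_simp
  obtain ⟨tt, h0, h1, h2, -, h4⟩ := Tight.tortuosity (zp t)
    (fun (s : Fin 2) i => if s = 0 then (lev t i : ℝ) else (lev2 t i : ℝ)) (n := t.length) (m := m)
    (Q := 4 * K * 2 ^ k) (ρ := 4 * (T / 2 ^ k)) (η := 1) (r := T / 2 ^ k) (by positivity) zero_le_one hr0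
    (fun i _ => (zp_step t i).le)
    (by
      intro i i' _ _ hd
      rcases zp_sep t hd with h | h
      · exact ⟨0, by simpa using h⟩
      · exact ⟨1, by simpa using h⟩)
    (by
      intro s i hi
      rw [hQ]
      by_cases hs : s = 0
      · simp only [hs, if_true]
        have h1 := hlev i hi
        have h2 : (0 : ℝ) ≤ lev t i := by exact_mod_cast h1.1
        have h3 : (lev t i : ℝ) ≤ 3 * (K * T) := by exact_mod_cast h1.2
        rw [abs_le]
        constructor <;> linarith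
      · simp only [hs, if_false]
        have h1 : |(lev2 t i : ℝ)| ≤ 3 * (K * T) := by exact_mod_cast hlev2 i hi
        linarith)
    (by
      intro s i hi
      have h1 := hc i (by push_cast at hi; exact hi)
      by_cases hs : s = 0
      · simp only [hs, if_true]
        exact fun h => h1.1 (th6b_alt h)
      · simp only [hs, if_false]
        exact fun h => h1.2 (th6b_alt h))
  refine ⟨tt, h0, ?_, h2, ?_⟩
  · rw [← h1]
    congr 1
    ring
  · intro l i i' a b c d
    have h5 := h4 l i i' a b c d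
    have h6 : dist (zp t i / T) (zp t i' / T) = dist (zp t i) (zp t i') / T := by
      rw [dist_eq_norm, dist_eq_norm, ← sub_div, norm_div, Complex.norm_natCast]
    rw [h6, div_le_iff₀ hT0]
    refine h5.trans ?_
    have h7 : (10 : ℝ) * (1 / 2) ^ k * T = 10 * (T / 2 ^ k) := by
      rw [one_div, inv_pow]
      field_simp
    rw [h7]
    have h8 : (1 : ℝ) ≤ T / 2 ^ k := by
      rw [le_div_iff₀ h2k, one_mul]
      exact hkT
    linarith

end HexObs
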