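import Pool.Agent.Tight.Touch1
import Pool.Agent.Tight.MainA

/-!
TIGHT, touching the boundary, part 3: properties of all subsequential limits of the rescaled half plane walk.
-/

set_option autoImplicit false

namespace HexObs

open Finset MeasureTheory Filter Topology

open scoped ENNReal

/-- h is a cut level of the curve f: up to some time f is not above the level h, afterwards it is not below -/
def CutLevel (f : C(unitInterval, ℂ)) (h : ℝ) : Prop :=
  ∃ u0 : unitInterval, (∀ u ≤ u0, (f u).im ≤ h) ∧ ∀ u, u0 ≤ u → h ≤ (f u).im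

namespace Touch

/-! ### points of the curve -/

lemma pts {T : ℕ} {t : List Bool} (hn : 1 ≤ t.length) (u : unitInterval) : ∃ (i : ℕ) (x : ℝ), i < t.length ∧ 0 ≤ x ∧
    x ≤ 1 ∧ (u : ℝ) * t.length = i + x ∧ (curve T t u).im = (1 - x) * (zp t i / T).im + x * (zp t (i + 1) / T).im ∧
    (curve T t u).re = (1 - x) * (zp t i / T).re + x * (zp t (i + 1) / T).re := by
  obtain ⟨i, hi, h1, h2⟩ := Tight.th2_idx hn u
  refine ⟨i, (u : ℝ) * t.length - i, hi, by linarith, by linarith, by ring, ?_, ?_⟩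
  · unfold curve
    rw [Tight.poly_apply hi h1 h2, Complex.add_im, Complex.im_ofReal_mul, Complex.sub_im]
    ring
  · unfold curve
    rw [Tight.poly_apply hi h1 h2, Complex.add_re, Complex.re_ofReal_mul, Complex.sub_re]
    ring

lemma im_div (t : List Bool) (T i : ℕ) : (zp t i / (T : ℂ)).im = (lev t i : ℝ) / 2 / T := by
  rw [Complex.div_natCast_im, zp_im]

lemma re_div (t : List Bool) (T i : ℕ) : (zp t i / (T : ℂ)).re = Real.sqrt 3 / 2 * lat t i / T := by
  rw [Complex.div_natCast_re, zp_re]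

lemma im_step (t : List Bool) {T : ℕ} (hT : 1 ≤ T) (i : ℕ) :
    |(zp t i / (T : ℂ)).im - (zp t (i + 1) / (T : ℂ)).im| ≤ 1 / T := by
  have hT' : (0 : ℝ) < T := by exact_mod_cast hT
  have h1 : dist (zp t i / T) (zp t (i + 1) / T) = 1 / T := by
    rw [dist_eq_norm, ← sub_div, norm_div, ← dist_eq_norm, zp_step, Complex.norm_natCast]
  rw [← h1, Complex.dist_eq, ← Complex.sub_im]
  exact Complex.abs_im_le_norm _

lemma len_pos {T j : ℕ} (hT : 1 ≤ T) {t : List Bool} (ht : t ∈ FC T j) : 1 ≤ t.length := by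
  by_contra h
  have h0 : t.length = 0 := by omega
  have h1 := (mem_Brd.1 ht.1).2.2.2
  have h2 := ht.2.1
  rw [h0, lev_zero] at h1
  omega

lemma r_zero {r : unitInterval ≃ₜ unitInterval} (h : Monotone r) : r 0 = 0 := by
  obtain ⟨x, hx⟩ := r.surjective 0
  have h1 : r 0 ≤ r x := h unitInterval.nonneg'
  rw [hx] at h1
  exact le_antisymm h1 unitInterval.nonneg'

lemma r_one {r : unitInterval ≃ₜ unitInterval} (h : Monotone r) : r 1 = 1 := by
  obtain ⟨x, hx⟩ := r.surjective 1
  have h1 : r x ≤ r 1 := h unitInterval.le_one'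
  rw [hx] at h1
  exact le_antisymm unitInterval.le_one' h1

/-! ### the events of the words -/

/-- low points of the curve are not far away -/
lemma low_curve {K B s T : ℕ} (hT : 1 ≤ T) {e η : ℝ} {t : List Bool} (hn : 1 ≤ t.length) (hl : Low K B s t)
    (h1 : 2 * η * T + 2 ≤ 3 * s) (h2 : (B : ℝ) * s ≤ e * T) (u : unitInterval) (hu : (curve T t u).im < η) :
    |(curve T t u).re| ≤ e := by
  obtain ⟨j, i0, hs, -, -, -, hlo, hhi⟩ := hl
  obtain ⟨i, x, hi, hx0, hx1, -, him, hre⟩ := pts (T := T) hn u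
  have hT' : (0 : ℝ) < T := by exact_mod_cast hT
  have hst := im_step t hT i
  rw [abs_le] at hst
  have h3 : (zp t i / (T : ℂ)).im < η + 1 / T ∧ (zp t (i + 1) / (T : ℂ)).im < η + 1 / T := by
    rw [him] at hu
    constructor <;> nlinarith
  have h4 : ∀ k : ℕ, k ≤ t.length → (zp t k / (T : ℂ)).im < η + 1 / T → |(zp t k / (T : ℂ)).re| ≤ e := by
    intro k hk hlt
    rw [im_div] at hlt
    have h5 : (lev t k : ℝ) < 2 * η * T + 2 := by
      rw [div_div, div_lt_iff₀ (by positivity)] at hlt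
      have : (η + 1 / T) * (2 * T) = 2 * η * T + 2 := by
        field_simp
      linarith
    have h6 : lev t k < 3 * (j : ℤ) := by
      have h7 : (lev t k : ℝ) < 3 * (s : ℝ) := by linarith
      have h8 : lev t k < 3 * (s : ℤ) := by exact_mod_cast h7
      have h9 : (s : ℤ) ≤ j := by exact_mod_cast hs
      linarith
    have h7 : k ≤ i0 := by
      by_contra hcon
      have := hhi k (by omega) hk
      omega
    have h8 := (hlo k h7).2
    have h9 : |(lat t k : ℝ)| ≤ B * s := by
      have : ((|lat t k| : ℤ) : ℝ) ≤ ((B * s : ℤ) : ℝ) := by exact_mod_cast h8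
      push_cast at this
      exact this
    rw [re_div, abs_div, abs_mul, abs_of_pos hT', div_le_iff₀ hT']
    have h10 : |Real.sqrt 3 / 2| ≤ 1 := by
      rw [abs_of_nonneg (by positivity)]
      have : Real.sqrt 3 ≤ 2 := by
        rw [Real.sqrt_le_left (by norm_num)]
        norm_num
      linarith
    calc |Real.sqrt 3 / 2| * |(lat t k : ℝ)| ≤ 1 * (B * s) := mul_le_mul h10 h9 (abs_nonneg _) zero_le_one
      _ ≤ _ := by linarith
  have h5 := h4 i hi.le h3.1
  have h6 := h4 (i + 1) hi h3.2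
  rw [hre]
  rw [abs_le] at h5 h6 ⊢
  constructor <;> nlinarith

/-- a cut of the word is a cut level of the curve -/
lemma cut_curve {T j n : ℕ} (hT : 1 ≤ T) {t : List Bool} (hn : 1 ≤ t.length) (ht : t ∈ Brd n) (h : Cut t j)
    {f : C(unitInterval, ℂ)} {r : unitInterval ≃ₜ unitInterval} (hr : Monotone r)
    (hf : ∀ u, f u = curve T t (r u)) : CutLevel f ((3 * j : ℝ) / 2 / T) := by
  have hT' : (0 : ℝ) < T := by exact_mod_cast hT
  have hn0 : (0 : ℝ) < t.length := by exact_mod_cast hn
  obtain ⟨a, w, b, ha, hw, htt⟩ := h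
  have h1 := mem_Brd.1 ha
  have h2 := mem_Brd.1 hw
  have hlen : t.length = a.length + w.length := by rw [htt, List.length_append]
  have hle : a.length ≤ t.length := by omega
  -- the levels
  have hlo : ∀ i ≤ a.length, (zp t i / (T : ℂ)).im ≤ (3 * j : ℝ) / 2 / T := by
    intro i hi
    rw [im_div]
    have h3 : lev t i ≤ 3 * j := by
      rw [htt, lev_append (by omega)]
      rcases Nat.eq_zero_or_pos i with h0 | h0
      · rw [h0, lev_zero]
        positivity
      · exact (h1.1 i h0 hi).2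
    have h4 : (lev t i : ℝ) ≤ 3 * j := by exact_mod_cast h3
    gcongr
  have hhi : ∀ i, a.length ≤ i → i ≤ t.length → (3 * j : ℝ) / 2 / T ≤ (zp t i / (T : ℂ)).im := by
    intro i hi hi2
    rw [im_div]
    have h3 : 3 * (j : ℤ) ≤ lev t i := by
      obtain ⟨k, rfl⟩ : ∃ k, i = a.length + k := ⟨i - a.length, by omega⟩
      rw [htt, lev_cat h1.2.2.1, h1.2.2.2]
      rcases Nat.eq_zero_or_pos k with h0 | h0
      · rw [h0, lev_zero]
        omega
      · have := (h2.1 k h0 (by omega)).1
        omega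
    have h4 : (3 * j : ℝ) ≤ lev t i := by exact_mod_cast h3
    gcongr
  -- the time of the cut
  have hv0 : ((a.length : ℝ) / t.length) ∈ Set.Icc (0 : ℝ) 1 := by
    refine ⟨by positivity, ?_⟩
    rw [div_le_one hn0]
    exact_mod_cast hle
  obtain ⟨u0, hu0⟩ := r.surjective ⟨(a.length : ℝ) / t.length, hv0⟩
  refine ⟨u0, fun u hu => ?_, fun u hu => ?_⟩
  · have h3 : (r u : ℝ) ≤ (a.length : ℝ) / t.length := by
      have := hr hu
      rw [hu0] at this
      exact this
    rw [le_div_iff₀ hn0] at h3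
    obtain ⟨i, x, hi, hx0, hx1, hx, him, -⟩ := pts (T := T) hn (r u)
    rw [hf, him]
    rcases Nat.lt_or_ge i a.length with hia | hia
    · have h4 := hlo i hia.le
      have h5 := hlo (i + 1) hia
      nlinarith
    · have h4 : (a.length : ℝ) ≤ i := by exact_mod_cast hia
      have h5 : x = 0 := by linarith
      have h6 : a.length = i := by
        have : (a.length : ℝ) = i := by linarith
        exact_mod_cast this
      rw [h5]
      have := hlo i h6.symm.le
      linarith
  · have h3 : (a.length : ℝ) / t.length ≤ (r u : ℝ) := by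
      have := hr hu
      rw [hu0] at this
      exact this
    rw [div_le_iff₀ hn0] at h3
    obtain ⟨i, x, hi, hx0, hx1, hx, him, -⟩ := pts (T := T) hn (r u)
    rw [hf, him]
    rcases Nat.lt_or_ge i a.length with hia | hia
    · have h4 : ((i + 1 : ℕ) : ℝ) ≤ a.length := by exact_mod_cast hia
      push_cast at h4
      have h5 : x = 1 := by linarith
      have h6 : a.length = i + 1 := by
        have : (a.length : ℝ) = ((i + 1 : ℕ) : ℝ) := by push_cast; linarith
        exact_mod_cast this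
      rw [h5]
      have := hhi (i + 1) h6.le hi
      linarith
    · have h4 := hhi i hia hi.le
      have h5 := hhi (i + 1) (by omega) hi
      nlinarith

/-- there is no cut between s and S with a small probability -/
theorem nocut_mass : ∃ θ : ℝ, 0 < θ ∧ θ ≤ 1 ∧ ∀ s S T : ℕ, 1 ≤ s → s ≤ S → S ≤ T →
    gf {t | t ∈ FCW T ∧ ¬ ∃ j, s ≤ j ∧ j ≤ S ∧ Cut t j} ≤ ENNReal.ofReal (6 * ((s : ℝ) / S) ^ θ) := by
  have hC : 0 < CW := by
    have hs : 0 < Real.sqrt 2 - 1 := by
      have : 1 < Real.sqrt 2 := by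
        rw [show (1 : ℝ) = Real.sqrt 1 from Real.sqrt_one.symm]
        exact Real.sqrt_lt_sqrt (by norm_num) (by norm_num)
      linarith
    unfold CW
    positivity
  obtain ⟨θ, hθ⟩ : ∃ θ : ℝ, θ = 1 / (6 + CW) := ⟨_, rfl⟩
  have hθ0 : 0 < θ := by rw [hθ]; positivity
  have hθ1 : θ ≤ 1 := by
    rw [hθ, div_le_one (by linarith)]
    linarith
  refine ⟨θ, hθ0, hθ1, fun s S T hs hsS hST => ?_⟩
  have hs0 : (0 : ℝ) < s := by exact_mod_cast hs
  have hS0 : (0 : ℝ) < S := by exact_mod_cast (by omega : 0 < S)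
  have hsT : s ≤ T := hsS.trans hST
  have hx0 : 0 < (s : ℝ) / S := by positivity
  rcases Nat.lt_or_ge S (2 * s) with hlt | hge
  · -- trivial bound
    calc gf {t | t ∈ FCW T ∧ ¬ ∃ j, s ≤ j ∧ j ≤ S ∧ Cut t j} ≤ gf (FCW T) := gf_mono fun t ht => ht.1
      _ = ENNReal.ofReal 1 := by rw [gf_FCW, ENNReal.ofReal_one]
      _ ≤ _ := by
        apply ENNReal.ofReal_le_ofReal
        have h1 : (1 / 2 : ℝ) ≤ (s : ℝ) / S := by
          rw [le_div_iff₀ hS0]
          have : (S : ℝ) ≤ 2 * s := by exact_mod_cast hlt.le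
          linarith
        have h2 : (1 / 2 : ℝ) ^ θ ≤ ((s : ℝ) / S) ^ θ := Real.rpow_le_rpow (by norm_num) h1 hθ0.le
        have h3 : (1 / 2 : ℝ) ≤ (1 / 2 : ℝ) ^ θ := by
          have := Real.rpow_le_rpow_of_exponent_ge (by norm_num : (0 : ℝ) < 1 / 2) (by norm_num) hθ1
          rwa [Real.rpow_one] at this
        linarith
  · obtain ⟨K, hK⟩ : ∃ K, K = S / s := ⟨_, rfl⟩
    have hK2 : 2 ≤ K := by
      rw [hK]
      exact (Nat.le_div_iff_mul_le hs).2 hge
    have hKs : K * s ≤ S := by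
      rw [hK]
      exact Nat.div_mul_le_self S s
    have hSK : S < (K + 1) * s := by
      rw [hK, Nat.mul_comm]
      exact Nat.lt_mul_div_succ S hs
    have h1 : gf {t | t ∈ FCW T ∧ ¬ ∃ j, s ≤ j ∧ j ≤ S ∧ Cut t j} ≤ gf {t | ∃ j, K * s < j ∧ t ∈ FC s j} := by
      refine le_trans (gf_mono ?_) ((mass_le {a | ∃ j, K * s < j ∧ a ∈ FC s j} hsT).trans
        (gf_mono fun t ht => ht.2))
      rintro t ⟨ht, hno⟩
      obtain ⟨j, a, u, b, ha, hu, -, htt⟩ := dec hsT ht
      refine ⟨ht, j, a, u, b, ha, ⟨j, ?_, ha⟩, hu, htt⟩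
      by_contra hcon
      exact hno ⟨j, ha.2.1, by omega, a, u, b, ha.1, hu, htt⟩
    have h2 := FCW_tail hK2 hs
    have h3 : UU s / UU ((K - 1) * s) ≤ 6 * ((s : ℝ) / S) ^ θ := by
      have h4 := UU_growth hs (show s ≤ (K - 1) * s by
        calc s = 1 * s := (one_mul s).symm
          _ ≤ (K - 1) * s := Nat.mul_le_mul_right s (by omega))
      rw [← hθ] at h4
      have h5 : (((K - 1) * s : ℕ) : ℝ) / s = ((K - 1 : ℕ) : ℝ) := by
        push_cast
        field_simp
      rw [h5] at h4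
      have hU : 0 < UU ((K - 1) * s) := by
        unfold UU
        exact Finset.sum_pos (fun i _ => uu_pos i) ⟨0, by simp⟩
      rw [div_le_iff₀ hU]
      -- 1/3 S/s ≤ K - 1
      have h6 : (S : ℝ) / s / 3 ≤ ((K - 1 : ℕ) : ℝ) := by
        rw [div_div, div_le_iff₀ (by positivity)]
        have : S ≤ (K - 1) * (s * 3) := by
          have h7 : (K + 1) * s ≤ (K - 1) * (s * 3) := by
            rw [show (K - 1) * (s * 3) = ((K - 1) * 3) * s by ring]
            exact Nat.mul_le_mul_right s (by omega)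
          omega
        exact_mod_cast this
      have h7 : ((S : ℝ) / s / 3) ^ θ ≤ ((K - 1 : ℕ) : ℝ) ^ θ := Real.rpow_le_rpow (by positivity) h6 hθ0.le
      have h8 : (1 / 3 : ℝ) ≤ ((s : ℝ) / S) ^ θ * ((S : ℝ) / s / 3) ^ θ := by
        rw [← Real.mul_rpow (by positivity) (by positivity)]
        have e : (s : ℝ) / S * ((S : ℝ) / s / 3) = 1 / 3 := by
          field_simp
        rw [e]
        have := Real.rpow_le_rpow_of_exponent_ge (by norm_num : (0 : ℝ) < 1 / 3) (by norm_num) hθ1
        rwa [Real.rpow_one] at this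
      have h9 : 0 < ((s : ℝ) / S) ^ θ := Real.rpow_pos_of_pos hx0 θ
      have hUs : 0 ≤ UU s := TH7.UU_nonneg s
      have h10 : UU s * ((S : ℝ) / s / 3) ^ θ ≤ 2 * UU ((K - 1) * s) :=
        le_trans (mul_le_mul_of_nonneg_left h7 hUs) h4
      calc UU s = 3 * (1 / 3 * UU s) := by ring
        _ ≤ 3 * (((s : ℝ) / S) ^ θ * ((S : ℝ) / s / 3) ^ θ * UU s) := by
          have := mul_le_mul_of_nonneg_right h8 hUs
          linarith
        _ = 3 * ((s : ℝ) / S) ^ θ * (UU s * ((S : ℝ) / s / 3) ^ θ) := by ring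
        _ ≤ 3 * ((s : ℝ) / S) ^ θ * (2 * UU ((K - 1) * s)) := mul_le_mul_of_nonneg_left h10 (by positivity)
        _ = _ := by ring
    exact (h1.trans h2).trans (ENNReal.ofReal_le_ofReal h3)

/-! ### closed and open sets of curves -/

lemma open_low (e η : ℝ) : IsOpen {f : C(unitInterval, ℂ) | ∃ u, (f u).im < η ∧ e < |(f u).re|} := by
  have h : {f : C(unitInterval, ℂ) | ∃ u, (f u).im < η ∧ e < |(f u).re|} =
      ⋃ u : unitInterval, ({f : C(unitInterval, ℂ) | (f u).im < η} ∩ {f | e < |(f u).re|}) := by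
    ext f
    simp only [Set.mem_ofPred_eq, Set.mem_iUnion, Set.mem_inter_iff]
  rw [h]
  refine isOpen_iUnion fun u => IsOpen.inter ?_ ?_
  · exact isOpen_lt (Complex.continuous_im.comp (continuous_eval_const u)) continuous_const
  · exact isOpen_lt continuous_const (continuous_abs.comp (Complex.continuous_re.comp (continuous_eval_const u)))

lemma closed_cut (a b : ℝ) : IsClosed {f : C(unitInterval, ℂ) | ∃ h ∈ Set.Icc a b, CutLevel f h} := by
  have hS : IsClosed {x : C(unitInterval, ℂ) × (unitInterval × Set.Icc a b) |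
      (∀ u : unitInterval, (x.1 (min u x.2.1)).im ≤ (x.2.2 : ℝ)) ∧
        ∀ u : unitInterval, (x.2.2 : ℝ) ≤ (x.1 (max u x.2.1)).im} := by
    have h : {x : C(unitInterval, ℂ) × (unitInterval × Set.Icc a b) |
      (∀ u : unitInterval, (x.1 (min u x.2.1)).im ≤ (x.2.2 : ℝ)) ∧
        ∀ u : unitInterval, (x.2.2 : ℝ) ≤ (x.1 (max u x.2.1)).im} =
        (⋂ u : unitInterval, {x : C(unitInterval, ℂ) × (unitInterval × Set.Icc a b) |
          (x.1 (min u x.2.1)).im ≤ (x.2.2 : ℝ)}) ∩
        ⋂ u : unitInterval, {x : C(unitInterval, ℂ) × (unitInterval × Set.Icc a b) |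
          (x.2.2 : ℝ) ≤ (x.1 (max u x.2.1)).im} := by
      ext x
      simp only [Set.mem_ofPred_eq, Set.mem_iInter, Set.mem_inter_iff]
    rw [h]
    have hc : Continuous fun x : C(unitInterval, ℂ) × (unitInterval × Set.Icc a b) => (x.2.2 : ℝ) :=
      continuous_subtype_val.comp (continuous_snd.comp continuous_snd)
    refine IsClosed.inter (isClosed_iInter fun u => isClosed_le ?_ hc) (isClosed_iInter fun u => isClosed_le hc ?_)
    · exact Complex.continuous_im.comp (continuous_fst.eval (continuous_const.min (continuous_fst.comp continuous_snd)))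
    · exact Complex.continuous_im.comp (continuous_fst.eval (continuous_const.max (continuous_fst.comp continuous_snd)))
  have h1 := isClosedMap_fst_of_compactSpace (X := C(unitInterval, ℂ)) (Y := unitInterval × Set.Icc a b) _ hS
  convert h1 using 1
  ext f
  constructor
  · rintro ⟨h, hh, u0, h2, h3⟩
    exact ⟨(f, (u0, ⟨h, hh⟩)), ⟨fun u => h2 _ (min_le_right _ _), fun u => h3 _ (le_max_right _ _)⟩, rfl⟩
  · rintro ⟨⟨f', u0, ⟨h, hh⟩⟩, ⟨h2, h3⟩, rfl⟩
    refine ⟨h, hh, u0, fun u hu => ?_, fun u hu => ?_⟩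
    · have := h2 u
      simp only [min_eq_left hu] at this
      exact this
    · have := h3 u
      simp only [max_eq_left hu] at this
      exact this

end Touch

end HexObs
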