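import Pool.Agent.Tight.Touch0

/-!
TIGHT, touching the boundary, part 2: the overshoot and the lateral spread of the half plane walk.
-/

set_option autoImplicit false

namespace HexObs

open Finset

open scoped ENNReal

namespace Touch

/-- the first cut at or above T is rarely close to T -/
theorem over_mass : ∃ c : ℝ, 0 < c ∧ ∀ T m : ℕ, 1 ≤ m → m ≤ T →
    gf {t | ∃ j, j < T + m ∧ t ∈ FC T j} ≤ ENNReal.ofReal (2 * ((m : ℝ) / T) ^ c) := by
  obtain ⟨c0, hc0, hR0⟩ := Ex.relDecay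
  obtain ⟨c, hc⟩ : ∃ c : ℝ, c = min c0 1 := ⟨_, rfl⟩
  have hcpos : 0 < c := by rw [hc]; exact lt_min hc0 one_pos
  have hc1 : c ≤ 1 := by rw [hc]; exact min_le_right _ _
  have hb : ∀ T : ℕ, 1 ≤ T → 0 < uu T := fun T _ => uu_pos T
  have hR : ∀ T : ℕ, 1 ≤ T → c * uu T ≤ T * (uu T - uu (T + 1)) := by
    intro T hT
    refine le_trans ?_ (hR0 T hT)
    apply mul_le_mul_of_nonneg_right _ (uu_pos T).le
    rw [hc]
    exact min_le_left _ _
  refine ⟨c, hcpos, fun T m hm hmT => ?_⟩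
  have hT : 1 ≤ T := hm.trans hmT
  have hT0 : (0 : ℝ) < T := by exact_mod_cast hT
  have hm0 : (0 : ℝ) < m := by exact_mod_cast hm
  have hsub : {t | ∃ j, j < T + m ∧ t ∈ FC T j} ⊆ ⋃ j ∈ Icc T (T + m - 1), FC T j ∩ Set.univ := by
    rintro t ⟨j, hj, ht⟩
    simp only [Set.mem_iUnion]
    exact ⟨j, Finset.mem_Icc.2 ⟨ht.2.1, by omega⟩, ht, trivial⟩
  have h1 : gf {t | ∃ j, j < T + m ∧ t ∈ FC T j} ≤ ∑ j ∈ Icc T (T + m - 1), gf (FC T j ∩ Set.univ) :=
    (gf_mono hsub).trans (ENNReal.tsum_biUnion_le wE (Icc T (T + m - 1)) (fun j => FC T j ∩ Set.univ))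
  have key := tk_append Set.univ {u | ∃ i, i ≤ m ∧ u ∈ Brd i} T (T + m - 1)
  have e1 : ENNReal.ofReal (UU m) ≤ ∑ i ∈ range (T + 1), gf (Brd i ∩ {u | ∃ i, i ≤ m ∧ u ∈ Brd i}) := by
    unfold UU
    rw [ENNReal.ofReal_sum_of_nonneg (fun i _ => TH7.uu_nonneg i)]
    calc ∑ i ∈ range (m + 1), ENNReal.ofReal (uu i) ≤
        ∑ i ∈ range (m + 1), gf (Brd i ∩ {u | ∃ i, i ≤ m ∧ u ∈ Brd i}) := by
          apply Finset.sum_le_sum
          intro i hi
          rw [Finset.mem_range] at hi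
          rw [← TH7.gf_Brd_uu]
          exact gf_mono fun u hu => ⟨hu, i, by omega, hu⟩
      _ ≤ _ := Finset.sum_le_sum_of_subset (Finset.range_subset_range.2 (by omega))
  have e2 : ∑ T' ∈ range (T + m - 1 + T + 1), gf {g | g ∈ Brd T' ∧ ∃ j a u, j ≤ T + m - 1 ∧ j ≤ T' ∧ a ∈ FC T j ∧
      a ∈ (Set.univ : Set (List Bool)) ∧ u ∈ Brd (T' - j) ∧ u ∈ {u | ∃ i, i ≤ m ∧ u ∈ Brd i} ∧ g = a ++ u} ≤
      ENNReal.ofReal (2 * m * uu T) := by
    calc _ ≤ ∑ T' ∈ range (T + m - 1 + T + 1), (if T ≤ T' ∧ T' < T + 2 * m then ENNReal.ofReal (uu T) else 0) := by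
          apply Finset.sum_le_sum
          intro T' _
          by_cases h : T ≤ T' ∧ T' < T + 2 * m
          · rw [if_pos h]
            refine (gf_mono (fun g hg => hg.1)).trans ?_
            rw [TH7.gf_Brd_uu]
            exact ENNReal.ofReal_le_ofReal (uu_anti h.1)
          · rw [if_neg h]
            refine le_of_eq ?_
            have : {g | g ∈ Brd T' ∧ ∃ j a u, j ≤ T + m - 1 ∧ j ≤ T' ∧ a ∈ FC T j ∧
                a ∈ (Set.univ : Set (List Bool)) ∧ u ∈ Brd (T' - j) ∧ u ∈ {u | ∃ i, i ≤ m ∧ u ∈ Brd i} ∧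
                g = a ++ u} = ∅ := by
              rw [Set.eq_empty_iff_forall_notMem]
              rintro g ⟨_, j, a, u, h1, h2, ha, _, hu, ⟨i, hi, hu'⟩, _⟩
              have h3 := Brd_height hu hu'
              have h4 := ha.2.1
              exact h ⟨by omega, by omega⟩
            rw [this]
            unfold gf
            simp
      _ ≤ ENNReal.ofReal (2 * m * uu T) := by
          rw [← Finset.sum_filter, Finset.sum_const, nsmul_eq_mul, ← ENNReal.ofReal_natCast,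
            ← ENNReal.ofReal_mul (Nat.cast_nonneg _)]
          apply ENNReal.ofReal_le_ofReal
          apply mul_le_mul_of_nonneg_right _ (uu_pos T).le
          have h2 : ((range (T + m - 1 + T + 1)).filter (fun T' => T ≤ T' ∧ T' < T + 2 * m)).card ≤ 2 * m := by
            calc _ ≤ (Finset.Ico T (T + 2 * m)).card := by
                  apply Finset.card_le_card
                  intro x hx
                  rw [Finset.mem_filter] at hx
                  exact Finset.mem_Ico.2 hx.2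
              _ = 2 * m := by rw [Nat.card_Ico]; omega
          exact_mod_cast h2
  have hUm : 0 < UU m := by
    unfold UU
    exact Finset.sum_pos (fun i _ => uu_pos i) ⟨0, by simp⟩
  have h3 : gf {t | ∃ j, j < T + m ∧ t ∈ FC T j} * ENNReal.ofReal (UU m) ≤ ENNReal.ofReal (2 * m * uu T) :=
    le_trans (mul_le_mul' h1 e1) (key.trans e2)
  have hUge : (m : ℝ) * uu m ≤ UU m := by
    unfold UU
    calc (m : ℝ) * uu m = ∑ i ∈ range m, uu m := by rw [Finset.sum_const, card_range, nsmul_eq_mul]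
      _ ≤ ∑ i ∈ range m, uu i := Finset.sum_le_sum fun i hi => uu_anti (Finset.mem_range.1 hi).le
      _ ≤ _ := by
        rw [Finset.sum_range_succ]
        have := (uu_pos m).le
        linarith
  have hpow := Ex.rd_pow hb hcpos hc1 hR hm T hmT
  have h4 : 2 * m * uu T ≤ 2 * ((m : ℝ) / T) ^ c * UU m := by
    have h5 : uu T ≤ ((m : ℝ) / T) ^ c * uu m := by
      rw [Real.div_rpow hm0.le hT0.le, div_mul_eq_mul_div, le_div_iff₀ (Real.rpow_pos_of_pos hT0 c)]
      linarith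
    have h6 : 0 < ((m : ℝ) / T) ^ c := Real.rpow_pos_of_pos (by positivity) c
    calc 2 * m * uu T ≤ 2 * m * (((m : ℝ) / T) ^ c * uu m) := mul_le_mul_of_nonneg_left h5 (by positivity)
      _ = 2 * ((m : ℝ) / T) ^ c * (m * uu m) := by ring
      _ ≤ _ := mul_le_mul_of_nonneg_left hUge (by positivity)
  have h5 : gf {t | ∃ j, j < T + m ∧ t ∈ FC T j} * ENNReal.ofReal (UU m) ≤
      ENNReal.ofReal (2 * ((m : ℝ) / T) ^ c) * ENNReal.ofReal (UU m) := by
    rw [← ENNReal.ofReal_mul (by positivity)]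
    exact h3.trans (ENNReal.ofReal_le_ofReal h4)
  exact (ENNReal.mul_le_mul_iff_left (ENNReal.ofReal_pos.2 hUm).ne' ENNReal.ofReal_ne_top).1 h5

/-- a bridge below T and an irreducible word over T -/
lemma mem_FC {T c r : ℕ} (hc : c < T) (hr : T ≤ c + r) {a p : List Bool} (ha : a ∈ Brd c) (hp : p ∈ Irr r) :
    a ++ p ∈ FC T (c + r) := by
  refine ⟨Brd_append ha hp.1, hr, ?_⟩
  rintro c' h1 h2 ⟨s', u', b, hs', hu', h3⟩
  obtain ⟨v, hv, h4, h5⟩ := cut_nested ha hs' hp.1 hu' (by omega) h3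
  rcases hp.2.2 _ _ _ _ hv hu' h5 with h6 | h6
  · rw [h6] at hv
    have := Brd_height hv nil_mem_Brd
    omega
  · have h7 := Brd_append hs' hu'
    rw [← h3] at h7
    have h8 := Brd_append ha hp.1
    have h9 := Brd_height h7 h8
    rw [h6] at hu'
    have := Brd_height hu' nil_mem_Brd
    omega

lemma irr_half (r : ℕ) : kap' r ≤ 2 * gf {p | p ∈ Irr r ∧ 0 ≤ latE p} := by
  have h1 : Irr r ⊆ {p | p ∈ Irr r ∧ 0 ≤ latE p} ∪ {p | p.map not ∈ {p | p ∈ Irr r ∧ 0 ≤ latE p}} := by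
    intro p hp
    by_cases h : 0 ≤ latE p
    · exact Or.inl ⟨hp, h⟩
    · right
      refine ⟨Irr_not hp, ?_⟩
      rw [latE_not]
      omega
  have h2 : gf {p | p.map not ∈ {p | p ∈ Irr r ∧ 0 ≤ latE p}} ≤ gf {p | p ∈ Irr r ∧ 0 ≤ latE p} := by
    have := gf_le_of_inj (P := {p | p.map not ∈ {p | p ∈ Irr r ∧ 0 ≤ latE p}})
      (Q := {p | p ∈ Irr r ∧ 0 ≤ latE p}) (fun t => t.map not) (fun t ht => ht) (by
      intro s _ t _ hst
      have := congrArg (List.map not) hst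
      rwa [map_not_not, map_not_not] at this) 1 (by
      intro t _
      rw [one_mul, wE_map_not])
    rwa [one_mul] at this
  calc kap' r = gf (Irr r) := rfl
    _ ≤ _ := gf_mono h1
    _ ≤ _ := gf_union_le _ _
    _ ≤ _ := add_le_add le_rfl h2
    _ = _ := (two_mul _).symm

lemma kap_eq (r : ℕ) : kap' r = ENNReal.ofReal (kk r) := by
  unfold kk
  rw [ENNReal.ofReal_toReal]
  refine ne_top_of_le_ne_top (TH7.BT_fin r) ?_
  unfold kap'
  rw [← gf_Brd]
  exact gf_mono (fun t ht => ht.1)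

lemma kap_tail {c T : ℕ} (hc : c ≤ T) :
    ∑' r : ℕ, (if T ≤ c + r then kap' r else 0) = ENNReal.ofReal (KK' (T - c)) := by
  have h1 : ∑' r : ℕ, (if T ≤ c + r then kap' r else 0) = ∑' r : ℕ, kap' (r + (T - c)) := by
    rw [← Summable.sum_add_tsum_nat_add' (k := T - c) (f := fun r => if T ≤ c + r then kap' r else 0)
      ENNReal.summable]
    have h2 : ∑ r ∈ range (T - c), (if T ≤ c + r then kap' r else 0) = 0 := by
      apply Finset.sum_eq_zero
      intro j hj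
      rw [Finset.mem_range] at hj
      rw [if_neg (by omega)]
    rw [h2, zero_add]
    apply tsum_congr
    intro r
    rw [if_pos (by omega)]
  rw [h1]
  have h3 : ∑' r : ℕ, kap' (r + (T - c)) = ENNReal.ofReal (∑' r : ℕ, kk (r + (T - c))) := by
    rw [ENNReal.ofReal_tsum_of_nonneg (fun r => kk_nonneg _) ((summable_nat_add_iff (T - c)).2 summable_kk)]
    apply tsum_congr
    intro r
    exact kap_eq _
  rw [h3]
  congr 1
  unfold KK'
  have h4 := summable_kk.sum_add_tsum_nat_add (T - c)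
  rw [tsum_kk] at h4
  linarith

/-- the end point of the walk is far away on the right with a positive probability -/
theorem spread (A : ℕ) : ∃ (a : ℝ) (T0 : ℕ), 0 < a ∧ 1 ≤ T0 ∧ ∀ T : ℕ, T0 ≤ T →
    ENNReal.ofReal a ≤ gf {t | t ∈ FCW T ∧ (A * T : ℤ) ≤ latE t} := by
  obtain ⟨K, hK, hU⟩ := UU_ratio_inv (1 / 2) (by norm_num)
  obtain ⟨a, M, ha, hbox⟩ := Ex.SPR_box (A * (K + 1))
  refine ⟨a / 4, K + 1, by positivity, by omega, fun T hT => ?_⟩
  obtain ⟨s, hs⟩ : ∃ s, s = T / (K + 1) := ⟨_, rfl⟩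
  have hs1 : 1 ≤ s := by
    rw [hs]
    exact (Nat.one_le_div_iff (by omega)).2 hT
  have hsT : (K + 1) * s ≤ T := by
    rw [hs]
    exact Nat.mul_div_le T (K + 1)
  have hTs : T < (K + 1) * (s + 1) := by
    rw [hs]
    exact Nat.lt_mul_div_succ T (by omega)
  have hKs : (K - 1) * s + s ≤ T - 1 := by
    have e : (K + 1) * s = (K - 1) * s + 2 * s := by
      rw [← Nat.add_mul]
      congr 1
      omega
    omega
  -- the words
  let W : ℕ × ℕ → Set (List Bool) := fun x => {t | ∃ g p, (g ∈ Brd x.1 ∧ (A * T : ℤ) ≤ latE g) ∧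
    (p ∈ Irr x.2 ∧ 0 ≤ latE p) ∧ x.1 < T ∧ T ≤ x.1 + x.2 ∧ t = g ++ p}
  have hW : (⋃ x, W x) ⊆ {t | t ∈ FCW T ∧ (A * T : ℤ) ≤ latE t} := by
    intro t ht
    rw [Set.mem_iUnion] at ht
    obtain ⟨⟨c, r⟩, g, p, ⟨hg, hgl⟩, ⟨hp, hpl⟩, h1, h2, rfl⟩ := ht
    refine ⟨⟨c + r, mem_FC h1 h2 hg hp⟩, ?_⟩
    rw [latE_cat (mem_Brd.1 hg).2.2.1]
    linarith
  have hdisj : ∀ x y, ∀ t, t ∈ W x → t ∈ W y → x = y := by
    rintro ⟨c, r⟩ ⟨c', r'⟩ t ⟨g, p, ⟨hg, _⟩, ⟨hp, _⟩, h1, h2, h3⟩ ⟨g', p', ⟨hg', _⟩, ⟨hp', _⟩, h1', h2', h3'⟩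
    simp only at hg hp h1 h2 hg' hp' h1' h2'
    have h4 : g ++ p ++ [] = g' ++ p' ++ [] := by
      rw [List.append_nil, List.append_nil, ← h3, ← h3']
    obtain ⟨h5, h6, -⟩ := jump_unique (s := T - 1) (by omega) (by omega) (by omega) (by omega) hg hp nil_mem_Brd
      hg' hp' nil_mem_Brd h4
    rw [h5] at hg
    rw [h6] at hp
    exact Prod.ext (Brd_height hg hg') (Brd_height hp.1 hp'.1)
  have hWx : ∀ c r : ℕ, c < T → gf {g | g ∈ Brd c ∧ (A * T : ℤ) ≤ latE g} *
      (if T ≤ c + r then gf {p | p ∈ Irr r ∧ 0 ≤ latE p} else 0) ≤ gf (W (c, r)) := by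
    intro c r hc
    by_cases hr : T ≤ c + r
    · rw [if_pos hr]
      refine mul_le_gf (fun g hg p hp => ⟨g, p, hg, hp, hc, hr, rfl⟩) fun g hg p hp g' hg' p' hp' h => ?_
      exact (cut_unique hg.1 hg'.1 hp.1.1 hp'.1.1 h).1
    · rw [if_neg hr, mul_zero]
      exact zero_le
  -- lower bounds
  have hsum : ∀ c ∈ Finset.Ico (s + 1) T, ENNReal.ofReal (a / 2 * (uu c * KK' (T - c))) ≤
      ∑' r : ℕ, gf (W (c, r)) := by
    intro c hc
    rw [Finset.mem_Ico] at hc
    have h1 : ENNReal.ofReal (a * uu c) ≤ gf {g | g ∈ Brd c ∧ (A * T : ℤ) ≤ latE g} := by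
      refine (hbox c (by omega)).trans (gf_mono ?_)
      rintro g ⟨hg, hl, -⟩
      refine ⟨hg, le_trans ?_ hl⟩
      have h2 : A * T ≤ A * (K + 1) * c := by
        rw [Nat.mul_assoc]
        apply Nat.mul_le_mul_left
        calc T ≤ (K + 1) * (s + 1) := hTs.le
          _ ≤ (K + 1) * c := Nat.mul_le_mul_left _ hc.1
      exact_mod_cast h2
    have h2 : ENNReal.ofReal (KK' (T - c) / 2) ≤
        ∑' r : ℕ, (if T ≤ c + r then gf {p | p ∈ Irr r ∧ 0 ≤ latE p} else 0) := by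
      have h3 : ENNReal.ofReal (KK' (T - c)) ≤
          2 * ∑' r : ℕ, (if T ≤ c + r then gf {p | p ∈ Irr r ∧ 0 ≤ latE p} else 0) := by
        rw [← kap_tail (by omega : c ≤ T), ← ENNReal.tsum_mul_left]
        apply ENNReal.tsum_le_tsum
        intro r
        by_cases hr : T ≤ c + r
        · rw [if_pos hr, if_pos hr]
          exact irr_half r
        · rw [if_neg hr, if_neg hr, mul_zero]
      have h4 : ENNReal.ofReal (KK' (T - c)) = 2 * ENNReal.ofReal (KK' (T - c) / 2) := by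
        rw [show (2 : ℝ≥0∞) = ENNReal.ofReal 2 by simp, ← ENNReal.ofReal_mul (by norm_num)]
        congr 1
        ring
      rw [h4] at h3
      exact (ENNReal.mul_le_mul_iff_right (by norm_num) (by norm_num)).1 h3
    calc ENNReal.ofReal (a / 2 * (uu c * KK' (T - c))) = ENNReal.ofReal (a * uu c) * ENNReal.ofReal (KK' (T - c) / 2) := by
          rw [← ENNReal.ofReal_mul (mul_nonneg ha.le (uu_pos c).le)]
          congr 1
          ring
      _ ≤ _ := mul_le_mul' h1 h2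
      _ = ∑' r : ℕ, gf {g | g ∈ Brd c ∧ (A * T : ℤ) ≤ latE g} *
          (if T ≤ c + r then gf {p | p ∈ Irr r ∧ 0 ≤ latE p} else 0) := ENNReal.tsum_mul_left.symm
      _ ≤ _ := ENNReal.tsum_le_tsum fun r => hWx c r hc.2
  have hnum : 1 / 2 ≤ ∑ c ∈ Finset.Ico (s + 1) T, uu c * KK' (T - c) := by
    have h1 := KK_renewal (T - 1)
    have h2 : T - 1 + 1 = T := by omega
    rw [h2] at h1
    have h3 := no_cut (s := s) (S := T - 1) (by omega)
    rw [h2] at h3
    have h4 : UU s / UU (T - 1 - s) ≤ 1 / 2 := by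
      refine le_trans ?_ (hU s hs1)
      have h5 : UU ((K - 1) * s) ≤ UU (T - 1 - s) := by
        unfold UU
        apply Finset.sum_le_sum_of_subset_of_nonneg
        · exact Finset.range_subset_range.2 (by omega)
        · intro i _ _
          exact (uu_pos i).le
      have h6 : 0 < UU ((K - 1) * s) := by
        unfold UU
        exact Finset.sum_pos (fun i _ => uu_pos i) ⟨0, by simp⟩
      have h7 : 0 ≤ UU s := TH7.UU_nonneg s
      exact div_le_div_of_nonneg_left h7 h6 h5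
    have h5 := Finset.sum_range_add_sum_Ico (fun c => uu c * KK' (T - c)) (show s + 1 ≤ T by omega)
    linarith
  calc ENNReal.ofReal (a / 4) ≤ ENNReal.ofReal (∑ c ∈ Finset.Ico (s + 1) T, a / 2 * (uu c * KK' (T - c))) := by
        apply ENNReal.ofReal_le_ofReal
        rw [← Finset.mul_sum]
        nlinarith
    _ = ∑ c ∈ Finset.Ico (s + 1) T, ENNReal.ofReal (a / 2 * (uu c * KK' (T - c))) :=
        ENNReal.ofReal_sum_of_nonneg fun c _ => mul_nonneg (by positivity)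
          (mul_nonneg (uu_pos c).le (KK_nonneg _))
    _ ≤ ∑ c ∈ Finset.Ico (s + 1) T, ∑' r : ℕ, gf (W (c, r)) := Finset.sum_le_sum hsum
    _ ≤ ∑' c : ℕ, ∑' r : ℕ, gf (W (c, r)) := ENNReal.sum_le_tsum _
    _ = ∑' x : ℕ × ℕ, gf (W x) := (ENNReal.tsum_prod (f := fun c r => gf (W (c, r)))).symm
    _ = gf (⋃ x, W x) := (K1.gf_iUnion W hdisj).symm
    _ ≤ _ := gf_mono hW

end Touch

end HexObs
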